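import Pool.Agent.H262R4.TM.Defs2
import Pool.Agent.H442R2.KF.Amp2

/-!
TM project (helper262), task AMP: the sparse amplification argument (adapted from
`Pool.Agent.H442R2.KF.Amp2`, helper519).
-/

namespace Pool.Agent.H262R4.TM

open Finset
open Pool.Agent.H442R2.KF (e kf tau Wei FF Ker2 PL)
open Pool.Agent.H442R2.KF.TaskJ
open Pool.Agent.H442R2.KF.TaskTJ (f2 g2 Off2 Dia2 off_eq2 Ker_eq2)

namespace TAMP

/-- the norms, restricted to multiples of `q` -/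
noncomputable def wq (q : ℕ) (ψ : ℕ → ℝ → ℂ) (k : ℤ) (J n m : ℕ) : ℝ :=
  if q ∣ m then ‖FF ψ k J n m‖ else 0

lemma wq_nonneg (q : ℕ) (ψ : ℕ → ℝ → ℂ) (k : ℤ) (J n m : ℕ) : 0 ≤ wq q ψ k J n m := by
  unfold wq
  split_ifs
  · exact norm_nonneg _
  · exact le_rfl

lemma norm_f2 (q : ℕ) (ψ : ℕ → ℝ → ℂ) (k : ℤ) (J : ℕ) {α : ℕ → ℂ}
    (hα : ∀ m, ‖α m‖ ≤ 1) (hq : ∀ m, ¬ q ∣ m → α m = 0) (n m : ℕ) :
    ‖f2 ψ k J α n m‖ ≤ wq q ψ k J n m := by
  unfold f2 wq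
  split_ifs with h
  · rw [norm_mul]
    exact mul_le_of_le_one_left (norm_nonneg _) (hα m)
  · rw [hq m h, zero_mul, norm_zero]

/-- the sum of the norms -/
noncomputable def SN (M q : ℕ) (ψ : ℕ → ℝ → ℂ) (k : ℤ) (J n : ℕ) : ℝ :=
  ∑ m ∈ (Ioc M (2 * M + 1)).filter (fun m => Nat.Coprime m n), wq q ψ k J n m

/-- the sum of the squares of the norms -/
noncomputable def DN (M q : ℕ) (ψ : ℕ → ℝ → ℂ) (k : ℤ) (J n : ℕ) : ℝ :=
  ∑ m ∈ (Ioc M (2 * M + 1)).filter (fun m => Nat.Coprime m n), wq q ψ k J n m ^ 2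

lemma SN_nonneg (M q : ℕ) (ψ : ℕ → ℝ → ℂ) (k : ℤ) (J n : ℕ) : 0 ≤ SN M q ψ k J n :=
  Finset.sum_nonneg (fun _ _ => wq_nonneg _ _ _ _ _ _)

lemma DN_nonneg (M q : ℕ) (ψ : ℕ → ℝ → ℂ) (k : ℤ) (J n : ℕ) : 0 ≤ DN M q ψ k J n :=
  Finset.sum_nonneg (fun _ _ => by positivity)

lemma DN_eq (M q : ℕ) (ψ : ℕ → ℝ → ℂ) (k : ℤ) (J n : ℕ) : DN M q ψ k J n =
    ∑ m ∈ (Ioc M (2 * M + 1)).filter (fun m => Nat.Coprime m n ∧ q ∣ m),
      ‖FF ψ k J n m‖ ^ 2 := by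
  unfold DN
  rw [← Finset.filter_filter, Finset.sum_filter (p := fun m => q ∣ m)]
  refine Finset.sum_congr rfl (fun m _ => ?_)
  unfold wq
  split_ifs
  · rfl
  · norm_num

/-- the number of multiples of `q` -/
lemma card_mult (M q : ℕ) (hq : 1 ≤ q) (hqM : q ≤ M) :
    (((Ioc M (2 * M + 1)).filter (fun m => q ∣ m)).card : ℝ) ≤ 3 * M / q := by
  have h1 : ((Ioc M (2 * M + 1)).filter (fun m => q ∣ m)).card ≤
      (2 * M + 1) / q - M / q := by
    have h2 : (Ioc M (2 * M + 1)).filter (fun m => q ∣ m) ⊆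
        (Ioc (M / q) ((2 * M + 1) / q)).image (fun c => q * c) := by
      intro m hm
      obtain ⟨hm1, c, rfl⟩ := mem_filter.mp hm
      have hm2 := mem_Ioc.mp hm1
      refine mem_image.mpr ⟨c, mem_Ioc.mpr ⟨?_, ?_⟩, rfl⟩
      · rw [Nat.div_lt_iff_lt_mul (by omega), mul_comm]
        exact hm2.1
      · rw [Nat.le_div_iff_mul_le (by omega), mul_comm]
        exact hm2.2
    refine (Finset.card_le_card h2).trans (Finset.card_image_le.trans ?_)
    rw [Nat.card_Ioc]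
  have h3 : q * ((2 * M + 1) / q) ≤ 2 * M + 1 := Nat.mul_div_le _ _
  have h4 : M < q * (M / q) + q := by
    have h5 := Nat.div_add_mod M q
    have h6 := Nat.mod_lt M (show 0 < q by omega)
    omega
  have h7 : q * ((2 * M + 1) / q - M / q) ≤ 3 * M := by
    rw [Nat.mul_sub]
    omega
  have h8 : ((Ioc M (2 * M + 1)).filter (fun m => q ∣ m)).card * q ≤ 3 * M := by
    calc _ ≤ ((2 * M + 1) / q - M / q) * q := Nat.mul_le_mul_right q h1
      _ = q * ((2 * M + 1) / q - M / q) := mul_comm _ _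
      _ ≤ _ := h7
  have hq0 : (0 : ℝ) < q := by exact_mod_cast (show 0 < q by omega)
  rw [le_div_iff₀ hq0]
  exact_mod_cast h8

lemma SN_sq (M q : ℕ) (hq : 1 ≤ q) (hqM : q ≤ M) (ψ : ℕ → ℝ → ℂ) (k : ℤ) (J n : ℕ) :
    SN M q ψ k J n ^ 2 ≤ (3 * M / q) * DN M q ψ k J n := by
  have h0 : SN M q ψ k J n = ∑ m ∈ ((Ioc M (2 * M + 1)).filter (fun m => Nat.Coprime m n)).filter
      (fun m => q ∣ m), ‖FF ψ k J n m‖ := by
    unfold SN
    rw [Finset.sum_filter (p := fun m => q ∣ m)]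
    exact Finset.sum_congr rfl (fun m _ => rfl)
  have h0' : DN M q ψ k J n = ∑ m ∈ ((Ioc M (2 * M + 1)).filter
      (fun m => Nat.Coprime m n)).filter (fun m => q ∣ m), ‖FF ψ k J n m‖ ^ 2 := by
    rw [DN_eq, Finset.filter_filter]
  have h1 := sq_sum_le_card_mul_sum_sq
    (s := ((Ioc M (2 * M + 1)).filter (fun m => Nat.Coprime m n)).filter
      (fun m => q ∣ m)) (f := fun m => ‖FF ψ k J n m‖)
  rw [h0, h0']
  refine h1.trans ?_
  refine mul_le_mul_of_nonneg_right ?_ (Finset.sum_nonneg (fun _ _ => by positivity))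
  refine le_trans ?_ (card_mult M q hq hqM)
  have h2 : ((Ioc M (2 * M + 1)).filter (fun m => Nat.Coprime m n)).filter (fun m => q ∣ m) ⊆
      (Ioc M (2 * M + 1)).filter (fun m => q ∣ m) := by
    intro m hm
    rw [mem_filter, mem_filter] at hm
    exact mem_filter.mpr ⟨hm.1.1, hm.2⟩
  exact_mod_cast Finset.card_le_card h2

/-- the remainder of the amplification -/
lemma rem_bound2 (M L κ J q : ℕ) (hκ : 2 * M + 1 < (L + 1) ^ κ)
    (ψ : ℕ → ℝ → ℂ) (k : ℤ) (α : ℕ → ℂ) (hα : ∀ m, ‖α m‖ ≤ 1)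
    (hαq : ∀ m, ¬ q ∣ m → α m = 0) {n : ℕ}
    (hn : n ∈ Ioc M (2 * M + 1)) :
    ‖((PL L).card : ℂ) * (∑ m ∈ (Ioc M (2 * M + 1)).filter (fun m => Nat.Coprime m n),
      f2 ψ k J α n m) - ∑ x ∈ TT M L n, f2 ψ k J α n x.2‖ ≤ 2 * κ * SN M q ψ k J n := by
  set X := ∑ m ∈ (Ioc M (2 * M + 1)).filter (fun m => Nat.Coprime m n), f2 ψ k J α n m with hX
  have hXn : ‖X‖ ≤ SN M q ψ k J n := by
    rw [hX]
    refine (norm_sum_le _ _).trans ?_
    exact Finset.sum_le_sum (fun m _ => norm_f2 q ψ k J hα hαq n m)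
  have e1 : ((PL L).card : ℂ) * X = ∑ l ∈ (PL L).filter (fun l => l ∣ n), X +
      ∑ l ∈ (PL L).filter (fun l => ¬ l ∣ n), X := by
    rw [Finset.sum_filter_add_sum_filter_not]
    simp
  have e2 : ∀ l, X = ∑ m ∈ ((Ioc M (2 * M + 1)).filter (fun m => Nat.Coprime m n)).filter
        (fun m => l ∣ m), f2 ψ k J α n m +
      ∑ m ∈ ((Ioc M (2 * M + 1)).filter (fun m => Nat.Coprime m n)).filter
        (fun m => ¬ l ∣ m), f2 ψ k J α n m := by
    intro l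
    rw [Finset.sum_filter_add_sum_filter_not]
  have e3 : ∑ x ∈ TT M L n, f2 ψ k J α n x.2 = ∑ l ∈ (PL L).filter (fun l => ¬ l ∣ n),
      ∑ m ∈ ((Ioc M (2 * M + 1)).filter (fun m => Nat.Coprime m n)).filter
        (fun m => ¬ l ∣ m), f2 ψ k J α n m := by
    unfold TT
    rw [Finset.sum_filter, Finset.sum_product, Finset.sum_filter]
    refine Finset.sum_congr rfl (fun l _ => ?_)
    by_cases hl : l ∣ n
    · simp [hl]
    · simp only [hl, not_false_eq_true, true_and, if_true]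
      rw [Finset.filter_filter, Finset.sum_filter]
  have e4 : ∑ l ∈ (PL L).filter (fun l => ¬ l ∣ n), X =
      ∑ l ∈ (PL L).filter (fun l => ¬ l ∣ n),
        ∑ m ∈ ((Ioc M (2 * M + 1)).filter (fun m => Nat.Coprime m n)).filter
        (fun m => l ∣ m), f2 ψ k J α n m + ∑ x ∈ TT M L n, f2 ψ k J α n x.2 := by
    rw [e3, ← Finset.sum_add_distrib]
    exact Finset.sum_congr rfl (fun l _ => e2 l)
  rw [e1, e4]
  have e5 : ∑ l ∈ (PL L).filter (fun l => l ∣ n), X +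
      (∑ l ∈ (PL L).filter (fun l => ¬ l ∣ n),
        ∑ m ∈ ((Ioc M (2 * M + 1)).filter (fun m => Nat.Coprime m n)).filter
        (fun m => l ∣ m), f2 ψ k J α n m + ∑ x ∈ TT M L n, f2 ψ k J α n x.2) -
      ∑ x ∈ TT M L n, f2 ψ k J α n x.2 = ∑ l ∈ (PL L).filter (fun l => l ∣ n), X +
      ∑ l ∈ (PL L).filter (fun l => ¬ l ∣ n),
        ∑ m ∈ ((Ioc M (2 * M + 1)).filter (fun m => Nat.Coprime m n)).filter
        (fun m => l ∣ m), f2 ψ k J α n m := by ring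
  rw [e5]
  have hn' := mem_Ioc.mp hn
  have b1 : ‖∑ l ∈ (PL L).filter (fun l => l ∣ n), X‖ ≤ κ * SN M q ψ k J n := by
    rw [Finset.sum_const, nsmul_eq_mul, norm_mul, Complex.norm_natCast]
    refine mul_le_mul ?_ hXn (norm_nonneg _) (by positivity)
    exact_mod_cast count_primes M L κ n hκ (by omega) hn'.2
  have b2 : ‖∑ l ∈ (PL L).filter (fun l => ¬ l ∣ n),
        ∑ m ∈ ((Ioc M (2 * M + 1)).filter (fun m => Nat.Coprime m n)).filter
        (fun m => l ∣ m), f2 ψ k J α n m‖ ≤ κ * SN M q ψ k J n := by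
    refine (norm_sum_le _ _).trans ?_
    calc ∑ l ∈ (PL L).filter (fun l => ¬ l ∣ n),
          ‖∑ m ∈ ((Ioc M (2 * M + 1)).filter (fun m => Nat.Coprime m n)).filter
            (fun m => l ∣ m), f2 ψ k J α n m‖
        ≤ ∑ l ∈ (PL L).filter (fun l => ¬ l ∣ n),
          ∑ m ∈ ((Ioc M (2 * M + 1)).filter (fun m => Nat.Coprime m n)).filter
            (fun m => l ∣ m), wq q ψ k J n m := by
          refine Finset.sum_le_sum (fun l _ => ?_)
          refine (norm_sum_le _ _).trans ?_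
          exact Finset.sum_le_sum (fun m _ => norm_f2 q ψ k J hα hαq n m)
      _ ≤ ∑ l ∈ PL L, ∑ m ∈ ((Ioc M (2 * M + 1)).filter (fun m => Nat.Coprime m n)).filter
            (fun m => l ∣ m), wq q ψ k J n m := by
          refine Finset.sum_le_sum_of_subset_of_nonneg (Finset.filter_subset _ _) ?_
          intro _ _ _
          exact Finset.sum_nonneg (fun _ _ => wq_nonneg _ _ _ _ _ _)
      _ = ∑ m ∈ (Ioc M (2 * M + 1)).filter (fun m => Nat.Coprime m n),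
            ∑ l ∈ (PL L).filter (fun l => l ∣ m), wq q ψ k J n m := by
          refine Finset.sum_comm' (fun l m => ?_)
          rw [mem_filter, mem_filter (s := PL L)]
          exact ⟨fun h => ⟨⟨h.1, h.2.2⟩, h.2.1⟩, fun h => ⟨h.1.1, h.2, h.1.2⟩⟩
      _ ≤ ∑ m ∈ (Ioc M (2 * M + 1)).filter (fun m => Nat.Coprime m n), κ * wq q ψ k J n m := by
          refine Finset.sum_le_sum (fun m hm => ?_)
          have hm' := mem_Ioc.mp (mem_filter.mp hm).1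
          have := count_primes M L κ m hκ (by omega) hm'.2
          rw [Finset.sum_const, nsmul_eq_mul]
          refine mul_le_mul_of_nonneg_right ?_ (wq_nonneg _ _ _ _ _ _)
          exact_mod_cast this
      _ = κ * SN M q ψ k J n := by
          rw [← Finset.mul_sum]
          rfl
  refine (norm_add_le _ _).trans ((add_le_add b1 b2).trans (le_of_eq ?_))
  ring

lemma dia_bound2 (M L J q : ℕ) (ψ : ℕ → ℝ → ℂ) (k : ℤ) (α : ℕ → ℂ) (hα : ∀ m, ‖α m‖ ≤ 1)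
    (hαq : ∀ m, ¬ q ∣ m → α m = 0) {n : ℕ}
    (hn : n ∈ Ioc M (2 * M + 1)) : ‖Dia2 M L J k ψ α n‖ ≤ (PL L).card * DN M q ψ k J n := by
  unfold Dia2
  refine (norm_sum_le _ _).trans ?_
  calc ∑ x ∈ TT M L n, ‖∑ y ∈ ((TT M L n).filter (fun y => cc n y = cc n x)).filter
          (fun y => ¬ x.1 ≠ y.1), f2 ψ k J α n x.2 * (starRingEnd ℂ) (f2 ψ k J α n y.2)‖
      ≤ ∑ x ∈ TT M L n, wq q ψ k J n x.2 ^ 2 := by
        refine Finset.sum_le_sum (fun x hx => ?_)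
        have hx' := mem_TT hx
        have hsub : ((TT M L n).filter (fun y => cc n y = cc n x)).filter
            (fun y => ¬ x.1 ≠ y.1) ⊆ {x} := by
          intro y hy
          rw [mem_filter, mem_filter] at hy
          obtain ⟨⟨hy1, hy2⟩, hy3⟩ := hy
          push Not at hy3
          have hy' := mem_TT hy1
          have hp : x.1.Prime := by
            have := hx'.1; unfold PL at this; exact (mem_filter.mp this).2
          have hp' : y.1.Prime := by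
            have := hy'.1; unfold PL at this; exact (mem_filter.mp this).2
          have h3 := (cc_iff (m₁ := x.2) (m₂ := y.2) hp hp' hx'.2.2.1 hy'.2.2.1).mp hy2
          rw [← hy3, ← mul_sub] at h3
          have hcop : IsCoprime (n : ℤ) (x.1 : ℤ) := by
            rw [Nat.isCoprime_iff_coprime]
            exact ((Nat.Prime.coprime_iff_not_dvd hp).mpr hx'.2.2.1).symm
          have h4 : (n : ℤ) ∣ (x.2 : ℤ) - y.2 := hcop.dvd_of_dvd_mul_left h3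
          have h5 : (x.2 : ℤ) - y.2 = 0 := by
            apply Int.eq_zero_of_abs_lt_dvd h4
            have a1 := mem_Ioc.mp hx'.2.1
            have a2 := mem_Ioc.mp hy'.2.1
            have a3 := mem_Ioc.mp hn
            rw [abs_lt]
            constructor <;> omega
          rw [mem_singleton]
          refine Prod.ext hy3.symm ?_
          omega
        refine (norm_sum_le _ _).trans ?_
        calc ∑ y ∈ ((TT M L n).filter (fun y => cc n y = cc n x)).filter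
                (fun y => ¬ x.1 ≠ y.1), ‖f2 ψ k J α n x.2 * (starRingEnd ℂ) (f2 ψ k J α n y.2)‖
            ≤ ∑ y ∈ ({x} : Finset (ℕ × ℕ)),
                ‖f2 ψ k J α n x.2 * (starRingEnd ℂ) (f2 ψ k J α n y.2)‖ :=
              Finset.sum_le_sum_of_subset_of_nonneg hsub (fun _ _ _ => norm_nonneg _)
          _ ≤ wq q ψ k J n x.2 ^ 2 := by
              rw [Finset.sum_singleton, norm_mul, RCLike.norm_conj, sq]
              have := norm_f2 q ψ k J hα hαq n x.2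
              exact mul_le_mul this this (norm_nonneg _) (wq_nonneg _ _ _ _ _ _)
    _ ≤ ∑ x ∈ PL L ×ˢ (Ioc M (2 * M + 1)).filter (fun m => Nat.Coprime m n),
          wq q ψ k J n x.2 ^ 2 := by
        refine Finset.sum_le_sum_of_subset_of_nonneg ?_ (fun _ _ _ => by positivity)
        intro x hx
        have hx' := mem_TT hx
        rw [mem_product, mem_filter]
        exact ⟨hx'.1, hx'.2.1, hx'.2.2.2.1⟩
    _ = (PL L).card * DN M q ψ k J n := by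
        rw [Finset.sum_product]
        simp only [sum_const, nsmul_eq_mul]
        rfl

lemma off_total2 (M L J q : ℕ) (hq : 1 ≤ q) (hqM : q ≤ M) (k : ℤ) (ψ : ℕ → ℝ → ℂ) (α : ℕ → ℂ) (hα : ∀ m, ‖α m‖ ≤ 1)
    (hαq : ∀ m, ¬ q ∣ m → α m = 0) :
    ‖∑ n ∈ Ioc M (2 * M + 1), Off2 M L J k ψ α n‖ ≤ (3 * M / q) *
        Real.sqrt (∑ m₁ ∈ Ioc M (2 * M + 1), ∑ m₂ ∈ Ioc M (2 * M + 1),
          ‖Ker2 ψ k M L J m₁ m₂‖ ^ 2) := by
  have h1 : ∑ n ∈ Ioc M (2 * M + 1), Off2 M L J k ψ α n =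
      ∑ m₁ ∈ Ioc M (2 * M + 1), ∑ m₂ ∈ Ioc M (2 * M + 1),
        α m₁ * (starRingEnd ℂ) (α m₂) * Ker2 ψ k M L J m₁ m₂ := by
    simp_rw [off_eq2]
    rw [Finset.sum_comm]
    refine Finset.sum_congr rfl (fun m₁ hm₁ => ?_)
    rw [Finset.sum_comm]
    refine Finset.sum_congr rfl (fun m₂ hm₂ => ?_)
    rw [← Finset.mul_sum, Ker_eq2 M L J k ψ hm₁ hm₂, Finset.sum_comm]
    congr 1
    refine Finset.sum_congr rfl (fun l₁ _ => ?_)
    rw [Finset.sum_comm]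
  rw [h1]
  set I := Ioc M (2 * M + 1) with hI
  set Q := I.filter (fun m => q ∣ m) with hQ
  have h2 : ‖∑ m₁ ∈ I, ∑ m₂ ∈ I, α m₁ * (starRingEnd ℂ) (α m₂) * Ker2 ψ k M L J m₁ m₂‖ ≤
      ∑ x ∈ Q ×ˢ Q, ‖Ker2 ψ k M L J x.1 x.2‖ := by
    rw [Finset.sum_product, hQ, Finset.sum_filter]
    refine (norm_sum_le _ _).trans (Finset.sum_le_sum (fun m₁ _ => ?_))
    by_cases hm₁ : q ∣ m₁
    · rw [if_pos hm₁, Finset.sum_filter]
      refine (norm_sum_le _ _).trans (Finset.sum_le_sum (fun m₂ _ => ?_))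
      by_cases hm₂ : q ∣ m₂
      · rw [if_pos hm₂, norm_mul, norm_mul, RCLike.norm_conj]
        have : ‖α m₁‖ * ‖α m₂‖ ≤ 1 := by
          calc ‖α m₁‖ * ‖α m₂‖ ≤ 1 * 1 := mul_le_mul (hα _) (hα _) (norm_nonneg _) zero_le_one
            _ = 1 := one_mul 1
        calc ‖α m₁‖ * ‖α m₂‖ * ‖Ker2 ψ k M L J m₁ m₂‖ ≤ 1 * ‖Ker2 ψ k M L J m₁ m₂‖ :=
              mul_le_mul_of_nonneg_right this (norm_nonneg _)
          _ = _ := one_mul _
      · rw [if_neg hm₂, hαq m₂ hm₂, map_zero, mul_zero, zero_mul, norm_zero]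
    · rw [if_neg hm₁]
      refine le_of_eq ?_
      rw [norm_eq_zero]
      refine Finset.sum_eq_zero (fun m₂ _ => ?_)
      rw [hαq m₁ hm₁, zero_mul, zero_mul]
  refine h2.trans ?_
  have h3 := sq_sum_le_card_mul_sum_sq (s := Q ×ˢ Q) (f := fun x => ‖Ker2 ψ k M L J x.1 x.2‖)
  have hc0 : (0 : ℝ) ≤ 3 * M / q := by positivity
  have h4 : ((Q ×ˢ Q).card : ℝ) ≤ (3 * M / q) ^ 2 := by
    rw [Finset.card_product]
    push_cast
    rw [sq]
    have := card_mult M q hq hqM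
    exact mul_le_mul this this (by positivity) hc0
  have h5 : ∑ x ∈ Q ×ˢ Q, ‖Ker2 ψ k M L J x.1 x.2‖ ^ 2 ≤
      ∑ m₁ ∈ I, ∑ m₂ ∈ I, ‖Ker2 ψ k M L J m₁ m₂‖ ^ 2 := by
    rw [← Finset.sum_product' (f := fun m₁ m₂ => ‖Ker2 ψ k M L J m₁ m₂‖ ^ 2)]
    refine Finset.sum_le_sum_of_subset_of_nonneg ?_ (fun _ _ _ => by positivity)
    exact Finset.product_subset_product (Finset.filter_subset _ _) (Finset.filter_subset _ _)
  have h7 : (∑ x ∈ Q ×ˢ Q, ‖Ker2 ψ k M L J x.1 x.2‖) ^ 2 ≤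
      (3 * M / q) ^ 2 * ∑ m₁ ∈ I, ∑ m₂ ∈ I, ‖Ker2 ψ k M L J m₁ m₂‖ ^ 2 := by
    refine h3.trans ?_
    exact mul_le_mul h4 h5 (Finset.sum_nonneg (fun _ _ => by positivity)) (by positivity)
  have h6 : 0 ≤ ∑ x ∈ Q ×ˢ Q, ‖Ker2 ψ k M L J x.1 x.2‖ :=
    Finset.sum_nonneg (fun _ _ => norm_nonneg _)
  calc ∑ x ∈ Q ×ˢ Q, ‖Ker2 ψ k M L J x.1 x.2‖
      = Real.sqrt ((∑ x ∈ Q ×ˢ Q, ‖Ker2 ψ k M L J x.1 x.2‖) ^ 2) := (Real.sqrt_sq h6).symm
    _ ≤ Real.sqrt ((3 * M / q) ^ 2 * ∑ m₁ ∈ I, ∑ m₂ ∈ I, ‖Ker2 ψ k M L J m₁ m₂‖ ^ 2) :=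
        Real.sqrt_le_sqrt h7
    _ = _ := by
        rw [Real.sqrt_mul (by positivity), Real.sqrt_sq hc0]

end TAMP

open TAMP in
/-- AMP -/
theorem t_AMP : P_AMP := by
  intro M L J κ q hM hL hq hqM hκ V ψ hψ k α hα hαq
  set I := Ioc M (2 * M + 1) with hI
  -- one `n`
  have hone : ∀ n ∈ I, ∃ R : ℝ, 0 ≤ R ∧ Off2 M L J k ψ α n + Dia2 M L J k ψ α n = (R : ℂ) ∧
      ‖∑ x ∈ TT M L n, f2 ψ k J α n x.2‖ ^ 2 ≤ (2 * M + 1) * R := by
    intro n hn
    have hn' := mem_Ioc.mp hn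
    have : NeZero n := ⟨by omega⟩
    obtain ⟨R, hR0, hR1, hR2⟩ := cs_fib (TT M L n) (cc n) (fun x => f2 ψ k J α n x.2)
    refine ⟨R, hR0, ?_, ?_⟩
    · rw [← hR1]
      unfold Off2 Dia2
      rw [← Finset.sum_add_distrib]
      refine Finset.sum_congr rfl (fun x _ => ?_)
      rw [Finset.sum_filter_add_sum_filter_not]
    · refine hR2.trans ?_
      refine mul_le_mul_of_nonneg_right ?_ hR0
      rw [ZMod.card]
      exact_mod_cast hn'.2
  choose! R hR0 hR1 hR2 using hone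
  have hX : ∀ n ∈ I, ((PL L).card : ℝ) ^ 2 *
      ‖∑ m ∈ I.filter (fun m => Nat.Coprime m n), α m * FF ψ k J n m‖ ^ 2 ≤
      2 * ((2 * M + 1) * R n) + 8 * (κ : ℝ) ^ 2 * ((3 * M / q) * DN M q ψ k J n) := by
    intro n hn
    have hrem := rem_bound2 M L κ J q hκ ψ k α hα hαq hn
    set X := ∑ m ∈ I.filter (fun m => Nat.Coprime m n), f2 ψ k J α n m with hXd
    have hXe : ∑ m ∈ I.filter (fun m => Nat.Coprime m n), α m * FF ψ k J n m = X := rfl
    rw [hXe]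
    set B := ∑ x ∈ TT M L n, f2 ψ k J α n x.2 with hB
    have h1 : ((PL L).card : ℝ) * ‖X‖ ≤ ‖B‖ + 2 * κ * SN M q ψ k J n := by
      have h2 : ((PL L).card : ℝ) * ‖X‖ = ‖((PL L).card : ℂ) * X‖ := by
        rw [norm_mul, Complex.norm_natCast]
      rw [h2]
      have h3 : ((PL L).card : ℂ) * X = B + (((PL L).card : ℂ) * X - B) := by ring
      rw [h3]
      exact (norm_add_le _ _).trans (add_le_add le_rfl hrem)
    have h4 : 0 ≤ ((PL L).card : ℝ) * ‖X‖ := by positivity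
    have h5 : (((PL L).card : ℝ) * ‖X‖) ^ 2 ≤ (‖B‖ + 2 * κ * SN M q ψ k J n) ^ 2 :=
      pow_le_pow_left₀ h4 h1 2
    have h6 := hR2 n hn
    have h7 : (‖B‖ + 2 * κ * SN M q ψ k J n) ^ 2 ≤ 2 * ‖B‖ ^ 2 + 2 * (2 * κ * SN M q ψ k J n) ^ 2 := by
      nlinarith [sq_nonneg (‖B‖ - 2 * κ * SN M q ψ k J n)]
    have h8 := SN_sq M q hq hqM ψ k J n
    have h9 : 8 * (κ : ℝ) ^ 2 * SN M q ψ k J n ^ 2 ≤
        8 * (κ : ℝ) ^ 2 * ((3 * M / q) * DN M q ψ k J n) :=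
      mul_le_mul_of_nonneg_left h8 (by positivity)
    have h10 : (((PL L).card : ℝ) * ‖X‖) ^ 2 = ((PL L).card : ℝ) ^ 2 * ‖X‖ ^ 2 := by ring
    have h11 : 2 * (2 * κ * SN M q ψ k J n) ^ 2 = 8 * (κ : ℝ) ^ 2 * SN M q ψ k J n ^ 2 := by ring
    linarith
  have hDG : ∑ n ∈ I, DN M q ψ k J n = DGq ψ k M J q := by
    unfold DGq
    exact Finset.sum_congr rfl (fun n _ => DN_eq M q ψ k J n)
  have hsum : ∑ n ∈ I, R n ≤ (PL L).card * DGq ψ k M J q + (3 * M / q) *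
        Real.sqrt (∑ m₁ ∈ I, ∑ m₂ ∈ I, ‖Ker2 ψ k M L J m₁ m₂‖ ^ 2) := by
    have h1 : ((∑ n ∈ I, R n : ℝ) : ℂ) =
        ∑ n ∈ I, Off2 M L J k ψ α n + ∑ n ∈ I, Dia2 M L J k ψ α n := by
      push_cast
      rw [← Finset.sum_add_distrib]
      exact Finset.sum_congr rfl (fun n hn => (hR1 n hn).symm)
    have h2 : ∑ n ∈ I, R n = ‖((∑ n ∈ I, R n : ℝ) : ℂ)‖ := by
      rw [Complex.norm_real, Real.norm_eq_abs, abs_of_nonneg]
      exact Finset.sum_nonneg (fun n hn => hR0 n hn)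
    rw [h2, h1]
    have h3 : ‖∑ n ∈ I, Dia2 M L J k ψ α n‖ ≤ (PL L).card * DGq ψ k M J q := by
      refine (norm_sum_le _ _).trans ?_
      calc ∑ n ∈ I, ‖Dia2 M L J k ψ α n‖ ≤ ∑ n ∈ I, (PL L).card * DN M q ψ k J n :=
            Finset.sum_le_sum (fun n hn => dia_bound2 M L J q ψ k α hα hαq hn)
        _ = (PL L).card * DGq ψ k M J q := by
            rw [← Finset.mul_sum, hDG]
    have h4 := off_total2 M L J q hq hqM k ψ α hα hαq
    rw [← hI] at h4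
    refine (norm_add_le _ _).trans ?_
    linarith
  calc ((PL L).card : ℝ) ^ 2 * ∑ n ∈ I,
        ‖∑ m ∈ I.filter (fun m => Nat.Coprime m n), α m * FF ψ k J n m‖ ^ 2
      = ∑ n ∈ I, ((PL L).card : ℝ) ^ 2 *
        ‖∑ m ∈ I.filter (fun m => Nat.Coprime m n), α m * FF ψ k J n m‖ ^ 2 := by
        rw [Finset.mul_sum]
    _ ≤ ∑ n ∈ I, (2 * ((2 * M + 1) * R n) + 8 * (κ : ℝ) ^ 2 * ((3 * M / q) * DN M q ψ k J n)) :=
        Finset.sum_le_sum hX
    _ = 2 * (2 * M + 1) * ∑ n ∈ I, R n + 8 * (κ : ℝ) ^ 2 * (3 * M / q) * DGq ψ k M J q := by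
        rw [Finset.sum_add_distrib, ← Finset.mul_sum, ← Finset.mul_sum, ← Finset.mul_sum,
          ← Finset.mul_sum, hDG]
        ring
    _ ≤ _ := by
        have h0 : (0 : ℝ) ≤ 2 * (2 * M + 1) := by positivity
        have := mul_le_mul_of_nonneg_left hsum h0
        linarith


end Pool.Agent.H262R4.TM
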