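import Pool.Agent.H262R4.TM.COPb

set_option autoImplicit false

namespace Pool.Agent.H262R4.TM

open Finset Filter Topology MeasureTheory Complex
open Pool.Agent.H306R2.SM (om cl ef Xf Gf Yf ee)
open Pool.Agent.H442R2.KF (kf tau)

namespace TCOP

/-- the algebra of the final estimate -/
theorem finish (M X : ℂ) (R Y l mn P : ℝ) (D G : ℂ) (E1 E2 E3 : ℝ)
    (hX : X = ((1 / Y * mn : ℝ) : ℂ) + ((1 / l : ℝ) : ℂ) * (D + G))
    (hRl : R / l = P) (hP : 0 ≤ P) (hP1 : P ≤ 1) (c : ℝ)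
    (h1 : ‖M - (R : ℂ) * X‖ ≤ E1) (h2 : |R * (1 / Y * mn) - P * c| ≤ E2) (h3 : ‖G‖ ≤ E3) :
    ‖M - ((P * c : ℝ) : ℂ) - (P : ℂ) * D‖ ≤ E1 + E2 + E3 := by
  have e1 : M - ((P * c : ℝ) : ℂ) - (P : ℂ) * D = (M - (R : ℂ) * X) +
      ((R * (1 / Y * mn) - P * c : ℝ) : ℂ) + (P : ℂ) * G := by
    have e2 : (P : ℂ) = (R : ℂ) * ((1 / l : ℝ) : ℂ) := by
      rw [← hRl]; push_cast; ring
    rw [hX, Complex.ofReal_sub, Complex.ofReal_mul R]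
    have e3 : (P : ℂ) * D = (R : ℂ) * (((1 / l : ℝ) : ℂ) * D) := by rw [e2]; ring
    have e4 : (P : ℂ) * G = (R : ℂ) * (((1 / l : ℝ) : ℂ) * G) := by rw [e2]; ring
    rw [e3, e4]; ring
  rw [e1]
  refine (norm_add_le _ _).trans ?_
  have a1 := norm_add_le (M - (R : ℂ) * X) ((R * (1 / Y * mn) - P * c : ℝ) : ℂ)
  rw [Complex.norm_real, Real.norm_eq_abs] at a1
  have a2 : ‖(P : ℂ) * G‖ ≤ E3 := by
    rw [norm_mul, Complex.norm_real, Real.norm_of_nonneg hP]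
    have := norm_nonneg G
    nlinarith
  linarith

theorem bnd (C L : ℝ) (A k : ℕ) (hC : 0 ≤ C) (hk : (k : ℝ) ≤ 4 * L ^ 2) :
    C * (k : ℝ) ^ A ≤ C * (4 * L ^ 2) ^ A := by
  gcongr

end TCOP

open TCOP in
theorem t_COP (h1 : P_TW) (h2 : P_DUAL) (h3 : P_V2) (h4 : P_KER) : P_COP := by
  obtain ⟨C1, A1, hC1, hV⟩ := h3
  obtain ⟨C4, A4, k0, hC4, hKr⟩ := h4 10 (by norm_num)
  obtain ⟨Z, hZdef⟩ : ∃ Z : ℝ, Z = ∑' m, q m := ⟨_, rfl⟩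
  have hZ : 0 ≤ Z := hZdef ▸ tsum_nonneg q_nonneg
  unfold P_COP
  filter_upwards [h1, logs (2 * Real.pi) 1 (1 / 15) (by norm_num),
    logs (3 * C1) A1 (1 / 30) (by norm_num), logs (6 * C4 * Z) A4 (1 / 30) (by norm_num),
    logs 2 0 (1 / 15) (by norm_num),
    Real.tendsto_log_atTop.eventually_ge_atTop (max (k0 : ℝ) 3), eventually_ge_atTop 1]
    with T hTW hT1 hT2 hT3 hT4 hT5 hT6
  intro k hk h l hh hl hc hhT hlT
  have hT0 : 0 < T := by linarith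
  have hL3 : (3:ℝ) ≤ Real.log T := (le_max_right _ _).trans hT5
  have hLk : (k0:ℝ) ≤ Real.log T := (le_max_left _ _).trans hT5
  have hLsq : Real.log T ≤ Real.log T ^ 2 := by nlinarith
  have hkr : Real.log T ≤ k := hLsq.trans hk.1
  have hk3 : 3 ≤ k := by
    have : (3:ℝ) ≤ k := hL3.trans hkr
    exact_mod_cast this
  have hkk0 : k0 ≤ k := by
    have : (k0:ℝ) ≤ k := hLk.trans hkr
    exact_mod_cast this
  have hkpos : (0:ℝ) < k := by linarith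
  have hh1 : (1:ℝ) ≤ h := by exact_mod_cast hh
  have hl1 : (1:ℝ) ≤ l := by exact_mod_cast hl
  have hl0 : (0:ℝ) < l := by linarith
  have hh0 : (0:ℝ) < h := by linarith
  -- size of `Y`
  obtain ⟨Y, hYdef⟩ : ∃ Y : ℝ, Y = Yf k T := ⟨_, rfl⟩
  have hYe : Y = T / (2 * Real.pi * k) := hYdef
  have hpi := Real.pi_pos
  have hY0 : 0 < Y := by rw [hYe]; positivity
  have hYge : T ^ (14 / 15 : ℝ) ≤ Y := by
    have a1 : 2 * Real.pi * k ≤ T ^ (1 / 15 : ℝ) := by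
      refine le_trans ?_ hT1
      rw [pow_one]
      have := hk.2
      gcongr
    rw [hYe, le_div_iff₀ (by positivity)]
    calc T ^ (14 / 15 : ℝ) * (2 * Real.pi * k) ≤ T ^ (14 / 15 : ℝ) * T ^ (1 / 15 : ℝ) := by gcongr
      _ = T := by rw [← Real.rpow_add hT0]; norm_num
  have hYl : T ^ (1 / 3 : ℝ) ≤ Y / l := by
    rw [le_div_iff₀ hl0]
    calc T ^ (1 / 3 : ℝ) * l ≤ T ^ (1 / 3 : ℝ) * T ^ (3 / 5 : ℝ) := by gcongr
      _ = T ^ (14 / 15 : ℝ) := by rw [← Real.rpow_add hT0]; norm_num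
      _ ≤ Y := hYge
  have hYl1 : 1 ≤ Y / l := (Real.one_le_rpow hT6 (by norm_num)).trans hYl
  -- the pieces
  have hTT : T ^ (3 / 5 : ℝ) ≤ T := by
    calc T ^ (3 / 5 : ℝ) ≤ T ^ (1 : ℝ) := Real.rpow_le_rpow_of_exponent_le hT6 (by norm_num)
      _ = T := Real.rpow_one T
  have b1 := hTW k hk h l hh hl (hhT.trans hTT) (hlT.trans hTT)
  rw [← hYdef] at b1
  have hH : ∀ b, ∀ y : ℝ, 0 < y → ‖Hk k b y‖ ≤ (C4 * (k : ℝ) ^ A4) * (y ^ 10)⁻¹ := by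
    intro b y hy
    have := (hKr k hkk0 b y hy).1
    rwa [Real.rpow_neg hy.le, show (10:ℝ) = ((10:ℕ):ℝ) by norm_num, Real.rpow_natCast] at this
  obtain ⟨G, hG, hX⟩ := dualX h2 k h l Y (C4 * (k : ℝ) ^ A4) hk3 hh hl hc hY0 (by positivity) hH
  have b2 := mainterm (V2 k) Y h l (Ck k) (C1 * (k : ℝ) ^ A1) hY0 hh1 hl1 hYl1 (by positivity)
    (fun u hu => hV k (by omega) u hu)
  have hRl : Real.sqrt ((l : ℝ) / h) / l = 1 / Real.sqrt (h * l) := by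
    rw [Real.sqrt_div hl0.le, Real.sqrt_mul hh0.le]
    have h1 : Real.sqrt l * Real.sqrt l = l := Real.mul_self_sqrt hl0.le
    have h2 : 0 < Real.sqrt l := Real.sqrt_pos.2 hl0
    have h3 : 0 < Real.sqrt h := Real.sqrt_pos.2 hh0
    rw [div_div, div_eq_div_iff (by positivity) (by positivity)]
    calc Real.sqrt l * (Real.sqrt h * Real.sqrt l) = Real.sqrt h * (Real.sqrt l * Real.sqrt l) := by
          ring
      _ = 1 * (Real.sqrt h * l) := by rw [h1]; ring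
  have hP1 : 1 / Real.sqrt ((h:ℝ) * l) ≤ 1 := by
    rw [div_le_one (Real.sqrt_pos.2 (by positivity))]
    rw [Real.one_le_sqrt]
    nlinarith
  have hfin := finish (Mt k T h l) _ (Real.sqrt ((l : ℝ) / h)) Y l
    (2 * V2 k (Y / l) - V2 k (h * Y / l) / h) (1 / Real.sqrt ((h:ℝ) * l))
    (Du k true 1 h l Y + Du k false (-1) h l Y) G _ _ _ hX hRl (by positivity) hP1
    (Real.log (Y / (h * l)) + Ck k) b1 b2 hG
  rw [← hYdef]
  refine hfin.trans ?_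
  -- numerics
  have c2 : 3 * (C1 * (k : ℝ) ^ A1) * Y ^ (-(1 / 4) : ℝ) ≤ T ^ (-(1 / 5) : ℝ) := by
    have d1 : 3 * (C1 * (k : ℝ) ^ A1) ≤ T ^ (1 / 30 : ℝ) := by
      refine le_trans ?_ hT2
      have := bnd (3 * C1) (Real.log T) A1 k (by positivity) hk.2
      linarith
    have d2 : Y ^ (-(1 / 4) : ℝ) ≤ T ^ (-(7 / 30) : ℝ) := by
      calc Y ^ (-(1 / 4) : ℝ) ≤ (T ^ (14 / 15 : ℝ)) ^ (-(1 / 4) : ℝ) :=
            Real.rpow_le_rpow_of_nonpos (by positivity) hYge (by norm_num)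
        _ = T ^ (-(7 / 30) : ℝ) := by rw [← Real.rpow_mul hT0.le]; norm_num
    calc 3 * (C1 * (k : ℝ) ^ A1) * Y ^ (-(1 / 4) : ℝ) ≤ T ^ (1 / 30 : ℝ) * T ^ (-(7 / 30) : ℝ) :=
          mul_le_mul d1 d2 (by positivity) (by positivity)
      _ = T ^ (-(1 / 5) : ℝ) := by rw [← Real.rpow_add hT0]; norm_num
  have c3 : 6 * (C4 * (k : ℝ) ^ A4 * ((h:ℝ) ^ 2 * ((Y / l) ^ 10)⁻¹)) * ∑' m, q m ≤
      T ^ (-(2 / 3) : ℝ) := by
    rw [← hZdef]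
    have d1 : 6 * C4 * Z * (k : ℝ) ^ A4 ≤ T ^ (1 / 30 : ℝ) :=
      (bnd (6 * C4 * Z) (Real.log T) A4 k (by positivity) hk.2).trans hT3
    have d2 : (h:ℝ) ^ 2 ≤ T ^ (6 / 5 : ℝ) := by
      calc (h:ℝ) ^ 2 ≤ (T ^ (3 / 5 : ℝ)) ^ 2 := by gcongr
        _ = T ^ (6 / 5 : ℝ) := by
          rw [← Real.rpow_natCast, ← Real.rpow_mul hT0.le]; norm_num
    have d3 : ((Y / l) ^ 10)⁻¹ ≤ T ^ (-(10 / 3) : ℝ) := by
      calc ((Y / l) ^ 10)⁻¹ ≤ ((T ^ (1 / 3 : ℝ)) ^ 10)⁻¹ := by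
            apply inv_anti₀ (by positivity)
            gcongr
        _ = T ^ (-(10 / 3) : ℝ) := by
          rw [← Real.rpow_natCast, ← Real.rpow_mul hT0.le, ← Real.rpow_neg hT0.le]; norm_num
    calc 6 * (C4 * (k : ℝ) ^ A4 * ((h:ℝ) ^ 2 * ((Y / l) ^ 10)⁻¹)) * Z
        = (6 * C4 * Z * (k : ℝ) ^ A4) * ((h:ℝ) ^ 2 * ((Y / l) ^ 10)⁻¹) := by ring
      _ ≤ T ^ (1 / 30 : ℝ) * (T ^ (6 / 5 : ℝ) * T ^ (-(10 / 3) : ℝ)) := by
          apply mul_le_mul d1 (mul_le_mul d2 d3 (by positivity) (by positivity)) (by positivity)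
            (by positivity)
      _ = T ^ (-(21 / 10) : ℝ) := by
          rw [← Real.rpow_add hT0, ← Real.rpow_add hT0]; norm_num
      _ ≤ T ^ (-(2 / 3) : ℝ) := Real.rpow_le_rpow_of_exponent_le hT6 (by norm_num)
  have c4 : T ^ (-(2 / 3) : ℝ) + T ^ (-(2 / 3) : ℝ) ≤ T ^ (-(3 / 5) : ℝ) := by
    have d1 : (2:ℝ) ≤ T ^ (1 / 15 : ℝ) := by
      have := hT4
      rwa [pow_zero, mul_one] at this
    calc T ^ (-(2 / 3) : ℝ) + T ^ (-(2 / 3) : ℝ) = 2 * T ^ (-(2 / 3) : ℝ) := by ring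
      _ ≤ T ^ (1 / 15 : ℝ) * T ^ (-(2 / 3) : ℝ) := by gcongr
      _ = T ^ (-(3 / 5) : ℝ) := by rw [← Real.rpow_add hT0]; norm_num
  have c5 : 3 * (C1 * (k : ℝ) ^ A1) * Y ^ (-(1 / 4) : ℝ) *
      ((l:ℝ) ^ (-(1 / 4) : ℝ) * (h:ℝ) ^ (-(1 / 2) : ℝ)) ≤
      T ^ (-(1 / 5) : ℝ) * (l : ℝ) ^ (-(1 / 4) : ℝ) * (h : ℝ) ^ (-(1 / 2) : ℝ) := by
    rw [mul_assoc (T ^ (-(1 / 5) : ℝ))]
    exact mul_le_mul_of_nonneg_right c2 (by positivity)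
  linarith

end Pool.Agent.H262R4.TM
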