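import Pool.Agent.H262R4.TM.Defs
import Pool.Agent.H442R2.KF.Kfb

set_option autoImplicit false

/-!
DUAL: the dual form of `S2` (from the Voronoi formula `P_FE`).
-/

namespace Pool.Agent.H262R4.TM

open Finset Filter Topology MeasureTheory Complex
open Pool.Agent.H306R2.SM (om cl ef Xf Gf Yf ee)
open Pool.Agent.H442R2.KF (kf tau)

noncomputable section

namespace TDUAL

/-- indicator of zero -/
def z0 {h : ℕ} (x : ZMod h) : ℂ := if x = 0 then 1 else 0

section fourier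

variable (h : ℕ) [NeZero h]

theorem sum_char (b : ZMod h) : ∑ x : ZMod h, (ZMod.stdAddChar (x * b) : ℂ) = h * z0 b := by
  have := AddChar.sum_mulShift b (ZMod.isPrimitive_stdAddChar h)
  rw [this]
  unfold z0
  split_ifs <;> simp [ZMod.card]

theorem sum_z0 : ∑ x : ZMod h, z0 x = 1 := by simp [z0]

/-- the function to which the Voronoi formula is applied -/
def Ph (L : ZMod h) (x y : ZMod h) : ℂ :=
  ZMod.stdAddChar (-(L * x * y)) - z0 x - z0 y + 1 / (h : ℂ)

variable {h}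

theorem z0_unit {L : ZMod h} (hL : IsUnit L) (y : ZMod h) : z0 (-(L * y)) = z0 y := by
  unfold z0
  have : (-(L * y) = 0) ↔ y = 0 := by
    rw [neg_eq_zero]
    exact hL.mul_right_eq_zero
  simp only [this]

theorem Ph_symm (L x y : ZMod h) : Ph h L x y = Ph h L y x := by
  unfold Ph
  have : -(L * x * y) = -(L * y * x) := by ring
  rw [this]
  ring

theorem Ph_left {L : ZMod h} (hL : IsUnit L) (y : ZMod h) : ∑ x, Ph h L x y = 0 := by
  have hh : (h : ℂ) ≠ 0 := by exact_mod_cast NeZero.ne h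
  unfold Ph
  rw [Finset.sum_add_distrib, Finset.sum_sub_distrib, Finset.sum_sub_distrib]
  have e1 : ∑ x : ZMod h, (ZMod.stdAddChar (-(L * x * y)) : ℂ) = h * z0 y := by
    rw [← z0_unit hL y, ← sum_char]
    refine Finset.sum_congr rfl fun x _ => ?_
    congr 1
    ring
  rw [e1, sum_z0]
  simp only [Finset.sum_const, Finset.card_univ, ZMod.card, nsmul_eq_mul]
  field_simp
  ring

theorem Ph_Z2 {L : ZMod h} (hL : IsUnit L) : Z2 h (Ph h L) := by
  refine ⟨Ph_left hL, fun x => ?_, fun x y => ?_⟩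
  · rw [← Ph_left hL x]
    exact Finset.sum_congr rfl fun y _ => Ph_symm L x y
  · unfold Ph z0
    have : -(L * -x * -y) = -(L * x * y) := by ring
    rw [this]
    simp only [neg_eq_zero]

theorem Ft_Ph {L : ZMod h} (hL : IsUnit L) (u v : ZMod h) :
    Ft h (Ph h L) u v = h * (ZMod.stdAddChar (u * v * L⁻¹) - z0 v - z0 u + z0 u * z0 v) := by
  have hh : (h : ℂ) ≠ 0 := by exact_mod_cast NeZero.ne h
  unfold Ft
  have e : ∀ x y : ZMod h, Ph h L x y * (ZMod.stdAddChar (u * x + v * y) : ℂ) =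
      ZMod.stdAddChar (u * x) * ZMod.stdAddChar (y * (v - L * x)) -
        z0 x * ZMod.stdAddChar (y * v) - z0 y * ZMod.stdAddChar (x * u) +
        (1 / (h : ℂ)) * (ZMod.stdAddChar (x * u) * ZMod.stdAddChar (y * v)) := by
    intro x y
    unfold Ph
    have e1 : (ZMod.stdAddChar (-(L * x * y)) : ℂ) * ZMod.stdAddChar (u * x + v * y) =
        ZMod.stdAddChar (u * x) * ZMod.stdAddChar (y * (v - L * x)) := by
      rw [← AddChar.map_add_eq_mul, ← AddChar.map_add_eq_mul]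
      congr 1
      ring
    have e2 : z0 x * (ZMod.stdAddChar (u * x + v * y) : ℂ) = z0 x * ZMod.stdAddChar (y * v) := by
      unfold z0
      by_cases hx : x = 0
      · subst hx
        rw [mul_zero, zero_add, mul_comm v y]
      · simp [hx]
    have e3 : z0 y * (ZMod.stdAddChar (u * x + v * y) : ℂ) = z0 y * ZMod.stdAddChar (x * u) := by
      unfold z0
      by_cases hy : y = 0
      · subst hy
        rw [mul_zero, add_zero, mul_comm u x]
      · simp [hy]
    have e4 : (ZMod.stdAddChar (u * x + v * y) : ℂ) =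
        ZMod.stdAddChar (x * u) * ZMod.stdAddChar (y * v) := by
      rw [← AddChar.map_add_eq_mul, mul_comm u x, mul_comm v y]
    rw [add_mul, sub_mul, sub_mul, e1, e2, e3, e4]
  simp only [e, Finset.sum_add_distrib, Finset.sum_sub_distrib]
  have s1 : ∑ x : ZMod h, ∑ y : ZMod h, (ZMod.stdAddChar (u * x) : ℂ) *
      ZMod.stdAddChar (y * (v - L * x)) = h * ZMod.stdAddChar (u * v * L⁻¹) := by
    simp only [← Finset.mul_sum, sum_char]
    rw [Finset.sum_eq_single (L⁻¹ * v)]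
    · have e5 : v - L * (L⁻¹ * v) = 0 := by
        rw [← mul_assoc, ZMod.mul_inv_of_unit _ hL, one_mul, sub_self]
      rw [e5]
      have e6 : u * (L⁻¹ * v) = u * v * L⁻¹ := by ring
      rw [e6]
      simp [z0]
      ring
    · intro x _ hx
      have e5 : v - L * x ≠ 0 := by
        intro h1
        apply hx
        have h2 : v = L * x := sub_eq_zero.1 h1
        rw [h2, ← mul_assoc, ZMod.inv_mul_of_unit _ hL, one_mul]
      simp [z0, e5]
    · intro h1
      exact absurd (Finset.mem_univ _) h1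
  have s2 : ∑ x : ZMod h, ∑ y : ZMod h, z0 x * (ZMod.stdAddChar (y * v) : ℂ) = h * z0 v := by
    simp only [← Finset.mul_sum, sum_char, ← Finset.sum_mul, sum_z0, one_mul]
  have s3 : ∑ x : ZMod h, ∑ y : ZMod h, z0 y * (ZMod.stdAddChar (x * u) : ℂ) = h * z0 u := by
    simp only [← Finset.sum_mul, sum_z0, one_mul, sum_char]
  have s4 : ∑ x : ZMod h, ∑ y : ZMod h, (1 / (h : ℂ)) * ((ZMod.stdAddChar (x * u) : ℂ) *
      ZMod.stdAddChar (y * v)) = h * (z0 u * z0 v) := by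
    simp only [← Finset.mul_sum, sum_char, ← Finset.sum_mul]
    field_simp
  rw [s1, s2, s3, s4]
  ring

end fourier

/-! ### the coefficients -/

/-- number of divisors which are multiples of `h` -/
def cc (h n : ℕ) : ℂ := ∑ i ∈ n.divisors, (if h ∣ i then (1 : ℂ) else 0)

theorem F2_Ph (h : ℕ) [NeZero h] (l n : ℕ) :
    F2 h (Ph h (l : ZMod h)) n = (tau n : ℂ) * ee h (-((n : ℤ) * l)) - 2 * cc h n +
      (1 / (h : ℂ)) * tau n := by
  unfold F2
  have e : ∀ x ∈ n.divisorsAntidiagonal, Ph h (l : ZMod h) (x.1 : ZMod h) (x.2 : ZMod h) =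
      (ee h (-((n : ℤ) * l)) + 1 / (h : ℂ)) - (if h ∣ x.1 then (1 : ℂ) else 0) -
        (if h ∣ x.2 then (1 : ℂ) else 0) := by
    intro x hx
    rw [Nat.mem_divisorsAntidiagonal] at hx
    unfold Ph z0
    have e1 : -((l : ZMod h) * x.1 * x.2) = ((-((n : ℤ) * l) : ℤ) : ZMod h) := by
      rw [← hx.1]
      push_cast
      ring
    rw [e1, ZMod.stdAddChar_coe]
    simp only [ZMod.natCast_eq_zero_iff]
    unfold ee
    rw [mul_div_assoc]
    ring
  rw [Finset.sum_congr rfl e, Finset.sum_sub_distrib, Finset.sum_sub_distrib,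
    Nat.sum_divisorsAntidiagonal (fun _ _ => ee h (-((n : ℤ) * l)) + 1 / (h : ℂ)),
    Nat.sum_divisorsAntidiagonal (fun a _ => if h ∣ a then (1 : ℂ) else 0),
    Nat.sum_divisorsAntidiagonal' (fun _ b => if h ∣ b then (1 : ℂ) else 0)]
  unfold cc tau
  rw [Finset.sum_const, nsmul_eq_mul]
  push_cast
  ring

theorem cc_mul (h n : ℕ) (hh : 0 < h) : cc h (h * n) = (tau n : ℂ) := by
  unfold cc tau
  rw [← Finset.sum_filter, Finset.sum_const, nsmul_eq_mul, mul_one]
  have e : (h * n).divisors.filter (fun i => h ∣ i) = n.divisors.image (fun d => h * d) := by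
    ext a
    simp only [Finset.mem_filter, Nat.mem_divisors, Finset.mem_image]
    constructor
    · rintro ⟨⟨h1, h2⟩, d, rfl⟩
      refine ⟨d, ⟨Nat.dvd_of_mul_dvd_mul_left hh h1, ?_⟩, rfl⟩
      rintro rfl
      exact h2 (by simp)
    · rintro ⟨d, ⟨h1, h2⟩, rfl⟩
      exact ⟨⟨Nat.mul_dvd_mul_left h h1, Nat.mul_ne_zero hh.ne' h2⟩, dvd_mul_right h d⟩
  rw [e, Finset.card_image_of_injective _ (fun a b hab => Nat.eq_of_mul_eq_mul_left hh hab)]
  push_cast
  rfl

theorem cc_zero (h n : ℕ) (hn : ¬ h ∣ n) : cc h n = 0 := by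
  unfold cc
  refine Finset.sum_eq_zero fun i hi => ?_
  rw [if_neg]
  intro h1
  exact hn (h1.trans (Nat.dvd_of_mem_divisors hi))

theorem cc_norm (h n : ℕ) : ‖cc h n‖ ≤ tau n := by
  unfold cc tau
  refine (norm_sum_le _ _).trans ?_
  calc ∑ i ∈ n.divisors, ‖(if h ∣ i then (1 : ℂ) else 0)‖ ≤ ∑ _i ∈ n.divisors, (1 : ℝ) := by
        refine Finset.sum_le_sum fun i _ => ?_
        split_ifs <;> simp
    _ = _ := by simp

theorem tau_nonneg (n : ℕ) : 0 ≤ tau n := by unfold tau; positivity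

/-- the weight -/
def ww (k : ℕ) (V : ℝ) (n : ℕ) : ℝ := ((n : ℝ) / V) ^ k * Real.exp (-((n : ℝ) / V))

theorem ww_nonneg (k : ℕ) (V : ℝ) (hV : 0 < V) (n : ℕ) : 0 ≤ ww k V n := by
  unfold ww
  positivity

theorem summ (k : ℕ) (V : ℝ) (hV : 0 < V) : Summable fun n : ℕ => tau n * ww k V n := by
  have h1 := (Real.summable_pow_mul_exp_neg_nat_mul (k + 1) (inv_pos.2 hV)).mul_left (V⁻¹ ^ k)
  refine Summable.of_nonneg_of_le (fun n => mul_nonneg (tau_nonneg n) (ww_nonneg k V hV n))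
    (fun n => ?_) h1
  have h2 : tau n ≤ n := by
    unfold tau
    exact_mod_cast Nat.card_divisors_le_self n
  calc tau n * ww k V n ≤ n * ww k V n := mul_le_mul_of_nonneg_right h2 (ww_nonneg k V hV n)
    _ = V⁻¹ ^ k * ((n : ℝ) ^ (k + 1) * Real.exp (-V⁻¹ * n)) := by
        unfold ww
        have e1 : -((n : ℝ) / V) = -V⁻¹ * n := by ring
        rw [e1, div_eq_mul_inv, mul_pow, pow_succ]
        ring

theorem summC (k : ℕ) (V : ℝ) (hV : 0 < V) (c : ℕ → ℂ) (hc : ∀ n, ‖c n‖ ≤ tau n) :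
    Summable fun n : ℕ => c n * (ww k V n : ℂ) := by
  refine Summable.of_norm_bounded (summ k V hV) fun n => ?_
  rw [norm_mul, Complex.norm_real, Real.norm_eq_abs, abs_of_nonneg (ww_nonneg k V hV n)]
  exact mul_le_mul_of_nonneg_right (hc n) (ww_nonneg k V hV n)

theorem norm_ee (h : ℕ) (a : ℤ) : ‖ee h a‖ = 1 := by
  unfold ee
  have : 2 * (Real.pi : ℂ) * I * ((a : ℂ) / (h : ℂ)) =
      ((2 * Real.pi * ((a : ℝ) / (h : ℝ)) : ℝ) : ℂ) * I := by
    push_cast
    ring
  rw [this]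
  exact Complex.norm_exp_ofReal_mul_I _

theorem V2_eq (k : ℕ) (u : ℝ) :
    ∑' n : ℕ, (tau n : ℂ) * (ww k u n : ℂ) = ((k.factorial : ℝ) * V2 k u : ℝ) := by
  have hk : (k.factorial : ℝ) ≠ 0 := by positivity
  have e1 : (k.factorial : ℝ) * V2 k u = ∑' n : ℕ, tau n * ww k u n := by
    unfold V2 ww
    rw [mul_div_cancel₀ _ hk]
    exact tsum_congr fun n => by ring
  rw [e1, Complex.ofReal_tsum]
  exact tsum_congr fun n => by push_cast; ring

end TDUAL

open TDUAL in
theorem t_DUAL (hFE : P_FE) : P_DUAL := by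
  intro k h l Y hk hh hl hcop hY
  have : NeZero h := ⟨by omega⟩
  have hh0 : (0 : ℝ) < h := by exact_mod_cast hh
  have hl0 : (0 : ℝ) < l := by exact_mod_cast hl
  have hhC : (h : ℂ) ≠ 0 := by exact_mod_cast hh0.ne'
  have hL : IsUnit (l : ZMod h) := (ZMod.isUnit_iff_coprime l h).2 hcop.symm
  have hV : 0 < (h : ℝ) * Y / l := by positivity
  have h1 := hFE k h (Ph h (l : ZMod h)) ((h : ℝ) * Y / l) hk (Ph_Z2 hL) hV
  have hk0 : ((k.factorial : ℝ) : ℂ) ≠ 0 := by
    have : (k.factorial : ℝ) ≠ 0 := by positivity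
    exact_mod_cast this
  -- the sum
  have hA : ∑' n : ℕ, ((tau n : ℂ) * ee h (-((n : ℤ) * l))) * (ww k ((h : ℝ) * Y / l) n : ℂ) =
      S2 k h l Y / ((Y ^ k : ℝ) : ℂ) := by
    have hYk : ((Y ^ k : ℝ) : ℂ) ≠ 0 := by exact_mod_cast (pow_pos hY k).ne'
    rw [eq_div_iff hYk, mul_comm, ← tsum_mul_left]
    unfold S2
    refine tsum_congr fun n => ?_
    have e1 : (n : ℝ) / ((h : ℝ) * Y / l) = (n : ℝ) * l / h / Y := by
      field_simp
    have e2 : ((n : ℝ) * l / h) ^ k = Y ^ k * ((n : ℝ) * l / h / Y) ^ k := by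
      rw [← mul_pow]
      congr 1
      field_simp
    unfold ww
    rw [e1, e2]
    push_cast
    ring
  have hB : ∑' n : ℕ, cc h n * (ww k ((h : ℝ) * Y / l) n : ℂ) =
      ((k.factorial : ℝ) * V2 k (Y / l) : ℝ) := by
    rw [← V2_eq]
    have hinj : Function.Injective (fun n : ℕ => h * n) :=
      fun a b hab => Nat.eq_of_mul_eq_mul_left (by omega) hab
    rw [← hinj.tsum_eq]
    · refine tsum_congr fun n => ?_
      rw [cc_mul h n (by omega)]
      congr 2
      unfold ww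
      have e1 : ((h * n : ℕ) : ℝ) / ((h : ℝ) * Y / l) = (n : ℝ) / (Y / l) := by
        push_cast
        field_simp
      rw [e1]
    · intro n hn
      rw [Function.mem_support] at hn
      by_contra hcon
      apply hn
      rw [cc_zero h n, zero_mul]
      rintro ⟨m, rfl⟩
      exact hcon ⟨m, rfl⟩
  have hval : (∑' n : ℕ, F2 h (Ph h (l : ZMod h)) n *
      ((((n : ℝ) / ((h : ℝ) * Y / l)) ^ k * Real.exp (-((n : ℝ) / ((h : ℝ) * Y / l))) : ℝ) : ℂ)) /
        (k.factorial : ℂ) =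
      S2 k h l Y / (((k.factorial : ℝ) * Y ^ k : ℝ) : ℂ) -
        ((2 * V2 k (Y / l) - V2 k (h * Y / l) / h : ℝ) : ℂ) := by
    have e1 : ∑' n : ℕ, F2 h (Ph h (l : ZMod h)) n *
      ((((n : ℝ) / ((h : ℝ) * Y / l)) ^ k * Real.exp (-((n : ℝ) / ((h : ℝ) * Y / l))) : ℝ) : ℂ) =
      S2 k h l Y / ((Y ^ k : ℝ) : ℂ) - 2 * ((k.factorial : ℝ) * V2 k (Y / l) : ℝ) +
        (1 / (h : ℂ)) * ((k.factorial : ℝ) * V2 k ((h : ℝ) * Y / l) : ℝ) := by
      rw [← hA, ← hB, ← V2_eq, ← tsum_mul_left, ← tsum_mul_left]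
      have sA := summC k ((h : ℝ) * Y / l) hV (fun n => (tau n : ℂ) * ee h (-((n : ℤ) * l)))
        (fun n => by
          rw [norm_mul, norm_ee, mul_one, Complex.norm_real, Real.norm_eq_abs,
            abs_of_nonneg (tau_nonneg n)])
      have sB := summC k ((h : ℝ) * Y / l) hV (cc h) (cc_norm h)
      have sD := summC k ((h : ℝ) * Y / l) hV (fun n => (tau n : ℂ)) (fun n => by
          rw [Complex.norm_real, Real.norm_eq_abs, abs_of_nonneg (tau_nonneg n)])
      have e2 := (sA.sub (sB.mul_left 2)).tsum_add (sD.mul_left (1 / (h : ℂ)))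
      rw [sA.tsum_sub (sB.mul_left 2)] at e2
      rw [← e2]
      refine tsum_congr fun n => ?_
      rw [F2_Ph]
      unfold ww
      ring
    rw [e1]
    have hYk : ((Y ^ k : ℝ) : ℂ) ≠ 0 := by exact_mod_cast (pow_pos hY k).ne'
    have hk1 : (k.factorial : ℂ) ≠ 0 := by exact_mod_cast Nat.factorial_ne_zero k
    push_cast at hYk ⊢
    field_simp
    ring
  rw [hval] at h1
  have hdv : ∀ m : ℕ, z0 ((m : ℕ) : ZMod h) = dv1 h m := by
    intro m
    unfold z0 dv1
    simp only [ZMod.natCast_eq_zero_iff]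
  have hc1 : ∀ m : ℕ × ℕ, Ft h (Ph h (l : ZMod h)) m.1 m.2 = h * cd 1 h l m := by
    intro m
    rw [Ft_Ph hL, hdv, hdv]
    unfold cd
    rw [Pool.Agent.H442R2.KF.kf_eq_char]
    congr 1
    have e1 : ((1 * ((m.1 : ℤ) * m.2) : ℤ) : ZMod h) * (((l : ℕ) : ℤ) : ZMod h)⁻¹ =
        (m.1 : ZMod h) * m.2 * (l : ZMod h)⁻¹ := by
      push_cast
      ring
    rw [e1]
    ring
  have hc2 : ∀ m : ℕ × ℕ, Ft h (Ph h (l : ZMod h)) m.1 (-(m.2 : ZMod h)) = h * cd (-1) h l m := by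
    intro m
    have e0 : z0 (-((m.2 : ℕ) : ZMod h)) = dv1 h m.2 := by
      rw [← hdv]
      unfold z0
      simp only [neg_eq_zero]
    rw [Ft_Ph hL, hdv, e0]
    unfold cd
    rw [Pool.Agent.H442R2.KF.kf_eq_char]
    congr 1
    have e1 : ((-1 * ((m.1 : ℤ) * m.2) : ℤ) : ZMod h) * (((l : ℕ) : ℤ) : ZMod h)⁻¹ =
        (m.1 : ZMod h) * -(m.2 : ZMod h) * (l : ZMod h)⁻¹ := by
      push_cast
      ring
    rw [e1]
    ring
  refine Eq.mp (congrArg (fun f => HasSum f _) (funext fun m => ?_)) h1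
  by_cases hm : m.1 = 0 ∨ m.2 = 0
  · rw [if_pos hm, if_pos hm]
  · rw [if_neg hm, if_neg hm, hc1, hc2]
    have e1 : (m.1 : ℝ) * m.2 * ((h : ℝ) * Y / l) / (h : ℝ) ^ 2 =
        (m.1 : ℝ) * m.2 * Y / ((h : ℝ) * l) := by
      field_simp
    have e2 : (h : ℝ) * Y / l / (h : ℝ) ^ 2 * h = Y / l := by
      field_simp
    rw [e1, ← e2]
    push_cast
    ring

end

end Pool.Agent.H262R4.TM
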