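import Pool.Agent.H262R4.TM.Defs
import Pool.Agent.H84R2.SM_T6B
import Pool.Agent.H405R2.SM_T6A

set_option autoImplicit false

/-!
Task E2a: the two-variable Hurwitz function is entire, of polynomial growth, and has the Dirichlet
coefficients `F2` (adaptation of the three-variable files of helpers 84, 405, 777).
-/

namespace Pool.Agent.H262R4.TM

open Finset Filter Topology MeasureTheory Complex

noncomputable section

namespace TE2a

/-- algebraic identity: with zero sums, a common shift of the values does not matter -/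
lemma shift_sum (h : ℕ) [NeZero h] (Φ : ZMod h → ZMod h → ℂ) (hΦ : Z2 h Φ)
    (R : ZMod h → ℂ) (G : ℂ) :
    ∑ x : ZMod h, ∑ y : ZMod h, Φ x y * ((R x + G) * (R y + G)) =
      ∑ x : ZMod h, ∑ y : ZMod h, Φ x y * (R x * R y) := by
  obtain ⟨h1, h2, _⟩ := hΦ
  have e1 : ∀ A : ZMod h → ℂ, ∑ x : ZMod h, ∑ y : ZMod h, Φ x y * (A x * G) = 0 := by
    intro A
    refine Finset.sum_eq_zero fun x _ => ?_
    rw [← Finset.sum_mul, h2, zero_mul]
  have e2 : ∀ A : ZMod h → ℂ, ∑ x : ZMod h, ∑ y : ZMod h, Φ x y * (G * A y) = 0 := by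
    intro A
    rw [Finset.sum_comm]
    refine Finset.sum_eq_zero fun y _ => ?_
    rw [← Finset.sum_mul, h1, zero_mul]
  have key : ∀ x y : ZMod h, Φ x y * ((R x + G) * (R y + G)) =
      Φ x y * (R x * R y) + Φ x y * ((R x + G) * G) + Φ x y * (G * R y) := by
    intro x y; ring
  simp only [key, Finset.sum_add_distrib]
  rw [e1 (fun x => R x + G), e2 R]
  ring

theorem entire (h : ℕ) [NeZero h] (Φ : ZMod h → ZMod h → ℂ) (hΦ : Z2 h Φ) :
    ∃ g : ℂ → ℂ, Differentiable ℂ g ∧ ∀ s : ℂ, s ≠ 1 → g s = E2 h Φ s := by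
  have hh : (h : ℂ) ≠ 0 := by exact_mod_cast NeZero.ne h
  have hpow : Differentiable ℂ (fun s : ℂ => (h : ℂ) ^ (-(2 * s))) := by
    intro s
    refine DifferentiableAt.const_cpow (by fun_prop) (Or.inl hh)
  refine ⟨E2 h Φ, ?_, fun s _ => rfl⟩
  intro s
  by_cases hs : s = 1
  · subst hs
    set R : ZMod h → ℂ → ℂ := fun x s =>
      HurwitzZeta.hurwitzZeta (ZMod.toAddCircle x) s - 1 / (s - 1) / Gammaℝ s with hR
    have hRd : ∀ x, DifferentiableAt ℂ (R x) 1 := fun x =>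
      HurwitzZeta.differentiableAt_hurwitzZeta_sub_one_div _
    have hEE : E2 h Φ = fun s => (h : ℂ) ^ (-(2 * s)) * ∑ x : ZMod h, ∑ y : ZMod h,
        Φ x y * (R x s * R y s) := by
      funext s
      have h0 := shift_sum h Φ hΦ (fun x => R x s) (1 / (s - 1) / Gammaℝ s)
      simp only [hR, sub_add_cancel] at h0
      simp only [E2, hR]
      rw [h0]
    rw [hEE]
    refine (hpow 1).mul ?_
    refine DifferentiableAt.fun_sum fun x _ => DifferentiableAt.fun_sum fun y _ => ?_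
    exact ((hRd x).mul (hRd y)).const_mul _
  · unfold E2
    refine (hpow s).mul ?_
    refine DifferentiableAt.fun_sum fun x _ => DifferentiableAt.fun_sum fun y _ => ?_
    exact ((HurwitzZeta.differentiableAt_hurwitzZeta _ hs).mul
      (HurwitzZeta.differentiableAt_hurwitzZeta _ hs)).const_mul _

/-- growth in the strip -/
theorem growth (h : ℕ) [NeZero h] (Φ : ZMod h → ZMod h → ℂ) :
    ∃ C : ℝ, ∃ A : ℕ, 0 ≤ C ∧ ∀ s : ℂ, -(1 / 2) ≤ s.re → s.re ≤ 3 → 1 ≤ |s.im| →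
      ‖E2 h Φ s‖ ≤ C * |s.im| ^ A := by
  obtain ⟨C, A, hC⟩ := Pool.Agent.H405R2.SM.hurwitz_growth h
  have hh : (1 : ℝ) ≤ h := by exact_mod_cast NeZero.one_le
  refine ⟨(h : ℝ) ^ (1 : ℝ) * ∑ x : ZMod h, ∑ y : ZMod h, ‖Φ x y‖ * |C| ^ 2,
    2 * A, by positivity, ?_⟩
  intro s h1 h2 h3
  unfold E2
  have hz : ∀ x : ZMod h, ‖HurwitzZeta.hurwitzZeta (ZMod.toAddCircle x) s‖ ≤ |C| * |s.im| ^ A :=
    fun x => (hC x s h1 h2 h3).trans (by gcongr; exact le_abs_self C)
  have e1 : ‖(h : ℂ) ^ (-(2 * s))‖ ≤ (h : ℝ) ^ (1 : ℝ) := by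
    rw [Complex.norm_natCast_cpow_of_pos (NeZero.pos h)]
    apply Real.rpow_le_rpow_of_exponent_le hh
    simp
    linarith
  have e2 : ‖∑ x : ZMod h, ∑ y : ZMod h, Φ x y *
    (HurwitzZeta.hurwitzZeta (ZMod.toAddCircle x) s *
      HurwitzZeta.hurwitzZeta (ZMod.toAddCircle y) s)‖ ≤
      (∑ x : ZMod h, ∑ y : ZMod h, ‖Φ x y‖ * |C| ^ 2) * |s.im| ^ (2 * A) := by
    rw [Finset.sum_mul]
    refine (norm_sum_le _ _).trans (Finset.sum_le_sum fun x _ => ?_)
    rw [Finset.sum_mul]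
    refine (norm_sum_le _ _).trans (Finset.sum_le_sum fun y _ => ?_)
    rw [norm_mul, norm_mul]
    calc ‖Φ x y‖ * (‖HurwitzZeta.hurwitzZeta (ZMod.toAddCircle x) s‖ *
          ‖HurwitzZeta.hurwitzZeta (ZMod.toAddCircle y) s‖)
        ≤ ‖Φ x y‖ * ((|C| * |s.im| ^ A) * (|C| * |s.im| ^ A)) := by
          gcongr <;> exact hz _
      _ = _ := by ring
  rw [norm_mul, mul_assoc]
  exact mul_le_mul e1 e2 (norm_nonneg _) (by positivity)

/-- the Dirichlet series -/
theorem series (h : ℕ) [NeZero h] (Φ : ZMod h → ZMod h → ℂ) (s : ℂ) (hs : 1 < s.re) :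
    LSeriesHasSum (F2 h Φ) s (E2 h Φ s) := by
  classical
  have hh : (h : ℂ) ≠ 0 := by exact_mod_cast NeZero.ne h
  set dl : ZMod h → ℕ → ℂ := fun a n => if (n : ZMod h) = a then (1 : ℂ) else 0 with hdl
  have hsum : ∀ a b : ZMod h, LSeriesHasSum (LSeries.convolution (dl a) (dl b)) s
      (((h : ℂ) ^ (-s) * HurwitzZeta.hurwitzZeta (ZMod.toAddCircle a) s) *
        ((h : ℂ) ^ (-s) * HurwitzZeta.hurwitzZeta (ZMod.toAddCircle b) s)) :=
    fun a b => (Pool.Agent.H84R2.SM.single_series h a s hs).convolution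
      (Pool.Agent.H84R2.SM.single_series h b s hs)
  have hall : LSeriesHasSum (∑ a : ZMod h, ∑ b : ZMod h,
      Φ a b • (LSeries.convolution (dl a) (dl b))) s (∑ a : ZMod h, ∑ b : ZMod h,
      Φ a b * (((h : ℂ) ^ (-s) * HurwitzZeta.hurwitzZeta (ZMod.toAddCircle a) s) *
        ((h : ℂ) ^ (-s) * HurwitzZeta.hurwitzZeta (ZMod.toAddCircle b) s))) := by
    refine LSeriesHasSum.sum fun a _ => LSeriesHasSum.sum fun b _ => ?_
    exact (hsum a b).smul (Φ a b)
  have hval : (∑ a : ZMod h, ∑ b : ZMod h,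
      Φ a b * (((h : ℂ) ^ (-s) * HurwitzZeta.hurwitzZeta (ZMod.toAddCircle a) s) *
        ((h : ℂ) ^ (-s) * HurwitzZeta.hurwitzZeta (ZMod.toAddCircle b) s))) = E2 h Φ s := by
    unfold E2
    have hp : (h : ℂ) ^ (-(2 * s)) = (h : ℂ) ^ (-s) * (h : ℂ) ^ (-s) := by
      rw [← Complex.cpow_add _ _ hh]
      congr 1; ring
    rw [hp, Finset.mul_sum]
    refine Finset.sum_congr rfl fun a _ => ?_
    rw [Finset.mul_sum]
    refine Finset.sum_congr rfl fun b _ => ?_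
    ring
  rw [hval] at hall
  refine (LSeriesHasSum_congr s (E2 h Φ s) ?_).mp hall
  intro n _
  have hconv : ∀ a b : ZMod h, (LSeries.convolution (dl a) (dl b)) n =
      ∑ x ∈ n.divisorsAntidiagonal, dl a x.1 * dl b x.2 := by
    intro a b
    simp only [LSeries.convolution_def]
  have hcomm : (∑ a : ZMod h, ∑ b : ZMod h,
      Φ a b • (LSeries.convolution (dl a) (dl b))) n = ∑ a : ZMod h, ∑ b : ZMod h,
      ∑ x ∈ n.divisorsAntidiagonal, Φ a b * (dl a x.1 * dl b x.2) := by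
    simp only [Finset.sum_apply, Pi.smul_apply, smul_eq_mul, hconv, Finset.mul_sum]
  rw [hcomm]
  unfold F2
  have e2 : ∀ a : ZMod h, (∑ b : ZMod h, ∑ x ∈ n.divisorsAntidiagonal,
      Φ a b * (dl a x.1 * dl b x.2)) =
      ∑ x ∈ n.divisorsAntidiagonal, Φ a (x.2 : ZMod h) * dl a x.1 := by
    intro a
    rw [Finset.sum_comm]
    refine Finset.sum_congr rfl fun x _ => ?_
    simp only [hdl, mul_ite, mul_one, mul_zero, Finset.sum_ite_eq, Finset.mem_univ, if_true]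
  have e3 : (∑ a : ZMod h, ∑ x ∈ n.divisorsAntidiagonal,
      Φ a (x.2 : ZMod h) * dl a x.1) =
      ∑ x ∈ n.divisorsAntidiagonal, Φ (x.1 : ZMod h) (x.2 : ZMod h) := by
    rw [Finset.sum_comm]
    refine Finset.sum_congr rfl fun x _ => ?_
    simp only [hdl, mul_ite, mul_one, mul_zero, Finset.sum_ite_eq, Finset.mem_univ, if_true]
  rw [← e3]
  refine Finset.sum_congr rfl fun a _ => ?_
  rw [← e2]

end TE2a

theorem t_E2a : P_E2a := by
  intro h _ Φ hΦ
  exact ⟨TE2a.entire h Φ hΦ, TE2a.growth h Φ, fun s hs => TE2a.series h Φ s hs⟩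

end

end Pool.Agent.H262R4.TM
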