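import Pool.Agent.H262R4.TM.Defs
import Pool.Agent.H930R2.SM_T6C

/-!
E2b: the functional equation of the two-variable Hurwitz function on the line `Re s = -1/2`.
-/

set_option autoImplicit false
set_option maxHeartbeats 1000000

open Finset Filter Topology Complex

namespace Pool.Agent.H262R4.TM

namespace TE2b

open Pool.Agent.H930R2.T6C (sgz expZeta_hasSum Xs Es hurwitz_left)

noncomputable section

lemma dbl {α : Type} [Fintype α] (Φ : α → α → ℂ) (A : ℕ → α → ℂ) (Z : α → ℂ) (c : ℂ)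
    (hP : ∀ x y : α, HasSum (fun m : ℕ × ℕ => A m.1 x * A m.2 y) (Z x * Z y)) :
    HasSum (fun m : ℕ × ℕ => c * ∑ x, ∑ y, Φ x y * (A m.1 x * A m.2 y))
      (c * ∑ x, ∑ y, Φ x y * (Z x * Z y)) := by
  apply HasSum.mul_left
  apply hasSum_sum
  intro x _
  apply hasSum_sum
  intro y _
  exact (hP x y).mul_left _

lemma dbl0 (f g : ℕ → ℂ) (a b : ℂ) (hf : HasSum f a) (hg : HasSum g b) :
    HasSum (fun m : ℕ × ℕ => f m.1 * g m.2) (a * b) := by
  have h1 : Summable fun n => ‖f n‖ := summable_norm_iff.2 hf.summable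
  have h2 : Summable fun n => ‖g n‖ := summable_norm_iff.2 hg.summable
  have h3 : Summable fun m : ℕ × ℕ => f m.1 * g m.2 := summable_mul_of_summable_norm h1 h2
  exact hf.mul hg h3

/-- the terms of one Hurwitz zeta function -/
def At (h : ℕ) [NeZero h] (w : ℂ) (m : ℕ) (x : ZMod h) : ℂ :=
  ((2 * Real.pi : ℂ) ^ (-w) * Complex.Gamma w) *
    (Es w true * ((ZMod.stdAddChar ((m : ZMod h) * x) : ℂ) / (m : ℂ) ^ w) +
      Es w false * ((ZMod.stdAddChar ((m : ZMod h) * (-x)) : ℂ) / (m : ℂ) ^ w))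

lemma At_hasSum (h : ℕ) [NeZero h] {w : ℂ} (hw : 1 < w.re) (x : ZMod h) :
    HasSum (fun m => At h w m x) (HurwitzZeta.hurwitzZeta (ZMod.toAddCircle x) (1 - w)) := by
  rw [hurwitz_left h w hw x]
  have h1 := expZeta_hasSum h x hw
  have h2 := expZeta_hasSum h (-x) hw
  have h3 := ((h1.mul_left (Es w true)).add (h2.mul_left (Es w false))).mul_left
    ((2 * Real.pi : ℂ) ^ (-w) * Complex.Gamma w)
  have e1 : Xs h w true x = HurwitzZeta.expZeta (ZMod.toAddCircle x) w := by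
    simp [Xs, sgz]
  have e2 : Xs h w false x = HurwitzZeta.expZeta (ZMod.toAddCircle (-x)) w := by
    simp [Xs, sgz]
  rw [e1, e2]
  exact h3

lemma Ft_neg (h : ℕ) [NeZero h] (Φ : ZMod h → ZMod h → ℂ) (hΦ : ∀ x y, Φ (-x) (-y) = Φ x y)
    (u v : ZMod h) : Ft h Φ (-u) (-v) = Ft h Φ u v := by
  unfold Ft
  rw [← Equiv.sum_comp (Equiv.neg (ZMod h))]
  refine Finset.sum_congr rfl fun x _ => ?_
  rw [← Equiv.sum_comp (Equiv.neg (ZMod h))]
  refine Finset.sum_congr rfl fun y _ => ?_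
  simp only [Equiv.neg_apply]
  rw [hΦ]
  have e1 : -u * -x + -v * -y = u * x + v * y := by ring
  rw [e1]

lemma Es_mul (w : ℂ) : Es w true * Es w false = 1 := by
  simp only [Es, if_true, Bool.false_eq_true, if_false]
  rw [← Complex.exp_add]
  have : (-Real.pi * I * w / 2 + Real.pi * I * w / 2 : ℂ) = 0 := by ring
  rw [this, Complex.exp_zero]

lemma Es_sq (w : ℂ) : Es w true ^ 2 + Es w false ^ 2 = 2 * Complex.cos ((Real.pi : ℂ) * w) := by
  simp only [Es, if_true, Bool.false_eq_true, if_false]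
  rw [← Complex.exp_nat_mul, ← Complex.exp_nat_mul, Complex.cos]
  have e1 : ((2 : ℕ) : ℂ) * (-Real.pi * I * w / 2) = -(Real.pi * w) * I := by
    push_cast; ring
  have e2 : ((2 : ℕ) : ℂ) * (Real.pi * I * w / 2) = (Real.pi * w) * I := by
    push_cast; ring
  rw [e1, e2]
  ring

lemma char_sum (h : ℕ) [NeZero h] (Φ : ZMod h → ZMod h → ℂ) (hΦ : ∀ x y, Φ (-x) (-y) = Φ x y)
    (w : ℂ) (m1 m2 : ZMod h) :
    ∑ x, ∑ y, Φ x y * ((Es w true * (ZMod.stdAddChar (m1 * x) : ℂ) +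
        Es w false * (ZMod.stdAddChar (m1 * (-x)) : ℂ)) *
      (Es w true * (ZMod.stdAddChar (m2 * y) : ℂ) +
        Es w false * (ZMod.stdAddChar (m2 * (-y)) : ℂ))) =
      Ft h Φ m1 m2 * (2 * Complex.cos ((Real.pi : ℂ) * w)) + Ft h Φ m1 (-m2) * 2 := by
  have e1 : ∑ x, ∑ y, Φ x y * ((Es w true * (ZMod.stdAddChar (m1 * x) : ℂ) +
        Es w false * (ZMod.stdAddChar (m1 * (-x)) : ℂ)) *
      (Es w true * (ZMod.stdAddChar (m2 * y) : ℂ) +
        Es w false * (ZMod.stdAddChar (m2 * (-y)) : ℂ))) =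
      Es w true ^ 2 * Ft h Φ m1 m2 + Es w true * Es w false * Ft h Φ m1 (-m2) +
        Es w true * Es w false * Ft h Φ (-m1) m2 + Es w false ^ 2 * Ft h Φ (-m1) (-m2) := by
    unfold Ft
    simp only [Finset.mul_sum, ← Finset.sum_add_distrib]
    refine Finset.sum_congr rfl fun x _ => Finset.sum_congr rfl fun y _ => ?_
    have a1 : m1 * (-x) = -m1 * x := by ring
    have a2 : m2 * (-y) = -m2 * y := by ring
    rw [a1, a2, AddChar.map_add_eq_mul, AddChar.map_add_eq_mul, AddChar.map_add_eq_mul,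
      AddChar.map_add_eq_mul]
    ring
  rw [e1, Ft_neg h Φ hΦ m1 m2]
  have e2 : Ft h Φ (-m1) m2 = Ft h Φ m1 (-m2) := by
    have := Ft_neg h Φ hΦ m1 (-m2)
    rw [neg_neg] at this
    exact this
  rw [e2, Es_mul, ← Es_sq]
  ring

end

end TE2b

open TE2b in
theorem t_E2b : P_E2b := by
  intro h _ Φ hΦ τ
  set s : ℂ := -1 / 2 + (τ : ℂ) * I with hs
  set w : ℂ := 1 - s with hw
  have hw32 : w = 3 / 2 - (τ : ℂ) * I := by rw [hw, hs]; ring
  have hwre : w.re = 3 / 2 := by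
    rw [hw32]; simp
  have hw1 : 1 < w.re := by rw [hwre]; norm_num
  have hw0 : w ≠ 0 := by
    intro h0
    rw [h0] at hw1
    norm_num at hw1
  have hsw : s = 1 - w := by rw [hw]; ring
  have hA : ∀ x : ZMod h, HasSum (fun m => TE2b.At h w m x)
      (HurwitzZeta.hurwitzZeta (ZMod.toAddCircle x) (1 - w)) := fun x => At_hasSum h hw1 x
  have hP : ∀ x y : ZMod h, HasSum (fun m : ℕ × ℕ => TE2b.At h w m.1 x * TE2b.At h w m.2 y)
      (HurwitzZeta.hurwitzZeta (ZMod.toAddCircle x) (1 - w) *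
        HurwitzZeta.hurwitzZeta (ZMod.toAddCircle y) (1 - w)) := by
    intro x y
    exact dbl0 (fun m => TE2b.At h w m x) (fun m => TE2b.At h w m y) _ _ (hA x) (hA y)
  have hT : HasSum (fun m : ℕ × ℕ => (h : ℂ) ^ (-(2 * s)) * ∑ x, ∑ y, Φ x y *
      (TE2b.At h w m.1 x * TE2b.At h w m.2 y)) (E2 h Φ s) := by
    have h0 := dbl Φ (TE2b.At h w)
      (fun x => HurwitzZeta.hurwitzZeta (ZMod.toAddCircle x) (1 - w)) ((h : ℂ) ^ (-(2 * s))) hP
    have h1 : E2 h Φ s = (h : ℂ) ^ (-(2 * s)) * ∑ x : ZMod h, ∑ y : ZMod h, Φ x y *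
        (HurwitzZeta.hurwitzZeta (ZMod.toAddCircle x) (1 - w) *
          HurwitzZeta.hurwitzZeta (ZMod.toAddCircle y) (1 - w)) := by
      unfold E2
      rw [← hsw]
    rw [h1]
    exact h0
  refine hT.congr_fun ?_
  rintro ⟨m1, m2⟩
  simp only
  by_cases hm : m1 = 0 ∨ m2 = 0
  · rw [if_pos hm]
    have hz : ∀ x : ZMod h, TE2b.At h w 0 x = 0 := by
      intro x
      simp only [TE2b.At, Nat.cast_zero, Complex.zero_cpow hw0, div_zero, mul_zero, add_zero]
    symm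
    rw [mul_eq_zero]
    right
    refine Finset.sum_eq_zero fun x _ => Finset.sum_eq_zero fun y _ => ?_
    rcases hm with rfl | rfl
    · rw [hz x, zero_mul, mul_zero]
    · rw [hz y, mul_zero, mul_zero]
  · rw [if_neg hm]
    push Not at hm
    have hm1 : (0 : ℝ) < m1 := by exact_mod_cast Nat.pos_of_ne_zero hm.1
    have hm2 : (0 : ℝ) < m2 := by exact_mod_cast Nat.pos_of_ne_zero hm.2
    have e1 : ∑ x, ∑ y, Φ x y * (TE2b.At h w m1 x * TE2b.At h w m2 y) =
        (((2 * Real.pi : ℂ) ^ (-w) * Complex.Gamma w) ^ 2 * ((m1 : ℂ) ^ w)⁻¹ *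
          ((m2 : ℂ) ^ w)⁻¹) *
        ∑ x, ∑ y, Φ x y * ((Pool.Agent.H930R2.T6C.Es w true *
            (ZMod.stdAddChar ((m1 : ZMod h) * x) : ℂ) +
          Pool.Agent.H930R2.T6C.Es w false * (ZMod.stdAddChar ((m1 : ZMod h) * (-x)) : ℂ)) *
        (Pool.Agent.H930R2.T6C.Es w true * (ZMod.stdAddChar ((m2 : ZMod h) * y) : ℂ) +
          Pool.Agent.H930R2.T6C.Es w false * (ZMod.stdAddChar ((m2 : ZMod h) * (-y)) : ℂ))) := by
      simp only [Finset.mul_sum]
      refine Finset.sum_congr rfl fun x _ => Finset.sum_congr rfl fun y _ => ?_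
      simp only [TE2b.At]
      ring
    rw [e1, char_sum h Φ hΦ.even]
    have e2 : (((m1 : ℝ) * m2 : ℝ) : ℂ) ^ (-3 / 2 + (τ : ℂ) * I) =
        ((m1 : ℂ) ^ w)⁻¹ * ((m2 : ℂ) ^ w)⁻¹ := by
      have e3 : (-3 / 2 + (τ : ℂ) * I) = -w := by rw [hw32]; ring
      rw [e3, Complex.ofReal_mul, Complex.mul_cpow_ofReal_nonneg hm1.le hm2.le,
        Complex.cpow_neg, Complex.cpow_neg]
      norm_cast
    have e4 : (2 * (Real.pi : ℂ)) ^ (-(2 * w)) = ((2 * Real.pi : ℂ) ^ (-w)) ^ 2 := by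
      rw [← Complex.cpow_nat_mul]
      congr 1
      push_cast
      ring
    rw [e2, e4]
    ring

end Pool.Agent.H262R4.TM
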