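import Pool.Agent.H262R4.TM.Defs
import Pool.Agent.H777R2.SM_T6D

set_option autoImplicit false

namespace Pool.Agent.H262R4.TM.TKU

open Finset Filter Topology MeasureTheory Complex
open Pool.Agent.H777R2.SM (norm_Gamma_decay Gamma_shift)

/-- one factor of the product -/
theorem fac (x x' y : ℝ) (hx : 0 < x) (hxx : x ≤ x') :
    x * ‖(x' : ℂ) + (y : ℂ) * I‖ ≤ x' * ‖(x : ℂ) + (y : ℂ) * I‖ := by
  have hx' : 0 < x' := lt_of_lt_of_le hx hxx
  have h1 : ‖(x' : ℂ) + (y : ℂ) * I‖ = Real.sqrt (x' ^ 2 + y ^ 2) := Complex.norm_add_mul_I _ _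
  have h2 : ‖(x : ℂ) + (y : ℂ) * I‖ = Real.sqrt (x ^ 2 + y ^ 2) := Complex.norm_add_mul_I _ _
  rw [h1, h2]
  have h3 : x * Real.sqrt (x' ^ 2 + y ^ 2) = Real.sqrt (x ^ 2 * (x' ^ 2 + y ^ 2)) := by
    rw [Real.sqrt_mul (sq_nonneg x), Real.sqrt_sq hx.le]
  have h4 : x' * Real.sqrt (x ^ 2 + y ^ 2) = Real.sqrt (x' ^ 2 * (x ^ 2 + y ^ 2)) := by
    rw [Real.sqrt_mul (sq_nonneg x'), Real.sqrt_sq hx'.le]
  rw [h3, h4]
  apply Real.sqrt_le_sqrt
  have h5 : x ^ 2 ≤ x' ^ 2 := pow_le_pow_left₀ hx.le hxx 2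
  nlinarith [mul_le_mul_of_nonneg_right h5 (sq_nonneg y)]

/-- `|Γ(x+iy)|/Γ(x)` is nondecreasing in `x > 0` -/
theorem mono (x x' y : ℝ) (hx : 0 < x) (hxx : x ≤ x') :
    ‖Complex.Gamma ((x : ℂ) + (y : ℂ) * I)‖ * Real.Gamma x' ≤
      ‖Complex.Gamma ((x' : ℂ) + (y : ℂ) * I)‖ * Real.Gamma x := by
  have hx' : 0 < x' := lt_of_lt_of_le hx hxx
  have l1 := (Complex.GammaSeq_tendsto_Gamma ((x : ℂ) + (y : ℂ) * I)).norm
  have l2 := (Complex.GammaSeq_tendsto_Gamma ((x' : ℂ) + (y : ℂ) * I)).norm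
  have l3 := Real.GammaSeq_tendsto_Gamma x
  have l4 := Real.GammaSeq_tendsto_Gamma x'
  refine le_of_tendsto_of_tendsto (l1.mul l4) (l2.mul l3) ?_
  filter_upwards [eventually_ge_atTop 1] with n hn
  have hn0 : 0 < n := hn
  have hn' : (0 : ℝ) < n := by exact_mod_cast hn0
  have key : ∀ z : ℝ, 0 < z → ‖Complex.GammaSeq ((z : ℂ) + (y : ℂ) * I) n‖ =
      (n : ℝ) ^ z * (n.factorial : ℝ) / ∏ j ∈ Finset.range (n + 1), ‖((z + j : ℝ) : ℂ) + (y : ℂ) * I‖ := by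
    intro z hz
    unfold Complex.GammaSeq
    rw [norm_div, norm_mul, norm_prod, Complex.norm_natCast]
    congr 1
    · congr 1
      rw [Complex.norm_natCast_cpow_of_pos hn0]
      simp
    · refine Finset.prod_congr rfl fun j _ => ?_
      congr 1
      push_cast
      ring
  have hp : ∀ z : ℝ, 0 < z → ∀ j ∈ Finset.range (n + 1), 0 < ‖((z + j : ℝ) : ℂ) + (y : ℂ) * I‖ := by
    intro z hz j _
    have hj : (0 : ℝ) ≤ j := Nat.cast_nonneg j
    rw [norm_pos_iff]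
    intro h
    have : (((z + j : ℝ) : ℂ) + (y : ℂ) * I).re = 0 := by rw [h]; simp
    simp at this
    linarith
  rw [key x hx, key x' hx']
  unfold Real.GammaSeq
  have p1 : 0 < ∏ j ∈ Finset.range (n + 1), ‖((x + j : ℝ) : ℂ) + (y : ℂ) * I‖ :=
    Finset.prod_pos (hp x hx)
  have p2 : 0 < ∏ j ∈ Finset.range (n + 1), ‖((x' + j : ℝ) : ℂ) + (y : ℂ) * I‖ :=
    Finset.prod_pos (hp x' hx')
  have p3 : 0 < ∏ j ∈ Finset.range (n + 1), (x + (j : ℝ)) :=
    Finset.prod_pos fun j _ => by positivity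
  have p4 : 0 < ∏ j ∈ Finset.range (n + 1), (x' + (j : ℝ)) :=
    Finset.prod_pos fun j _ => by positivity
  have hle : (∏ j ∈ Finset.range (n + 1), (x + (j : ℝ))) *
      (∏ j ∈ Finset.range (n + 1), ‖((x' + j : ℝ) : ℂ) + (y : ℂ) * I‖) ≤
      (∏ j ∈ Finset.range (n + 1), (x' + (j : ℝ))) *
      (∏ j ∈ Finset.range (n + 1), ‖((x + j : ℝ) : ℂ) + (y : ℂ) * I‖) := by
    rw [← Finset.prod_mul_distrib, ← Finset.prod_mul_distrib]
    refine Finset.prod_le_prod (fun j _ => by positivity) fun j _ => ?_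
    exact fac (x + j) (x' + j) y (by positivity) (by linarith)
  have q1 : (0 : ℝ) < (n : ℝ) ^ x * (n.factorial : ℝ) := by positivity
  have q2 : (0 : ℝ) < (n : ℝ) ^ x' * (n.factorial : ℝ) := by positivity
  rw [div_mul_div_comm, div_mul_div_comm]
  rw [div_le_div_iff₀ (by positivity) (by positivity)]
  calc _ = ((n : ℝ) ^ x * (n.factorial : ℝ)) * ((n : ℝ) ^ x' * (n.factorial : ℝ)) *
        ((∏ j ∈ Finset.range (n + 1), (x + (j : ℝ))) *
        (∏ j ∈ Finset.range (n + 1), ‖((x' + j : ℝ) : ℂ) + (y : ℂ) * I‖)) := by ring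
    _ ≤ ((n : ℝ) ^ x * (n.factorial : ℝ)) * ((n : ℝ) ^ x' * (n.factorial : ℝ)) *
        ((∏ j ∈ Finset.range (n + 1), (x' + (j : ℝ))) *
        (∏ j ∈ Finset.range (n + 1), ‖((x + j : ℝ) : ℂ) + (y : ℂ) * I‖)) :=
        mul_le_mul_of_nonneg_left hle (by positivity)
    _ = _ := by ring

/-- `|Γ(1/2+iy)|² cosh(πy) = π` -/
theorem half (y : ℝ) :
    ‖Complex.Gamma (((1 / 2 : ℝ) : ℂ) + (y : ℂ) * I)‖ ^ 2 * Real.cosh (Real.pi * y) = Real.pi := by
  have h := Complex.Gamma_mul_Gamma_one_sub (((1 / 2 : ℝ) : ℂ) + (y : ℂ) * I)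
  have h1 : (1 : ℂ) - (((1 / 2 : ℝ) : ℂ) + (y : ℂ) * I) =
      (starRingEnd ℂ) (((1 / 2 : ℝ) : ℂ) + (y : ℂ) * I) := by
    rw [map_add, map_mul, Complex.conj_ofReal, Complex.conj_ofReal, Complex.conj_I]
    push_cast
    ring
  rw [h1, Complex.Gamma_conj, Complex.mul_conj] at h
  have h2 : Complex.sin ((Real.pi : ℂ) * (((1 / 2 : ℝ) : ℂ) + (y : ℂ) * I)) =
      ((Real.cosh (Real.pi * y) : ℝ) : ℂ) := by
    have e : (Real.pi : ℂ) * (((1 / 2 : ℝ) : ℂ) + (y : ℂ) * I) =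
        ((Real.pi * y : ℝ) : ℂ) * I + Real.pi / 2 := by
      push_cast
      ring
    rw [e, Complex.sin_add_pi_div_two, Complex.cos_mul_I, Complex.ofReal_cosh]
  rw [h2, ← Complex.ofReal_div] at h
  have h3 := Complex.ofReal_injective h
  rw [Complex.normSq_eq_norm_sq] at h3
  have hc : 0 < Real.cosh (Real.pi * y) := Real.cosh_pos _
  rw [h3]
  field_simp

/-- the Gamma function on `Re = N + 1/2` -/
theorem shift_half (N : ℕ) (y : ℝ) :
    ‖Complex.Gamma (((N + 1 / 2 : ℝ) : ℂ) + (y : ℂ) * I)‖ ≤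
      (((N : ℝ) + 1) * (1 + |y|)) ^ N *
        ‖Complex.Gamma (((1 / 2 : ℝ) : ℂ) + (y : ℂ) * I)‖ := by
  have h := Gamma_shift (((1 / 2 : ℝ) : ℂ) + (y : ℂ) * I) (by simp) N
  have e : ((N + 1 / 2 : ℝ) : ℂ) + (y : ℂ) * I = ((1 / 2 : ℝ) : ℂ) + (y : ℂ) * I + N := by
    push_cast
    ring
  rw [e, h, norm_mul]
  refine mul_le_mul_of_nonneg_right ?_ (norm_nonneg _)
  rw [norm_prod]
  have h1 : (((N : ℝ) + 1) * (1 + |y|)) ^ N = ∏ _j ∈ range N, (((N : ℝ) + 1) * (1 + |y|)) := by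
    rw [Finset.prod_const, Finset.card_range]
  rw [h1]
  refine Finset.prod_le_prod (fun j _ => norm_nonneg _) fun j hj => ?_
  have hj' : (j : ℝ) + 1 ≤ N := by
    have := Finset.mem_range.1 hj
    exact_mod_cast this
  calc ‖((1 / 2 : ℝ) : ℂ) + (y : ℂ) * I + j‖
      = ‖((1 / 2 + j : ℝ) : ℂ) + (y : ℂ) * I‖ := by
        congr 1; push_cast; ring
    _ ≤ ‖((1 / 2 + j : ℝ) : ℂ)‖ + ‖(y : ℂ) * I‖ := norm_add_le _ _
    _ = (1 / 2 + j) + |y| := by
        rw [Complex.norm_real, norm_mul, Complex.norm_I, Complex.norm_real, mul_one,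
          Real.norm_of_nonneg (by positivity), Real.norm_eq_abs]
    _ ≤ ((N : ℝ) + 1) * (1 + |y|) := by
        have h0 : (0 : ℝ) ≤ N := Nat.cast_nonneg N
        have hy := abs_nonneg y
        nlinarith [mul_nonneg h0 hy]

/-- the uniform bound of the square times cosh -/
theorem sq_bound (c1 c2 : ℝ) (h1 : 0 < c1) (h12 : c1 ≤ c2) :
    ∃ (C : ℝ) (N : ℕ), 0 < C ∧ ∀ c : ℝ, c1 ≤ c → c ≤ c2 → ∀ y : ℝ,
      ‖Complex.Gamma ((c : ℂ) + (y : ℂ) * I)‖ ^ 2 * Real.cosh (Real.pi * y) ≤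
        C * (1 + |y|) ^ (2 * N) := by
  obtain ⟨N, hN⟩ := exists_nat_ge c2
  have hcont : ContinuousOn Real.Gamma (Set.Icc c1 c2) := by
    intro x hx
    refine (Real.differentiableAt_Gamma fun m => ?_).continuousAt.continuousWithinAt
    have : 0 < x := lt_of_lt_of_le h1 hx.1
    have hm : (0 : ℝ) ≤ m := Nat.cast_nonneg m
    intro h
    linarith
  obtain ⟨G, hG⟩ := isCompact_Icc.exists_bound_of_continuousOn hcont
  have hNh : (0 : ℝ) < (N : ℝ) + 1 / 2 := by positivity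
  have hgN : 0 < Real.Gamma ((N : ℝ) + 1 / 2) := Real.Gamma_pos_of_pos hNh
  set G' : ℝ := max G 1 with hG'
  have hG'0 : 0 < G' := lt_of_lt_of_le one_pos (le_max_right _ _)
  set g : ℝ := Real.Gamma ((N : ℝ) + 1 / 2) with hg
  refine ⟨(G' / g) ^ 2 * (((N : ℝ) + 1) ^ (2 * N)) * Real.pi, N, by positivity,
    fun c hc1 hc2 y => ?_⟩
  have hc0 : 0 < c := lt_of_lt_of_le h1 hc1
  have hm := mono c (N + 1 / 2) y hc0 (by linarith)
  have hGc : Real.Gamma c ≤ G' := by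
    have := hG c ⟨hc1, hc2⟩
    rw [Real.norm_of_nonneg (Real.Gamma_pos_of_pos hc0).le] at this
    exact this.trans (le_max_left _ _)
  have hs := shift_half N y
  set u : ℝ := ‖Complex.Gamma (((1 / 2 : ℝ) : ℂ) + (y : ℂ) * I)‖ with hu
  have hu0 : 0 ≤ u := norm_nonneg _
  have h2 : ‖Complex.Gamma ((c : ℂ) + (y : ℂ) * I)‖ ≤
      G' / g * ((((N : ℝ) + 1) * (1 + |y|)) ^ N * u) := by
    rw [div_mul_eq_mul_div, le_div_iff₀ hgN]
    calc ‖Complex.Gamma ((c : ℂ) + (y : ℂ) * I)‖ * g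
        ≤ ‖Complex.Gamma (((N + 1 / 2 : ℝ) : ℂ) + (y : ℂ) * I)‖ * Real.Gamma c := hm
      _ ≤ ((((N : ℝ) + 1) * (1 + |y|)) ^ N * u) * G' := by
        refine mul_le_mul hs hGc (Real.Gamma_pos_of_pos hc0).le (by positivity)
      _ = _ := by ring
  have hcosh : 0 < Real.cosh (Real.pi * y) := Real.cosh_pos _
  have hhalf := half y
  rw [← hu] at hhalf
  calc ‖Complex.Gamma ((c : ℂ) + (y : ℂ) * I)‖ ^ 2 * Real.cosh (Real.pi * y)
      ≤ (G' / g * ((((N : ℝ) + 1) * (1 + |y|)) ^ N * u)) ^ 2 * Real.cosh (Real.pi * y) := by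
        refine mul_le_mul_of_nonneg_right ?_ hcosh.le
        exact pow_le_pow_left₀ (norm_nonneg _) h2 2
    _ = (G' / g) ^ 2 * ((((N : ℝ) + 1) * (1 + |y|)) ^ N) ^ 2 *
        (u ^ 2 * Real.cosh (Real.pi * y)) := by ring
    _ = (G' / g) ^ 2 * ((((N : ℝ) + 1) * (1 + |y|)) ^ N) ^ 2 * Real.pi := by rw [hhalf]
    _ = (G' / g) ^ 2 * (((N : ℝ) + 1) ^ (2 * N)) * Real.pi * (1 + |y|) ^ (2 * N) := by
        rw [mul_pow, mul_pow, pow_mul' _ 2 N, pow_mul' _ 2 N]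
        ring

theorem cos_bound (c y : ℝ) :
    ‖Complex.cos ((Real.pi : ℂ) * ((c : ℂ) + (y : ℂ) * I))‖ ≤ Real.cosh (Real.pi * y) := by
  unfold Complex.cos
  rw [norm_div]
  have h1 : ‖Complex.exp ((Real.pi : ℂ) * ((c : ℂ) + (y : ℂ) * I) * I)‖ =
      Real.exp (-(Real.pi * y)) := by
    rw [Complex.norm_exp]
    congr 1
    simp
  have h2 : ‖Complex.exp (-((Real.pi : ℂ) * ((c : ℂ) + (y : ℂ) * I)) * I)‖ =
      Real.exp (Real.pi * y) := by
    rw [Complex.norm_exp]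
    congr 1
    simp
  rw [Real.cosh_eq]
  have h3 := norm_add_le (Complex.exp ((Real.pi : ℂ) * ((c : ℂ) + (y : ℂ) * I) * I))
    (Complex.exp (-((Real.pi : ℂ) * ((c : ℂ) + (y : ℂ) * I)) * I))
  rw [h1, h2] at h3
  have h4 : ‖(2 : ℂ)‖ = 2 := by simp
  rw [h4]
  linarith

end Pool.Agent.H262R4.TM.TKU

namespace Pool.Agent.H262R4.TM

open Finset Filter Topology MeasureTheory Complex
open Pool.Agent.H777R2.SM (norm_Gamma_decay Gamma_shift)

theorem t_KU : P_KU := by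
  intro c1 c2 hc1 hc12
  obtain ⟨C, N, hC, hb⟩ := TKU.sq_bound c1 c2 hc1 hc12
  obtain ⟨k1, hk1⟩ := exists_nat_ge c2
  set M : ℕ := 2 * N + 4 with hM
  refine ⟨4 ^ M * ((M : ℝ) + 1) ^ M * (2 * C), M, k1 + 1, by positivity,
    fun k hk b c hcc1 hcc2 τ => ?_⟩
  have hk' : c2 + 1 ≤ (k : ℝ) := by
    have : ((k1 + 1 : ℕ) : ℝ) ≤ k := by exact_mod_cast hk
    push_cast at this
    linarith
  have hk1' : (1 : ℝ) ≤ k := by linarith
  have hc0 : 0 < c := lt_of_lt_of_le hc1 hcc1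
  set s : ℂ := ((1 - c : ℝ) : ℂ) + (τ : ℂ) * I with hs
  have e1 : (1 : ℂ) - s = (c : ℂ) + ((-τ : ℝ) : ℂ) * I := by
    rw [hs]; push_cast; ring
  have e2 : s + k = (((k : ℝ) + 1 - c : ℝ) : ℂ) + (τ : ℂ) * I := by
    rw [hs]; push_cast; ring
  have hre : (s + k).re = (k : ℝ) + 1 - c := by rw [e2]; simp
  have him : (s + k).im = τ := by rw [e2]; simp
  -- the first Gamma factor
  have hd := norm_Gamma_decay (s + k) (by rw [hre]; linarith) M
  rw [hre, him] at hd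
  have hfac : Real.Gamma ((k : ℝ) + 1 - c + M) ≤ (k.factorial : ℝ) * (((M : ℝ) + 1) * k) ^ M := by
    have hM4 : (4 : ℝ) ≤ M := by
      have : 4 ≤ M := by omega
      exact_mod_cast this
    have h3 : Real.Gamma ((k : ℝ) + 1 - c + M) ≤ Real.Gamma ((k : ℝ) + 1 + M) := by
      apply Real.Gamma_strictMonoOn_Ici.monotoneOn
      · show (2 : ℝ) ≤ _
        linarith
      · show (2 : ℝ) ≤ _
        linarith
      · linarith
    have h4 : Real.Gamma ((k : ℝ) + 1 + M) = ((k + M).factorial : ℝ) := by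
      rw [← Real.Gamma_nat_eq_factorial]
      congr 1
      push_cast
      ring
    have h5 : (((k + M).factorial : ℕ) : ℝ) ≤ (k.factorial : ℝ) * ((k : ℝ) + M) ^ M := by
      have h6 : (k + M).factorial ≤ k.factorial * (k + M) ^ M := by
        rw [← Nat.factorial_mul_ascFactorial]
        exact Nat.mul_le_mul_left _ (Nat.ascFactorial_le_pow_add k M)
      exact_mod_cast h6
    rw [h4] at h3
    refine h3.trans (h5.trans ?_)
    refine mul_le_mul_of_nonneg_left ?_ (by positivity)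
    refine pow_le_pow_left₀ (by positivity) ?_ M
    nlinarith
  have hpos : 0 < 1 + |τ| := by positivity
  have hG1 : ‖Complex.Gamma (s + k) / (k.factorial : ℂ)‖ ≤
      4 ^ M * (((M : ℝ) + 1) ^ M * (k : ℝ) ^ M) / (1 + |τ|) ^ M := by
    rw [norm_div, Complex.norm_natCast]
    have hf : (0 : ℝ) < k.factorial := by exact_mod_cast Nat.factorial_pos k
    rw [div_le_iff₀ hf]
    refine hd.trans ?_
    rw [div_mul_eq_mul_div]
    refine div_le_div_of_nonneg_right ?_ (by positivity)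
    calc (4 : ℝ) ^ M * Real.Gamma ((k : ℝ) + 1 - c + M)
        ≤ 4 ^ M * ((k.factorial : ℝ) * (((M : ℝ) + 1) * k) ^ M) :=
          mul_le_mul_of_nonneg_left hfac (by positivity)
      _ = 4 ^ M * (((M : ℝ) + 1) ^ M * (k : ℝ) ^ M) * (k.factorial : ℝ) := by
          rw [mul_pow]; ring
  -- the power of 2 pi
  have hpow : ‖(2 * (Real.pi : ℂ)) ^ (-(2 * ((1 : ℂ) - s)))‖ ≤ 1 := by
    have h2p : (0 : ℝ) < 2 * Real.pi := by positivity
    have e : (2 * (Real.pi : ℂ)) = ((2 * Real.pi : ℝ) : ℂ) := by push_cast; ring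
    rw [e, Complex.norm_cpow_eq_rpow_re_of_pos h2p, e1]
    have hre2 : (-(2 * ((c : ℂ) + ((-τ : ℝ) : ℂ) * I))).re = -(2 * c) := by simp
    rw [hre2]
    apply Real.rpow_le_one_of_one_le_of_nonpos
    · have := Real.pi_gt_three
      linarith
    · linarith
  -- the trigonometric factor
  have htrig : ‖(if b then 2 * Complex.cos ((Real.pi : ℂ) * (1 - s)) else 2 : ℂ)‖ ≤
      2 * Real.cosh (Real.pi * (-τ)) := by
    have h1c : 1 ≤ Real.cosh (Real.pi * (-τ)) := Real.one_le_cosh _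
    split_ifs
    · rw [norm_mul, e1]
      have := TKU.cos_bound c (-τ)
      simp only [Complex.norm_ofNat]
      linarith
    · simp only [Complex.norm_ofNat]
      linarith
  have hsq := hb c hcc1 hcc2 (-τ)
  rw [abs_neg] at hsq
  rw [← e1] at hsq
  have hcosh : 0 < Real.cosh (Real.pi * (-τ)) := Real.cosh_pos _
  unfold Kc
  rw [norm_mul, norm_mul, norm_mul, norm_pow]
  calc ‖Complex.Gamma (s + k) / (k.factorial : ℂ)‖ * ‖Complex.Gamma (1 - s)‖ ^ 2 *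
        ‖(2 * (Real.pi : ℂ)) ^ (-(2 * ((1 : ℂ) - s)))‖ *
        ‖(if b then 2 * Complex.cos ((Real.pi : ℂ) * (1 - s)) else 2 : ℂ)‖
      ≤ (4 ^ M * (((M : ℝ) + 1) ^ M * (k : ℝ) ^ M) / (1 + |τ|) ^ M) *
        ‖Complex.Gamma (1 - s)‖ ^ 2 * 1 * (2 * Real.cosh (Real.pi * (-τ))) := by
        refine mul_le_mul (mul_le_mul (mul_le_mul_of_nonneg_right hG1 (by positivity)) hpow
          (norm_nonneg _) (by positivity)) htrig (norm_nonneg _) (by positivity)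
    _ = (4 ^ M * (((M : ℝ) + 1) ^ M * (k : ℝ) ^ M) / (1 + |τ|) ^ M) * 2 *
        (‖Complex.Gamma (1 - s)‖ ^ 2 * Real.cosh (Real.pi * (-τ))) := by ring
    _ ≤ (4 ^ M * (((M : ℝ) + 1) ^ M * (k : ℝ) ^ M) / (1 + |τ|) ^ M) * 2 *
        (C * (1 + |τ|) ^ (2 * N)) := mul_le_mul_of_nonneg_left hsq (by positivity)
    _ = 4 ^ M * ((M : ℝ) + 1) ^ M * (2 * C) * (k : ℝ) ^ M / (1 + |τ|) ^ 4 := by
        have h6 : (1 + |τ|) ^ M = (1 + |τ|) ^ (2 * N) * (1 + |τ|) ^ 4 := by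
          rw [hM, pow_add]
        rw [h6]
        field_simp

end Pool.Agent.H262R4.TM
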