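import Pool.Agent.H262R4.TM.KER
import Pool.Agent.H262R4.TM.KU
import Pool.Agent.H777R2.SM_T6F

/-! TM project: Voronoi summation (backup of task FE). -/

set_option autoImplicit false

namespace Pool.Agent.H262R4.TM

open Finset Filter Topology MeasureTheory Complex

noncomputable section

namespace TFEb

open Pool.Agent.H777R2.SM (Gamma_line_bound powexp_inversion div_cpow_neg norm_cpow_line
  Gamma_two_int Gamma_two_cont shift)

section right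

variable (a : ℕ → ℂ) (E : ℂ → ℂ) (ha0 : a 0 = 0)
  (hE : ∀ s : ℂ, 1 < s.re → LSeriesHasSum a s (E s))

include ha0 hE in
theorem a_summable : Summable (fun n : ℕ => ‖a n‖ * (n : ℝ) ^ (-2 : ℝ)) := by
  have h1 : LSeriesSummable a 2 := (hE 2 (by norm_num)).LSeriesSummable
  have h2 := h1.norm
  refine h2.congr fun n => ?_
  rcases Nat.eq_zero_or_pos n with h0 | h0
  · subst h0
    rw [ha0]; simp
  · rw [LSeries.norm_term_eq, if_neg (by omega)]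
    have : (2 : ℂ).re = 2 := by norm_num
    rw [this, Real.rpow_neg (Nat.cast_nonneg n), div_eq_mul_inv]

/-- the integrand on the right line, term by term -/
def Fn (k : ℕ) (V : ℝ) (n : ℕ) (τ : ℝ) : ℂ :=
  a n * ((V ^ k / (2 * Real.pi) : ℝ) : ℂ) *
    (((n : ℝ) / V : ℝ) : ℂ) ^ (-((2 : ℝ) + τ * I : ℂ)) * Complex.Gamma ((2 : ℝ) + τ * I + k)

include ha0 in
theorem Fn_zero (k : ℕ) (V : ℝ) (τ : ℝ) : Fn a k V 0 τ = 0 := by
  unfold Fn; rw [ha0]; ring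

include ha0 in
theorem Fn_norm (k : ℕ) (V : ℝ) (hV : 0 < V) (n : ℕ) (τ : ℝ) :
    ‖Fn a k V n τ‖ = ‖a n‖ * (n : ℝ) ^ (-2 : ℝ) * (V ^ k / (2 * Real.pi) * V ^ (2 : ℝ) *
      ‖Complex.Gamma ((2 : ℝ) + τ * I + k)‖) := by
  rcases Nat.eq_zero_or_pos n with h0 | h0
  · subst h0
    rw [Fn_zero a ha0, ha0]; simp
  · have hn' : (0 : ℝ) < n := by exact_mod_cast h0
    unfold Fn
    rw [div_cpow_neg n h0 V hV, norm_mul, norm_mul, norm_mul, norm_mul, Complex.norm_real,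
      Real.norm_of_nonneg (by positivity), norm_cpow_line V hV 2 τ]
    have e : ‖(n : ℂ) ^ (-((2 : ℝ) + τ * I : ℂ))‖ = (n : ℝ) ^ (-2 : ℝ) := by
      rw [Complex.norm_natCast_cpow_of_pos h0]
      simp
    rw [e]
    ring

include ha0 in
theorem Fn_integrable (k : ℕ) (V : ℝ) (hV : 0 < V) (n : ℕ) : Integrable (Fn a k V n) := by
  rcases Nat.eq_zero_or_pos n with h0 | h0
  · subst h0
    have : Fn a k V 0 = fun _ => 0 := by ext τ; exact Fn_zero a ha0 k V τ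
    rw [this]; exact integrable_zero _ _ _
  · refine Integrable.mono' ((Gamma_two_int k).norm.const_mul
      (‖a n‖ * (n : ℝ) ^ (-2 : ℝ) * (V ^ k / (2 * Real.pi) * V ^ (2 : ℝ)))) ?_ ?_
    · apply Continuous.aestronglyMeasurable
      unfold Fn
      apply Continuous.mul
      · apply Continuous.mul continuous_const
        apply Continuous.const_cpow (by fun_prop)
        left
        have : ((n : ℝ) / V) ≠ 0 := by
          have : (0 : ℝ) < n := by exact_mod_cast h0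
          positivity
        exact_mod_cast this
      · exact Gamma_two_cont k
    · refine Eventually.of_forall fun τ => ?_
      rw [Fn_norm a ha0 k V hV n τ]
      apply le_of_eq
      ring

include ha0 hE in
theorem Fn_tsum (k : ℕ) (V : ℝ) (hV : 0 < V) (τ : ℝ) :
    ∑' n, Fn a k V n τ = ((V ^ k / (2 * Real.pi) : ℝ) : ℂ) *
      (E ((2 : ℝ) + τ * I) * (V : ℂ) ^ ((2 : ℝ) + τ * I : ℂ) *
        Complex.Gamma ((2 : ℝ) + τ * I + k)) := by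
  have h1 : LSeriesHasSum a ((2 : ℝ) + τ * I) (E ((2 : ℝ) + τ * I)) :=
    hE _ (by simp)
  have h2 : HasSum (LSeries.term a ((2 : ℝ) + τ * I)) (E ((2 : ℝ) + τ * I)) := h1
  have h3 := h2.mul_right (((V ^ k / (2 * Real.pi) : ℝ) : ℂ) * (V : ℂ) ^ ((2 : ℝ) + τ * I : ℂ) *
        Complex.Gamma ((2 : ℝ) + τ * I + k))
  have h4 := h3.tsum_eq
  rw [show ((V ^ k / (2 * Real.pi) : ℝ) : ℂ) *
      (E ((2 : ℝ) + τ * I) * (V : ℂ) ^ ((2 : ℝ) + τ * I : ℂ) *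
        Complex.Gamma ((2 : ℝ) + τ * I + k)) = E ((2 : ℝ) + τ * I) *
        (((V ^ k / (2 * Real.pi) : ℝ) : ℂ) * (V : ℂ) ^ ((2 : ℝ) + τ * I : ℂ) *
        Complex.Gamma ((2 : ℝ) + τ * I + k)) by ring, ← h4]
  refine tsum_congr fun n => ?_
  rcases Nat.eq_zero_or_pos n with h0 | h0
  · subst h0
    rw [Fn_zero a ha0]; simp
  · unfold Fn
    rw [div_cpow_neg n h0 V hV, LSeries.term_of_ne_zero (by omega), Complex.cpow_neg]
    rw [div_eq_mul_inv (a n)]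
    ring

include ha0 hE in
/-- the sum as an integral over the right line -/
theorem sum_eq_integral (k : ℕ) (V : ℝ) (hV : 0 < V) :
    ∑' n : ℕ, a n * (((n : ℝ) ^ k * Real.exp (-((n : ℝ) / V)) : ℝ) : ℂ) =
      ((V ^ k / (2 * Real.pi) : ℝ) : ℂ) * ∫ τ : ℝ,
        (E ((2 : ℝ) + τ * I) * (V : ℂ) ^ ((2 : ℝ) + τ * I : ℂ) *
          Complex.Gamma ((2 : ℝ) + τ * I + k)) := by
  have hsum : Summable (fun n : ℕ => ∫ τ, ‖Fn a k V n τ‖) := by
    have e : ∀ n : ℕ, ∫ τ, ‖Fn a k V n τ‖ = ‖a n‖ * (n : ℝ) ^ (-2 : ℝ) *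
        ∫ τ : ℝ, (V ^ k / (2 * Real.pi) * V ^ (2 : ℝ) *
          ‖Complex.Gamma ((2 : ℝ) + τ * I + k)‖) := by
      intro n
      rw [← integral_const_mul]
      exact integral_congr_ae (Eventually.of_forall fun τ => Fn_norm a ha0 k V hV n τ)
    simp_rw [e]
    exact (a_summable a E ha0 hE).mul_right _
  have h1 := hasSum_integral_of_summable_integral_norm (fun n => Fn_integrable a ha0 k V hV n) hsum
  have h2 : ∀ n : ℕ, a n * (((n : ℝ) ^ k * Real.exp (-((n : ℝ) / V)) : ℝ) : ℂ) =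
      ∫ τ, Fn a k V n τ := by
    intro n
    rcases Nat.eq_zero_or_pos n with h0 | h0
    · subst h0
      simp_rw [Fn_zero a ha0, ha0]; simp
    · have hn' : (0 : ℝ) < n := by exact_mod_cast h0
      have h3 := powexp_inversion k ((n : ℝ) / V) (by positivity)
      have e1 : (((n : ℝ) ^ k * Real.exp (-((n : ℝ) / V)) : ℝ) : ℂ) =
          ((V ^ k : ℝ) : ℂ) * (((((n : ℝ) / V) ^ k * Real.exp (-((n : ℝ) / V)) : ℝ) : ℂ)) := by
        rw [← Complex.ofReal_mul]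
        congr 1
        rw [div_pow]
        field_simp
      rw [e1, h3]
      have e2 : ∀ τ : ℝ, Fn a k V n τ = (a n * ((V ^ k / (2 * Real.pi) : ℝ) : ℂ)) *
          ((((n : ℝ) / V : ℝ) : ℂ) ^ (-((2 : ℝ) + τ * I : ℂ)) *
            Complex.Gamma ((2 : ℝ) + τ * I + k)) := by
        intro τ; unfold Fn; ring
      simp_rw [e2]
      rw [integral_const_mul, Complex.real_smul]
      push_cast
      ring
  rw [tsum_congr h2, h1.tsum_eq, ← integral_const_mul]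
  exact integral_congr_ae (Eventually.of_forall fun τ => Fn_tsum a E ha0 hE k V hV τ)

include ha0 hE in
/-- integrability on the right line -/
theorem right_int (g : ℂ → ℂ) (hgd : Differentiable ℂ g)
    (hl2 : ∀ τ : ℝ, g ((2 : ℝ) + τ * I) = E ((2 : ℝ) + τ * I)) (k : ℕ) (V : ℝ) (hV : 0 < V) :
    Integrable (fun τ : ℝ => g ((2 : ℝ) + τ * I) * (V : ℂ) ^ ((2 : ℝ) + τ * I : ℂ) *
          Complex.Gamma ((2 : ℝ) + τ * I + k)) := by
  have hVc : (V : ℂ) ≠ 0 := by exact_mod_cast hV.ne'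
  have hbd2 : ∀ τ : ℝ, ‖g ((2 : ℝ) + τ * I) * (V : ℂ) ^ ((2 : ℝ) + τ * I : ℂ) *
          Complex.Gamma ((2 : ℝ) + τ * I + k)‖ ≤
      ((∑' n : ℕ, ‖a n‖ * (n : ℝ) ^ (-2 : ℝ)) * V ^ (2 : ℝ)) *
        ‖Complex.Gamma ((2 : ℝ) + τ * I + k)‖ := by
    intro τ
    rw [norm_mul, norm_mul, norm_cpow_line V hV]
    have h1 : ‖g ((2 : ℝ) + τ * I)‖ ≤ ∑' n : ℕ, ‖a n‖ * (n : ℝ) ^ (-2 : ℝ) := by
      rw [hl2]
      have h1 : HasSum (LSeries.term a ((2 : ℝ) + τ * I)) (E ((2 : ℝ) + τ * I)) :=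
        hE _ (by simp)
      rw [← h1.tsum_eq]
      refine tsum_of_norm_bounded (a_summable a E ha0 hE).hasSum fun n => ?_
      rcases Nat.eq_zero_or_pos n with h0 | h0
      · subst h0
        rw [ha0]; simp
      · rw [LSeries.norm_term_eq, if_neg (by omega)]
        have : ((2 : ℝ) + τ * I : ℂ).re = 2 := by simp
        rw [this, Real.rpow_neg (Nat.cast_nonneg n), div_eq_mul_inv]
    gcongr
  have hc2 : Continuous (fun τ : ℝ => g ((2 : ℝ) + τ * I) * (V : ℂ) ^ ((2 : ℝ) + τ * I : ℂ) *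
          Complex.Gamma ((2 : ℝ) + τ * I + k)) := by
    apply Continuous.mul
    · apply Continuous.mul
      · exact hgd.continuous.comp (by fun_prop)
      · exact Continuous.const_cpow (by fun_prop) (Or.inl hVc)
    · exact Gamma_two_cont k
  exact Integrable.mono' ((Gamma_two_int k).norm.const_mul _) hc2.aestronglyMeasurable
      (Eventually.of_forall hbd2)

end right

/-- bound for the Mellin transform on the line `-1/2` -/
theorem Kc_bd (k : ℕ) (hk : 1 ≤ k) (b : Bool) : ∃ D : ℝ, 0 ≤ D ∧ ∀ τ : ℝ,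
    ‖Kc k b (-1 / 2 + (τ : ℂ) * I)‖ ≤ D * (1 + |τ|) ^ (-(2 : ℝ)) := by
  obtain ⟨C, N, hC, hsq⟩ := TKU.sq_bound (3 / 2) (3 / 2) (by norm_num) le_rfl
  have hk' : (1 : ℝ) ≤ k := by exact_mod_cast hk
  set G : ℝ := 4 ^ (2 * N + 2) * Real.Gamma ((k : ℝ) - 1 / 2 + (2 * N + 2 : ℕ)) with hG
  have hG0 : 0 ≤ G := by
    have h0 : (0 : ℝ) ≤ (k : ℝ) - 1 / 2 + (2 * N + 2 : ℕ) := by
      have : (0 : ℝ) ≤ ((2 * N + 2 : ℕ) : ℝ) := Nat.cast_nonneg _
      linarith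
    have := Real.Gamma_nonneg_of_nonneg h0
    positivity
  refine ⟨G * C * 2, by positivity, fun τ => ?_⟩
  set x : ℝ := 1 + |τ| with hx
  have hx1 : 1 ≤ x := by
    have := abs_nonneg τ
    linarith
  have hx0 : 0 < x := by linarith
  have e1 : ‖Complex.Gamma (-1 / 2 + (τ : ℂ) * I + k)‖ ≤ G / x ^ (2 * N + 2) := by
    have h1 := Gamma_line_bound ((k : ℝ) - 1 / 2) (by linarith) (2 * N + 2) τ
    have h2 : (((k : ℝ) - 1 / 2 : ℝ) : ℂ) + (τ : ℂ) * I = -1 / 2 + (τ : ℂ) * I + k := by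
      push_cast; ring
    rw [h2] at h1
    exact h1
  have hG2 : ‖Complex.Gamma (1 - (-1 / 2 + (τ : ℂ) * I))‖ ^ 2 * Real.cosh (Real.pi * τ) ≤
      C * x ^ (2 * N) := by
    have h1 := hsq (3 / 2) le_rfl le_rfl (-τ)
    have h2 : ((3 / 2 : ℝ) : ℂ) + ((-τ : ℝ) : ℂ) * I = 1 - (-1 / 2 + (τ : ℂ) * I) := by
      push_cast; ring
    rw [h2, abs_neg, mul_neg, Real.cosh_neg] at h1
    exact h1
  have hif : ‖(if b then 2 * Complex.cos ((Real.pi : ℂ) * (1 - (-1 / 2 + (τ : ℂ) * I))) else 2 : ℂ)‖ ≤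
      2 * Real.cosh (Real.pi * τ) := by
    have hc1 := Real.one_le_cosh (Real.pi * τ)
    cases b
    · simp only [Bool.false_eq_true, if_false]
      have : ‖(2 : ℂ)‖ = 2 := by simp
      rw [this]; linarith
    · simp only [if_true]
      rw [norm_mul]
      have : ‖(2 : ℂ)‖ = 2 := by simp
      rw [this]
      have h1 := TKU.cos_bound (3 / 2) (-τ)
      have h2 : ((3 / 2 : ℝ) : ℂ) + ((-τ : ℝ) : ℂ) * I = 1 - (-1 / 2 + (τ : ℂ) * I) := by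
        push_cast; ring
      rw [h2, mul_neg, Real.cosh_neg] at h1
      linarith
  have hpi : ‖(2 * (Real.pi : ℂ)) ^ (-(2 * (1 - (-1 / 2 + (τ : ℂ) * I))))‖ ≤ 1 := by
    have h1 : (2 * (Real.pi : ℂ)) = ((2 * Real.pi : ℝ) : ℂ) := by push_cast; ring
    rw [h1, Complex.norm_cpow_eq_rpow_re_of_pos (by positivity)]
    have h2 : (-(2 * (1 - (-1 / 2 + (τ : ℂ) * I))) : ℂ).re = -3 := by
      simp; norm_num
    rw [h2]
    apply Real.rpow_le_one_of_one_le_of_nonpos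
    · nlinarith [Real.pi_gt_three]
    · norm_num
  have hfac : ‖((k.factorial : ℂ))⁻¹‖ ≤ 1 := by
    rw [norm_inv, Complex.norm_natCast]
    apply inv_le_one_of_one_le₀
    exact_mod_cast Nat.succ_le_of_lt (Nat.factorial_pos k)
  unfold Kc
  rw [div_eq_mul_inv, norm_mul, norm_mul, norm_mul, norm_mul, norm_pow]
  have hcosh := Real.cosh_pos (Real.pi * τ)
  calc ‖Complex.Gamma (-1 / 2 + (τ : ℂ) * I + k)‖ * ‖((k.factorial : ℂ))⁻¹‖ *
        ‖Complex.Gamma (1 - (-1 / 2 + (τ : ℂ) * I))‖ ^ 2 *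
        ‖(2 * (Real.pi : ℂ)) ^ (-(2 * (1 - (-1 / 2 + (τ : ℂ) * I))))‖ *
        ‖(if b then 2 * Complex.cos ((Real.pi : ℂ) * (1 - (-1 / 2 + (τ : ℂ) * I))) else 2 : ℂ)‖
      ≤ (G / x ^ (2 * N + 2)) * 1 * ‖Complex.Gamma (1 - (-1 / 2 + (τ : ℂ) * I))‖ ^ 2 * 1 *
        (2 * Real.cosh (Real.pi * τ)) := by gcongr
    _ = (G / x ^ (2 * N + 2)) * 2 *
        (‖Complex.Gamma (1 - (-1 / 2 + (τ : ℂ) * I))‖ ^ 2 * Real.cosh (Real.pi * τ)) := by ring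
    _ ≤ (G / x ^ (2 * N + 2)) * 2 * (C * x ^ (2 * N)) := by gcongr
    _ = G * C * 2 * x ^ (-(2 : ℝ)) := by
        rw [Real.rpow_neg hx0.le, Real.rpow_two, pow_add]
        field_simp

theorem Kc_cont (k : ℕ) (hk : 1 ≤ k) (b : Bool) :
    Continuous (fun τ : ℝ => Kc k b (-1 / 2 + (τ : ℂ) * I)) := by
  rw [continuous_iff_continuousAt]
  intro τ
  have hk' : (1 : ℝ) ≤ k := by exact_mod_cast hk
  have hre : (-1 / 2 + (τ : ℂ) * I : ℂ).re = -1 / 2 := by simp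
  have h1 := (TKER.Kc_diff k b (-1 / 2 + (τ : ℂ) * I) (by rw [hre]; linarith)
    (by rw [hre]; norm_num)).continuousAt
  have h2 : ContinuousAt (fun τ : ℝ => (-1 / 2 + (τ : ℂ) * I : ℂ)) τ := by fun_prop
  exact ContinuousAt.comp (f := fun τ : ℝ => (-1 / 2 + (τ : ℂ) * I : ℂ)) h1 h2

theorem int_decay : Integrable (fun τ : ℝ => (1 + |τ|) ^ (-(2 : ℝ))) := by
  have := integrable_one_add_norm (E := ℝ) (μ := volume) (r := 2) (by simp)
  simpa using this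

/-- powers of positive reals as exponentials -/
theorem rp (x : ℝ) (hx : 0 < x) (w : ℂ) : (x : ℂ) ^ w = Complex.exp ((Real.log x : ℝ) * w) := by
  rw [Complex.cpow_def_of_ne_zero (by exact_mod_cast hx.ne'), Complex.ofReal_log hx.le]

theorem rp1 (x : ℝ) (hx : 0 < x) : (x : ℂ) = Complex.exp ((Real.log x : ℝ)) := by
  rw [← Complex.ofReal_exp, Real.exp_log hx]

/-- the power identity -/
theorem ypow (P V : ℝ) (hP : 0 < P) (hV : 0 < V) (h : ℕ) (hh : 0 < h) (s : ℂ) :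
    ((V / (h : ℝ) ^ 2 : ℝ) : ℂ) * ((P * V / (h : ℝ) ^ 2 : ℝ) : ℂ) ^ (s - 1) =
      (P : ℂ) ^ (s - 1) * (V : ℂ) ^ s * (h : ℂ) ^ (-(2 * s)) := by
  have hhr : (0 : ℝ) < h := by exact_mod_cast hh
  have hc : ((h : ℕ) : ℂ) = ((h : ℝ) : ℂ) := by push_cast; rfl
  have l1 : Real.log (V / (h : ℝ) ^ 2) = Real.log V - 2 * Real.log h := by
    rw [Real.log_div hV.ne' (by positivity), Real.log_pow]
    push_cast; ring
  have l2 : Real.log (P * V / (h : ℝ) ^ 2) = Real.log P + Real.log V - 2 * Real.log h := by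
    rw [Real.log_div (by positivity) (by positivity), Real.log_mul hP.ne' hV.ne', Real.log_pow]
    push_cast; ring
  rw [rp1 (V / (h : ℝ) ^ 2) (by positivity), rp (P * V / (h : ℝ) ^ 2) (by positivity), rp P hP,
    rp V hV, hc, rp (h : ℝ) hhr, l1, l2, ← Complex.exp_add, ← Complex.exp_add, ← Complex.exp_add]
  congr 1
  push_cast
  ring

/-- one term of the dual side -/
def Gm (h : ℕ) [NeZero h] (Φ : ZMod h → ZMod h → ℂ) (k : ℕ) (V : ℝ) (m : ℕ × ℕ) (τ : ℝ) : ℂ :=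
  if m.1 = 0 ∨ m.2 = 0 then 0 else
    ((V / (h : ℝ) ^ 2 : ℝ) : ℂ) *
      (Ft h Φ m.1 m.2 * ((1 / (2 * (Real.pi : ℂ))) * (Kc k true (-1 / 2 + (τ : ℂ) * I) *
        (((m.1 : ℝ) * m.2 * V / (h : ℝ) ^ 2 : ℝ) : ℂ) ^ (-3 / 2 + (τ : ℂ) * I))) +
      Ft h Φ m.1 (-(m.2 : ZMod h)) * ((1 / (2 * (Real.pi : ℂ))) *
        (Kc k false (-1 / 2 + (τ : ℂ) * I) *
        (((m.1 : ℝ) * m.2 * V / (h : ℝ) ^ 2 : ℝ) : ℂ) ^ (-3 / 2 + (τ : ℂ) * I))))

theorem Ft_bd (h : ℕ) [NeZero h] (Φ : ZMod h → ZMod h → ℂ) (u v : ZMod h) :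
    ‖Ft h Φ u v‖ ≤ ∑ x : ZMod h, ∑ y : ZMod h, ‖Φ x y‖ := by
  unfold Ft
  refine (norm_sum_le _ _).trans (Finset.sum_le_sum fun x _ => ?_)
  refine (norm_sum_le _ _).trans (Finset.sum_le_sum fun y _ => ?_)
  rw [norm_mul]
  have : ‖(ZMod.stdAddChar (u * x + v * y) : ℂ)‖ = 1 := by
    rw [ZMod.stdAddChar_apply]
    exact Circle.norm_coe _
  rw [this, mul_one]

theorem norm_ypow (y : ℝ) (hy : 0 < y) (τ : ℝ) :
    ‖(y : ℂ) ^ (-3 / 2 + (τ : ℂ) * I)‖ = y ^ (-(3 / 2) : ℝ) := by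
  rw [Complex.norm_cpow_eq_rpow_re_of_pos hy]
  congr 1
  simp
  norm_num

theorem k_int (k : ℕ) (hk : 1 ≤ k) (b : Bool) (y : ℝ) (hy : 0 < y) :
    Integrable (fun τ : ℝ => Kc k b (-1 / 2 + (τ : ℂ) * I) *
      (y : ℂ) ^ (-3 / 2 + (τ : ℂ) * I)) := by
  obtain ⟨D, hD, hb⟩ := Kc_bd k hk b
  refine Integrable.mono' ((int_decay.const_mul (D * y ^ (-(3 / 2) : ℝ)))) ?_ ?_
  · apply Continuous.aestronglyMeasurable
    apply (Kc_cont k hk b).mul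
    exact Continuous.const_cpow (by fun_prop) (Or.inl (by exact_mod_cast hy.ne'))
  · refine Eventually.of_forall fun τ => ?_
    rw [norm_mul, norm_ypow y hy]
    calc ‖Kc k b (-1 / 2 + (τ : ℂ) * I)‖ * y ^ (-(3 / 2) : ℝ)
        ≤ (D * (1 + |τ|) ^ (-(2 : ℝ))) * y ^ (-(3 / 2) : ℝ) := by
          gcongr
          exact hb τ
      _ = _ := by ring

theorem Gm_int (h : ℕ) [NeZero h] (Φ : ZMod h → ZMod h → ℂ) (k : ℕ) (hk : 1 ≤ k) (V : ℝ)
    (hV : 0 < V) (m : ℕ × ℕ) : Integrable (Gm h Φ k V m) := by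
  by_cases hm : m.1 = 0 ∨ m.2 = 0
  · have : Gm h Φ k V m = fun _ => 0 := by
      funext τ
      unfold Gm
      rw [if_pos hm]
    rw [this]
    exact integrable_zero _ _ _
  · have hh : (0 : ℝ) < h := by exact_mod_cast NeZero.pos h
    have h1 : (0 : ℝ) < m.1 := by
      have : m.1 ≠ 0 := fun h0 => hm (Or.inl h0)
      exact_mod_cast Nat.pos_of_ne_zero this
    have h2 : (0 : ℝ) < m.2 := by
      have : m.2 ≠ 0 := fun h0 => hm (Or.inr h0)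
      exact_mod_cast Nat.pos_of_ne_zero this
    have hy : (0 : ℝ) < (m.1 : ℝ) * m.2 * V / (h : ℝ) ^ 2 := by positivity
    have : Gm h Φ k V m = fun τ : ℝ => ((V / (h : ℝ) ^ 2 : ℝ) : ℂ) *
      (Ft h Φ m.1 m.2 * ((1 / (2 * (Real.pi : ℂ))) * (Kc k true (-1 / 2 + (τ : ℂ) * I) *
        (((m.1 : ℝ) * m.2 * V / (h : ℝ) ^ 2 : ℝ) : ℂ) ^ (-3 / 2 + (τ : ℂ) * I))) +
      Ft h Φ m.1 (-(m.2 : ZMod h)) * ((1 / (2 * (Real.pi : ℂ))) *
        (Kc k false (-1 / 2 + (τ : ℂ) * I) *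
        (((m.1 : ℝ) * m.2 * V / (h : ℝ) ^ 2 : ℝ) : ℂ) ^ (-3 / 2 + (τ : ℂ) * I)))) := by
      funext τ
      unfold Gm
      rw [if_neg hm]
    rw [this]
    exact ((((k_int k hk true _ hy).const_mul _).const_mul _).add
      (((k_int k hk false _ hy).const_mul _).const_mul _)).const_mul _

theorem Gm_integral (h : ℕ) [NeZero h] (Φ : ZMod h → ZMod h → ℂ) (k : ℕ) (hk : 1 ≤ k) (V : ℝ)
    (hV : 0 < V) (m : ℕ × ℕ) : ∫ τ, Gm h Φ k V m τ = if m.1 = 0 ∨ m.2 = 0 then (0 : ℂ) else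
      ((V / (h : ℝ) ^ 2 : ℝ) : ℂ) *
        (Ft h Φ m.1 m.2 * Hk k true ((m.1 : ℝ) * m.2 * V / (h : ℝ) ^ 2) +
          Ft h Φ m.1 (-(m.2 : ZMod h)) * Hk k false ((m.1 : ℝ) * m.2 * V / (h : ℝ) ^ 2)) := by
  by_cases hm : m.1 = 0 ∨ m.2 = 0
  · have : Gm h Φ k V m = fun _ => 0 := by
      funext τ
      unfold Gm
      rw [if_pos hm]
    rw [this, if_pos hm]
    simp
  · have hh : (0 : ℝ) < h := by exact_mod_cast NeZero.pos h
    have h1 : (0 : ℝ) < m.1 := by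
      have : m.1 ≠ 0 := fun h0 => hm (Or.inl h0)
      exact_mod_cast Nat.pos_of_ne_zero this
    have h2 : (0 : ℝ) < m.2 := by
      have : m.2 ≠ 0 := fun h0 => hm (Or.inr h0)
      exact_mod_cast Nat.pos_of_ne_zero this
    have hy : (0 : ℝ) < (m.1 : ℝ) * m.2 * V / (h : ℝ) ^ 2 := by positivity
    rw [if_neg hm]
    unfold Gm Hk
    simp only [if_neg hm]
    rw [integral_const_mul, integral_add
      (((k_int k hk true _ hy).const_mul _).const_mul _)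
      (((k_int k hk false _ hy).const_mul _).const_mul _), integral_const_mul, integral_const_mul,
      integral_const_mul, integral_const_mul]

theorem Gm_norm (h : ℕ) [NeZero h] (Φ : ZMod h → ZMod h → ℂ) (k : ℕ) (hk : 1 ≤ k) (V : ℝ)
    (hV : 0 < V) : ∃ D : ℝ, 0 ≤ D ∧ ∀ (m : ℕ × ℕ), ∀ τ : ℝ,
      ‖Gm h Φ k V m τ‖ ≤ (D * ((m.1 : ℝ) ^ (-(3 / 2) : ℝ) * (m.2 : ℝ) ^ (-(3 / 2) : ℝ))) *
        (1 + |τ|) ^ (-(2 : ℝ)) := by
  obtain ⟨D1, hD1, hb1⟩ := Kc_bd k hk true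
  obtain ⟨D2, hD2, hb2⟩ := Kc_bd k hk false
  have hh : (0 : ℝ) < h := by exact_mod_cast NeZero.pos h
  set B : ℝ := ∑ x : ZMod h, ∑ y : ZMod h, ‖Φ x y‖ with hB
  have hB0 : 0 ≤ B := by positivity
  set W : ℝ := (V / (h : ℝ) ^ 2) * (V / (h : ℝ) ^ 2) ^ (-(3 / 2) : ℝ) with hW
  have hW0 : 0 ≤ W := by positivity
  refine ⟨W * B * (D1 + D2), by positivity, fun m τ => ?_⟩
  unfold Gm
  split_ifs with hm
  · rw [norm_zero]; positivity
  · have h1 : (0 : ℝ) < m.1 := by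
      have : m.1 ≠ 0 := fun h0 => hm (Or.inl h0)
      exact_mod_cast Nat.pos_of_ne_zero this
    have h2 : (0 : ℝ) < m.2 := by
      have : m.2 ≠ 0 := fun h0 => hm (Or.inr h0)
      exact_mod_cast Nat.pos_of_ne_zero this
    have hy : (0 : ℝ) < (m.1 : ℝ) * m.2 * V / (h : ℝ) ^ 2 := by positivity
    have hyp : ((m.1 : ℝ) * m.2 * V / (h : ℝ) ^ 2) ^ (-(3 / 2) : ℝ) =
        (m.1 : ℝ) ^ (-(3 / 2) : ℝ) * (m.2 : ℝ) ^ (-(3 / 2) : ℝ) *
          (V / (h : ℝ) ^ 2) ^ (-(3 / 2) : ℝ) := by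
      rw [← Real.mul_rpow h1.le h2.le, ← Real.mul_rpow (by positivity) (by positivity)]
      congr 1
      ring
    have hpi : ‖(1 / (2 * (Real.pi : ℂ)))‖ ≤ 1 := by
      have e : (1 / (2 * (Real.pi : ℂ))) = ((1 / (2 * Real.pi) : ℝ) : ℂ) := by push_cast; ring
      rw [e, Complex.norm_real, Real.norm_of_nonneg (by positivity), div_le_one (by positivity)]
      nlinarith [Real.pi_gt_three]
    set Y : ℝ := ((m.1 : ℝ) * m.2 * V / (h : ℝ) ^ 2) ^ (-(3 / 2) : ℝ) with hY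
    have hY0 : 0 ≤ Y := by positivity
    have hx0 : 0 ≤ (1 + |τ|) ^ (-(2 : ℝ)) := by positivity
    have t1 : ‖Ft h Φ m.1 m.2 * ((1 / (2 * (Real.pi : ℂ))) * (Kc k true (-1 / 2 + (τ : ℂ) * I) *
        (((m.1 : ℝ) * m.2 * V / (h : ℝ) ^ 2 : ℝ) : ℂ) ^ (-3 / 2 + (τ : ℂ) * I)))‖ ≤
        B * (1 * ((D1 * (1 + |τ|) ^ (-(2 : ℝ))) * Y)) := by
      rw [norm_mul, norm_mul, norm_mul, norm_ypow _ hy]
      gcongr
      · exact Ft_bd h Φ _ _
      · exact hb1 τ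
    have t2 : ‖Ft h Φ m.1 (-(m.2 : ZMod h)) * ((1 / (2 * (Real.pi : ℂ))) *
        (Kc k false (-1 / 2 + (τ : ℂ) * I) *
        (((m.1 : ℝ) * m.2 * V / (h : ℝ) ^ 2 : ℝ) : ℂ) ^ (-3 / 2 + (τ : ℂ) * I)))‖ ≤
        B * (1 * ((D2 * (1 + |τ|) ^ (-(2 : ℝ))) * Y)) := by
      rw [norm_mul, norm_mul, norm_mul, norm_ypow _ hy]
      gcongr
      · exact Ft_bd h Φ _ _
      · exact hb2 τ
    rw [norm_mul, Complex.norm_real, Real.norm_of_nonneg (by positivity)]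
    calc V / (h : ℝ) ^ 2 * ‖_‖ ≤ V / (h : ℝ) ^ 2 * (B * (1 * ((D1 * (1 + |τ|) ^ (-(2 : ℝ))) * Y)) +
          B * (1 * ((D2 * (1 + |τ|) ^ (-(2 : ℝ))) * Y))) := by
          gcongr
          exact (norm_add_le _ _).trans (add_le_add t1 t2)
      _ = (V / (h : ℝ) ^ 2) * Y * B * (D1 + D2) * (1 + |τ|) ^ (-(2 : ℝ)) := by ring
      _ = _ := by
          rw [hyp, hW]
          ring

end TFEb

open Pool.Agent.H777R2.SM (shift) in
theorem t_FE_b (ha : P_E2a) (hb : P_E2b) : P_FE := by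
  intro k h _ Φ V hk hZ hV
  obtain ⟨⟨g, hgd, hgE⟩, ⟨C3, A3, hC3, hgr⟩, hser⟩ := ha h Φ hZ
  have hk1 : 1 ≤ k := by omega
  have hk' : (3 : ℝ) ≤ k := by exact_mod_cast hk
  have hVc : (V : ℂ) ≠ 0 := by exact_mod_cast hV.ne'
  have hF0 : F2 h Φ 0 = 0 := by simp [F2]
  -- lines
  have hl2 : ∀ τ : ℝ, g ((2 : ℝ) + τ * I) = E2 h Φ ((2 : ℝ) + τ * I) := by
    intro τ
    apply hgE
    intro h1
    have : ((2 : ℝ) + τ * I : ℂ).re = (1 : ℂ).re := by rw [h1]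
    simp at this
  have hlη : ∀ τ : ℝ, g (((-(1 / 2) : ℝ) : ℂ) + τ * I) = E2 h Φ (((-(1 / 2) : ℝ) : ℂ) + τ * I) := by
    intro τ
    apply hgE
    intro h1
    have : (((-(1 / 2) : ℝ) : ℂ) + τ * I : ℂ).re = (1 : ℂ).re := by rw [h1]
    simp at this
    norm_num at this
  have hgg : ∀ s : ℂ, -(1 / 2) ≤ s.re → s.re ≤ 3 → 1 ≤ |s.im| → ‖g s‖ ≤ C3 * |s.im| ^ A3 := by
    intro s h1 h2 h3
    rw [hgE s (by
      rintro rfl
      simp at h3
      linarith)]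
    exact hgr s h1 h2 h3
  have hi2 := TFEb.right_int (F2 h Φ) (E2 h Φ) hF0 hser g hgd hl2 k V hV
  -- the dual terms
  have hfac : (k.factorial : ℂ) ≠ 0 := by exact_mod_cast (Nat.factorial_pos k).ne'
  have hpic : (Real.pi : ℂ) ≠ 0 := by exact_mod_cast Real.pi_ne_zero
  have hterm : ∀ τ : ℝ, HasSum (fun m : ℕ × ℕ => TFEb.Gm h Φ k V m τ)
      (1 / (2 * (Real.pi : ℂ)) / (k.factorial : ℂ) * (g (((-(1 / 2) : ℝ) : ℂ) + τ * I) *
        (V : ℂ) ^ (((-(1 / 2) : ℝ) : ℂ) + τ * I) *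
        Complex.Gamma (((-(1 / 2) : ℝ) : ℂ) + τ * I + k))) := by
    intro τ
    have e0 : (((-(1 / 2) : ℝ) : ℂ) + τ * I) = -1 / 2 + (τ : ℂ) * I := by push_cast; ring
    rw [hlη, e0]
    have h1 := (hb h Φ hZ τ).mul_left (1 / (2 * (Real.pi : ℂ)) / (k.factorial : ℂ) *
      ((V : ℂ) ^ (-1 / 2 + (τ : ℂ) * I) * Complex.Gamma (-1 / 2 + (τ : ℂ) * I + k)))
    rw [show 1 / (2 * (Real.pi : ℂ)) / (k.factorial : ℂ) * (E2 h Φ (-1 / 2 + (τ : ℂ) * I) *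
        (V : ℂ) ^ (-1 / 2 + (τ : ℂ) * I) * Complex.Gamma (-1 / 2 + (τ : ℂ) * I + k)) =
        1 / (2 * (Real.pi : ℂ)) / (k.factorial : ℂ) *
      ((V : ℂ) ^ (-1 / 2 + (τ : ℂ) * I) * Complex.Gamma (-1 / 2 + (τ : ℂ) * I + k)) *
        E2 h Φ (-1 / 2 + (τ : ℂ) * I) by ring]
    refine h1.congr_fun ?_
    intro m
    unfold TFEb.Gm
    by_cases hm : m.1 = 0 ∨ m.2 = 0
    · rw [if_pos hm, if_pos hm, mul_zero]
    · rw [if_neg hm, if_neg hm]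
      have m1 : (0 : ℝ) < m.1 := by
        have : m.1 ≠ 0 := fun h0 => hm (Or.inl h0)
        exact_mod_cast Nat.pos_of_ne_zero this
      have m2 : (0 : ℝ) < m.2 := by
        have : m.2 ≠ 0 := fun h0 => hm (Or.inr h0)
        exact_mod_cast Nat.pos_of_ne_zero this
      have hyp := TFEb.ypow ((m.1 : ℝ) * m.2) V (by positivity) hV h (NeZero.pos h)
        (-1 / 2 + (τ : ℂ) * I)
      have e1 : (-1 / 2 + (τ : ℂ) * I - 1 : ℂ) = -3 / 2 + (τ : ℂ) * I := by ring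
      rw [e1] at hyp
      unfold Kc
      simp only [Bool.false_eq_true, if_false, if_true]
      set s : ℂ := -1 / 2 + (τ : ℂ) * I with hs
      set yy : ℂ := (((m.1 : ℝ) * m.2 * V / (h : ℝ) ^ 2 : ℝ) : ℂ) ^ (-3 / 2 + (τ : ℂ) * I) with hyy
      set PP : ℂ := (((m.1 : ℝ) * m.2 : ℝ) : ℂ) ^ (-3 / 2 + (τ : ℂ) * I) with hPP
      set pp : ℂ := (2 * (Real.pi : ℂ)) ^ (-(2 * (1 - s))) with hpp
      set vv : ℂ := ((V / (h : ℝ) ^ 2 : ℝ) : ℂ) with hvv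
      calc vv * (Ft h Φ m.1 m.2 * (1 / (2 * (Real.pi : ℂ)) * (Complex.Gamma (s + k) /
            (k.factorial : ℂ) * Complex.Gamma (1 - s) ^ 2 * pp *
            (2 * Complex.cos ((Real.pi : ℂ) * (1 - s))) * yy)) +
          Ft h Φ m.1 (-(m.2 : ZMod h)) * (1 / (2 * (Real.pi : ℂ)) * (Complex.Gamma (s + k) /
            (k.factorial : ℂ) * Complex.Gamma (1 - s) ^ 2 * pp * 2 * yy))) =
          (vv * yy) * (Ft h Φ m.1 m.2 * (1 / (2 * (Real.pi : ℂ)) * (Complex.Gamma (s + k) /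
            (k.factorial : ℂ) * Complex.Gamma (1 - s) ^ 2 * pp *
            (2 * Complex.cos ((Real.pi : ℂ) * (1 - s))))) +
          Ft h Φ m.1 (-(m.2 : ZMod h)) * (1 / (2 * (Real.pi : ℂ)) * (Complex.Gamma (s + k) /
            (k.factorial : ℂ) * Complex.Gamma (1 - s) ^ 2 * pp * 2))) := by ring
        _ = _ := by
          rw [hyp]
          ring
  -- norms of the dual terms
  obtain ⟨D, hD, hGn⟩ := TFEb.Gm_norm h Φ k hk1 V hV
  have hsm : Summable (fun m : ℕ × ℕ => (m.1 : ℝ) ^ (-(3 / 2) : ℝ) * (m.2 : ℝ) ^ (-(3 / 2) : ℝ)) := by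
    have h1 : Summable (fun n : ℕ => (n : ℝ) ^ (-(3 / 2) : ℝ)) :=
      Real.summable_nat_rpow.2 (by norm_num)
    exact h1.mul_of_nonneg h1 (fun n => by positivity) (fun n => by positivity)
  have hGi := TFEb.Gm_int h Φ k hk1 V hV
  have hsum : Summable (fun m : ℕ × ℕ => ∫ τ, ‖TFEb.Gm h Φ k V m τ‖) := by
    refine Summable.of_nonneg_of_le (fun m => integral_nonneg fun τ => norm_nonneg _) (fun m => ?_)
      ((hsm.mul_left D).mul_right (∫ τ : ℝ, (1 + |τ|) ^ (-(2 : ℝ))))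
    rw [← integral_const_mul]
    exact integral_mono (hGi m).norm (TFEb.int_decay.const_mul _) (hGn m)
  have hmain := hasSum_integral_of_summable_integral_norm hGi hsum
  simp_rw [TFEb.Gm_integral h Φ k hk1 V hV] at hmain
  -- the total
  have htot : ∫ τ, ∑' m, TFEb.Gm h Φ k V m τ = ∫ τ : ℝ, 1 / (2 * (Real.pi : ℂ)) / (k.factorial : ℂ) *
      (g (((-(1 / 2) : ℝ) : ℂ) + τ * I) * (V : ℂ) ^ (((-(1 / 2) : ℝ) : ℂ) + τ * I) *
        Complex.Gamma (((-(1 / 2) : ℝ) : ℂ) + τ * I + k)) :=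
    integral_congr_ae (Eventually.of_forall fun τ => (hterm τ).tsum_eq)
  -- integrability on the left line
  have hiη : Integrable (fun τ : ℝ => g (((-(1 / 2) : ℝ) : ℂ) + τ * I) *
      (V : ℂ) ^ (((-(1 / 2) : ℝ) : ℂ) + τ * I) *
      Complex.Gamma (((-(1 / 2) : ℝ) : ℂ) + τ * I + k)) := by
    have hcη : Continuous (fun τ : ℝ => g (((-(1 / 2) : ℝ) : ℂ) + τ * I) *
      (V : ℂ) ^ (((-(1 / 2) : ℝ) : ℂ) + τ * I) *
      Complex.Gamma (((-(1 / 2) : ℝ) : ℂ) + τ * I + k)) := by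
      apply Continuous.mul
      · apply Continuous.mul
        · exact hgd.continuous.comp (by fun_prop)
        · exact Continuous.const_cpow (by fun_prop) (Or.inl hVc)
      · have h1 := Pool.Agent.H777R2.SM.continuous_Gamma_line ((k : ℝ) - 1 / 2) (by linarith)
        refine h1.congr fun τ => ?_
        congr 1
        push_cast
        ring
    refine Integrable.mono' (TFEb.int_decay.const_mul (2 * Real.pi * k.factorial *
      (D * ∑' m : ℕ × ℕ, (m.1 : ℝ) ^ (-(3 / 2) : ℝ) * (m.2 : ℝ) ^ (-(3 / 2) : ℝ))))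
      hcη.aestronglyMeasurable (Eventually.of_forall fun τ => ?_)
    set ZZ : ℂ := g (((-(1 / 2) : ℝ) : ℂ) + τ * I) *
      (V : ℂ) ^ (((-(1 / 2) : ℝ) : ℂ) + τ * I) *
      Complex.Gamma (((-(1 / 2) : ℝ) : ℂ) + τ * I + k) with hZZ
    have h1 : ‖1 / (2 * (Real.pi : ℂ)) / (k.factorial : ℂ) * ZZ‖ ≤
        (D * ∑' m : ℕ × ℕ, (m.1 : ℝ) ^ (-(3 / 2) : ℝ) * (m.2 : ℝ) ^ (-(3 / 2) : ℝ)) *
          (1 + |τ|) ^ (-(2 : ℝ)) := by
      rw [← (hterm τ).tsum_eq]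
      exact tsum_of_norm_bounded ((hsm.hasSum.mul_left D).mul_right _) (fun m => hGn m τ)
    have h2 : ZZ = (2 * (Real.pi : ℂ)) * (k.factorial : ℂ) *
        (1 / (2 * (Real.pi : ℂ)) / (k.factorial : ℂ) * ZZ) := by
      field_simp
    rw [h2, norm_mul]
    have h3 : ‖(2 * (Real.pi : ℂ)) * (k.factorial : ℂ)‖ = 2 * Real.pi * k.factorial := by
      have e : (2 * (Real.pi : ℂ)) * (k.factorial : ℂ) =
        ((2 * Real.pi * k.factorial : ℝ) : ℂ) := by push_cast; ring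
      rw [e, Complex.norm_real, Real.norm_of_nonneg (by positivity)]
    rw [h3]
    calc 2 * Real.pi * k.factorial * ‖1 / (2 * (Real.pi : ℂ)) / (k.factorial : ℂ) * ZZ‖ ≤
        2 * Real.pi * k.factorial * ((D * ∑' m : ℕ × ℕ, (m.1 : ℝ) ^ (-(3 / 2) : ℝ) *
          (m.2 : ℝ) ^ (-(3 / 2) : ℝ)) * (1 + |τ|) ^ (-(2 : ℝ))) := by gcongr
      _ = _ := by ring
  have hshift := shift g hgd C3 A3 hC3 hgg k hk1 V hV (1 / 2) (by norm_num) le_rfl hi2 hiη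
  -- the left hand side
  have hL := TFEb.sum_eq_integral (F2 h Φ) (E2 h Φ) hF0 hser k V hV
  have e1 : ∫ τ : ℝ, (E2 h Φ ((2 : ℝ) + τ * I) * (V : ℂ) ^ ((2 : ℝ) + τ * I : ℂ) *
          Complex.Gamma ((2 : ℝ) + τ * I + k)) = ∫ τ : ℝ, g (((-(1 / 2) : ℝ) : ℂ) + τ * I) *
      (V : ℂ) ^ (((-(1 / 2) : ℝ) : ℂ) + τ * I) *
      Complex.Gamma (((-(1 / 2) : ℝ) : ℂ) + τ * I + k) := by
    rw [← hshift]
    refine integral_congr_ae (Eventually.of_forall fun τ => ?_)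
    simp only [hl2]
  have hVk : ((V ^ k : ℝ) : ℂ) ≠ 0 := by
    have : V ^ k ≠ 0 := by positivity
    exact_mod_cast this
  have hLL : (∑' n : ℕ, F2 h Φ n * ((((n : ℝ) / V) ^ k * Real.exp (-((n : ℝ) / V)) : ℝ) : ℂ)) =
      (((V ^ k : ℝ) : ℂ))⁻¹ *
        ∑' n : ℕ, F2 h Φ n * (((n : ℝ) ^ k * Real.exp (-((n : ℝ) / V)) : ℝ) : ℂ) := by
    rw [← tsum_mul_left]
    refine tsum_congr fun n => ?_
    rw [div_pow]
    push_cast
    have : (V : ℂ) ^ k ≠ 0 := pow_ne_zero _ hVc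
    field_simp
  have hfinal : (∑' n : ℕ, F2 h Φ n * ((((n : ℝ) / V) ^ k * Real.exp (-((n : ℝ) / V)) : ℝ) : ℂ)) /
        (k.factorial : ℂ) = ∫ τ, ∑' m, TFEb.Gm h Φ k V m τ := by
    rw [htot, hLL, hL, e1, integral_const_mul]
    have hVk' : (V : ℂ) ^ k ≠ 0 := pow_ne_zero _ hVc
    generalize (∫ τ : ℝ, g (((-(1 / 2) : ℝ) : ℂ) + τ * I) *
      (V : ℂ) ^ (((-(1 / 2) : ℝ) : ℂ) + τ * I) *
      Complex.Gamma (((-(1 / 2) : ℝ) : ℂ) + τ * I + k)) = JJ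
    push_cast
    field_simp
  rw [hfinal]
  exact hmain

end

end Pool.Agent.H262R4.TM
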