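import Pool.Agent.H262R4.TM.Defs

/-! Task KER of helper262's project TM: bounds for the dual kernels. -/

set_option autoImplicit false

namespace Pool.Agent.H262R4.TM

open Finset Filter Topology MeasureTheory Complex
open Pool.Agent.H306R2.SM (om cl ef Xf Gf Yf ee)
open Pool.Agent.H442R2.KF (kf tau)

noncomputable section

namespace TKER

theorem integrable_decay : Integrable (fun y : ℝ => (1 + |y|) ^ (-(3 / 2 : ℝ))) := by
  have := integrable_one_add_norm (E := ℝ) (μ := volume) (r := 3 / 2) (by simp; norm_num)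
  simpa using this

theorem vertical_integrable {H : ℂ → ℂ} {a B : ℝ}
    (hd : ∀ s : ℂ, s.re = a → ContinuousAt H s)
    (hB : ∀ s : ℂ, s.re = a → ‖H s‖ ≤ B * (1 + |s.im|) ^ (-(3 / 2 : ℝ))) :
    Integrable (fun y : ℝ => H (a + y * Complex.I)) := by
  have hc : Continuous (fun y : ℝ => H (a + y * Complex.I)) := by
    rw [continuous_iff_continuousAt]
    intro y
    have h1 : ContinuousAt H ((a : ℂ) + y * Complex.I) := hd _ (by simp)
    exact ContinuousAt.comp (f := fun y : ℝ => (a : ℂ) + y * Complex.I) h1 (by fun_prop)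
  refine (integrable_decay.const_mul B).mono' hc.aestronglyMeasurable
    (Eventually.of_forall fun y => ?_)
  have := hB (a + y * Complex.I) (by simp)
  simpa using this

/-- contour shift (copied from `Pool.Agent.H295R2.P`) -/
theorem contour_shift {H : ℂ → ℂ} {a b B : ℝ} (hab : a ≤ b)
    (hd : ∀ s : ℂ, a ≤ s.re → s.re ≤ b → DifferentiableAt ℂ H s)
    (hB : ∀ s : ℂ, a ≤ s.re → s.re ≤ b → ‖H s‖ ≤ B * (1 + |s.im|) ^ (-(3 / 2 : ℝ))) :
    ∫ y : ℝ, H (a + y * Complex.I) = ∫ y : ℝ, H (b + y * Complex.I) := by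
  have ia : Integrable (fun y : ℝ => H (a + y * Complex.I)) :=
    vertical_integrable (fun s hs => (hd s hs.ge (hs.le.trans hab)).continuousAt)
      (fun s hs => hB s hs.ge (hs.le.trans hab))
  have ib : Integrable (fun y : ℝ => H (b + y * Complex.I)) :=
    vertical_integrable (fun s hs => (hd s (hab.trans hs.ge) hs.le).continuousAt)
      (fun s hs => hB s (hab.trans hs.ge) hs.le)
  -- rectangles
  have hrect : ∀ T : ℝ, 0 < T →
      (∫ x in a..b, H (x + (-T : ℝ) * Complex.I)) - (∫ x in a..b, H (x + (T : ℝ) * Complex.I)) +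
        Complex.I • (∫ y in (-T)..T, H (b + y * Complex.I)) -
        Complex.I • (∫ y in (-T)..T, H (a + y * Complex.I)) = 0 := by
    intro T hT
    have := Complex.integral_boundary_rect_eq_zero_of_differentiableOn H ⟨a, -T⟩ ⟨b, T⟩ ?_
    · simpa using this
    · intro s hs
      rw [Complex.mem_reProdIm] at hs
      simp only at hs
      rw [Set.uIcc_of_le hab] at hs
      exact (hd s hs.1.1 hs.1.2).differentiableWithinAt
  have hB0 : 0 ≤ B := by
    have := (norm_nonneg _).trans (hB a (by simp) (by simpa using hab))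
    simpa using this
  have hhor : ∀ T : ℝ, ‖∫ x in a..b, H (x + (T : ℝ) * Complex.I)‖ ≤
      B * (1 + |T|) ^ (-(3 / 2 : ℝ)) * |b - a| := by
    intro T
    refine intervalIntegral.norm_integral_le_of_norm_le_const fun x hx => ?_
    rw [Set.uIoc_of_le hab] at hx
    have := hB (x + (T : ℝ) * Complex.I) (by simpa using hx.1.le) (by simpa using hx.2)
    simpa using this
  have hlim0 : Tendsto (fun T : ℝ => B * (1 + |T|) ^ (-(3 / 2 : ℝ)) * |b - a|) atTop (𝓝 0) := by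
    have h1 : Tendsto (fun T : ℝ => (1 + |T|)) atTop atTop :=
      tendsto_atTop_add_const_left _ _ tendsto_abs_atTop_atTop
    have h2 := (tendsto_rpow_neg_atTop (y := 3 / 2) (by norm_num)).comp h1
    have h3 := (h2.const_mul B).mul_const |b - a|
    simpa using h3
  have hl1 : Tendsto (fun T : ℝ => ∫ x in a..b, H (x + (T : ℝ) * Complex.I)) atTop (𝓝 0) :=
    squeeze_zero_norm hhor hlim0
  have hl2 : Tendsto (fun T : ℝ => ∫ x in a..b, H (x + (-T : ℝ) * Complex.I)) atTop (𝓝 0) := by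
    refine squeeze_zero_norm (a := fun T : ℝ => B * (1 + |T|) ^ (-(3 / 2 : ℝ)) * |b - a|) ?_ hlim0
    intro T
    have := hhor (-T)
    rw [abs_neg] at this
    exact this
  have hl3 := intervalIntegral_tendsto_integral ib tendsto_neg_atTop_atBot tendsto_id
  have hl4 := intervalIntegral_tendsto_integral ia tendsto_neg_atTop_atBot tendsto_id
  have hfin := ((hl2.sub hl1).add (hl3.const_smul Complex.I)).sub (hl4.const_smul Complex.I)
  have hzero : Tendsto (fun _ : ℝ => (0:ℂ)) atTop (𝓝 0) := tendsto_const_nhds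
  have huniq := tendsto_nhds_unique (hfin.congr' ?_) hzero
  · rw [sub_zero, zero_add, ← smul_sub, smul_eq_mul] at huniq
    have := (mul_eq_zero.mp huniq).resolve_left Complex.I_ne_zero
    exact (sub_eq_zero.mp this).symm
  · filter_upwards [eventually_gt_atTop 0] with T hT
    simpa using hrect T hT

theorem Kc_diff (k : ℕ) (b : Bool) (s : ℂ) (h1 : 0 < s.re + k) (h2 : s.re < 1) :
    DifferentiableAt ℂ (Kc k b) s := by
  have d1 : DifferentiableAt ℂ (fun s : ℂ => Complex.Gamma (s + k)) s := by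
    have h3 : DifferentiableAt ℂ Complex.Gamma (s + k) := by
      apply Complex.differentiableAt_Gamma
      intro m hm
      have : (s + (k : ℂ)).re = (-(m : ℂ)).re := by rw [hm]
      simp at this
      have h2 : (0 : ℝ) ≤ m := Nat.cast_nonneg m
      linarith
    exact h3.comp s (by fun_prop)
  have d2 : DifferentiableAt ℂ (fun s : ℂ => Complex.Gamma (1 - s)) s := by
    have h3 : DifferentiableAt ℂ Complex.Gamma (1 - s) := by
      apply Complex.differentiableAt_Gamma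
      intro m hm
      have : (1 - s).re = (-(m : ℂ)).re := by rw [hm]
      simp at this
      have h2 : (0 : ℝ) ≤ m := Nat.cast_nonneg m
      linarith
    exact h3.comp s (by fun_prop)
  have d3 : DifferentiableAt ℂ (fun s : ℂ => (2 * (Real.pi : ℂ)) ^ (-(2 * (1 - s)))) s := by
    have hpi : (2 * (Real.pi : ℂ)) ≠ 0 := by
      have := Real.pi_ne_zero
      simp [this]
    have h4 : DifferentiableAt ℂ (fun s : ℂ => -(2 * (1 - s))) s := by fun_prop
    exact h4.const_cpow (Or.inl hpi)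
  have d4 : DifferentiableAt ℂ
      (fun s : ℂ => (if b then 2 * Complex.cos ((Real.pi : ℂ) * (1 - s)) else 2)) s := by
    cases b
    · simp
    · simp only [if_true]
      fun_prop
  exact (((d1.div_const _).mul (d2.pow 2)).mul d3).mul d4

/-- the integrand -/
def F (k : ℕ) (b : Bool) (y : ℝ) (z : ℂ) : ℂ := Kc k b z * (y : ℂ) ^ (z - 1)

theorem F_diff (k : ℕ) (b : Bool) {y : ℝ} (hy : 0 < y) (s : ℂ) (h1 : 0 < s.re + k)
    (h2 : s.re < 1) : DifferentiableAt ℂ (F k b y) s := by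
  have h3 : DifferentiableAt ℂ (fun z : ℂ => z - 1) s := by fun_prop
  exact (Kc_diff k b s h1 h2).mul (h3.const_cpow (Or.inl (by exact_mod_cast hy.ne')))

theorem pow_le (x : ℝ) (hx : 1 ≤ x) : x / x ^ 4 ≤ x ^ (-(3 / 2 : ℝ)) ∧
    1 / x ^ 4 ≤ x ^ (-(3 / 2 : ℝ)) := by
  have hx0 : 0 < x := by linarith
  have h1 : x / x ^ 4 = x ^ (-(3 : ℝ)) := by
    rw [Real.rpow_neg hx0.le, show (3 : ℝ) = ((3 : ℕ) : ℝ) by norm_num, Real.rpow_natCast]
    field_simp
  have h2 : x ^ (-(3 : ℝ)) ≤ x ^ (-(3 / 2 : ℝ)) := Real.rpow_le_rpow_of_exponent_le hx (by norm_num)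
  have h3 : 1 / x ^ 4 ≤ x / x ^ 4 := by gcongr
  exact ⟨h1 ▸ h2, h3.trans (h1 ▸ h2)⟩

theorem cpow_sub {c y y' : ℝ} (hc : 0 < c) (hy : 0 < y) (hyy : y ≤ y') (τ : ℝ) :
    ‖(y : ℂ) ^ (-(c : ℂ) + (τ : ℂ) * I) - (y' : ℂ) ^ (-(c : ℂ) + (τ : ℂ) * I)‖ ≤
      (c + 1) * (1 + |τ|) * (y ^ (-c) * ((y' - y) / y)) := by
  set w : ℂ := -(c : ℂ) + (τ : ℂ) * I with hw
  have hwre : w.re = -c := by simp [hw]
  have hw0 : w ≠ 0 := by
    intro h
    rw [h] at hwre
    simp at hwre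
    linarith
  have hwn : ‖w‖ ≤ (c + 1) * (1 + |τ|) := by
    have h1 : ‖w‖ ≤ ‖-(c : ℂ)‖ + ‖(τ : ℂ) * I‖ := norm_add_le _ _
    rw [norm_neg, Complex.norm_real, norm_mul, Complex.norm_real, Complex.norm_I, mul_one,
      Real.norm_eq_abs, Real.norm_eq_abs, abs_of_pos hc] at h1
    nlinarith [abs_nonneg τ, mul_nonneg hc.le (abs_nonneg τ)]
  have hder : ∀ u ∈ Set.Icc y y', HasDerivWithinAt (fun u : ℝ => (u : ℂ) ^ w)
      (w * (u : ℂ) ^ (w - 1)) (Set.Icc y y') u := fun u hu =>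
    (hasDerivAt_ofReal_cpow_const (lt_of_lt_of_le hy hu.1).ne' hw0).hasDerivWithinAt
  have hbd : ∀ u ∈ Set.Icc y y', ‖w * (u : ℂ) ^ (w - 1)‖ ≤ ‖w‖ * y ^ (-c - 1) := by
    intro u hu
    have hu0 : 0 < u := lt_of_lt_of_le hy hu.1
    rw [norm_mul, Complex.norm_cpow_eq_rpow_re_of_pos hu0]
    have : (w - 1).re = -c - 1 := by simp [hwre]
    rw [this]
    exact mul_le_mul_of_nonneg_left
      (Real.rpow_le_rpow_of_nonpos hy hu.1 (by linarith)) (norm_nonneg _)
  have h2 := (convex_Icc y y').norm_image_sub_le_of_norm_hasDerivWithin_le hder hbd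
    (Set.right_mem_Icc.2 hyy) (Set.left_mem_Icc.2 hyy)
  have h4 : ‖y - y'‖ = y' - y := by
    rw [Real.norm_eq_abs, abs_sub_comm, abs_of_nonneg (by linarith)]
  have h5 : y ^ (-c - 1) * (y' - y) = y ^ (-c) * ((y' - y) / y) := by
    rw [Real.rpow_sub_one hy.ne']
    field_simp
  rw [h4, mul_assoc, h5] at h2
  exact h2.trans (mul_le_mul_of_nonneg_right hwn
    (mul_nonneg (by positivity) (div_nonneg (by linarith) hy.le)))

end TKER

open TKER in
theorem t_KER (h : P_KU) : P_KER := by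
  intro c hc
  set c1 := min c (3 / 2) with hc1
  set c2 := max c (3 / 2) with hc2
  have hc10 : 0 < c1 := lt_min hc (by norm_num)
  have h12 : c1 ≤ c2 := (min_le_left _ _).trans (le_max_left _ _)
  obtain ⟨C, A, k0, hC, hK⟩ := h c1 c2 hc10 h12
  set J : ℝ := ∫ τ : ℝ, (1 + |τ|) ^ (-(3 / 2 : ℝ)) with hJ
  have hJ0 : 0 ≤ J := integral_nonneg fun τ => by positivity
  refine ⟨C * (c + 1) * (J + 1), A, max k0 (⌈c2⌉₊), by positivity, ?_⟩
  intro k hk b y hy
  have hk0 : k0 ≤ k := (le_max_left _ _).trans hk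
  have hkc : c2 ≤ k := (Nat.le_ceil c2).trans (by exact_mod_cast (le_max_right _ _).trans hk)
  have hCk : 0 ≤ C * (k : ℝ) ^ A := by positivity
  -- bounds in the strip
  have hstrip : ∀ (y : ℝ), 0 < y → ∀ s : ℂ, 1 - c2 ≤ s.re → s.re ≤ 1 - c1 →
      ‖F k b y s‖ ≤ C * (k : ℝ) ^ A / (1 + |s.im|) ^ 4 * y ^ (s.re - 1) := by
    intro y hy s hs1 hs2
    have h1 := hK k hk0 b (1 - s.re) (by linarith) (by linarith) s.im
    have h2 : (((1 - (1 - s.re) : ℝ) : ℂ) + (s.im : ℂ) * I) = s := by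
      rw [sub_sub_cancel]
      exact Complex.re_add_im s
    rw [h2] at h1
    have h3 : ‖(y : ℂ) ^ (s - 1)‖ = y ^ (s.re - 1) := by
      rw [Complex.norm_cpow_eq_rpow_re_of_pos hy]
      simp
    rw [F, norm_mul, h3]
    exact mul_le_mul_of_nonneg_right h1 (by positivity)
  have hdiff : ∀ (y : ℝ), 0 < y → ∀ s : ℂ, 1 - c2 ≤ s.re → s.re ≤ 1 - c1 →
      DifferentiableAt ℂ (F k b y) s := fun y hy s hs1 hs2 =>
    F_diff k b hy s (by linarith) (by linarith)
  have hstrip2 : ∀ (y : ℝ), 0 < y → ∀ s : ℂ, 1 - c2 ≤ s.re → s.re ≤ 1 - c1 →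
      ‖F k b y s‖ ≤ (C * (k : ℝ) ^ A * (y ^ (-c1) + y ^ (-c2))) *
        (1 + |s.im|) ^ (-(3 / 2 : ℝ)) := by
    intro y hy s hs1 hs2
    have h1 := hstrip y hy s hs1 hs2
    have h2 := (pow_le (1 + |s.im|) (by linarith [abs_nonneg s.im])).2
    have h3 : y ^ (s.re - 1) ≤ y ^ (-c1) + y ^ (-c2) := by
      have p1 : 0 < y ^ (-c1) := Real.rpow_pos_of_pos hy _
      have p2 : 0 < y ^ (-c2) := Real.rpow_pos_of_pos hy _
      rcases le_total 1 y with h | h
      · have := Real.rpow_le_rpow_of_exponent_le h (show s.re - 1 ≤ -c1 by linarith)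
        linarith
      · have := Real.rpow_le_rpow_of_exponent_ge hy h (show -c2 ≤ s.re - 1 by linarith)
        linarith
    have h4 : 0 ≤ y ^ (s.re - 1) := (Real.rpow_pos_of_pos hy _).le
    have h5 : C * (k : ℝ) ^ A / (1 + |s.im|) ^ 4 ≤
        C * (k : ℝ) ^ A * (1 + |s.im|) ^ (-(3 / 2 : ℝ)) := by
      rw [div_eq_mul_one_div]
      exact mul_le_mul_of_nonneg_left h2 hCk
    calc ‖F k b y s‖ ≤ C * (k : ℝ) ^ A / (1 + |s.im|) ^ 4 * y ^ (s.re - 1) := h1
      _ ≤ (C * (k : ℝ) ^ A * (1 + |s.im|) ^ (-(3 / 2 : ℝ))) * (y ^ (-c1) + y ^ (-c2)) :=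
        mul_le_mul h5 h3 h4 (by positivity)
      _ = _ := by ring
  have hshift : ∀ (y : ℝ), 0 < y → ∀ c' : ℝ, c1 ≤ c' → c' ≤ c2 →
      ∫ τ : ℝ, F k b y (((1 - c2 : ℝ) : ℂ) + τ * Complex.I) =
        ∫ τ : ℝ, F k b y (((1 - c' : ℝ) : ℂ) + τ * Complex.I) := by
    intro y hy c' hc'1 hc'2
    refine contour_shift (B := C * (k : ℝ) ^ A * (y ^ (-c1) + y ^ (-c2))) (by linarith)
      (fun s hs1 hs2 => hdiff y hy s hs1 (by linarith))
      (fun s hs1 hs2 => hstrip2 y hy s hs1 (by linarith))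
  have hint : ∀ (y : ℝ), 0 < y →
      Integrable (fun τ : ℝ => F k b y (((1 - c : ℝ) : ℂ) + τ * Complex.I)) := by
    intro y hy
    refine vertical_integrable (B := C * (k : ℝ) ^ A * (y ^ (-c1) + y ^ (-c2)))
      (fun s hs => (hdiff y hy s ?_ ?_).continuousAt) (fun s hs => hstrip2 y hy s ?_ ?_)
    · rw [hs]; linarith [le_max_left c (3 / 2)]
    · rw [hs]; linarith [min_le_left c (3 / 2)]
    · rw [hs]; linarith [le_max_left c (3 / 2)]
    · rw [hs]; linarith [min_le_left c (3 / 2)]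
  have hHk : ∀ (y : ℝ), 0 < y → Hk k b y = (1 / (2 * (Real.pi : ℂ))) *
      ∫ τ : ℝ, F k b y (((1 - c : ℝ) : ℂ) + τ * Complex.I) := by
    intro y hy
    rw [← hshift y hy c (min_le_left _ _) (le_max_left _ _),
      hshift y hy (3 / 2) (min_le_right _ _) (le_max_right _ _)]
    unfold Hk F
    have e1 : (((1 - 3 / 2 : ℝ) : ℂ)) = -1 / 2 := by push_cast; norm_num
    have e2 : ∀ τ : ℝ, (-1 / 2 + (τ : ℂ) * I - 1 : ℂ) = -3 / 2 + (τ : ℂ) * I := fun τ => by ring
    simp only [e1, e2]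
  have h2pi : ‖(1 / (2 * (Real.pi : ℂ)))‖ ≤ 1 := by
    have h2 : ‖(2 : ℂ)‖ = 2 := by simp
    rw [norm_div, norm_one, norm_mul, Complex.norm_real, Real.norm_eq_abs,
      abs_of_pos Real.pi_pos, h2, div_le_one (by positivity)]
    linarith [Real.pi_gt_three]
  have hKc : ∀ τ : ℝ, ‖Kc k b (((1 - c : ℝ) : ℂ) + (τ : ℂ) * I)‖ ≤
      C * (k : ℝ) ^ A / (1 + |τ|) ^ 4 :=
    hK k hk0 b c (min_le_left _ _) (le_max_left _ _)
  have hexp : ∀ τ : ℝ, (((1 - c : ℝ) : ℂ) + (τ : ℂ) * I - 1) = -(c : ℂ) + (τ : ℂ) * I := by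
    intro τ
    push_cast
    ring
  constructor
  · rw [hHk y hy, norm_mul]
    have h1 : ‖∫ τ : ℝ, F k b y (((1 - c : ℝ) : ℂ) + τ * Complex.I)‖ ≤
        ∫ τ : ℝ, C * (k : ℝ) ^ A * y ^ (-c) * (1 + |τ|) ^ (-(3 / 2 : ℝ)) := by
      refine norm_integral_le_of_norm_le (integrable_decay.const_mul _)
        (Eventually.of_forall fun τ => ?_)
      have h3 : ‖(y : ℂ) ^ (-(c : ℂ) + (τ : ℂ) * I)‖ = y ^ (-c) := by
        rw [Complex.norm_cpow_eq_rpow_re_of_pos hy]
        simp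
      rw [F, norm_mul, hexp, h3]
      have h2 := (pow_le (1 + |τ|) (by linarith [abs_nonneg τ])).2
      have h5 : C * (k : ℝ) ^ A / (1 + |τ|) ^ 4 ≤
          C * (k : ℝ) ^ A * (1 + |τ|) ^ (-(3 / 2 : ℝ)) := by
        rw [div_eq_mul_one_div]
        exact mul_le_mul_of_nonneg_left h2 hCk
      calc _ ≤ (C * (k : ℝ) ^ A * (1 + |τ|) ^ (-(3 / 2 : ℝ))) * y ^ (-c) :=
            mul_le_mul_of_nonneg_right ((hKc τ).trans h5) (by positivity)
        _ = _ := by ring
    rw [integral_const_mul, ← hJ] at h1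
    have hy1 : 0 ≤ y ^ (-c) := by positivity
    calc ‖(1 / (2 * (Real.pi : ℂ)))‖ * ‖∫ τ : ℝ, F k b y (((1 - c : ℝ) : ℂ) + τ * Complex.I)‖
        ≤ 1 * (C * (k : ℝ) ^ A * y ^ (-c) * J) := mul_le_mul h2pi h1 (norm_nonneg _) zero_le_one
      _ = (C * (k : ℝ) ^ A * y ^ (-c)) * J := by ring
      _ ≤ (C * (k : ℝ) ^ A * y ^ (-c)) * ((c + 1) * (J + 1)) := by
        refine mul_le_mul_of_nonneg_left ?_ (by positivity)
        nlinarith [mul_nonneg hc.le hJ0]
      _ = _ := by ring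
  · intro y' hyy
    have hy' : 0 < y' := lt_of_lt_of_le hy hyy
    rw [hHk y hy, hHk y' hy', ← mul_sub, ← integral_sub (hint y hy) (hint y' hy'), norm_mul]
    have hd0 : 0 ≤ y ^ (-c) * ((y' - y) / y) :=
      mul_nonneg (by positivity) (div_nonneg (by linarith) hy.le)
    have h1 : ‖∫ τ : ℝ, (F k b y (((1 - c : ℝ) : ℂ) + τ * Complex.I) -
        F k b y' (((1 - c : ℝ) : ℂ) + τ * Complex.I))‖ ≤
        ∫ τ : ℝ, C * (k : ℝ) ^ A * (c + 1) * (y ^ (-c) * ((y' - y) / y)) *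
          (1 + |τ|) ^ (-(3 / 2 : ℝ)) := by
      refine norm_integral_le_of_norm_le (integrable_decay.const_mul _)
        (Eventually.of_forall fun τ => ?_)
      rw [F, F, ← mul_sub, norm_mul, hexp]
      have h3 := cpow_sub hc hy hyy τ
      have h2 := (pow_le (1 + |τ|) (by linarith [abs_nonneg τ])).1
      calc _ ≤ C * (k : ℝ) ^ A / (1 + |τ|) ^ 4 *
            ((c + 1) * (1 + |τ|) * (y ^ (-c) * ((y' - y) / y))) :=
            mul_le_mul (hKc τ) h3 (norm_nonneg _) (by positivity)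
        _ = C * (k : ℝ) ^ A * (c + 1) * (y ^ (-c) * ((y' - y) / y)) *
            ((1 + |τ|) / (1 + |τ|) ^ 4) := by ring
        _ ≤ _ := mul_le_mul_of_nonneg_left h2 (by positivity)
    rw [integral_const_mul, ← hJ] at h1
    calc _ ≤ 1 * (C * (k : ℝ) ^ A * (c + 1) * (y ^ (-c) * ((y' - y) / y)) * J) :=
          mul_le_mul h2pi h1 (norm_nonneg _) zero_le_one
      _ = (C * (k : ℝ) ^ A * (c + 1) * (y ^ (-c) * ((y' - y) / y))) * J := by ring
      _ ≤ (C * (k : ℝ) ^ A * (c + 1) * (y ^ (-c) * ((y' - y) / y))) * (J + 1) :=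
        mul_le_mul_of_nonneg_left (by linarith) (by positivity)
      _ = _ := by ring

end

end Pool.Agent.H262R4.TM
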