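import Pool.Agent.H262R4.TM.Defs
import Pool.Agent.H442R2.KF.Tri
import Pool.Agent.H510R2.Div

/-! TM project, task TRI: the dual sums on average, from `KF.tri`. -/

namespace Pool.Agent.H262R4.TM

open Finset Filter Topology MeasureTheory Complex
open Pool.Agent.H306R2.SM (om cl ef Xf Gf Yf ee)
open Pool.Agent.H442R2.KF (kf tau)

namespace TTRI

/-- an absolute constant -/
noncomputable def S0 : ℝ := ∑' n : ℕ, 1 / ((n : ℝ) + 1) ^ 2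

lemma S0_summable : Summable (fun n : ℕ => 1 / ((n : ℝ) + 1) ^ 2) := by
  have h1 : Summable (fun n : ℕ => 1 / (n : ℝ) ^ 2) :=
    Real.summable_one_div_nat_pow.mpr one_lt_two
  have h2 := (summable_nat_add_iff 1).mpr h1
  refine h2.congr fun n => ?_
  push_cast
  rfl

lemma S0_nonneg : 0 ≤ S0 := tsum_nonneg fun n => by positivity

lemma tau_le (n : ℕ) : tau n ≤ n := by
  unfold tau
  exact_mod_cast Nat.card_divisors_le_self n

lemma tau_nonneg (n : ℕ) : 0 ≤ tau n := by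
  unfold tau
  positivity

lemma term_bound (σ : ℤ) (h l : ℕ) (H : ℝ → ℂ) (Q c X R : ℝ) (J : ℕ) (hQ : 0 ≤ Q) (hc : 3 ≤ c)
    (hX : 0 < X) (hR : 0 < R) (hRX : X ≤ R * (J + 1))
    (hH : ∀ y : ℝ, 0 < y → ‖H y‖ ≤ Q * y ^ (-c)) (n : ℕ) :
    ‖(tau (n + (J + 1)) : ℂ) * kf (σ * ((n + (J + 1) : ℕ) : ℤ)) l h *
      H (((n + (J + 1) : ℕ) : ℝ) * R)‖ ≤ Q * X ^ (-c) * (J + 1) ^ 3 * (1 / ((n : ℝ) + 1) ^ 2) := by
  set m : ℕ := n + (J + 1) with hm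
  have hm1 : (n : ℝ) + 1 ≤ m := by
    rw [hm]; push_cast
    have : (0 : ℝ) ≤ J := Nat.cast_nonneg _
    linarith
  have hm2 : (J : ℝ) + 1 ≤ m := by
    rw [hm]; push_cast
    have : (0 : ℝ) ≤ n := Nat.cast_nonneg _
    linarith
  have hn0 : (0 : ℝ) ≤ n := Nat.cast_nonneg _
  have hJ0 : (0 : ℝ) ≤ J := Nat.cast_nonneg _
  have hm0 : (0 : ℝ) < m := by linarith
  have hJ1 : (0 : ℝ) < (J : ℝ) + 1 := by linarith
  rw [norm_mul, norm_mul, Pool.Agent.H442R2.KF.norm_kf, mul_one, Complex.norm_real,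
    Real.norm_of_nonneg (tau_nonneg m)]
  have h1 : (m : ℝ) / (J + 1) * X ≤ m * R := by
    calc (m : ℝ) / (J + 1) * X ≤ (m : ℝ) / (J + 1) * (R * (J + 1)) := by gcongr
      _ = m * R := by field_simp
  have hq : 0 < (m : ℝ) / (J + 1) := by positivity
  have hq1 : 1 ≤ (m : ℝ) / (J + 1) := by rw [le_div_iff₀ hJ1]; linarith
  have h2 : ((m : ℝ) * R) ^ (-c) ≤ ((J + 1) ^ 3 / (m : ℝ) ^ 3) * X ^ (-c) := by
    calc ((m : ℝ) * R) ^ (-c) ≤ ((m : ℝ) / (J + 1) * X) ^ (-c) :=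
          Real.rpow_le_rpow_of_nonpos (by positivity) h1 (by linarith)
      _ = ((m : ℝ) / (J + 1)) ^ (-c) * X ^ (-c) := Real.mul_rpow hq.le hX.le
      _ ≤ ((m : ℝ) / (J + 1)) ^ (-(3 : ℝ)) * X ^ (-c) := by
          gcongr
      _ = ((J + 1) ^ 3 / (m : ℝ) ^ 3) * X ^ (-c) := by
          congr 1
          rw [Real.rpow_neg hq.le]
          have : ((m : ℝ) / (J + 1)) ^ (3 : ℝ) = ((m : ℝ) / (J + 1)) ^ (3 : ℕ) := by
            rw [← Real.rpow_natCast]; norm_num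
          rw [this, div_pow, inv_div]
  have h3 : ‖H ((m : ℝ) * R)‖ ≤ Q * (((J + 1) ^ 3 / (m : ℝ) ^ 3) * X ^ (-c)) :=
    (hH _ (by positivity)).trans (mul_le_mul_of_nonneg_left h2 hQ)
  have hXc : 0 ≤ X ^ (-c) := by positivity
  calc tau m * ‖H ((m : ℝ) * R)‖ ≤ m * (Q * (((J + 1) ^ 3 / (m : ℝ) ^ 3) * X ^ (-c))) := by
        have := tau_le m
        gcongr
    _ = Q * X ^ (-c) * (J + 1) ^ 3 * (1 / (m : ℝ) ^ 2) := by field_simp
    _ ≤ Q * X ^ (-c) * (J + 1) ^ 3 * (1 / ((n : ℝ) + 1) ^ 2) := by gcongr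

lemma tail (σ : ℤ) (h l : ℕ) (H : ℝ → ℂ) (Q c X R : ℝ) (J : ℕ) (hQ : 0 ≤ Q) (hc : 3 ≤ c)
    (hX : 0 < X) (hR : 0 < R) (hRX : X ≤ R * (J + 1))
    (hH : ∀ y : ℝ, 0 < y → ‖H y‖ ≤ Q * y ^ (-c)) :
    ‖(∑' n : ℕ, (tau n : ℂ) * kf (σ * n) l h * H ((n : ℝ) * R)) -
      ∑ n ∈ Icc 1 J, (tau n : ℂ) * kf (σ * n) l h * H ((n : ℝ) * R)‖ ≤
      Q * X ^ (-c) * (J + 1) ^ 3 * S0 := by
  set f : ℕ → ℂ := fun n => (tau n : ℂ) * kf (σ * n) l h * H ((n : ℝ) * R) with hf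
  have hb : ∀ n : ℕ, ‖f (n + (J + 1))‖ ≤ Q * X ^ (-c) * (J + 1) ^ 3 * (1 / ((n : ℝ) + 1) ^ 2) :=
    fun n => term_bound σ h l H Q c X R J hQ hc hX hR hRX hH n
  have hsum : Summable (fun n : ℕ => Q * X ^ (-c) * (J + 1) ^ 3 * (1 / ((n : ℝ) + 1) ^ 2)) :=
    S0_summable.mul_left _
  have hs1 : Summable (fun n => f (n + (J + 1))) := Summable.of_norm_bounded hsum hb
  have hs : Summable f := (summable_nat_add_iff (J + 1)).mp hs1
  have e1 := hs.sum_add_tsum_nat_add (J + 1)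
  have e2 : ∑ n ∈ range (J + 1), f n = ∑ n ∈ Icc 1 J, f n := by
    rw [range_eq_Ico, sum_eq_sum_Ico_succ_bot (Nat.succ_pos J)]
    have h0 : f 0 = 0 := by
      simp only [hf]
      have : tau 0 = 0 := by unfold tau; simp
      rw [this]
      simp
    rw [h0, zero_add]
    rfl
  rw [← e1, e2, add_sub_cancel_left]
  have h5 := tsum_of_norm_bounded (hsum.hasSum) hb
  rw [tsum_mul_left] at h5
  exact h5

lemma split (M J : ℕ) (α β : ℕ → ℂ) (hα : ∀ m, ‖α m‖ ≤ 1) (hβ : ∀ m, ‖β m‖ ≤ 1) (σ : ℤ)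
    (H : ℝ → ℂ) (Q c X Y : ℝ) (hQ : 0 ≤ Q) (hc : 3 ≤ c) (hX : 0 < X) (hY : 0 < Y)
    (hXR : ∀ l ∈ Ioc M (2 * M + 1), ∀ h ∈ Ioc M (2 * M + 1),
      X ≤ Y / ((h : ℝ) * l) * ((J : ℝ) + 1))
    (hH : ∀ y : ℝ, 0 < y → ‖H y‖ ≤ Q * y ^ (-c)) :
    ‖∑ l ∈ Ioc M (2 * M + 1), ∑ h ∈ (Ioc M (2 * M + 1)).filter (fun h => Nat.Coprime l h),
      α l * β h * ((1 / ((h : ℝ) * l) : ℝ) : ℂ) *
        (∑' n : ℕ, (tau n : ℂ) * kf (σ * n) l h * H ((n : ℝ) * Y / ((h : ℝ) * l)))‖ ≤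
    ‖∑ l ∈ Ioc M (2 * M + 1), ∑ h ∈ (Ioc M (2 * M + 1)).filter (fun h => Nat.Coprime l h),
      α l * β h * ((1 / ((h : ℝ) * l) : ℝ) : ℂ) *
        (∑ n ∈ Icc 1 J, (tau n : ℂ) * kf (σ * n) l h * H ((n : ℝ) * Y / ((h : ℝ) * l)))‖ +
      Q * X ^ (-c) * (J + 1) ^ 3 * S0 := by
  set Tb : ℝ := Q * X ^ (-c) * (J + 1) ^ 3 * S0 with hTb
  have hTb0 : 0 ≤ Tb := by
    have := S0_nonneg
    positivity
  rw [← sub_le_iff_le_add']
  refine (norm_sub_norm_le _ _).trans ?_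
  rw [← sum_sub_distrib]
  have key : ∀ l ∈ Ioc M (2 * M + 1), ∀ h ∈ Ioc M (2 * M + 1),
      ‖α l * β h * ((1 / ((h : ℝ) * l) : ℝ) : ℂ) *
        (∑' n : ℕ, (tau n : ℂ) * kf (σ * n) l h * H ((n : ℝ) * Y / ((h : ℝ) * l))) -
      α l * β h * ((1 / ((h : ℝ) * l) : ℝ) : ℂ) *
        (∑ n ∈ Icc 1 J, (tau n : ℂ) * kf (σ * n) l h * H ((n : ℝ) * Y / ((h : ℝ) * l)))‖ ≤
      1 / ((M : ℝ) + 1) ^ 2 * Tb := by
    intro l hl h hh
    rw [mem_Ioc] at hl hh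
    have hl' : (M : ℝ) + 1 ≤ l := by exact_mod_cast hl.1
    have hh' : (M : ℝ) + 1 ≤ h := by exact_mod_cast hh.1
    have hM0 : (0 : ℝ) ≤ M := Nat.cast_nonneg _
    have hl0 : (0 : ℝ) < l := by linarith
    have hh0 : (0 : ℝ) < h := by linarith
    rw [← mul_sub, norm_mul, norm_mul, norm_mul, Complex.norm_real, Real.norm_of_nonneg (by positivity)]
    have h1 := tail σ h l H Q c X (Y / ((h : ℝ) * l)) J hQ hc hX (by positivity)
      (hXR l (mem_Ioc.mpr hl) h (mem_Ioc.mpr hh)) hH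
    simp only [← mul_div_assoc] at h1
    have h2 : 1 / ((h : ℝ) * l) ≤ 1 / ((M : ℝ) + 1) ^ 2 := by
      apply one_div_le_one_div_of_le (by positivity)
      rw [sq]
      gcongr
    have h3 : ‖α l‖ * ‖β h‖ ≤ 1 * 1 := by
      have := hα l
      have := hβ h
      gcongr
    calc ‖α l‖ * ‖β h‖ * (1 / ((h : ℝ) * l)) * _ ≤ 1 * 1 * (1 / ((M : ℝ) + 1) ^ 2) * Tb := by
          gcongr
      _ = _ := by ring
  have hM0 : (0 : ℝ) ≤ M := Nat.cast_nonneg _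
  have hcard : ((Ioc M (2 * M + 1)).card : ℝ) = M + 1 := by
    rw [Nat.card_Ioc]
    have : 2 * M + 1 - M = M + 1 := by omega
    rw [this]; push_cast; ring
  calc ‖∑ l ∈ Ioc M (2 * M + 1), ((∑ h ∈ (Ioc M (2 * M + 1)).filter (fun h => Nat.Coprime l h),
        α l * β h * ((1 / ((h : ℝ) * l) : ℝ) : ℂ) *
        (∑' n : ℕ, (tau n : ℂ) * kf (σ * n) l h * H ((n : ℝ) * Y / ((h : ℝ) * l)))) -
        ∑ h ∈ (Ioc M (2 * M + 1)).filter (fun h => Nat.Coprime l h),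
        α l * β h * ((1 / ((h : ℝ) * l) : ℝ) : ℂ) *
        (∑ n ∈ Icc 1 J, (tau n : ℂ) * kf (σ * n) l h * H ((n : ℝ) * Y / ((h : ℝ) * l))))‖
      ≤ ∑ l ∈ Ioc M (2 * M + 1), ∑ h ∈ Ioc M (2 * M + 1), 1 / ((M : ℝ) + 1) ^ 2 * Tb := by
        refine (norm_sum_le _ _).trans (sum_le_sum fun l hl => ?_)
        rw [← sum_sub_distrib]
        refine (norm_sum_le _ _).trans ?_
        refine (sum_le_sum fun h hh => key l hl h (mem_of_mem_filter h hh)).trans ?_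
        refine sum_le_sum_of_subset_of_nonneg (filter_subset _ _) fun _ _ _ => by positivity
    _ = Tb := by
        rw [sum_const, sum_const, nsmul_eq_mul, nsmul_eq_mul, hcard]
        field_simp

/-- the weights -/
noncomputable def psi (B Y : ℝ) (M J : ℕ) (H : ℝ → ℂ) (j : ℕ) (s : ℝ) : ℂ :=
  if 1 ≤ j ∧ j ≤ J then ((tau j / B * ((M : ℝ) ^ 2 / s) : ℝ) : ℂ) * H ((j : ℝ) * Y / s) else 0

lemma inner (M Y c s : ℝ) (hM : 0 < M) (hY : 0 < Y) (hc : 0 < c) (hc1 : c ≤ 1)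
    (hs : M ^ 2 ≤ s) (j : ℕ) (hj : 1 ≤ j) :
    M ^ 2 / s * ((j : ℝ) * Y / s) ^ (-c) ≤ (M ^ 2 / Y) ^ c := by
  have hM2 : 0 < M ^ 2 := by positivity
  have hs0 : 0 < s := hM2.trans_le hs
  have hj1 : (1 : ℝ) ≤ j := by exact_mod_cast hj
  have h1 : ((j : ℝ) * Y / s) ^ (-c) ≤ (Y / s) ^ (-c) := by
    apply Real.rpow_le_rpow_of_nonpos (by positivity) _ (by linarith)
    gcongr
    nlinarith
  have h2 : (Y / s) ^ (-c) = (s / M ^ 2) ^ c * (M ^ 2 / Y) ^ c := by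
    rw [← Real.mul_rpow (by positivity) (by positivity), Real.rpow_neg (by positivity),
      ← Real.inv_rpow (by positivity)]
    congr 1
    field_simp
  have hr : 1 ≤ s / M ^ 2 := by rw [le_div_iff₀ hM2]; linarith
  have h3 : (s / M ^ 2) ^ c ≤ s / M ^ 2 := by
    calc (s / M ^ 2) ^ c ≤ (s / M ^ 2) ^ (1 : ℝ) := Real.rpow_le_rpow_of_exponent_le hr hc1
      _ = _ := Real.rpow_one _
  calc M ^ 2 / s * ((j : ℝ) * Y / s) ^ (-c) ≤ M ^ 2 / s * ((s / M ^ 2) * (M ^ 2 / Y) ^ c) := by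
        rw [h2] at h1
        have := h1.trans (mul_le_mul_of_nonneg_right h3 (by positivity : 0 ≤ (M ^ 2 / Y) ^ c))
        gcongr
    _ = (M ^ 2 / Y) ^ c := by field_simp

lemma lip_aux (B Y Q c : ℝ) (M J : ℕ) (H : ℝ → ℂ) (hM : 1 ≤ M) (hY : 0 < Y) (hB : 0 < B)
    (hQ : 0 ≤ Q) (hc : 0 < c) (hc1 : c ≤ 1)
    (hH : ∀ y : ℝ, 0 < y → ‖H y‖ ≤ Q * y ^ (-c) ∧
      ∀ y' : ℝ, y ≤ y' → ‖H y - H y'‖ ≤ Q * y ^ (-c) * ((y' - y) / y))
    (hBJ : ∀ j : ℕ, 1 ≤ j → j ≤ J → tau j * (Q * ((M : ℝ) ^ 2 / Y) ^ c) ≤ B) (j : ℕ) (s s' : ℝ)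
    (hs : (M : ℝ) ^ 2 ≤ s) (hss : s ≤ s') :
    ‖psi B Y M J H j s - psi B Y M J H j s'‖ ≤ 2 * (s' - s) / (M : ℝ) ^ 2 := by
  have hM0 : (0 : ℝ) < M := by exact_mod_cast hM
  have hM2 : (0 : ℝ) < (M : ℝ) ^ 2 := by positivity
  have hs0 : 0 < s := hM2.trans_le hs
  have hs'0 : 0 < s' := hs0.trans_le hss
  have hd : 0 ≤ s' - s := by linarith
  unfold psi
  by_cases hj : 1 ≤ j ∧ j ≤ J
  · rw [if_pos hj, if_pos hj]
    have hj1 : (1 : ℝ) ≤ j := by exact_mod_cast hj.1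
    have hj0 : (0 : ℝ) < j := by linarith
    set W : ℝ := ((M : ℝ) ^ 2 / Y) ^ c with hW
    have hW0 : 0 ≤ W := by positivity
    have hτ := tau_nonneg j
    have e1 : ((tau j / B * ((M : ℝ) ^ 2 / s) : ℝ) : ℂ) * H ((j : ℝ) * Y / s) -
        ((tau j / B * ((M : ℝ) ^ 2 / s') : ℝ) : ℂ) * H ((j : ℝ) * Y / s') =
        ((tau j / B * ((M : ℝ) ^ 2 / s - (M : ℝ) ^ 2 / s') : ℝ) : ℂ) * H ((j : ℝ) * Y / s) +
        ((tau j / B * ((M : ℝ) ^ 2 / s') : ℝ) : ℂ) *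
          (H ((j : ℝ) * Y / s) - H ((j : ℝ) * Y / s')) := by
      push_cast
      ring
    rw [e1]
    refine (norm_add_le _ _).trans ?_
    rw [norm_mul, norm_mul, Complex.norm_real, Complex.norm_real]
    have h1 : (M : ℝ) ^ 2 / s - (M : ℝ) ^ 2 / s' = (s' - s) / s' * ((M : ℝ) ^ 2 / s) := by
      field_simp
    have h2 : ‖tau j / B * ((M : ℝ) ^ 2 / s - (M : ℝ) ^ 2 / s')‖ =
        tau j / B * ((s' - s) / s' * ((M : ℝ) ^ 2 / s)) := by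
      rw [h1, Real.norm_of_nonneg (by positivity)]
    have h3 : ‖tau j / B * ((M : ℝ) ^ 2 / s')‖ = tau j / B * ((M : ℝ) ^ 2 / s') :=
      Real.norm_of_nonneg (by positivity)
    rw [h2, h3]
    have hy0 : 0 < (j : ℝ) * Y / s := by positivity
    have hy'0 : 0 < (j : ℝ) * Y / s' := by positivity
    have h4 := (hH _ hy0).1
    have h5 : (j : ℝ) * Y / s' ≤ (j : ℝ) * Y / s := by gcongr
    have h6 := (hH _ hy'0).2 _ h5
    rw [norm_sub_rev] at h6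
    have h7 : ((j : ℝ) * Y / s - (j : ℝ) * Y / s') / ((j : ℝ) * Y / s') = (s' - s) / s := by
      field_simp
    rw [h7] at h6
    have h8 := inner M Y c s hM0 hY hc hc1 hs j hj.1
    have h9 := inner M Y c s' hM0 hY hc hc1 (hs.trans hss) j hj.1
    have h10 : (s' - s) / s' ≤ (s' - s) / (M : ℝ) ^ 2 := by
      apply div_le_div_of_nonneg_left hd hM2 (hs.trans hss)
    have h11 : (s' - s) / s ≤ (s' - s) / (M : ℝ) ^ 2 := by
      apply div_le_div_of_nonneg_left hd hM2 hs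
    have hBj := hBJ j hj.1 hj.2
    have hq : tau j / B * (Q * W) ≤ 1 := by
      rw [div_mul_eq_mul_div, div_le_one hB]
      exact hBj
    have a1 : tau j / B * ((s' - s) / s' * ((M : ℝ) ^ 2 / s)) * ‖H ((j : ℝ) * Y / s)‖ ≤
        (tau j / B * (Q * W)) * ((s' - s) / (M : ℝ) ^ 2) := by
      calc tau j / B * ((s' - s) / s' * ((M : ℝ) ^ 2 / s)) * ‖H ((j : ℝ) * Y / s)‖ ≤
          tau j / B * ((s' - s) / (M : ℝ) ^ 2 * ((M : ℝ) ^ 2 / s)) *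
            (Q * ((j : ℝ) * Y / s) ^ (-c)) := by gcongr
        _ = tau j / B * (Q * ((M : ℝ) ^ 2 / s * ((j : ℝ) * Y / s) ^ (-c))) *
            ((s' - s) / (M : ℝ) ^ 2) := by ring
        _ ≤ (tau j / B * (Q * W)) * ((s' - s) / (M : ℝ) ^ 2) := by gcongr
    have a2 : tau j / B * ((M : ℝ) ^ 2 / s') * ‖H ((j : ℝ) * Y / s) - H ((j : ℝ) * Y / s')‖ ≤
        (tau j / B * (Q * W)) * ((s' - s) / (M : ℝ) ^ 2) := by
      calc tau j / B * ((M : ℝ) ^ 2 / s') * ‖H ((j : ℝ) * Y / s) - H ((j : ℝ) * Y / s')‖ ≤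
          tau j / B * ((M : ℝ) ^ 2 / s') *
            (Q * ((j : ℝ) * Y / s') ^ (-c) * ((s' - s) / (M : ℝ) ^ 2)) := by
              gcongr
              exact h6.trans (mul_le_mul_of_nonneg_left h11 (by positivity))
        _ = tau j / B * (Q * ((M : ℝ) ^ 2 / s' * ((j : ℝ) * Y / s') ^ (-c))) *
            ((s' - s) / (M : ℝ) ^ 2) := by ring
        _ ≤ (tau j / B * (Q * W)) * ((s' - s) / (M : ℝ) ^ 2) := by gcongr
    have hdM : 0 ≤ (s' - s) / (M : ℝ) ^ 2 := by positivity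
    calc _ ≤ (tau j / B * (Q * W)) * ((s' - s) / (M : ℝ) ^ 2) +
          (tau j / B * (Q * W)) * ((s' - s) / (M : ℝ) ^ 2) := add_le_add a1 a2
      _ ≤ 1 * ((s' - s) / (M : ℝ) ^ 2) + 1 * ((s' - s) / (M : ℝ) ^ 2) := by gcongr
      _ = _ := by ring
  · rw [if_neg hj, if_neg hj, sub_zero, norm_zero]
    positivity

lemma wei (B Y Q c : ℝ) (M J : ℕ) (H : ℝ → ℂ) (hM : 1 ≤ M) (hY : 0 < Y) (hB : 0 < B)
    (hQ : 0 ≤ Q) (hc : 0 < c) (hc1 : c ≤ 1)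
    (hH : ∀ y : ℝ, 0 < y → ‖H y‖ ≤ Q * y ^ (-c) ∧
      ∀ y' : ℝ, y ≤ y' → ‖H y - H y'‖ ≤ Q * y ^ (-c) * ((y' - y) / y))
    (hBJ : ∀ j : ℕ, 1 ≤ j → j ≤ J → tau j * (Q * ((M : ℝ) ^ 2 / Y) ^ c) ≤ B) (j : ℕ) :
    Pool.Agent.H442R2.KF.Wei M 2 (psi B Y M J H j) := by
  have hM0 : (0 : ℝ) < M := by exact_mod_cast hM
  have hM2 : (0 : ℝ) < (M : ℝ) ^ 2 := by positivity
  refine ⟨fun s hs => ?_, fun s s' hs hs' => ?_⟩
  · have hs0 : 0 < s := hM2.trans_le hs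
    unfold psi
    by_cases hj : 1 ≤ j ∧ j ≤ J
    · rw [if_pos hj, norm_mul, Complex.norm_real]
      have hj1 : (1 : ℝ) ≤ j := by exact_mod_cast hj.1
      have hj0 : (0 : ℝ) < j := by linarith
      have hτ := tau_nonneg j
      rw [Real.norm_of_nonneg (by positivity)]
      have h4 := (hH ((j : ℝ) * Y / s) (by positivity)).1
      have h8 := inner M Y c s hM0 hY hc hc1 hs j hj.1
      calc tau j / B * ((M : ℝ) ^ 2 / s) * ‖H ((j : ℝ) * Y / s)‖ ≤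
          tau j / B * ((M : ℝ) ^ 2 / s) * (Q * ((j : ℝ) * Y / s) ^ (-c)) := by gcongr
        _ = tau j / B * (Q * ((M : ℝ) ^ 2 / s * ((j : ℝ) * Y / s) ^ (-c))) := by ring
        _ ≤ tau j / B * (Q * ((M : ℝ) ^ 2 / Y) ^ c) := by gcongr
        _ ≤ 1 := by
            rw [div_mul_eq_mul_div, div_le_one hB]
            exact hBJ j hj.1 hj.2
    · rw [if_neg hj, norm_zero]
      exact zero_le_one
  · rcases le_total s s' with h | h
    · have h1 := lip_aux B Y Q c M J H hM hY hB hQ hc hc1 hH hBJ j s s' hs h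
      rw [abs_sub_comm, abs_of_nonneg (by linarith : 0 ≤ s' - s)]
      exact h1
    · have h1 := lip_aux B Y Q c M J H hM hY hB hQ hc hc1 hH hBJ j s' s hs' h
      rw [abs_of_nonneg (by linarith : 0 ≤ s - s'), norm_sub_rev]
      exact h1

lemma head_eq (B Y : ℝ) (M J : ℕ) (H : ℝ → ℂ) (hM : 1 ≤ M) (hB : 0 < B) (σ : ℤ) (h l : ℕ)
    (hh : 0 < h) (hl : 0 < l) :
    ((1 / ((h : ℝ) * l) : ℝ) : ℂ) *
        (∑ n ∈ Icc 1 J, (tau n : ℂ) * kf (σ * n) l h * H ((n : ℝ) * Y / ((h : ℝ) * l))) =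
      ((B / (M : ℝ) ^ 2 : ℝ) : ℂ) * Pool.Agent.H442R2.KF.FF (psi B Y M J H) σ J h l := by
  have hM0 : (M : ℂ) ≠ 0 := by
    have : M ≠ 0 := by omega
    exact_mod_cast this
  have hB0 : (B : ℂ) ≠ 0 := by exact_mod_cast hB.ne'
  have hh0 : (h : ℂ) ≠ 0 := by exact_mod_cast hh.ne'
  have hl0 : (l : ℂ) ≠ 0 := by exact_mod_cast hl.ne'
  unfold Pool.Agent.H442R2.KF.FF
  rw [mul_sum, mul_sum]
  refine sum_congr rfl fun j hj => ?_
  rw [mem_Icc] at hj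
  unfold psi
  rw [if_pos hj, mul_comm (l : ℝ) (h : ℝ), mul_comm (j : ℤ) σ]
  push_cast
  field_simp

lemma num1 (x m : ℝ) (h1 : 3 ≤ x) (h2 : x ^ 2 < 2 * m + 1) : x ≤ m := by nlinarith

lemma num2 (m : ℝ) (h1 : 1 ≤ m) : (2 * m + 1) ^ 2 ≤ 9 * m ^ 2 := by nlinarith

lemma num3 (j m : ℝ) (h1 : 1 ≤ m) (h2 : j ≤ m) : j ≤ 2 * m ^ 2 := by nlinarith

lemma log_pow_le (A : ℕ) (c ε : ℝ) (hε : 0 < ε) :
    ∀ᶠ T : ℝ in atTop, c * (4 * Real.log T ^ 2) ^ A ≤ T ^ ε := by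
  have h := isLittleO_log_rpow_rpow_atTop (((2 * A : ℕ) : ℝ)) hε
  have h1 := h.bound (c := 1 / (|c| * 4 ^ A + 1)) (by positivity)
  filter_upwards [h1, eventually_ge_atTop 1] with T hT hT1
  have hlog : 0 ≤ Real.log T := Real.log_nonneg hT1
  rw [Real.rpow_natCast, Real.norm_of_nonneg (by positivity), Real.norm_of_nonneg (by positivity)] at hT
  rw [one_div_mul_eq_div, le_div_iff₀ (by positivity)] at hT
  have h2 : c * (4 * Real.log T ^ 2) ^ A = c * 4 ^ A * Real.log T ^ (2 * A) := by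
    rw [mul_pow, ← pow_mul]; ring
  rw [h2]
  have h3 : c * 4 ^ A * Real.log T ^ (2 * A) ≤ |c| * 4 ^ A * Real.log T ^ (2 * A) := by
    gcongr
    exact le_abs_self c
  have h4 : 0 ≤ Real.log T ^ (2 * A) := by positivity
  nlinarith

end TTRI

open TTRI

theorem t_TRI (hKER : P_KER) : P_TRI := by
  intro θ hθ0 hθ
  set κ : ℝ := 1 - 27 * θ / 14 with hκ
  have hκ0 : 0 < κ := by rw [hκ]; linarith
  have hκ1 : κ < 1 := by rw [hκ]; linarith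
  have hθκ : θ = 14 / 27 * (1 - κ) := by rw [hκ]; ring
  obtain ⟨η0, C3, hη0, hC3, htri⟩ := Pool.Agent.H442R2.KF.tri (κ / 28) (by positivity)
  set η1 : ℝ := min η0 1 with hη1
  have hη1p : 0 < η1 := lt_min hη0 one_pos
  have hη11 : η1 ≤ 1 := min_le_right _ _
  have hη10 : η1 ≤ η0 := min_le_left _ _
  obtain ⟨C1, A1, k1, hC1, hk1⟩ := hKER (η1 / 64) (by positivity)
  obtain ⟨C2, A2, k2, hC2, hk2⟩ := hKER (20 / κ) (by positivity)
  obtain ⟨Cτ, hCτ, hτ⟩ := Pool.Agent.H510R2.divisor_bound (η1 / 64) (by positivity)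
  have hE3' : ∀ᶠ T : ℝ in atTop, ((max k1 k2 : ℕ) : ℝ) + 1 ≤ Real.log T ^ 2 :=
    ((tendsto_pow_atTop two_ne_zero).comp Real.tendsto_log_atTop).eventually_ge_atTop _
  have hE6' : ∀ᶠ T : ℝ in atTop, 9 ≤ T ^ (κ / 4) :=
    (tendsto_rpow_atTop (by positivity)).eventually_ge_atTop _
  have hE7' : ∀ᶠ T : ℝ in atTop, 3 ≤ T ^ (1 / 8 : ℝ) :=
    (tendsto_rpow_atTop (by norm_num)).eventually_ge_atTop _
  have hE8' : ∀ᶠ T : ℝ in atTop, 2 ≤ T ^ (η1 / 32) :=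
    (tendsto_rpow_atTop (by positivity)).eventually_ge_atTop _
  refine ⟨η1 / 32, by positivity, ?_⟩
  filter_upwards [eventually_ge_atTop (3 : ℝ), log_pow_le 1 (2 * Real.pi) (κ / 28) (by positivity),
    hE3', log_pow_le A2 (8 * C2 * S0) 1 one_pos,
    log_pow_le A1 (4 * C3 * C1 * Cτ) (η1 / 32) (by positivity), hE6', hE7', hE8'] with
    T hT3 hE1 hE3 hE4 hE5 hE6 hE7 hE8
  intro k hk M hM α β hα hβ b σ hσ
  have hT0 : 0 < T := by linarith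
  have hT1 : 1 ≤ T := by linarith
  obtain ⟨hka, hkb⟩ := hk
  have hkk : ((max k1 k2 : ℕ) : ℝ) ≤ k := by linarith
  have hkk' : max k1 k2 ≤ k := by exact_mod_cast hkk
  have hk1' : k1 ≤ k := (le_max_left _ _).trans hkk'
  have hk2' : k2 ≤ k := (le_max_right _ _).trans hkk'
  have hkpos : (0 : ℝ) < k := by
    have : (0 : ℝ) ≤ ((max k1 k2 : ℕ) : ℝ) := Nat.cast_nonneg _
    linarith
  set Y : ℝ := Yf k T with hYdef
  have hYeq : Y = T / (2 * Real.pi * k) := rfl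
  have hπ := Real.pi_pos
  have hY0 : 0 < Y := by rw [hYeq]; positivity
  have hY1 : T ^ (1 - κ / 28) ≤ Y := by
    rw [hYeq, Real.rpow_sub hT0, Real.rpow_one]
    apply div_le_div_of_nonneg_left hT0.le (by positivity)
    refine le_trans ?_ hE1
    rw [pow_one]
    gcongr
  have hMT : (M : ℝ) ≤ T := hM.trans (by
    calc T ^ θ ≤ T ^ (1 : ℝ) := Real.rpow_le_rpow_of_exponent_le hT1 (by linarith)
      _ = T := Real.rpow_one T)
  have hM0 : (0 : ℝ) ≤ M := Nat.cast_nonneg _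
  have hS0 := S0_nonneg
  set c2 : ℝ := 20 / κ with hc2
  have hc23 : 3 ≤ c2 := by
    rw [hc2, le_div_iff₀ hκ0]; linarith
  have hXc : (T ^ (κ / 4)) ^ (-c2) = T ^ (-(5 : ℝ)) := by
    rw [← Real.rpow_mul hT0.le]
    congr 1
    rw [hc2]; field_simp; norm_num
  have hX0 : 0 < T ^ (κ / 4) := by positivity
  have htail : ∀ J : ℕ, (J : ℝ) ≤ T →
      C2 * (k : ℝ) ^ A2 * (T ^ (κ / 4)) ^ (-c2) * ((J : ℝ) + 1) ^ 3 * S0 ≤ T ^ (-(1 : ℝ)) := by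
    intro J hJ
    have hJ0 : (0 : ℝ) ≤ J := Nat.cast_nonneg _
    rw [hXc]
    have h1 : ((J : ℝ) + 1) ^ 3 ≤ 8 * T ^ 3 := by
      have h2 : (J : ℝ) + 1 ≤ 2 * T := by linarith
      calc ((J : ℝ) + 1) ^ 3 ≤ (2 * T) ^ 3 := by gcongr
        _ = 8 * T ^ 3 := by ring
    have h3 : (k : ℝ) ^ A2 ≤ (4 * Real.log T ^ 2) ^ A2 := by gcongr
    have h4 : T ^ (-(5 : ℝ)) * T ^ 3 * T = T ^ (-(1 : ℝ)) := by
      have e1 : T ^ (3 : ℕ) = T ^ (3 : ℝ) := by rw [← Real.rpow_natCast]; norm_num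
      rw [e1]
      nth_rewrite 3 [← Real.rpow_one T]
      rw [← Real.rpow_add hT0, ← Real.rpow_add hT0]
      norm_num
    rw [Real.rpow_one] at hE4
    have h5 : 0 < T ^ (-(5 : ℝ)) := by positivity
    calc C2 * (k : ℝ) ^ A2 * T ^ (-(5 : ℝ)) * ((J : ℝ) + 1) ^ 3 * S0 ≤
        C2 * (4 * Real.log T ^ 2) ^ A2 * T ^ (-(5 : ℝ)) * (8 * T ^ 3) * S0 := by gcongr
      _ = T ^ (-(5 : ℝ)) * T ^ 3 * (8 * C2 * S0 * (4 * Real.log T ^ 2) ^ A2) := by ring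
      _ ≤ T ^ (-(5 : ℝ)) * T ^ 3 * T := by gcongr
      _ = T ^ (-(1 : ℝ)) := h4
  have hfin1 : T ^ (-(1 : ℝ)) ≤ T ^ (-(η1 / 16)) :=
    Real.rpow_le_rpow_of_exponent_le hT1 (by linarith)
  have hfin2 : 2 * T ^ (-(η1 / 16)) ≤ T ^ (-(η1 / 32)) := by
    have e1 : T ^ (-(η1 / 32)) = T ^ (η1 / 32) * T ^ (-(η1 / 16)) := by
      rw [← Real.rpow_add hT0]; congr 1; ring
    rw [e1]
    gcongr
  have hH2 : ∀ y : ℝ, 0 < y → ‖Hk k b y‖ ≤ C2 * (k : ℝ) ^ A2 * y ^ (-c2) :=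
    fun y hy => (hk2 k hk2' b y hy).1
  have hhl : ∀ l ∈ Ioc M (2 * M + 1), ∀ h ∈ Ioc M (2 * M + 1),
      0 < (h : ℝ) * l ∧ (h : ℝ) * l ≤ (2 * M + 1) ^ 2 := by
    intro l hl h hh
    rw [mem_Ioc] at hl hh
    have a1 : 0 < l := by omega
    have a2 : 0 < h := by omega
    have a3 : (l : ℝ) ≤ 2 * M + 1 := by exact_mod_cast hl.2
    have a4 : (h : ℝ) ≤ 2 * M + 1 := by exact_mod_cast hh.2
    have a5 : (0 : ℝ) < l := by exact_mod_cast a1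
    have a6 : (0 : ℝ) < h := by exact_mod_cast a2
    refine ⟨by positivity, ?_⟩
    rw [sq]
    gcongr
  unfold Du
  by_cases hcase : ((2 : ℝ) * M + 1) ^ 2 ≤ T ^ (1 - κ / 2)
  · -- case A
    have hXR : ∀ l ∈ Ioc M (2 * M + 1), ∀ h ∈ Ioc M (2 * M + 1),
        T ^ (κ / 4) ≤ Y / ((h : ℝ) * l) * (((0 : ℕ) : ℝ) + 1) := by
      intro l hl h hh
      obtain ⟨a1, a2⟩ := hhl l hl h hh
      rw [Nat.cast_zero, zero_add, mul_one, le_div_iff₀ a1]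
      calc T ^ (κ / 4) * ((h : ℝ) * l) ≤ T ^ (κ / 4) * T ^ (1 - κ / 2) := by
            gcongr
            exact a2.trans hcase
        _ = T ^ (κ / 4 + (1 - κ / 2)) := by rw [← Real.rpow_add hT0]
        _ ≤ T ^ (1 - κ / 28) := Real.rpow_le_rpow_of_exponent_le hT1 (by linarith)
        _ ≤ Y := hY1
    have h1 := split M 0 α β hα hβ σ (Hk k b) (C2 * (k : ℝ) ^ A2) c2 (T ^ (κ / 4)) Y
      (by positivity) hc23 hX0 hY0 hXR hH2
    have h2 : (Icc 1 0 : Finset ℕ) = ∅ := by decide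
    rw [h2] at h1
    simp only [sum_empty, mul_zero, sum_const_zero, norm_zero, zero_add] at h1
    have h3 := htail 0 (by rw [Nat.cast_zero]; exact hT0.le)
    rw [Nat.cast_zero, zero_add] at h3
    rw [Nat.cast_zero, zero_add] at h1
    refine h1.trans (h3.trans (hfin1.trans ?_))
    have h4 : 0 < T ^ (-(η1 / 16)) := by positivity
    linarith
  · -- case B
    push Not at hcase
    have hM8 : T ^ (1 / 8 : ℝ) ≤ M := by
      have e1 : T ^ (1 / 2 : ℝ) ≤ T ^ (1 - κ / 2) :=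
        Real.rpow_le_rpow_of_exponent_le hT1 (by linarith)
      have e2 : T ^ (1 / 2 : ℝ) = ((T ^ (1 / 8 : ℝ)) ^ 2) ^ 2 := by
        rw [← pow_mul, ← Real.rpow_natCast, ← Real.rpow_mul hT0.le]
        norm_num
      have e3 : ((T ^ (1 / 8 : ℝ)) ^ 2) ^ 2 < ((2 : ℝ) * M + 1) ^ 2 := by
        rw [← e2]; exact e1.trans_lt hcase
      have e4 : (T ^ (1 / 8 : ℝ)) ^ 2 < (2 : ℝ) * M + 1 :=
        lt_of_pow_lt_pow_left₀ 2 (by positivity) e3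
      exact num1 _ _ hE7 e4
    have hM1r : (1 : ℝ) ≤ M := by linarith
    have hM1 : 1 ≤ M := by exact_mod_cast hM1r
    have hMpos : (0 : ℝ) < M := by linarith
    set z : ℝ := 1 / 14 - κ / 28 with hz
    have hz0 : 0 ≤ z := by rw [hz]; linarith
    have hz1 : z ≤ 1 := by rw [hz]; linarith
    set J : ℕ := ⌊(M : ℝ) ^ z⌋₊ with hJ
    have hMz1 : 1 ≤ (M : ℝ) ^ z := Real.one_le_rpow hM1r hz0
    have hJ1 : 1 ≤ J := by
      rw [hJ]
      exact Nat.one_le_floor_iff _ |>.mpr hMz1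
    have hJle : (J : ℝ) ≤ (M : ℝ) ^ z := Nat.floor_le (by positivity)
    have hJge : (M : ℝ) ^ z ≤ (J : ℝ) + 1 := (Nat.lt_floor_add_one _).le
    have hJM : (J : ℝ) ≤ M := hJle.trans (by
      calc (M : ℝ) ^ z ≤ (M : ℝ) ^ (1 : ℝ) := Real.rpow_le_rpow_of_exponent_le hM1r hz1
        _ = M := Real.rpow_one _)
    have hXR : ∀ l ∈ Ioc M (2 * M + 1), ∀ h ∈ Ioc M (2 * M + 1),
        T ^ (κ / 4) ≤ Y / ((h : ℝ) * l) * ((J : ℝ) + 1) := by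
      intro l hl h hh
      obtain ⟨a1, a2⟩ := hhl l hl h hh
      have a3 : (h : ℝ) * l ≤ 9 * (M : ℝ) ^ 2 := by
        exact a2.trans (num2 _ hM1r)
      rw [div_mul_eq_mul_div, le_div_iff₀ a1]
      have a4 : T ^ (θ * (z - 2)) ≤ (M : ℝ) ^ (z - 2) := by
        rw [Real.rpow_mul hT0.le]
        exact Real.rpow_le_rpow_of_nonpos hMpos hM (by linarith)
      have a5 : (M : ℝ) ^ z = (M : ℝ) ^ (z - 2) * (M : ℝ) ^ 2 := by
        have e1 : (M : ℝ) ^ (2 : ℕ) = (M : ℝ) ^ (2 : ℝ) := by rw [← Real.rpow_natCast]; norm_num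
        rw [e1, ← Real.rpow_add hMpos]
        congr 1; ring
      have a6 : κ / 4 + κ / 4 ≤ (1 - κ / 28) + θ * (z - 2) := by
        rw [hz, hθκ]
        have e1 := sq_nonneg κ
        clear * - e1 hκ0
        nlinarith
      calc T ^ (κ / 4) * ((h : ℝ) * l) ≤ T ^ (κ / 4) * (9 * (M : ℝ) ^ 2) := by gcongr
        _ ≤ T ^ (κ / 4) * (T ^ (κ / 4) * (M : ℝ) ^ 2) := by gcongr
        _ = T ^ (κ / 4 + κ / 4) * (M : ℝ) ^ 2 := by rw [Real.rpow_add hT0]; ring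
        _ ≤ T ^ ((1 - κ / 28) + θ * (z - 2)) * (M : ℝ) ^ 2 := by
            gcongr
        _ = T ^ (1 - κ / 28) * (T ^ (θ * (z - 2)) * (M : ℝ) ^ 2) := by
            rw [Real.rpow_add hT0]; ring
        _ ≤ Y * ((M : ℝ) ^ (z - 2) * (M : ℝ) ^ 2) := by gcongr
        _ = Y * (M : ℝ) ^ z := by rw [a5]
        _ ≤ Y * ((J : ℝ) + 1) := by gcongr
    have h1 := split M J α β hα hβ σ (Hk k b) (C2 * (k : ℝ) ^ A2) c2 (T ^ (κ / 4)) Y
      (by positivity) hc23 hX0 hY0 hXR hH2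
    refine h1.trans ?_
    have h3 := htail J (hJM.trans hMT)
    -- the head
    set c1 : ℝ := η1 / 64 with hc1
    have hc1p : 0 < c1 := by positivity
    have hc11 : c1 ≤ 1 := by rw [hc1]; linarith
    set B : ℝ := Cτ * T ^ c1 * (C1 * (k : ℝ) ^ A1 * T ^ c1) with hB
    have hB0 : 0 < B := by positivity
    have hMY : (M : ℝ) ^ 2 / Y ≤ T := by
      rw [div_le_iff₀ hY0]
      have e0 : (M : ℝ) ^ 2 ≤ (T ^ θ) ^ 2 := by gcongr
      have e1 : (T ^ θ) ^ 2 = T ^ (θ * 2) := by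
        rw [← Real.rpow_natCast, ← Real.rpow_mul hT0.le]
        norm_num
      calc (M : ℝ) ^ 2 ≤ T ^ (θ * 2) := by rw [← e1]; exact e0
        _ ≤ T ^ (1 + (1 - κ / 28)) := Real.rpow_le_rpow_of_exponent_le hT1 (by linarith)
        _ = T * T ^ (1 - κ / 28) := by rw [Real.rpow_add hT0, Real.rpow_one]
        _ ≤ T * Y := by gcongr
    have hBJ : ∀ j : ℕ, 1 ≤ j → j ≤ J →
        tau j * (C1 * (k : ℝ) ^ A1 * ((M : ℝ) ^ 2 / Y) ^ c1) ≤ B := by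
      intro j hj1 hjJ
      have b1 : tau j ≤ Cτ * (j : ℝ) ^ c1 := hτ j hj1
      have b2 : (j : ℝ) ≤ T := by
        have : (j : ℝ) ≤ J := by exact_mod_cast hjJ
        linarith
      have b3 : (j : ℝ) ^ c1 ≤ T ^ c1 := Real.rpow_le_rpow (Nat.cast_nonneg _) b2 hc1p.le
      have b4 : ((M : ℝ) ^ 2 / Y) ^ c1 ≤ T ^ c1 := Real.rpow_le_rpow (by positivity) hMY hc1p.le
      have b5 : tau j ≤ Cτ * T ^ c1 := b1.trans (by gcongr)
      have b6 := tau_nonneg j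
      rw [hB]
      gcongr
    have hH1 : ∀ y : ℝ, 0 < y → ‖Hk k b y‖ ≤ C1 * (k : ℝ) ^ A1 * y ^ (-c1) ∧
      ∀ y' : ℝ, y ≤ y' → ‖Hk k b y - Hk k b y'‖ ≤ C1 * (k : ℝ) ^ A1 * y ^ (-c1) * ((y' - y) / y) :=
      fun y hy => hk1 k hk1' b y hy
    have hwei := wei B Y (C1 * (k : ℝ) ^ A1) c1 M J (Hk k b) hM1 hY0 hB0 (by positivity) hc1p hc11
      hH1 hBJ
    have hσ0 : σ ≠ 0 := by rcases hσ with h | h <;> rw [h] <;> norm_num
    have hσ1 : |(σ : ℝ)| = 1 := by rcases hσ with h | h <;> rw [h] <;> norm_num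
    have h5 := htri M J hM1 hJ1 hJle 2 (by norm_num) (psi B Y M J (Hk k b)) hwei σ hσ0 (by
      rw [hσ1, one_mul]
      exact num3 _ _ hM1r hJM) α β hα hβ
    have h6 : ‖∑ l ∈ Ioc M (2 * M + 1), ∑ h ∈ (Ioc M (2 * M + 1)).filter (fun h => Nat.Coprime l h),
      α l * β h * ((1 / ((h : ℝ) * l) : ℝ) : ℂ) *
        (∑ n ∈ Icc 1 J, (tau n : ℂ) * kf (σ * n) l h * Hk k b ((n : ℝ) * Y / ((h : ℝ) * l)))‖ ≤
        T ^ (-(η1 / 16)) := by
      have e1 : ∑ l ∈ Ioc M (2 * M + 1), ∑ h ∈ (Ioc M (2 * M + 1)).filter (fun h => Nat.Coprime l h),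
          α l * β h * ((1 / ((h : ℝ) * l) : ℝ) : ℂ) *
          (∑ n ∈ Icc 1 J, (tau n : ℂ) * kf (σ * n) l h * Hk k b ((n : ℝ) * Y / ((h : ℝ) * l))) =
          ((B / (M : ℝ) ^ 2 : ℝ) : ℂ) *
          ∑ m ∈ Ioc M (2 * M + 1), ∑ n ∈ (Ioc M (2 * M + 1)).filter (fun n => Nat.Coprime m n),
          α m * β n * Pool.Agent.H442R2.KF.FF (psi B Y M J (Hk k b)) σ J n m := by
        rw [mul_sum]
        refine sum_congr rfl fun l hl => ?_
        rw [mul_sum]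
        refine sum_congr rfl fun h hh => ?_
        have hh' := mem_of_mem_filter h hh
        rw [mem_Ioc] at hl hh'
        rw [mul_assoc, head_eq B Y M J (Hk k b) hM1 hB0 σ h l (by omega) (by omega)]
        ring
      rw [e1, norm_mul, Complex.norm_real, Real.norm_of_nonneg (by positivity)]
      have e2 : (M : ℝ) ^ (2 - η0) ≤ (M : ℝ) ^ (2 - η1) :=
        Real.rpow_le_rpow_of_exponent_le hM1r (by linarith)
      have e3 : (M : ℝ) ^ (2 - η1) = (M : ℝ) ^ 2 * (M : ℝ) ^ (-η1) := by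
        have e1 : (M : ℝ) ^ (2 : ℕ) = (M : ℝ) ^ (2 : ℝ) := by rw [← Real.rpow_natCast]; norm_num
        rw [e1, ← Real.rpow_add hMpos]
        congr 1
      have e4 : (M : ℝ) ^ (-η1) ≤ T ^ (-(η1 / 8)) := by
        calc (M : ℝ) ^ (-η1) ≤ (T ^ (1 / 8 : ℝ)) ^ (-η1) :=
              Real.rpow_le_rpow_of_nonpos (by positivity) hM8 (by linarith)
          _ = T ^ (-(η1 / 8)) := by
              rw [← Real.rpow_mul hT0.le]; congr 1; ring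
      have e5 : T ^ c1 * T ^ c1 = T ^ (η1 / 32) := by
        rw [← Real.rpow_add hT0, hc1]; congr 1; ring
      have e6 : T ^ (η1 / 32) * T ^ (η1 / 32) * T ^ (-(η1 / 8)) = T ^ (-(η1 / 16)) := by
        rw [← Real.rpow_add hT0, ← Real.rpow_add hT0]; congr 1; ring
      have e7 : (k : ℝ) ^ A1 ≤ (4 * Real.log T ^ 2) ^ A1 := by gcongr
      calc B / (M : ℝ) ^ 2 * _ ≤ B / (M : ℝ) ^ 2 * (C3 * 2 ^ 2 * (M : ℝ) ^ (2 - η0)) := by gcongr
        _ ≤ B / (M : ℝ) ^ 2 * (C3 * 2 ^ 2 * ((M : ℝ) ^ 2 * T ^ (-(η1 / 8)))) := by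
            gcongr
            rw [e3] at e2
            exact e2.trans (by gcongr)
        _ = 4 * C3 * B * T ^ (-(η1 / 8)) := by field_simp; ring
        _ = (4 * C3 * C1 * Cτ * (k : ℝ) ^ A1) * (T ^ c1 * T ^ c1) * T ^ (-(η1 / 8)) := by
            rw [hB]; ring
        _ ≤ (4 * C3 * C1 * Cτ * (4 * Real.log T ^ 2) ^ A1) * (T ^ c1 * T ^ c1) *
            T ^ (-(η1 / 8)) := by gcongr
        _ ≤ T ^ (η1 / 32) * T ^ (η1 / 32) * T ^ (-(η1 / 8)) := by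
            rw [e5]
            gcongr
        _ = T ^ (-(η1 / 16)) := e6
    linarith

end Pool.Agent.H262R4.TM
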