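import Mathlib

set_option autoImplicit false

/-! Assembly, part b: sums over pairs according to the greatest common divisor. -/

namespace Pool.Agent.H262R4.TM.TTSM

open Finset Filter Topology

noncomputable section

lemma reidx {E : Type*} [AddCommMonoid E] (N : ℕ) (F : ℕ → ℕ → E) :
    ∑ h ∈ Ioc N (2 * N), ∑ l ∈ Ioc N (2 * N), F h l =
      ∑ g ∈ Icc 1 (2 * N), ∑ h ∈ Ioc (N / g) (2 * (N / g) + 1),
        ∑ l ∈ (Ioc (N / g) (2 * (N / g) + 1)).filter (fun l => Nat.Coprime h l),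
          (if g * h ∈ Ioc N (2 * N) ∧ g * l ∈ Ioc N (2 * N) then F (g * h) (g * l) else 0) := by
  classical
  have h1 : ∑ h ∈ Ioc N (2 * N), ∑ l ∈ Ioc N (2 * N), F h l =
      ∑ p ∈ Ioc N (2 * N) ×ˢ Ioc N (2 * N), F p.1 p.2 := by
    rw [sum_product]
  rw [h1, ← sum_fiberwise_of_maps_to (t := Icc 1 (2 * N)) (g := fun p : ℕ × ℕ => Nat.gcd p.1 p.2)]
  · refine sum_congr rfl fun g hg => ?_
    have hg1 : 1 ≤ g := (mem_Icc.mp hg).1
    have h2 : (∑ h ∈ Ioc (N / g) (2 * (N / g) + 1),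
        ∑ l ∈ (Ioc (N / g) (2 * (N / g) + 1)).filter (fun l => Nat.Coprime h l),
          (if g * h ∈ Ioc N (2 * N) ∧ g * l ∈ Ioc N (2 * N) then F (g * h) (g * l) else 0)) =
        ∑ q ∈ (Ioc (N / g) (2 * (N / g) + 1) ×ˢ Ioc (N / g) (2 * (N / g) + 1)).filter
          (fun q => Nat.Coprime q.1 q.2 ∧ (g * q.1 ∈ Ioc N (2 * N) ∧ g * q.2 ∈ Ioc N (2 * N))),
          F (g * q.1) (g * q.2) := by
      rw [sum_filter, sum_product]
      refine sum_congr rfl fun h _ => ?_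
      rw [sum_filter]
      refine sum_congr rfl fun l _ => ?_
      by_cases hc : Nat.Coprime h l
      · rw [if_pos hc]
        by_cases hd : g * h ∈ Ioc N (2 * N) ∧ g * l ∈ Ioc N (2 * N)
        · rw [if_pos hd, if_pos ⟨hc, hd⟩]
        · rw [if_neg hd, if_neg fun hx => hd hx.2]
      · rw [if_neg hc, if_neg fun hx => hc hx.1]
    rw [h2]
    refine sum_nbij' (fun p => (p.1 / g, p.2 / g)) (fun q => (g * q.1, g * q.2)) ?_ ?_ ?_ ?_ ?_
    · intro p hp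
      simp only [mem_filter, mem_product, mem_Ioc] at hp ⊢
      obtain ⟨⟨⟨a1, a2⟩, a3, a4⟩, hgcd⟩ := hp
      have d1 : g ∣ p.1 := hgcd ▸ Nat.gcd_dvd_left _ _
      have d2 : g ∣ p.2 := hgcd ▸ Nat.gcd_dvd_right _ _
      have e1 : g * (p.1 / g) = p.1 := Nat.mul_div_cancel' d1
      have e2 : g * (p.2 / g) = p.2 := Nat.mul_div_cancel' d2
      have hN1 : N < g * (N / g + 1) := by
        have := Nat.lt_mul_div_succ N (show 0 < g from hg1)
        exact this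
      have hlow : ∀ x, N < g * x → N / g < x := by
        intro x hx
        exact Nat.div_lt_of_lt_mul hx
      have hup : ∀ x, g * x ≤ 2 * N → x ≤ 2 * (N / g) + 1 := by
        intro x hx
        have : g * x < g * (2 * (N / g) + 2) := by
          calc g * x ≤ 2 * N := hx
            _ < 2 * (g * (N / g + 1)) := by omega
            _ = g * (2 * (N / g) + 2) := by ring
        have := Nat.lt_of_mul_lt_mul_left this
        omega
      refine ⟨⟨⟨hlow _ (by rw [e1]; exact a1), hup _ (by rw [e1]; exact a2)⟩,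
        hlow _ (by rw [e2]; exact a3), hup _ (by rw [e2]; exact a4)⟩, ?_, ?_⟩
      · have := Nat.coprime_div_gcd_div_gcd (m := p.1) (n := p.2) (by rw [hgcd]; exact hg1)
        rw [hgcd] at this
        exact this
      · rw [e1, e2]
        exact ⟨⟨a1, a2⟩, a3, a4⟩
    · intro q hq
      simp only [mem_filter, mem_product, mem_Ioc] at hq ⊢
      obtain ⟨-, hc, h3, h4⟩ := hq
      refine ⟨⟨h3, h4⟩, ?_⟩
      rw [Nat.gcd_mul_left, hc, mul_one]
    · intro p hp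
      simp only [mem_filter, mem_product, mem_Ioc] at hp
      obtain ⟨-, hgcd⟩ := hp
      have d1 : g ∣ p.1 := hgcd ▸ Nat.gcd_dvd_left _ _
      have d2 : g ∣ p.2 := hgcd ▸ Nat.gcd_dvd_right _ _
      exact Prod.ext (Nat.mul_div_cancel' d1) (Nat.mul_div_cancel' d2)
    · intro q _
      exact Prod.ext (Nat.mul_div_cancel_left _ hg1) (Nat.mul_div_cancel_left _ hg1)
    · intro p hp
      simp only [mem_filter, mem_product, mem_Ioc] at hp
      obtain ⟨-, hgcd⟩ := hp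
      have d1 : g ∣ p.1 := hgcd ▸ Nat.gcd_dvd_left _ _
      have d2 : g ∣ p.2 := hgcd ▸ Nat.gcd_dvd_right _ _
      show F p.1 p.2 = F (g * (p.1 / g)) (g * (p.2 / g))
      rw [Nat.mul_div_cancel' d1, Nat.mul_div_cancel' d2]
  · intro p hp
    rw [mem_product, mem_Ioc, mem_Ioc] at hp
    rw [mem_Icc]
    have hpos : 0 < p.1 := by omega
    exact ⟨Nat.gcd_pos_of_pos_left _ hpos, (Nat.gcd_le_left _ hpos).trans hp.1.2⟩

lemma harm_le (n : ℕ) : ∑ g ∈ Icc 1 n, (1 : ℝ) / g ≤ 1 + Real.log n := by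
  have h1 : (harmonic n : ℝ) = ∑ g ∈ Icc 1 n, (1 : ℝ) / g := by
    rw [harmonic_eq_sum_Icc]
    push_cast
    exact sum_congr rfl fun g _ => by rw [one_div]
  rw [← h1]
  exact harmonic_le_one_add_log n

lemma card_le (N g : ℕ) (hg : 1 ≤ g) (hgN : g ≤ 2 * N) :
    (((Ioc (N / g) (2 * (N / g) + 1)).card : ℕ) : ℝ) ≤ 2 * N / g := by
  rw [Nat.card_Ioc]
  have e : 2 * (N / g) + 1 - N / g = N / g + 1 := by omega
  rw [e, le_div_iff₀ (by exact_mod_cast hg)]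
  have h1 : (N / g + 1) * g ≤ 2 * N := by
    rcases Nat.lt_or_ge N g with h | h
    · rw [Nat.div_eq_of_lt h]; omega
    · have := Nat.div_mul_le_self N g
      rw [add_mul, one_mul]; omega
  exact_mod_cast h1

lemma gcd_sum (N : ℕ) (hN : 1 ≤ N) :
    ∑ h ∈ Ioc N (2 * N), ∑ l ∈ Ioc N (2 * N), (Nat.gcd h l : ℝ) ≤
      4 * (N : ℝ) ^ 2 * (1 + Real.log (2 * N : ℕ)) := by
  classical
  rw [reidx]
  have h1 : ∀ g ∈ Icc 1 (2 * N), (∑ h ∈ Ioc (N / g) (2 * (N / g) + 1),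
        ∑ l ∈ (Ioc (N / g) (2 * (N / g) + 1)).filter (fun l => Nat.Coprime h l),
          (if g * h ∈ Ioc N (2 * N) ∧ g * l ∈ Ioc N (2 * N) then (Nat.gcd (g * h) (g * l) : ℝ)
            else 0)) ≤ 4 * (N : ℝ) ^ 2 * (1 / g) := by
    intro g hg
    obtain ⟨hg1, hg2⟩ := mem_Icc.mp hg
    have hgp : (0 : ℝ) < g := by exact_mod_cast hg1
    have hc := card_le N g hg1 hg2
    set I := Ioc (N / g) (2 * (N / g) + 1) with hI
    have h2 : ∀ h ∈ I, (∑ l ∈ I.filter (fun l => Nat.Coprime h l),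
          (if g * h ∈ Ioc N (2 * N) ∧ g * l ∈ Ioc N (2 * N) then (Nat.gcd (g * h) (g * l) : ℝ)
            else 0)) ≤ (I.card : ℝ) * g := by
      intro h _
      calc _ ≤ ∑ l ∈ I.filter (fun l => Nat.Coprime h l), (g : ℝ) := by
            refine sum_le_sum fun l hl => ?_
            rw [mem_filter] at hl
            split_ifs with hif
            · rw [Nat.gcd_mul_left, hl.2, mul_one]
            · exact hgp.le
        _ ≤ ∑ l ∈ I, (g : ℝ) :=
            sum_le_sum_of_subset_of_nonneg (filter_subset _ _) fun _ _ _ => hgp.le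
        _ = (I.card : ℝ) * g := by rw [sum_const, nsmul_eq_mul]
    calc _ ≤ ∑ h ∈ I, (I.card : ℝ) * g := sum_le_sum h2
      _ = (I.card : ℝ) * (I.card : ℝ) * g := by rw [sum_const, nsmul_eq_mul, mul_assoc]
      _ ≤ (2 * N / g) * (2 * N / g) * g := by
          refine mul_le_mul_of_nonneg_right ?_ hgp.le
          exact mul_le_mul hc hc (by positivity) (by positivity)
      _ = 4 * (N : ℝ) ^ 2 * (1 / g) := by field_simp; ring
  refine (sum_le_sum h1).trans ?_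
  rw [← mul_sum]
  exact mul_le_mul_of_nonneg_left (harm_le _) (by positivity)

/-- the total error -/
lemma err_sum (N : ℕ) (hN : 1 ≤ N) (X1 X2 : ℝ) (h1 : 0 ≤ X1) (h2 : 0 ≤ X2) :
    ∑ h ∈ Ioc N (2 * N), ∑ l ∈ Ioc N (2 * N), (1 / Real.sqrt ((h : ℝ) * l)) *
      (X1 + X2 * ((h / Nat.gcd h l : ℕ) : ℝ) ^ (-(1 / 4) : ℝ) *
        ((l / Nat.gcd h l : ℕ) : ℝ) ^ (-(1 / 2) : ℝ)) ≤
      N * X1 + X2 * (4 * (N : ℝ) ^ (1 / 4 : ℝ) * (1 + Real.log (2 * N : ℕ))) := by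
  have hNp : (0 : ℝ) < N := by exact_mod_cast hN
  have key : ∀ h ∈ Ioc N (2 * N), ∀ l ∈ Ioc N (2 * N), (1 / Real.sqrt ((h : ℝ) * l)) *
      (X1 + X2 * ((h / Nat.gcd h l : ℕ) : ℝ) ^ (-(1 / 4) : ℝ) *
        ((l / Nat.gcd h l : ℕ) : ℝ) ^ (-(1 / 2) : ℝ)) ≤
      X1 / N + X2 * (N : ℝ) ^ (-(7 / 4) : ℝ) * (Nat.gcd h l : ℝ) := by
    intro h hh l hl
    rw [mem_Ioc] at hh hl
    have hh1 : (N : ℝ) ≤ h := by exact_mod_cast hh.1.le
    have hl1 : (N : ℝ) ≤ l := by exact_mod_cast hl.1.le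
    have hhp : (0 : ℝ) < h := by linarith
    have hlp : (0 : ℝ) < l := by linarith
    have hs : (N : ℝ) ≤ Real.sqrt ((h : ℝ) * l) := by
      apply Real.le_sqrt_of_sq_le
      nlinarith
    have hs1 : 1 / Real.sqrt ((h : ℝ) * l) ≤ 1 / N := one_div_le_one_div_of_le hNp hs
    set g := Nat.gcd h l with hg
    have hg1 : 1 ≤ g := Nat.gcd_pos_of_pos_left _ (by omega)
    have hgp : (0 : ℝ) < g := by exact_mod_cast hg1
    have hg1' : (1 : ℝ) ≤ g := by exact_mod_cast hg1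
    have c1 : ((h / g : ℕ) : ℝ) = (h : ℝ) / g := Nat.cast_div (Nat.gcd_dvd_left _ _) hgp.ne'
    have c2 : ((l / g : ℕ) : ℝ) = (l : ℝ) / g := Nat.cast_div (Nat.gcd_dvd_right _ _) hgp.ne'
    rw [c1, c2]
    have p1 : ((h : ℝ) / g) ^ (-(1 / 4) : ℝ) ≤ ((N : ℝ) / g) ^ (-(1 / 4) : ℝ) :=
      Real.rpow_le_rpow_of_nonpos (by positivity) (div_le_div_of_nonneg_right hh1 hgp.le)
        (by norm_num)
    have p2 : ((l : ℝ) / g) ^ (-(1 / 2) : ℝ) ≤ ((N : ℝ) / g) ^ (-(1 / 2) : ℝ) :=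
      Real.rpow_le_rpow_of_nonpos (by positivity) (div_le_div_of_nonneg_right hl1 hgp.le)
        (by norm_num)
    have p3 : ((h : ℝ) / g) ^ (-(1 / 4) : ℝ) * ((l : ℝ) / g) ^ (-(1 / 2) : ℝ) ≤
        (N : ℝ) ^ (-(3 / 4) : ℝ) * g := by
      calc _ ≤ ((N : ℝ) / g) ^ (-(1 / 4) : ℝ) * ((N : ℝ) / g) ^ (-(1 / 2) : ℝ) :=
            mul_le_mul p1 p2 (by positivity) (by positivity)
        _ = ((N : ℝ) / g) ^ (-(3 / 4) : ℝ) := by
            rw [← Real.rpow_add (by positivity)]; norm_num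
        _ = (N : ℝ) ^ (-(3 / 4) : ℝ) * (g : ℝ) ^ (3 / 4 : ℝ) := by
            rw [Real.div_rpow hNp.le hgp.le, Real.rpow_neg hgp.le, div_inv_eq_mul]
        _ ≤ (N : ℝ) ^ (-(3 / 4) : ℝ) * g := by
            refine mul_le_mul_of_nonneg_left ?_ (by positivity)
            calc (g : ℝ) ^ (3 / 4 : ℝ) ≤ (g : ℝ) ^ (1 : ℝ) :=
                  Real.rpow_le_rpow_of_exponent_le hg1' (by norm_num)
              _ = g := Real.rpow_one _
    calc _ ≤ (1 / N) * (X1 + X2 * ((N : ℝ) ^ (-(3 / 4) : ℝ) * g)) := by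
          refine mul_le_mul hs1 ?_ ?_ (by positivity)
          · rw [mul_assoc X2]
            have := mul_le_mul_of_nonneg_left p3 h2
            linarith
          · positivity
      _ = X1 / N + X2 * (N : ℝ) ^ (-(7 / 4) : ℝ) * g := by
          have : (N : ℝ) ^ (-(7 / 4) : ℝ) = (1 / N) * (N : ℝ) ^ (-(3 / 4) : ℝ) := by
            rw [one_div, ← Real.rpow_neg_one, ← Real.rpow_add hNp]; norm_num
          rw [this]; ring
  refine (sum_le_sum fun h hh => sum_le_sum fun l hl => key h hh l hl).trans ?_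
  have hcard : ((Ioc N (2 * N)).card : ℝ) = N := by
    rw [Nat.card_Ioc]
    have : 2 * N - N = N := by omega
    rw [this]
  have e1 : ∑ h ∈ Ioc N (2 * N), ∑ l ∈ Ioc N (2 * N),
      (X1 / N + X2 * (N : ℝ) ^ (-(7 / 4) : ℝ) * (Nat.gcd h l : ℝ)) =
      N * X1 + X2 * (N : ℝ) ^ (-(7 / 4) : ℝ) *
        ∑ h ∈ Ioc N (2 * N), ∑ l ∈ Ioc N (2 * N), (Nat.gcd h l : ℝ) := by
    simp only [sum_add_distrib, sum_const, nsmul_eq_mul, hcard, ← mul_sum]
    field_simp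
  rw [e1]
  have e2 : X2 * (N : ℝ) ^ (-(7 / 4) : ℝ) * (4 * (N : ℝ) ^ 2 * (1 + Real.log (2 * N : ℕ))) =
      X2 * (4 * (N : ℝ) ^ (1 / 4 : ℝ) * (1 + Real.log (2 * N : ℕ))) := by
    have : (N : ℝ) ^ (-(7 / 4) : ℝ) * (N : ℝ) ^ 2 = (N : ℝ) ^ (1 / 4 : ℝ) := by
      rw [← Real.rpow_natCast (N : ℝ) 2, ← Real.rpow_add hNp]; norm_num
    calc _ = X2 * (4 * ((N : ℝ) ^ (-(7 / 4) : ℝ) * (N : ℝ) ^ 2) *
          (1 + Real.log (2 * N : ℕ))) := by ring
      _ = _ := by rw [this]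
  rw [← e2]
  have := mul_le_mul_of_nonneg_left (gcd_sum N hN)
    (show 0 ≤ X2 * (N : ℝ) ^ (-(7 / 4) : ℝ) by positivity)
  linarith

end

end Pool.Agent.H262R4.TM.TTSM
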