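import Pool.Agent.H262R4.TM.TSMa
import Pool.Agent.H262R4.TM.TSMb

set_option autoImplicit false

/-! Final assembly of the twisted second moment. -/

namespace Pool.Agent.H262R4.TM.TTSM

open Finset Filter Topology MeasureTheory Complex
open Pool.Agent.H306R2.SM (om cl ef Xf Gf Yf ee)

noncomputable section

/-- the dual term of a pair -/
def Dh (a : ℕ → ℂ) (k : ℕ) (Y : ℝ) (h l : ℕ) : ℂ :=
  a h * (starRingEnd ℂ) (a l) *
    ((1 / ((Nat.gcd h l : ℝ) * ((h / Nat.gcd h l : ℕ) : ℝ) * ((l / Nat.gcd h l : ℕ) : ℝ)) : ℝ) : ℂ) *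
    (Du k true 1 (l / Nat.gcd h l) (h / Nat.gcd h l) Y +
      Du k false (-1) (l / Nat.gcd h l) (h / Nat.gcd h l) Y)

lemma Mt_red (k : ℕ) (T : ℝ) (g h l : ℕ) (hg : 1 ≤ g) : Mt k T (g * l) (g * h) = Mt k T l h := by
  have hgp : (g : ℝ) ≠ 0 := by exact_mod_cast (by omega : g ≠ 0)
  unfold Mt
  rw [Nat.cast_mul, Nat.cast_mul, mul_div_mul_left _ _ hgp]

lemma sqrt_id (g h l : ℕ) (hg : 1 ≤ g) (hh : 1 ≤ h) (hl : 1 ≤ l) :
    (1 / Real.sqrt (((g * h : ℕ) : ℝ) * ((g * l : ℕ) : ℝ))) * (1 / Real.sqrt ((l : ℝ) * h)) =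
      1 / ((g : ℝ) * h * l) := by
  have hgp : (0 : ℝ) < g := by exact_mod_cast hg
  have hhp : (0 : ℝ) < h := by exact_mod_cast hh
  have hlp : (0 : ℝ) < l := by exact_mod_cast hl
  have e1 : Real.sqrt (((g * h : ℕ) : ℝ) * ((g * l : ℕ) : ℝ)) = g * Real.sqrt ((l : ℝ) * h) := by
    have : (((g * h : ℕ) : ℝ) * ((g * l : ℕ) : ℝ)) = (g : ℝ) ^ 2 * ((l : ℝ) * h) := by
      push_cast; ring
    rw [this, Real.sqrt_mul (by positivity), Real.sqrt_sq hgp.le]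
  have e2 : Real.sqrt ((l : ℝ) * h) * Real.sqrt ((l : ℝ) * h) = (l : ℝ) * h :=
    Real.mul_self_sqrt (by positivity)
  rw [e1, one_div_mul_one_div, mul_assoc, e2]
  congr 1
  ring

lemma pair_bound (a : ℕ → ℂ) (ha : ∀ n, ‖a n‖ ≤ 1) (k : ℕ) (T Y e : ℝ) (h l : ℕ) (hh : 1 ≤ h)
    (hl : 1 ≤ l)
    (hcop : ‖Mt k T (l / Nat.gcd h l) (h / Nat.gcd h l) -
      ((1 / Real.sqrt (((l / Nat.gcd h l : ℕ) : ℝ) * ((h / Nat.gcd h l : ℕ) : ℝ)) *
        (Real.log (Y / (((l / Nat.gcd h l : ℕ) : ℝ) * ((h / Nat.gcd h l : ℕ) : ℝ))) + Ck k) : ℝ)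
          : ℂ) -
      ((1 / Real.sqrt (((l / Nat.gcd h l : ℕ) : ℝ) * ((h / Nat.gcd h l : ℕ) : ℝ)) : ℝ) : ℂ) *
        (Du k true 1 (l / Nat.gcd h l) (h / Nat.gcd h l) Y +
          Du k false (-1) (l / Nat.gcd h l) (h / Nat.gcd h l) Y)‖ ≤ e) :
    ‖a h * (starRingEnd ℂ) (a l) * ((1 / Real.sqrt (h * l) : ℝ) : ℂ) * Mt k T l h -
      a h * (starRingEnd ℂ) (a l) * ((1 / (Nat.lcm h l : ℝ) *
          (Real.log (Y * (Nat.gcd h l : ℝ) ^ 2 / ((h : ℝ) * l)) + Ck k) : ℝ) : ℂ) -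
      Dh a k Y h l‖ ≤ (1 / Real.sqrt (h * l)) * e := by
  unfold Dh
  set g := Nat.gcd h l with hg
  have hg1 : 1 ≤ g := Nat.gcd_pos_of_pos_left _ hh
  set h' := h / g with hh'
  set l' := l / g with hl'
  have eh : h = g * h' := (Nat.mul_div_cancel' (Nat.gcd_dvd_left h l)).symm
  have el : l = g * l' := (Nat.mul_div_cancel' (Nat.gcd_dvd_right h l)).symm
  have hh1 : 1 ≤ h' := by
    rcases Nat.eq_zero_or_pos h' with h0 | h0
    · rw [h0, mul_zero] at eh; omega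
    · exact h0
  have hl1 : 1 ≤ l' := by
    rcases Nat.eq_zero_or_pos l' with h0 | h0
    · rw [h0, mul_zero] at el; omega
    · exact h0
  have hgp : (0 : ℝ) < g := by exact_mod_cast hg1
  have hhp : (0 : ℝ) < h' := by exact_mod_cast hh1
  have hlp : (0 : ℝ) < l' := by exact_mod_cast hl1
  have ehr : (h : ℝ) = g * h' := by exact_mod_cast eh
  have elr : (l : ℝ) = g * l' := by exact_mod_cast el
  have hM : Mt k T l h = Mt k T l' h' := by
    rw [← Mt_red k T g h' l' hg1, ← el, ← eh]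
  have hlcm : (Nat.lcm h l : ℝ) = g * h' * l' := by
    have h3 : g * Nat.lcm h l = h * l := Nat.gcd_mul_lcm h l
    have h4 : (g : ℝ) * (Nat.lcm h l : ℝ) = h * l := by exact_mod_cast h3
    rw [ehr, elr] at h4
    have h5 : (g : ℝ) * (Nat.lcm h l : ℝ) = g * (g * h' * l') := by rw [h4]; ring
    exact mul_left_cancel₀ hgp.ne' h5
  have hY : Y * (g : ℝ) ^ 2 / ((h : ℝ) * l) = Y / ((l' : ℝ) * h') := by
    rw [ehr, elr]
    field_simp
  have hsq := sqrt_id g h' l' hg1 hh1 hl1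
  rw [← eh, ← el] at hsq
  rw [hM, hlcm, hY, ← hsq]
  set s1 : ℝ := 1 / Real.sqrt ((h : ℝ) * l) with hs1
  set s2 : ℝ := 1 / Real.sqrt ((l' : ℝ) * h') with hs2
  have e1 : a h * (starRingEnd ℂ) (a l) * (s1 : ℂ) * Mt k T l' h' -
      a h * (starRingEnd ℂ) (a l) * ((s1 * s2 *
          (Real.log (Y / ((l' : ℝ) * h')) + Ck k) : ℝ) : ℂ) -
      a h * (starRingEnd ℂ) (a l) * ((s1 * s2 : ℝ) : ℂ) *
        (Du k true 1 l' h' Y + Du k false (-1) l' h' Y) =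
      (a h * (starRingEnd ℂ) (a l)) * ((s1 : ℂ) * (Mt k T l' h' -
        ((s2 * (Real.log (Y / ((l' : ℝ) * h')) + Ck k) : ℝ) : ℂ) - (s2 : ℂ) *
        (Du k true 1 l' h' Y + Du k false (-1) l' h' Y))) := by
    push_cast
    ring
  rw [e1, norm_mul, norm_mul, norm_mul, RCLike.norm_conj, Complex.norm_real,
    Real.norm_of_nonneg (by positivity : 0 ≤ s1)]
  have hs0 : 0 ≤ s1 := by positivity
  have h7 : s1 * ‖Mt k T l' h' -
        ((s2 * (Real.log (Y / ((l' : ℝ) * h')) + Ck k) : ℝ) : ℂ) - (s2 : ℂ) *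
        (Du k true 1 l' h' Y + Du k false (-1) l' h' Y)‖ ≤ s1 * e :=
    mul_le_mul_of_nonneg_left hcop hs0
  have h8 : ‖a h‖ * ‖a l‖ ≤ 1 := mul_le_one₀ (ha h) (norm_nonneg _) (ha l)
  calc _ ≤ 1 * (s1 * ‖Mt k T l' h' -
        ((s2 * (Real.log (Y / ((l' : ℝ) * h')) + Ck k) : ℝ) : ℂ) - (s2 : ℂ) *
        (Du k true 1 l' h' Y + Du k false (-1) l' h' Y)‖) :=
        mul_le_mul_of_nonneg_right h8 (by positivity)
    _ ≤ s1 * e := by rw [one_mul]; exact h7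

lemma dual_sum (a : ℕ → ℂ) (ha : ∀ n, ‖a n‖ ≤ 1) (k : ℕ) (Y e : ℝ) (N : ℕ)
    (htri : ∀ M : ℕ, M ≤ N → ∀ α β : ℕ → ℂ, (∀ m, ‖α m‖ ≤ 1) → (∀ m, ‖β m‖ ≤ 1) →
      ∀ (b : Bool) (σ : ℤ), (σ = 1 ∨ σ = -1) →
      ‖∑ l ∈ Ioc M (2 * M + 1), ∑ h ∈ (Ioc M (2 * M + 1)).filter (fun h => Nat.Coprime l h),
        α l * β h * ((1 / ((h : ℝ) * l) : ℝ) : ℂ) * Du k b σ h l Y‖ ≤ e) :
    ‖∑ h ∈ Ioc N (2 * N), ∑ l ∈ Ioc N (2 * N), Dh a k Y h l‖ ≤
      2 * e * (1 + Real.log (2 * N : ℕ)) := by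
  classical
  rw [reidx]
  have key : ∀ g ∈ Icc 1 (2 * N), ‖∑ h ∈ Ioc (N / g) (2 * (N / g) + 1),
        ∑ l ∈ (Ioc (N / g) (2 * (N / g) + 1)).filter (fun l => Nat.Coprime h l),
          (if g * h ∈ Ioc N (2 * N) ∧ g * l ∈ Ioc N (2 * N) then Dh a k Y (g * h) (g * l)
            else 0)‖ ≤ 2 * e * (1 / g) := by
    intro g hg
    obtain ⟨hg1, hg2⟩ := mem_Icc.mp hg
    have hgp : (0 : ℝ) < g := by exact_mod_cast hg1
    have hgc : (g : ℂ) ≠ 0 := by exact_mod_cast (by omega : g ≠ 0)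
    set α : ℕ → ℂ := fun x => if g * x ∈ Ioc N (2 * N) then a (g * x) else 0 with hα
    set β : ℕ → ℂ := fun x => if g * x ∈ Ioc N (2 * N) then (starRingEnd ℂ) (a (g * x)) else 0
      with hβ
    have hα1 : ∀ m, ‖α m‖ ≤ 1 := by
      intro m
      simp only [hα]
      split_ifs
      · exact ha _
      · simp
    have hβ1 : ∀ m, ‖β m‖ ≤ 1 := by
      intro m
      simp only [hβ]
      split_ifs
      · rw [RCLike.norm_conj]; exact ha _
      · simp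
    have t1 := htri (N / g) (Nat.div_le_self _ _) α β hα1 hβ1 true 1 (Or.inl rfl)
    have t2 := htri (N / g) (Nat.div_le_self _ _) α β hα1 hβ1 false (-1) (Or.inr rfl)
    set M := N / g with hM
    have e1 : (∑ h ∈ Ioc M (2 * M + 1),
        ∑ l ∈ (Ioc M (2 * M + 1)).filter (fun l => Nat.Coprime h l),
          (if g * h ∈ Ioc N (2 * N) ∧ g * l ∈ Ioc N (2 * N) then Dh a k Y (g * h) (g * l)
            else 0)) = ((1 / g : ℝ) : ℂ) * ((∑ l ∈ Ioc M (2 * M + 1),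
              ∑ h ∈ (Ioc M (2 * M + 1)).filter (fun h => Nat.Coprime l h),
        α l * β h * ((1 / ((h : ℝ) * l) : ℝ) : ℂ) * Du k true 1 h l Y) +
          ∑ l ∈ Ioc M (2 * M + 1), ∑ h ∈ (Ioc M (2 * M + 1)).filter (fun h => Nat.Coprime l h),
        α l * β h * ((1 / ((h : ℝ) * l) : ℝ) : ℂ) * Du k false (-1) h l Y) := by
      rw [← sum_add_distrib, mul_sum]
      refine sum_congr rfl fun h hh => ?_
      rw [← sum_add_distrib, mul_sum]
      refine sum_congr rfl fun l hl => ?_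
      rw [mem_filter] at hl
      by_cases c1 : g * h ∈ Ioc N (2 * N)
      · by_cases c2 : g * l ∈ Ioc N (2 * N)
        · rw [if_pos ⟨c1, c2⟩]
          simp only [hα, hβ, if_pos c1, if_pos c2]
          unfold Dh
          have eg : Nat.gcd (g * h) (g * l) = g := by rw [Nat.gcd_mul_left, hl.2, mul_one]
          rw [eg, Nat.mul_div_cancel_left _ hg1, Nat.mul_div_cancel_left _ hg1]
          have e3 : (1 / ((g : ℝ) * h * l) : ℝ) = (1 / g) * (1 / ((l : ℝ) * h)) := by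
            rw [one_div_mul_one_div]; congr 1; ring
          rw [e3, Complex.ofReal_mul]
          ring
        · rw [if_neg fun hx => c2 hx.2]
          simp only [hβ, if_neg c2]
          ring
      · rw [if_neg fun hx => c1 hx.1]
        simp only [hα, if_neg c1]
        ring
    rw [e1, norm_mul, Complex.norm_real, Real.norm_of_nonneg (by positivity)]
    have := norm_add_le (∑ l ∈ Ioc M (2 * M + 1),
              ∑ h ∈ (Ioc M (2 * M + 1)).filter (fun h => Nat.Coprime l h),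
        α l * β h * ((1 / ((h : ℝ) * l) : ℝ) : ℂ) * Du k true 1 h l Y)
          (∑ l ∈ Ioc M (2 * M + 1), ∑ h ∈ (Ioc M (2 * M + 1)).filter (fun h => Nat.Coprime l h),
        α l * β h * ((1 / ((h : ℝ) * l) : ℝ) : ℂ) * Du k false (-1) h l Y)
    have h5 : (0 : ℝ) ≤ 1 / g := by positivity
    calc _ ≤ (1 / (g : ℝ)) * (e + e) := mul_le_mul_of_nonneg_left (this.trans (add_le_add t1 t2)) h5
      _ = 2 * e * (1 / g) := by ring
  have he : 0 ≤ e := (norm_nonneg _).trans (htri 0 (Nat.zero_le _) (fun _ => 0) (fun _ => 0)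
    (fun _ => by simp) (fun _ => by simp) true 1 (Or.inl rfl))
  refine (norm_sum_le _ _).trans ((sum_le_sum key).trans ?_)
  rw [← mul_sum]
  exact mul_le_mul_of_nonneg_left (harm_le _) (by positivity)

lemma logbd (A B c : ℝ) (hc : 0 < c) :
    ∀ᶠ T : ℝ in atTop, A + B * Real.log T ≤ (1 / 2) * T ^ c := by
  have h1 : (fun T : ℝ => A + B * Real.log T) =o[atTop] fun T : ℝ => T ^ c := by
    refine Asymptotics.IsLittleO.add ?_ ((isLittleO_log_rpow_atTop hc).const_mul_left B)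
    exact Asymptotics.isLittleO_const_left.mpr
      (Or.inr ((tendsto_norm_atTop_atTop).comp (tendsto_rpow_atTop hc)))
  filter_upwards [h1.bound (show (0 : ℝ) < 1 / 2 by norm_num), eventually_gt_atTop (0 : ℝ)]
    with T hT hT0
  rw [Real.norm_of_nonneg (by positivity : (0 : ℝ) ≤ T ^ c)] at hT
  exact (le_abs_self _).trans hT

end

end TTSM

open Finset Filter Topology MeasureTheory Complex
open Pool.Agent.H306R2.SM (om cl ef Xf Gf Yf ee)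

theorem t_TSM (h1 : P_COP) (h2 : P_TRI) : P_TSM := by
  intro θ hθ
  set θ' := max θ (1 / 4) with hθ'
  have hθ'0 : 0 < θ' := lt_of_lt_of_le (by norm_num) (le_max_right _ _)
  have hθ'1 : θ' < 14 / 27 := max_lt hθ (by norm_num)
  obtain ⟨η, hη, hT⟩ := h2 θ' hθ'0 hθ'1
  refine ⟨min (η / 2) (1 / 20), lt_min (by linarith) (by norm_num), ?_⟩
  have hT35 : ∀ᶠ T : ℝ in atTop, 2 ≤ T ^ (3 / 5 - 14 / 27 : ℝ) :=
    (tendsto_rpow_atTop (by norm_num)).eventually_ge_atTop 2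
  filter_upwards [h1, hT, hT35, TTSM.logbd 5 8 (1 / 50) (by norm_num),
    TTSM.logbd 2 4 (η / 2) (by linarith), eventually_ge_atTop (Real.exp 1),
    eventually_ge_atTop (2 : ℝ)] with T hC hR h35 hL1 hL2 hTe hT2
  intro k hk N hN a ha
  have hTp : 0 < T := by linarith
  have hT1 : 1 ≤ T := by linarith
  have hlogT : 1 ≤ Real.log T := by
    rw [Real.le_log_iff_exp_le hTp]; exact hTe
  have hk1 : (1 : ℝ) ≤ k := by
    have := hk.1
    nlinarith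
  have hδ : 0 < (k : ℝ) / T := by positivity
  rw [TTSM.int_expand k hδ N a]
  rcases Nat.eq_zero_or_pos N with hN0 | hN1
  · subst hN0
    simp only [mul_zero, Ioc_self, sum_empty, sub_zero, norm_zero]
    positivity
  have hNp : (1 : ℝ) ≤ N := by exact_mod_cast hN1
  have hN' : (N : ℝ) ≤ T ^ θ' :=
    hN.trans (Real.rpow_le_rpow_of_exponent_le hT1 (le_max_left _ _))
  have hN2 : (N : ℝ) ≤ T ^ (14 / 27 : ℝ) :=
    hN'.trans (Real.rpow_le_rpow_of_exponent_le hT1 hθ'1.le)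
  have hN3 : 2 * (N : ℝ) ≤ T ^ (3 / 5 : ℝ) := by
    calc 2 * (N : ℝ) ≤ T ^ (3 / 5 - 14 / 27 : ℝ) * T ^ (14 / 27 : ℝ) :=
          mul_le_mul h35 hN2 (by positivity) (by positivity)
      _ = T ^ (3 / 5 : ℝ) := by rw [← Real.rpow_add hTp]; norm_num
  -- the pairs
  have hpair : ∀ h ∈ Ioc N (2 * N), ∀ l ∈ Ioc N (2 * N),
      ‖a h * (starRingEnd ℂ) (a l) * ((1 / Real.sqrt (h * l) : ℝ) : ℂ) * Mt k T l h -
      a h * (starRingEnd ℂ) (a l) * ((1 / (Nat.lcm h l : ℝ) *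
          (Real.log (Yf k T * (Nat.gcd h l : ℝ) ^ 2 / ((h : ℝ) * l)) + Ck k) : ℝ) : ℂ) -
      TTSM.Dh a k (Yf k T) h l‖ ≤ (1 / Real.sqrt ((h : ℝ) * l)) *
      (T ^ (-(3 / 5) : ℝ) + T ^ (-(1 / 5) : ℝ) * ((h / Nat.gcd h l : ℕ) : ℝ) ^ (-(1 / 4) : ℝ) *
        ((l / Nat.gcd h l : ℕ) : ℝ) ^ (-(1 / 2) : ℝ)) := by
    intro h hh l hl
    rw [mem_Ioc] at hh hl
    have hh1 : 1 ≤ h := by omega
    have hl1 : 1 ≤ l := by omega
    have hg1 : 0 < Nat.gcd h l := Nat.gcd_pos_of_pos_left _ hh1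
    refine TTSM.pair_bound a ha k T (Yf k T) _ h l hh1 hl1 ?_
    have hcast : ∀ x : ℕ, x ≤ 2 * N → ((x / Nat.gcd h l : ℕ) : ℝ) ≤ T ^ (3 / 5 : ℝ) := by
      intro x hx
      have h3 : x / Nat.gcd h l ≤ 2 * N := (Nat.div_le_self _ _).trans hx
      have h4 : ((x / Nat.gcd h l : ℕ) : ℝ) ≤ 2 * N := by exact_mod_cast h3
      exact h4.trans hN3
    refine hC k hk (l / Nat.gcd h l) (h / Nat.gcd h l) ?_ ?_ ?_ (hcast l hl.2) (hcast h hh.2)
    · exact Nat.div_pos (Nat.gcd_le_right _ hl1) hg1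
    · exact Nat.div_pos (Nat.gcd_le_left _ hh1) hg1
    · exact (Nat.coprime_div_gcd_div_gcd hg1).symm
  have hdual := TTSM.dual_sum a ha k (Yf k T) (T ^ (-η)) N (by
    intro M hM α β hα hβ b σ hσ
    refine hR k hk M ?_ α β hα hβ b σ hσ
    exact le_trans (by exact_mod_cast hM) hN')
  have herr := TTSM.err_sum N hN1 (T ^ (-(3 / 5) : ℝ)) (T ^ (-(1 / 5) : ℝ)) (by positivity)
    (by positivity)
  set L := 1 + Real.log (2 * N : ℕ) with hL
  have hL0 : 0 ≤ L := by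
    have : 0 ≤ Real.log (2 * N : ℕ) := Real.log_natCast_nonneg _
    linarith
  have hLb : L ≤ 1 + 2 * Real.log T := by
    have h3 : ((2 * N : ℕ) : ℝ) ≤ T ^ 2 := by
      have h4 : (N : ℝ) ≤ T := hN2.trans (by
        calc T ^ (14 / 27 : ℝ) ≤ T ^ (1 : ℝ) := Real.rpow_le_rpow_of_exponent_le hT1 (by norm_num)
          _ = T := Real.rpow_one _)
      push_cast
      nlinarith
    have h5 : Real.log (2 * N : ℕ) ≤ Real.log (T ^ 2) :=
      Real.log_le_log (by positivity) h3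
    rw [Real.log_pow, show ((2 : ℕ) : ℝ) = 2 by norm_num] at h5
    linarith
  -- main inequality
  have hmain : ‖(∑ h ∈ Ioc N (2 * N), ∑ l ∈ Ioc N (2 * N), a h * (starRingEnd ℂ) (a l) *
        ((1 / Real.sqrt (h * l) : ℝ) : ℂ) * Mt k T l h) -
      ∑ h ∈ Ioc N (2 * N), ∑ l ∈ Ioc N (2 * N), a h * (starRingEnd ℂ) (a l) *
        ((1 / (Nat.lcm h l : ℝ) *
          (Real.log (Yf k T * (Nat.gcd h l : ℝ) ^ 2 / ((h : ℝ) * l)) + Ck k) : ℝ) : ℂ)‖ ≤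
      (N * T ^ (-(3 / 5) : ℝ) + T ^ (-(1 / 5) : ℝ) * (4 * (N : ℝ) ^ (1 / 4 : ℝ) * L)) +
        2 * T ^ (-η) * L := by
    have e1 : (∑ h ∈ Ioc N (2 * N), ∑ l ∈ Ioc N (2 * N), a h * (starRingEnd ℂ) (a l) *
        ((1 / Real.sqrt (h * l) : ℝ) : ℂ) * Mt k T l h) -
      ∑ h ∈ Ioc N (2 * N), ∑ l ∈ Ioc N (2 * N), a h * (starRingEnd ℂ) (a l) *
        ((1 / (Nat.lcm h l : ℝ) *
          (Real.log (Yf k T * (Nat.gcd h l : ℝ) ^ 2 / ((h : ℝ) * l)) + Ck k) : ℝ) : ℂ) =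
      (∑ h ∈ Ioc N (2 * N), ∑ l ∈ Ioc N (2 * N), (a h * (starRingEnd ℂ) (a l) *
        ((1 / Real.sqrt (h * l) : ℝ) : ℂ) * Mt k T l h - a h * (starRingEnd ℂ) (a l) *
        ((1 / (Nat.lcm h l : ℝ) *
          (Real.log (Yf k T * (Nat.gcd h l : ℝ) ^ 2 / ((h : ℝ) * l)) + Ck k) : ℝ) : ℂ) -
        TTSM.Dh a k (Yf k T) h l)) +
      ∑ h ∈ Ioc N (2 * N), ∑ l ∈ Ioc N (2 * N), TTSM.Dh a k (Yf k T) h l := by
      simp only [sum_sub_distrib]
      ring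
    rw [e1]
    refine (norm_add_le _ _).trans (add_le_add ?_ hdual)
    refine le_trans ((norm_sum_le _ _).trans (sum_le_sum fun h hh => ?_)) herr
    exact (norm_sum_le _ _).trans (sum_le_sum fun l hl => hpair h hh l hl)
  refine hmain.trans ?_
  have b1 : N * T ^ (-(3 / 5) : ℝ) ≤ T ^ (-(7 / 100) : ℝ) := by
    calc (N : ℝ) * T ^ (-(3 / 5) : ℝ) ≤ T ^ (14 / 27 : ℝ) * T ^ (-(3 / 5) : ℝ) :=
          mul_le_mul_of_nonneg_right hN2 (by positivity)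
      _ = T ^ (14 / 27 + -(3 / 5) : ℝ) := (Real.rpow_add hTp _ _).symm
      _ ≤ _ := Real.rpow_le_rpow_of_exponent_le hT1 (by norm_num)
  have b2 : T ^ (-(1 / 5) : ℝ) * (N : ℝ) ^ (1 / 4 : ℝ) ≤ T ^ (-(7 / 100) : ℝ) := by
    calc T ^ (-(1 / 5) : ℝ) * (N : ℝ) ^ (1 / 4 : ℝ) ≤
          T ^ (-(1 / 5) : ℝ) * (T ^ (14 / 27 : ℝ)) ^ (1 / 4 : ℝ) := by
          refine mul_le_mul_of_nonneg_left ?_ (by positivity)
          exact Real.rpow_le_rpow (by positivity) hN2 (by norm_num)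
      _ = T ^ (-(1 / 5) + 14 / 27 * (1 / 4) : ℝ) := by
          rw [← Real.rpow_mul hTp.le, ← Real.rpow_add hTp]
      _ ≤ _ := Real.rpow_le_rpow_of_exponent_le hT1 (by norm_num)
  have b3 : (5 + 8 * Real.log T) * T ^ (-(7 / 100) : ℝ) ≤ (1 / 2) * T ^ (-(1 / 20) : ℝ) := by
    calc (5 + 8 * Real.log T) * T ^ (-(7 / 100) : ℝ) ≤
          ((1 / 2) * T ^ (1 / 50 : ℝ)) * T ^ (-(7 / 100) : ℝ) :=
          mul_le_mul_of_nonneg_right hL1 (by positivity)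
      _ = (1 / 2) * T ^ (-(1 / 20) : ℝ) := by
          rw [mul_assoc, ← Real.rpow_add hTp]; norm_num
  have b4 : (2 + 4 * Real.log T) * T ^ (-η) ≤ (1 / 2) * T ^ (-(η / 2)) := by
    calc (2 + 4 * Real.log T) * T ^ (-η) ≤ ((1 / 2) * T ^ (η / 2)) * T ^ (-η) :=
          mul_le_mul_of_nonneg_right hL2 (by positivity)
      _ = (1 / 2) * T ^ (-(η / 2)) := by
          rw [mul_assoc, ← Real.rpow_add hTp]; congr 2; ring
  have b5 : T ^ (-(1 / 20) : ℝ) ≤ T ^ (-(min (η / 2) (1 / 20))) :=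
    Real.rpow_le_rpow_of_exponent_le hT1 (neg_le_neg (min_le_right _ _))
  have b6 : T ^ (-(η / 2)) ≤ T ^ (-(min (η / 2) (1 / 20))) :=
    Real.rpow_le_rpow_of_exponent_le hT1 (neg_le_neg (min_le_left _ _))
  have c1 : T ^ (-(1 / 5) : ℝ) * (4 * (N : ℝ) ^ (1 / 4 : ℝ) * L) ≤
      4 * (1 + 2 * Real.log T) * T ^ (-(7 / 100) : ℝ) := by
    calc T ^ (-(1 / 5) : ℝ) * (4 * (N : ℝ) ^ (1 / 4 : ℝ) * L) =
          (4 * L) * (T ^ (-(1 / 5) : ℝ) * (N : ℝ) ^ (1 / 4 : ℝ)) := by ring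
      _ ≤ (4 * (1 + 2 * Real.log T)) * T ^ (-(7 / 100) : ℝ) := by
          refine mul_le_mul (by linarith) b2 (by positivity) (by linarith)
  have c2 : 2 * T ^ (-η) * L ≤ (2 + 4 * Real.log T) * T ^ (-η) := by
    calc 2 * T ^ (-η) * L = (2 * L) * T ^ (-η) := by ring
      _ ≤ (2 + 4 * Real.log T) * T ^ (-η) :=
          mul_le_mul_of_nonneg_right (by linarith) (by positivity)
  calc (N * T ^ (-(3 / 5) : ℝ) + T ^ (-(1 / 5) : ℝ) * (4 * (N : ℝ) ^ (1 / 4 : ℝ) * L)) +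
        2 * T ^ (-η) * L ≤ (T ^ (-(7 / 100) : ℝ) +
          4 * (1 + 2 * Real.log T) * T ^ (-(7 / 100) : ℝ)) + (2 + 4 * Real.log T) * T ^ (-η) :=
        add_le_add (add_le_add b1 c1) c2
    _ = (5 + 8 * Real.log T) * T ^ (-(7 / 100) : ℝ) + (2 + 4 * Real.log T) * T ^ (-η) := by ring
    _ ≤ (1 / 2) * T ^ (-(1 / 20) : ℝ) + (1 / 2) * T ^ (-(η / 2)) := add_le_add b3 b4
    _ ≤ T ^ (-(min (η / 2) (1 / 20))) := by linarith

end Pool.Agent.H262R4.TM
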