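import Pool.Agent.H262R4.TM.Defs
import Pool.Agent.H306R2.ZetaGrowth
import Pool.Agent.H768R2.SM_T0c
import Pool.Agent.H800R2.SM_T4a

set_option autoImplicit false

/-! TM project, task TW: the twisted moment of one pair as an exponential sum. -/

namespace Pool.Agent.H262R4.TM

open Finset Filter Topology MeasureTheory Complex
open Pool.Agent.H306R2.SM (om cl ef Xf Gf Yf ee)
open Pool.Agent.H442R2.KF (kf tau)

noncomputable section

namespace TTW

lemma om_nonneg (k : ℕ) {δ t : ℝ} (hδ : 0 < δ) (ht : 0 ≤ t) : 0 ≤ om k δ t := by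
  unfold om; positivity

lemma om_cont (k : ℕ) (δ : ℝ) : Continuous (om k δ) := by
  unfold om; fun_prop

/-- integrability of `om * (1+t)^A` -/
lemma om_poly (k A : ℕ) {δ : ℝ} (hδ : 0 < δ) :
    IntegrableOn (fun t : ℝ => om k δ t * (1 + t) ^ A) (Set.Ioi 0) := by
  have h1 : ∀ j : ℕ, IntegrableOn (fun t : ℝ => t ^ (k + j) * Real.exp (-(δ * t))) (Set.Ioi 0) := by
    intro j
    have := Real.GammaIntegral_convergent (s := (k + j : ℕ) + 1) (by positivity)
    have h2 := (integrableOn_Ioi_comp_mul_left_iff (fun x : ℝ => Real.exp (-x) * x ^ (((k + j : ℕ):ℝ) + 1 - 1)) 0 hδ).mpr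
      (by simpa using this)
    have h3 : IntegrableOn (fun x => (δ ^ (k + j))⁻¹ *
        (Real.exp (-(δ * x)) * (δ * x) ^ (((k + j : ℕ) : ℝ) + 1 - 1))) (Set.Ioi 0) :=
      h2.const_mul ((δ ^ (k + j))⁻¹)
    refine h3.congr_fun (fun t ht => ?_) measurableSet_Ioi
    have ht0 : 0 < t := ht
    simp only [add_sub_cancel_right]
    rw [Real.rpow_natCast, mul_pow]
    field_simp
  have h4 : (fun t : ℝ => om k δ t * (1 + t) ^ A) = fun t : ℝ =>
      ∑ j ∈ range (A + 1), (δ ^ (k + 1) / (k.factorial : ℝ) * (A.choose j : ℝ)) *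
        (t ^ (k + j) * Real.exp (-(δ * t))) := by
    funext t
    rw [add_comm 1 t, add_pow, mul_sum]
    refine sum_congr rfl fun j _ => ?_
    unfold om
    rw [pow_add]
    ring
  rw [h4]
  exact integrable_finsetSum _ fun j _ => (h1 j).const_mul _

lemma ef_norm (θ t : ℝ) : ‖ef θ t‖ = 1 := by
  unfold ef
  rw [Complex.norm_exp_ofReal_mul_I]

lemma ef_cont (θ : ℝ) : Continuous (ef θ) := by
  unfold ef; fun_prop

lemma cl_cont : Continuous cl := by unfold cl; fun_prop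

lemma zeta_cont : Continuous (fun t : ℝ => riemannZeta (cl t)) := by
  rw [continuous_iff_continuousAt]
  intro t
  have h1 : cl t ≠ 1 := by
    intro h
    have := congrArg Complex.re h
    simp [cl] at this
  have h2 := (differentiableAt_riemannZeta h1).continuousAt
  exact ContinuousAt.comp (f := cl) h2 cl_cont.continuousAt

lemma zeta_cl_bound (t : ℝ) (_ht : 0 ≤ t) : ‖riemannZeta (cl t)‖ ≤ 24 * (1 + t) ^ 2 := by
  have h := Pool.Agent.H306R2.zeta_norm_le (s := cl t) (by simp [cl]) (by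
    have h1 : |(cl t - 1).re| ≤ ‖cl t - 1‖ := Complex.abs_re_le_norm _
    have h2 : |(cl t - 1).re| = 1 / 2 := by
      simp only [cl, Complex.sub_re, Complex.add_re, Complex.mul_re, Complex.ofReal_re,
        Complex.I_re, mul_zero, Complex.ofReal_im, Complex.I_im, mul_one, sub_self, add_zero,
        Complex.one_re]
      norm_num
    linarith)
  have h3 : ‖cl t‖ ≤ 1 / 2 + t := by
    unfold cl
    refine (norm_add_le _ _).trans ?_
    rw [norm_mul, Complex.norm_real, Complex.norm_I, mul_one, Real.norm_of_nonneg _ht]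
    norm_num
  refine h.trans ?_
  have h4 : (‖cl t‖ + 1) ^ 2 ≤ (2 * (1 + t)) ^ 2 := by
    apply pow_le_pow_left₀ (by positivity)
    linarith
  nlinarith

lemma z2_bound {t : ℝ} (ht : 0 ≤ t) : ‖riemannZeta (cl t)‖ ^ 2 ≤ 576 * (1 + t) ^ 4 := by
  calc ‖riemannZeta (cl t)‖ ^ 2 ≤ (24 * (1 + t) ^ 2) ^ 2 :=
        pow_le_pow_left₀ (norm_nonneg _) (zeta_cl_bound t ht) 2
    _ = _ := by ring

lemma Gf_cont (k : ℕ) {δ : ℝ} (hδ : 0 < δ) : Continuous (fun t : ℝ => Gf k δ (cl t)) := by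
  unfold Gf
  have hcl : Continuous cl := cl_cont
  refine Continuous.mul (Continuous.mul continuous_const ?_) ?_
  · rw [continuous_iff_continuousAt]
    intro t
    have h1 : DifferentiableAt ℂ Complex.Gamma (cl t + k) := by
      apply Complex.differentiableAt_Gamma
      intro m h
      have := congrArg Complex.re h
      simp [cl] at this
      have hk : (0:ℝ) ≤ k := Nat.cast_nonneg k
      have hm : (0:ℝ) ≤ m := Nat.cast_nonneg m
      linarith
    exact ContinuousAt.comp (f := fun t : ℝ => cl t + (k:ℂ)) h1.continuousAt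
      (hcl.add continuous_const).continuousAt
  · refine Continuous.const_cpow (by fun_prop) (Or.inl ?_)
    intro h
    have h2 := congrArg Complex.re h
    have h3 : (2 * (Real.pi : ℂ) * Complex.I + 2 * (Real.pi : ℂ) * (δ : ℂ)).re =
        2 * Real.pi * δ := by simp
    rw [h3, Complex.zero_re] at h2
    have : 0 < 2 * Real.pi * δ := by positivity
    linarith

lemma tail_int : IntegrableOn (fun t : ℝ => (1 + t) ^ (-16 : ℝ)) (Set.Ioi 0) ∧
    ∫ t in Set.Ioi (0:ℝ), (1 + t) ^ (-16 : ℝ) ≤ 1 := by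
  have h1 : IntegrableOn (fun t : ℝ => t ^ (-16 : ℝ)) (Set.Ioi 1) :=
    integrableOn_Ioi_rpow_of_lt (by norm_num) one_pos
  have h2 : (fun t : ℝ => (1 + t) ^ (-16 : ℝ)) = fun t => (fun x : ℝ => x ^ (-16 : ℝ)) (t + 1) := by
    funext t; rw [add_comm]
  have hpre : Set.Ioi (0:ℝ) = (fun t : ℝ => t + 1) ⁻¹' (Set.Ioi 1) := by
    ext t; simp
  constructor
  · rw [h2, hpre]
    exact (MeasurePreserving.integrableOn_comp_preimage (measurePreserving_add_right volume (1:ℝ))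
      (measurableEmbedding_addRight 1)).mpr h1
  · rw [h2, hpre, (measurePreserving_add_right volume (1:ℝ)).setIntegral_preimage_emb
      (measurableEmbedding_addRight 1) (fun x : ℝ => x ^ (-16 : ℝ)) (Set.Ioi 1),
      integral_Ioi_rpow_of_lt (by norm_num) one_pos]
    norm_num

/-- the mean square -/
def Ims (k : ℕ) (δ : ℝ) : ℝ := ∫ t in Set.Ioi (0:ℝ), om k δ t * ‖riemannZeta (cl t)‖ ^ 2

lemma int2 (k : ℕ) {δ : ℝ} (hδ : 0 < δ) :
    IntegrableOn (fun t => om k δ t * ‖riemannZeta (cl t)‖ ^ 2) (Set.Ioi 0) := by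
  refine Integrable.mono' ((om_poly k 4 hδ).const_mul 576) ?_ ?_
  · exact ((om_cont k δ).mul (zeta_cont.norm.pow 2)).aestronglyMeasurable
  · refine (ae_restrict_iff' measurableSet_Ioi).mpr (Eventually.of_forall fun t ht => ?_)
    have ht0 : (0:ℝ) ≤ t := le_of_lt ht
    have h1 := om_nonneg k hδ ht0
    rw [Real.norm_of_nonneg (by positivity)]
    calc om k δ t * ‖riemannZeta (cl t)‖ ^ 2 ≤ om k δ t * (576 * (1 + t) ^ 4) :=
          mul_le_mul_of_nonneg_left (z2_bound ht0) h1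
      _ = 576 * (om k δ t * (1 + t) ^ 4) := by ring

lemma Ims_nonneg (k : ℕ) {δ : ℝ} (hδ : 0 < δ) : 0 ≤ Ims k δ := by
  unfold Ims
  refine setIntegral_nonneg measurableSet_Ioi fun t ht => ?_
  have h1 := om_nonneg k hδ (le_of_lt ht)
  positivity

/-- replacing the Gamma factor by `Gf` -/
lemma core (T : ℝ) (k : ℕ) (δ : ℝ) (hδ : 0 < δ) (hT : 0 < T)
    (ha : ∀ t : ℝ, 0 < t → ‖(om k δ t : ℂ) * Xf (cl t) - Gf k δ (cl t)‖ ≤
        T ^ (-(3 / 4) : ℝ) * om k δ t + T ^ (-20 : ℝ) * (1 + t) ^ (-20 : ℝ)) (φ : ℝ) :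
    ‖(∫ t in Set.Ioi (0 : ℝ), ((om k δ t * ‖riemannZeta (cl t)‖ ^ 2 : ℝ) : ℂ) * ef φ t) -
      ∫ t in Set.Ioi (0 : ℝ), riemannZeta (cl t) ^ 2 * Gf k δ (cl t) * ef φ t‖ ≤
      T ^ (-(3 / 4) : ℝ) * Ims k δ + T ^ (-20 : ℝ) * 576 := by
  have i2 := int2 k hδ
  have i1 : IntegrableOn (fun t : ℝ => ((om k δ t * ‖riemannZeta (cl t)‖ ^ 2 : ℝ) : ℂ) * ef φ t)
      (Set.Ioi 0) := by
    refine Integrable.mono' i2 ?_ ?_
    · exact ((continuous_ofReal.comp ((om_cont k δ).mul (zeta_cont.norm.pow 2))).mul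
        (ef_cont φ)).aestronglyMeasurable
    · refine (ae_restrict_iff' measurableSet_Ioi).mpr (Eventually.of_forall fun t ht => ?_)
      have h1 := om_nonneg k hδ (le_of_lt ht)
      rw [norm_mul, ef_norm, mul_one, Complex.norm_real, Real.norm_of_nonneg (by positivity)]
  set D : ℝ → ℂ := fun t => riemannZeta (cl t) ^ 2 * ((om k δ t : ℂ) * Xf (cl t) - Gf k δ (cl t)) *
    ef φ t with hD
  have hDc : Continuous D := by
    refine ((zeta_cont.pow 2).mul ?_).mul (ef_cont φ)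
    exact ((continuous_ofReal.comp (om_cont k δ)).mul
      Pool.Agent.H768R2.SM_T0c.Xf_continuous).sub (Gf_cont k hδ)
  set g : ℝ → ℝ := fun t => T ^ (-(3 / 4) : ℝ) * (om k δ t *
    ‖riemannZeta (cl t)‖ ^ 2) + T ^ (-20 : ℝ) * (576 * (1 + t) ^ (-16 : ℝ)) with hg
  have q1 : IntegrableOn (fun t : ℝ => T ^ (-(3 / 4) : ℝ) * (om k δ t *
      ‖riemannZeta (cl t)‖ ^ 2)) (Set.Ioi 0) := i2.const_mul _
  have q2 : IntegrableOn (fun t : ℝ => T ^ (-20 : ℝ) * (576 * (1 + t) ^ (-16 : ℝ)))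
      (Set.Ioi 0) := (tail_int.1.const_mul _).const_mul _
  have ig : IntegrableOn g (Set.Ioi 0) := q1.add q2
  have hDg : ∀ t ∈ Set.Ioi (0:ℝ), ‖D t‖ ≤ g t := by
    intro t ht
    have ht0 : (0:ℝ) < t := ht
    have h1 := ha t ht0
    have hn := om_nonneg k hδ ht0.le
    simp only [hD, hg]
    rw [norm_mul, norm_mul, ef_norm, mul_one, norm_pow]
    have hz := z2_bound ht0.le
    have e16 : (1 + t) ^ 4 * (1 + t) ^ (-20 : ℝ) = (1 + t) ^ (-16 : ℝ) := by
      rw [← Real.rpow_natCast, ← Real.rpow_add (by linarith)]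
      norm_num
    calc ‖riemannZeta (cl t)‖ ^ 2 * ‖(om k δ t : ℂ) * Xf (cl t) - Gf k δ (cl t)‖
        ≤ ‖riemannZeta (cl t)‖ ^ 2 * (T ^ (-(3 / 4) : ℝ) * om k δ t +
            T ^ (-20 : ℝ) * (1 + t) ^ (-20 : ℝ)) := mul_le_mul_of_nonneg_left h1 (by positivity)
      _ = T ^ (-(3 / 4) : ℝ) * (om k δ t * ‖riemannZeta (cl t)‖ ^ 2) +
            T ^ (-20 : ℝ) * (‖riemannZeta (cl t)‖ ^ 2 * (1 + t) ^ (-20 : ℝ)) := by ring
      _ ≤ T ^ (-(3 / 4) : ℝ) * (om k δ t * ‖riemannZeta (cl t)‖ ^ 2) +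
            T ^ (-20 : ℝ) * ((576 * (1 + t) ^ 4) * (1 + t) ^ (-20 : ℝ)) := by
          gcongr
      _ = _ := by
          rw [mul_assoc (576:ℝ), e16]
  have iD : IntegrableOn D (Set.Ioi 0) :=
    Integrable.mono' ig hDc.aestronglyMeasurable
      ((ae_restrict_iff' measurableSet_Ioi).mpr (Eventually.of_forall hDg))
  have hDn : ‖∫ t in Set.Ioi (0:ℝ), D t‖ ≤ ∫ t in Set.Ioi (0:ℝ), g t := by
    refine norm_integral_le_of_norm_le ig ?_
    exact (ae_restrict_iff' measurableSet_Ioi).mpr (Eventually.of_forall hDg)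
  have hgI : ∫ t in Set.Ioi (0:ℝ), g t ≤ T ^ (-(3 / 4) : ℝ) * Ims k δ + T ^ (-20 : ℝ) * 576 := by
    simp only [hg]
    rw [integral_add q1 q2, integral_const_mul, integral_const_mul, integral_const_mul]
    have := tail_int.2
    have h20 : 0 ≤ T ^ (-20 : ℝ) := by positivity
    unfold Ims
    nlinarith
  have hpt : ∀ t : ℝ, ((om k δ t * ‖riemannZeta (cl t)‖ ^ 2 : ℝ) : ℂ) * ef φ t -
      riemannZeta (cl t) ^ 2 * Gf k δ (cl t) * ef φ t = D t := by
    intro t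
    have h1 := Pool.Agent.H768R2.SM_T0c.Xf_fe t
    have h2 : ((‖riemannZeta (cl t)‖ ^ 2 : ℝ) : ℂ) =
        (starRingEnd ℂ) (riemannZeta (cl t)) * riemannZeta (cl t) := by
      rw [Complex.conj_mul']
      push_cast
      rfl
    simp only [hD]
    rw [Complex.ofReal_mul, h2, ← h1]
    ring
  have iG : IntegrableOn (fun t => riemannZeta (cl t) ^ 2 * Gf k δ (cl t) * ef φ t)
      (Set.Ioi 0) := by
    refine (i1.sub iD).congr (Eventually.of_forall fun t => ?_)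
    simp only [Pi.sub_apply]
    rw [← hpt t]
    ring
  rw [← integral_sub i1 iG]
  have e : (∫ t in Set.Ioi (0:ℝ), ((om k δ t * ‖riemannZeta (cl t)‖ ^ 2 : ℝ) : ℂ) * ef φ t -
      riemannZeta (cl t) ^ 2 * Gf k δ (cl t) * ef φ t) = ∫ t in Set.Ioi (0:ℝ), D t :=
    integral_congr_ae (Eventually.of_forall hpt)
  rw [e]
  exact hDn.trans hgI

lemma Mt_one (k : ℕ) (T : ℝ) : Mt k T 1 1 = (Ims k (k / T) : ℂ) := by
  unfold Mt Ims
  rw [← integral_complex_ofReal]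
  refine integral_congr_ae (Eventually.of_forall fun t => ?_)
  simp [ef]

lemma norm_tsum_le {f : ℕ → ℂ} : ‖∑' n, f n‖ ≤ ∑' n, ‖f n‖ := by
  by_cases h : Summable (fun n => ‖f n‖)
  · exact norm_tsum_le_tsum_norm h
  · rw [summable_norm_iff] at h
    rw [tsum_eq_zero_of_not_summable h, norm_zero]
    exact tsum_nonneg fun n => norm_nonneg _

lemma tau_nonneg (n : ℕ) : 0 ≤ tau n := by
  unfold tau; positivity

lemma S2_one (k : ℕ) {Y : ℝ} (hY : 0 < Y) :
    ‖S2 k 1 1 Y‖ ≤ (k.factorial : ℝ) * Y ^ k * V2 k Y := by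
  unfold S2
  refine norm_tsum_le.trans (le_of_eq ?_)
  have h1 : ∀ n : ℕ, ‖((tau n * ((n : ℝ) * (1 : ℕ) / (1 : ℕ)) ^ k *
      Real.exp (-((n : ℝ) * (1 : ℕ) / (1 : ℕ) / Y)) : ℝ) : ℂ) * ee 1 (-((n : ℤ) * (1 : ℕ)))‖ =
      Y ^ k * (tau n * ((n : ℝ) / Y) ^ k * Real.exp (-((n : ℝ) / Y))) := by
    intro n
    have e1 : ‖ee 1 (-((n : ℤ) * (1 : ℕ)))‖ = 1 := by
      unfold ee
      rw [Complex.norm_exp]
      simp
    rw [norm_mul, e1, mul_one, Complex.norm_real, Real.norm_of_nonneg (by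
      have := tau_nonneg n
      positivity)]
    simp only [Nat.cast_one, mul_one, div_one]
    rw [div_pow]
    field_simp
  rw [tsum_congr h1, tsum_mul_left]
  unfold V2
  have hk : (0:ℝ) < k.factorial := by exact_mod_cast Nat.factorial_pos k
  field_simp

lemma Ck_le (k : ℕ) : Ck k ≤ k + 1 := by
  unfold Ck
  have h1 : (harmonic k : ℝ) ≤ k := by
    have h2 : harmonic k ≤ k := by
      unfold harmonic
      calc ∑ i ∈ range k, ((i + 1 : ℕ) : ℚ)⁻¹ ≤ ∑ _i ∈ range k, (1 : ℚ) := by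
            refine sum_le_sum fun i _ => ?_
            apply inv_le_one_of_one_le₀
            exact_mod_cast Nat.succ_le_succ (Nat.zero_le i)
        _ = k := by simp
    exact_mod_cast h2
  have h3 := Real.eulerMascheroniConstant_lt_two_thirds
  linarith

/-- growth: powers of the logarithm -/
lemma log_pow_le (K c : ℝ) (hc : 0 < c) (n : ℕ) :
    ∀ᶠ T : ℝ in atTop, K * Real.log T ^ n ≤ T ^ c := by
  have h1 := (isLittleO_log_rpow_rpow_atTop (n : ℝ) hc).def (c := (|K| + 1)⁻¹) (by positivity)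
  filter_upwards [h1, eventually_gt_atTop 1] with T h hT
  have hlog : 0 < Real.log T := Real.log_pos hT
  have hT0 : 0 < T := by linarith
  rw [Real.norm_of_nonneg (by positivity), Real.norm_of_nonneg (by positivity),
    Real.rpow_natCast] at h
  have h2 : (|K| + 1) * Real.log T ^ n ≤ T ^ c := by
    calc (|K| + 1) * Real.log T ^ n ≤ (|K| + 1) * ((|K| + 1)⁻¹ * T ^ c) := by gcongr
      _ = T ^ c := by field_simp
  have h3 : K ≤ |K| + 1 := by linarith [le_abs_self K]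
  calc K * Real.log T ^ n ≤ (|K| + 1) * Real.log T ^ n := by gcongr
    _ ≤ _ := h2

end TTW

open TTW

theorem t_TW (h1 : P_TM2) (h2 : P_V2) : P_TW := by
  obtain ⟨C, A, hC, hV⟩ := h2
  have hsm : ∀ c : ℝ, 0 < c → ∀ ε : ℝ, 0 < ε → ∀ᶠ T : ℝ in atTop, T ^ (-c) ≤ ε := by
    intro c hc ε hε
    exact (tendsto_rpow_neg_atTop hc).eventually (Iic_mem_nhds hε)
  filter_upwards [h1, Pool.Agent.H800R2.SM4a.Gf_approx, eventually_gt_atTop (Real.exp 1),
    log_pow_le (2 * (583 + C * 4 ^ A)) (1 / 24) (by norm_num) (2 * A + 2),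
    log_pow_le (8 * Real.pi) 1 one_pos 2,
    hsm (1 / 24) (by norm_num) (1 / 2) (by norm_num),
    hsm (16 / 3) (by norm_num) (1 / 1154) (by norm_num),
    hsm (3 / 4) (by norm_num) (1 / 2) (by norm_num)] with T hM ha hTe hB hY s1 s2 s3
  intro k hk h l hh hl hhT hlT
  have hT1 : 1 < T := by
    have := Real.add_one_le_exp 1
    linarith
  have hT0 : 0 < T := by linarith
  have hL1 : 1 ≤ Real.log T := by
    rw [Real.le_log_iff_exp_le hT0]
    exact hTe.le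
  have hk1' : (1 : ℝ) ≤ k := le_trans (by nlinarith) hk.1
  have hk1 : 1 ≤ k := by exact_mod_cast hk1'
  have hδ : 0 < (k : ℝ) / T := by positivity
  have ha' := ha k hk.1 hk.2
  have hπ := Real.pi_pos
  -- the scale
  have hYpos : 0 < Yf k T := by unfold Yf; positivity
  have hY1 : 1 ≤ Yf k T := by
    unfold Yf
    rw [le_div_iff₀ (by positivity)]
    rw [Real.rpow_one] at hY
    calc 1 * (2 * Real.pi * k) ≤ 2 * Real.pi * (4 * Real.log T ^ 2) := by
          rw [one_mul]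
          exact mul_le_mul_of_nonneg_left hk.2 (by positivity)
      _ = 8 * Real.pi * Real.log T ^ 2 := by ring
      _ ≤ T := hY
  have hYT : Yf k T ≤ T := by
    unfold Yf
    rw [div_le_iff₀ (by positivity)]
    have : 1 ≤ 2 * Real.pi * k := by
      have := Real.pi_gt_three
      nlinarith
    nlinarith
  have hfac : (0:ℝ) < k.factorial := by exact_mod_cast Nat.factorial_pos k
  -- the mean square
  have c1 := core T k (k / T) hδ hT0 ha' (Real.log (((1 : ℕ) : ℝ) / ((1 : ℕ) : ℝ)))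
  have m1 := hM k hk 1 1 le_rfl le_rfl (by exact_mod_cast hT1.le) (by exact_mod_cast hT1.le)
  have hI0 := Ims_nonneg k hδ
  have t1 : ‖(Ims k (k / T) : ℂ)‖ ≤ (T ^ (-(3 / 4) : ℝ) * Ims k (k / T) + T ^ (-20 : ℝ) * 576) +
      T ^ (-6 : ℝ) + V2 k (Yf k T) / Yf k T := by
    have e1 : (Ims k (k / T) : ℂ) = (Mt k T 1 1 - ∫ t in Set.Ioi (0 : ℝ),
        riemannZeta (cl t) ^ 2 * Gf k (k / T) (cl t) *
          ef (Real.log (((1 : ℕ) : ℝ) / ((1 : ℕ) : ℝ))) t) +
        ((∫ t in Set.Ioi (0 : ℝ), riemannZeta (cl t) ^ 2 * Gf k (k / T) (cl t) *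
          ef (Real.log (((1 : ℕ) : ℝ) / ((1 : ℕ) : ℝ))) t) -
          (Real.sqrt (((1 : ℕ) : ℝ) / ((1 : ℕ) : ℝ)) : ℂ) * (S2 k 1 1 (Yf k T) /
          (((k.factorial : ℝ) * Yf k T ^ (k + 1) : ℝ) : ℂ))) +
        (Real.sqrt (((1 : ℕ) : ℝ) / ((1 : ℕ) : ℝ)) : ℂ) * (S2 k 1 1 (Yf k T) /
          (((k.factorial : ℝ) * Yf k T ^ (k + 1) : ℝ) : ℂ)) := by
      rw [← Mt_one]
      ring
    have e2 : ‖(Real.sqrt (((1 : ℕ) : ℝ) / ((1 : ℕ) : ℝ)) : ℂ) * (S2 k 1 1 (Yf k T) /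
          (((k.factorial : ℝ) * Yf k T ^ (k + 1) : ℝ) : ℂ))‖ ≤ V2 k (Yf k T) / Yf k T := by
      simp only [Nat.cast_one, div_one, Real.sqrt_one, Complex.ofReal_one, one_mul]
      rw [norm_div, Complex.norm_real, Real.norm_of_nonneg (by positivity)]
      have e3 := S2_one k hYpos
      rw [div_le_div_iff₀ (by positivity) hYpos]
      calc ‖S2 k 1 1 (Yf k T)‖ * Yf k T ≤ ((k.factorial : ℝ) * Yf k T ^ k * V2 k (Yf k T)) *
            Yf k T := by gcongr
        _ = _ := by rw [pow_succ]; ring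
    rw [e1]
    exact (norm_add_le _ _).trans (add_le_add ((norm_add_le _ _).trans (add_le_add c1 m1)) e2)
  rw [Complex.norm_real, Real.norm_of_nonneg hI0] at t1
  have t2 : V2 k (Yf k T) / Yf k T ≤ Real.log T + (4 * Real.log T ^ 2 + 1) +
      C * (4 * Real.log T ^ 2) ^ A := by
    rw [div_le_iff₀ hYpos]
    have e1 := (abs_le.1 (hV k hk1 (Yf k T) hY1)).2
    have e2 := Real.log_le_log hYpos hYT
    have e3 := Ck_le k
    have e4 : Yf k T ^ (3 / 4 : ℝ) ≤ Yf k T := by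
      calc Yf k T ^ (3 / 4 : ℝ) ≤ Yf k T ^ (1 : ℝ) :=
            Real.rpow_le_rpow_of_exponent_le hY1 (by norm_num)
        _ = _ := Real.rpow_one _
    have e5 : (k : ℝ) ^ A ≤ (4 * Real.log T ^ 2) ^ A := pow_le_pow_left₀ (by positivity) hk.2 A
    have e6 : C * (k : ℝ) ^ A * Yf k T ^ (3 / 4 : ℝ) ≤ C * (4 * Real.log T ^ 2) ^ A * Yf k T := by
      gcongr
    have e7 : Yf k T * (Real.log (Yf k T) + Ck k) ≤
        Yf k T * (Real.log T + (4 * Real.log T ^ 2 + 1)) := by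
      apply mul_le_mul_of_nonneg_left _ hYpos.le
      have := hk.2
      linarith
    linarith
  have t3 : Ims k (k / T) ≤ T ^ (1 / 24 : ℝ) := by
    have u1 : T ^ (-20 : ℝ) ≤ 1 := Real.rpow_le_one_of_one_le_of_nonpos hT1.le (by norm_num)
    have u2 : T ^ (-6 : ℝ) ≤ 1 := Real.rpow_le_one_of_one_le_of_nonpos hT1.le (by norm_num)
    have u3 : T ^ (-(3 / 4) : ℝ) * Ims k (k / T) ≤ 1 / 2 * Ims k (k / T) :=
      mul_le_mul_of_nonneg_right s3 hI0
    have v0 : (1 : ℝ) ≤ Real.log T ^ (2 * A + 2) := one_le_pow₀ hL1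
    have v1 : Real.log T ≤ Real.log T ^ (2 * A + 2) := by
      calc Real.log T = Real.log T ^ 1 := (pow_one _).symm
        _ ≤ _ := pow_le_pow_right₀ hL1 (by omega)
    have v2 : Real.log T ^ 2 ≤ Real.log T ^ (2 * A + 2) := pow_le_pow_right₀ hL1 (by omega)
    have v3 : (4 * Real.log T ^ 2) ^ A ≤ 4 ^ A * Real.log T ^ (2 * A + 2) := by
      rw [mul_pow, ← pow_mul]
      exact mul_le_mul_of_nonneg_left (pow_le_pow_right₀ hL1 (by omega)) (by positivity)
    have v4 : C * (4 * Real.log T ^ 2) ^ A ≤ C * 4 ^ A * Real.log T ^ (2 * A + 2) := by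
      rw [mul_assoc]
      exact mul_le_mul_of_nonneg_left v3 hC.le
    have w : Ims k (k / T) ≤ 2 * (583 + C * 4 ^ A) * Real.log T ^ (2 * A + 2) := by
      nlinarith
    exact w.trans hB
  -- the general pair
  have c2 := core T k (k / T) hδ hT0 ha' (Real.log ((h : ℝ) / l))
  have m2 := hM k hk h l hh hl hhT hlT
  have f1 : ‖Mt k T h l - (Real.sqrt ((l : ℝ) / h) : ℂ) * (S2 k h l (Yf k T) /
        (((k.factorial : ℝ) * Yf k T ^ (k + 1) : ℝ) : ℂ))‖ ≤
      (T ^ (-(3 / 4) : ℝ) * Ims k (k / T) + T ^ (-20 : ℝ) * 576) + T ^ (-6 : ℝ) := by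
    have e1 : Mt k T h l - (Real.sqrt ((l : ℝ) / h) : ℂ) * (S2 k h l (Yf k T) /
        (((k.factorial : ℝ) * Yf k T ^ (k + 1) : ℝ) : ℂ)) =
        (Mt k T h l - ∫ t in Set.Ioi (0 : ℝ), riemannZeta (cl t) ^ 2 * Gf k (k / T) (cl t) *
          ef (Real.log ((h : ℝ) / l)) t) +
        ((∫ t in Set.Ioi (0 : ℝ), riemannZeta (cl t) ^ 2 * Gf k (k / T) (cl t) *
          ef (Real.log ((h : ℝ) / l)) t) - (Real.sqrt ((l : ℝ) / h) : ℂ) * (S2 k h l (Yf k T) /
        (((k.factorial : ℝ) * Yf k T ^ (k + 1) : ℝ) : ℂ))) := by ring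
    rw [e1]
    exact (norm_add_le _ _).trans (add_le_add c2 m2)
  refine f1.trans ?_
  have g0 : 0 < T ^ (-(2 / 3) : ℝ) := by positivity
  have g1 : T ^ (-(3 / 4) : ℝ) * Ims k (k / T) ≤ 1 / 2 * T ^ (-(2 / 3) : ℝ) := by
    calc T ^ (-(3 / 4) : ℝ) * Ims k (k / T) ≤ T ^ (-(3 / 4) : ℝ) * T ^ (1 / 24 : ℝ) := by gcongr
      _ = T ^ (-(1 / 24) : ℝ) * T ^ (-(2 / 3) : ℝ) := by
          rw [← Real.rpow_add hT0, ← Real.rpow_add hT0]
          norm_num
      _ ≤ _ := mul_le_mul_of_nonneg_right s1 g0.le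
  have g2 : T ^ (-20 : ℝ) ≤ T ^ (-6 : ℝ) :=
    Real.rpow_le_rpow_of_exponent_le hT1.le (by norm_num)
  have g3 : T ^ (-6 : ℝ) ≤ 1 / 1154 * T ^ (-(2 / 3) : ℝ) := by
    calc T ^ (-6 : ℝ) = T ^ (-(16 / 3) : ℝ) * T ^ (-(2 / 3) : ℝ) := by
          rw [← Real.rpow_add hT0]
          norm_num
      _ ≤ _ := mul_le_mul_of_nonneg_right s2 g0.le
  linarith

end

end Pool.Agent.H262R4.TM
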