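import Pool.Agent.H262R4.TM.Defs
import Pool.Agent.H383.OM.Hyp

/-!
Task V2 (helper314): smooth sums of the divisor function.
-/

set_option autoImplicit false

namespace Pool.Agent.H262R4.TM.TV2

open MeasureTheory Filter Topology

noncomputable section

/-- summatory function of the divisor function -/
def Dt (t : ℝ) : ℝ := ∑ n ∈ Finset.Icc 0 ⌊t⌋₊, (n.divisors.card : ℝ)

/-- its main term -/
def Mn (t : ℝ) : ℝ := t * Real.log t + (2 * Real.eulerMascheroniConstant - 1) * t

theorem Dt_nat (N : ℕ) (hN : 1 ≤ N) : |Dt N - Mn N| ≤ 8 * √(N : ℝ) := by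
  have h := Pool.Agent.H383.OM.Hyp.dsum N hN
  have e : ∑ n ∈ Finset.Ioc 0 N, (((ArithmeticFunction.zeta : ArithmeticFunction ℕ) :
      ArithmeticFunction ℝ) * ((ArithmeticFunction.zeta : ArithmeticFunction ℕ) :
      ArithmeticFunction ℝ)) n = Dt N := by
    unfold Dt
    rw [Nat.floor_natCast]
    rw [← Finset.sum_subset (Finset.Ioc_subset_Icc_self (a := 0) (b := N))]
    · refine Finset.sum_congr rfl fun n hn => ?_
      rw [Finset.mem_Ioc] at hn
      rw [ArithmeticFunction.coe_zeta_mul_apply]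
      rw [Finset.sum_congr rfl (g := fun _ => (1 : ℝ))]
      · simp
      · intro d hd
        have hd0 : d ≠ 0 := (Nat.pos_of_mem_divisors hd).ne'
        rw [ArithmeticFunction.natCoe_apply, ArithmeticFunction.zeta_apply, if_neg hd0]
        simp
    · intro n hn hn'
      rw [Finset.mem_Icc] at hn
      rw [Finset.mem_Ioc] at hn'
      have : n = 0 := by omega
      subst this
      simp
  rw [e] at h
  exact h

theorem Dt_lt_one {t : ℝ} (h : t < 1) : Dt t = 0 := by
  unfold Dt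
  have : ⌊t⌋₊ = 0 := Nat.floor_eq_zero.mpr h
  rw [this]
  simp

theorem log_le_sqrt {t : ℝ} (ht : 0 < t) : Real.log t ≤ 2 * √t := by
  have h2 : Real.log t = 2 * Real.log (√t) := by
    rw [Real.log_sqrt ht.le]; ring
  have h3 := Real.log_le_sub_one_of_pos (Real.sqrt_pos.2 ht)
  linarith

theorem Dt_bound {t : ℝ} (ht : 0 < t) : |Dt t - Mn t| ≤ 14 * √t := by
  have hg1 := Real.one_half_lt_eulerMascheroniConstant
  have hg2 := Real.eulerMascheroniConstant_lt_two_thirds
  have hs0 : 0 < √t := Real.sqrt_pos.2 ht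
  have hss : √t * √t = t := Real.mul_self_sqrt ht.le
  rcases lt_or_ge t 1 with h | h
  · rw [Dt_lt_one h]
    have hs1 : √t ≤ 1 := Real.sqrt_le_one.2 h.le
    have h1 : -Real.log t ≤ 2 / √t := by
      have h2 := log_le_sqrt (t := t⁻¹) (by positivity)
      rw [Real.log_inv, Real.sqrt_inv] at h2
      rw [div_eq_mul_inv]; exact h2
    have h3 : t * (-Real.log t) ≤ 2 * √t := by
      calc t * (-Real.log t) ≤ t * (2 / √t) := mul_le_mul_of_nonneg_left h1 ht.le
        _ = 2 * √t := by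
          rw [mul_div_assoc', div_eq_iff hs0.ne']
          nlinarith
    have h4 : 0 ≤ t * (-Real.log t) := mul_nonneg ht.le (by
      have := Real.log_nonpos ht.le h.le
      linarith)
    have h5 : t ≤ √t := by nlinarith
    unfold Mn
    rw [abs_le]
    constructor <;> nlinarith
  · set N := ⌊t⌋₊ with hN
    have hN1 : 1 ≤ N := Nat.le_floor (by exact_mod_cast h)
    have hN1' : (1 : ℝ) ≤ N := by exact_mod_cast hN1
    have hNt : (N : ℝ) ≤ t := Nat.floor_le ht.le
    have htN : t < N + 1 := Nat.lt_floor_add_one t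
    have e : Dt t = Dt N := by
      unfold Dt
      rw [Nat.floor_natCast, ← hN]
    have h1 := Dt_nat N hN1
    have h2 : √(N : ℝ) ≤ √t := Real.sqrt_le_sqrt hNt
    have hlog0 : 0 ≤ Real.log t := Real.log_nonneg h
    have h3 : 0 ≤ Real.log t - Real.log N := by
      have := Real.log_le_log (by linarith : (0 : ℝ) < N) hNt
      linarith
    have h4 : N * (Real.log t - Real.log N) ≤ 1 := by
      rw [← Real.log_div ht.ne' (by linarith)]
      have h5 := Real.log_le_sub_one_of_pos (x := t / N) (by positivity)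
      calc N * Real.log (t / N) ≤ N * (t / N - 1) := mul_le_mul_of_nonneg_left h5 (by linarith)
        _ = t - N := by field_simp
        _ ≤ 1 := by linarith
    have h6 : 0 ≤ N * (Real.log t - Real.log N) := mul_nonneg (by linarith) h3
    have h7 : |Mn t - Mn N| ≤ Real.log t + 2 := by
      have e2 : Mn t - Mn N = (t - N) * Real.log t + N * (Real.log t - Real.log N) +
          (2 * Real.eulerMascheroniConstant - 1) * (t - N) := by
        unfold Mn; ring
      rw [e2, abs_le]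
      have a1 : 0 ≤ (t - N) * Real.log t := mul_nonneg (by linarith) hlog0
      have a2 : (t - N) * Real.log t ≤ Real.log t := by nlinarith
      have a3 : 0 ≤ (2 * Real.eulerMascheroniConstant - 1) * (t - N) :=
        mul_nonneg (by linarith) (by linarith)
      have a4 : (2 * Real.eulerMascheroniConstant - 1) * (t - N) ≤ 1 := by nlinarith
      constructor <;> linarith
    have h8 := log_le_sqrt ht
    have hs1 : 1 ≤ √t := Real.one_le_sqrt.2 h
    have h9 : |Dt t - Mn t| ≤ |Dt N - Mn N| + |Mn t - Mn N| := by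
      rw [e]
      have : Dt N - Mn t = (Dt N - Mn N) - (Mn t - Mn N) := by ring
      rw [this]
      exact abs_sub _ _
    linarith

theorem Dt_nonneg (t : ℝ) : 0 ≤ Dt t := Finset.sum_nonneg fun n _ => by positivity

theorem Dt_le {t : ℝ} (ht : 0 ≤ t) : Dt t ≤ (1 + t) ^ 2 := by
  have h1 : (⌊t⌋₊ : ℝ) ≤ t := Nat.floor_le ht
  calc Dt t ≤ ∑ n ∈ Finset.Icc 0 ⌊t⌋₊, t := by
        refine Finset.sum_le_sum fun n hn => ?_
        rw [Finset.mem_Icc] at hn
        have h2 : (n.divisors.card : ℝ) ≤ n := by exact_mod_cast Nat.card_divisors_le_self n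
        have h3 : (n : ℝ) ≤ ⌊t⌋₊ := by exact_mod_cast hn.2
        linarith
    _ = ((⌊t⌋₊ : ℝ) + 1) * t := by
        rw [Finset.sum_const, nsmul_eq_mul, Nat.card_Icc]
        push_cast
        simp
    _ ≤ (1 + t) ^ 2 := by nlinarith

theorem Dt_meas : Measurable Dt := by
  have : Dt = (fun n : ℕ => ∑ k ∈ Finset.Icc 0 n, (k.divisors.card : ℝ)) ∘
      (fun x : ℝ => ⌊x⌋₊) := rfl
  rw [this]
  exact (measurable_from_top).comp Nat.measurable_floor

theorem Mn_meas : Measurable Mn := by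
  unfold Mn
  fun_prop

/-! ### Gamma integrals -/

theorem int_pow (m : ℕ) : IntegrableOn (fun v : ℝ => v ^ m * Real.exp (-v)) (Set.Ioi 0) := by
  have h := Real.GammaIntegral_convergent (s := (m : ℝ) + 1) (by positivity)
  refine h.congr_fun (fun v _ => ?_) measurableSet_Ioi
  simp only [add_sub_cancel_right, Real.rpow_natCast]
  ring

theorem val_pow (m : ℕ) : ∫ v in Set.Ioi (0 : ℝ), v ^ m * Real.exp (-v) = (m.factorial : ℝ) := by
  rw [← Real.Gamma_nat_eq_factorial, Real.Gamma_eq_integral (by positivity)]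
  refine setIntegral_congr_fun measurableSet_Ioi fun v _ => ?_
  simp only [add_sub_cancel_right, Real.rpow_natCast]
  ring

theorem val_log (m : ℕ) : ∫ v in Set.Ioi (0 : ℝ), v ^ m * (Real.log v * Real.exp (-v)) =
    (m.factorial : ℝ) * (-Real.eulerMascheroniConstant + (harmonic m : ℝ)) := by
  have hre : 0 < ((m : ℂ) + 1).re := by
    simp only [Complex.add_re, Complex.natCast_re, Complex.one_re]; positivity
  have h1 := Complex.hasDerivAt_GammaIntegral (s := (m : ℂ) + 1) hre
  have h2 := Complex.hasDerivAt_Gamma_nat m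
  have h3 : Complex.GammaIntegral =ᶠ[𝓝 ((m : ℂ) + 1)] Complex.Gamma := by
    have : {s : ℂ | 0 < s.re} ∈ 𝓝 ((m : ℂ) + 1) :=
      (isOpen_lt continuous_const Complex.continuous_re).mem_nhds hre
    filter_upwards [this] with s hs
    exact (Complex.Gamma_eq_integral hs).symm
  have h4 := (h2.congr_of_eventuallyEq h3).unique h1
  have h5 : ∫ t : ℝ in Set.Ioi 0, (t : ℂ) ^ ((m : ℂ) + 1 - 1) * (Real.log t * Real.exp (-t)) =
      ((∫ v in Set.Ioi (0 : ℝ), v ^ m * (Real.log v * Real.exp (-v)) : ℝ) : ℂ) := by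
    rw [← integral_complex_ofReal]
    refine setIntegral_congr_fun measurableSet_Ioi fun v _ => ?_
    simp only [add_sub_cancel_right, Complex.cpow_natCast]
    push_cast
    rfl
  rw [h5] at h4
  have h6 : (((m.factorial : ℝ) * (-Real.eulerMascheroniConstant + (harmonic m : ℝ)) : ℝ) : ℂ) =
      ((∫ v in Set.Ioi (0 : ℝ), v ^ m * (Real.log v * Real.exp (-v)) : ℝ) : ℂ) := by
    rw [← h4]
    push_cast
    rfl
  exact_mod_cast h6.symm

/-! ### The weight -/

/-- the weight `v^k e^{-v} / k!` -/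
def Gk (k : ℕ) (v : ℝ) : ℝ := v ^ k * Real.exp (-v) / (k.factorial : ℝ)

/-- minus its derivative -/
def wk (k : ℕ) (v : ℝ) : ℝ :=
  (v ^ k - k * v ^ (k - 1)) * Real.exp (-v) / (k.factorial : ℝ)

/-- dominating function -/
def hb (k : ℕ) (v : ℝ) : ℝ := (v ^ k + k * v ^ (k - 1)) * (1 + v) ^ 2 * Real.exp (-v)

theorem Gk_deriv (k : ℕ) (v : ℝ) : HasDerivAt (Gk k) (-wk k v) v := by
  have h1 : HasDerivAt (fun v : ℝ => v ^ k) ((k : ℝ) * v ^ (k - 1)) v := hasDerivAt_pow k v
  have h2 : HasDerivAt (fun v : ℝ => Real.exp (-v)) (-Real.exp (-v)) v := by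
    have := (hasDerivAt_neg v).exp
    simpa using this
  have h3 := (h1.mul h2).div_const (k.factorial : ℝ)
  refine h3.congr_deriv ?_
  unfold wk
  ring

theorem wk_cont (k : ℕ) : Continuous (wk k) := by
  unfold wk
  fun_prop

theorem wk_abs (k : ℕ) {v : ℝ} (hv : 0 < v) :
    |wk k v| ≤ (v ^ k + k * v ^ (k - 1)) * Real.exp (-v) / (k.factorial : ℝ) := by
  unfold wk
  rw [abs_div, abs_mul, abs_of_pos (Real.exp_pos _),
    abs_of_pos (by exact_mod_cast Nat.factorial_pos k : (0 : ℝ) < (k.factorial : ℝ))]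
  have h1 : |v ^ k - k * v ^ (k - 1)| ≤ v ^ k + k * v ^ (k - 1) := by
    have a1 : 0 ≤ v ^ k := by positivity
    have a2 : 0 ≤ (k : ℝ) * v ^ (k - 1) := by positivity
    rw [abs_le]; constructor <;> linarith
  gcongr

theorem int_poly (m : ℕ) :
    IntegrableOn (fun v : ℝ => v ^ m * (1 + v) ^ 2 * Real.exp (-v)) (Set.Ioi 0) := by
  have h := ((int_pow m).add ((int_pow (m + 1)).const_mul 2)).add (int_pow (m + 2))
  refine h.congr_fun (fun v _ => ?_) measurableSet_Ioi
  simp only [Pi.add_apply]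
  ring

theorem int_hb (k : ℕ) : IntegrableOn (hb k) (Set.Ioi 0) := by
  have h := (int_poly k).add ((int_poly (k - 1)).const_mul (k : ℝ))
  refine h.congr_fun (fun v _ => ?_) measurableSet_Ioi
  simp only [Pi.add_apply]
  unfold hb
  ring

theorem int_wk (k : ℕ) (F : ℝ → ℝ) (hF : Measurable F) (C : ℝ)
    (hC : ∀ v : ℝ, 0 < v → |F v| ≤ C * (1 + v) ^ 2) :
    IntegrableOn (fun v => wk k v * F v) (Set.Ioi 0) := by
  refine Integrable.mono' ((int_hb k).const_mul (C / (k.factorial : ℝ)))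
    (((wk_cont k).measurable.mul hF).aestronglyMeasurable) ?_
  refine (ae_restrict_iff' measurableSet_Ioi).mpr (Eventually.of_forall fun v hv => ?_)
  rw [Set.mem_Ioi] at hv
  rw [Real.norm_eq_abs, abs_mul]
  have h1 := wk_abs k hv
  have h2 := hC v hv
  calc |wk k v| * |F v| ≤ ((v ^ k + k * v ^ (k - 1)) * Real.exp (-v) / (k.factorial : ℝ)) *
        (C * (1 + v) ^ 2) := mul_le_mul h1 h2 (abs_nonneg _) (by positivity)
    _ = C / (k.factorial : ℝ) * hb k v := by unfold hb; ring

theorem vlog_abs {v : ℝ} (hv : 0 < v) : |v * Real.log v| ≤ (1 + v) ^ 2 := by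
  have h1 := Real.log_le_sub_one_of_pos hv
  have h2 := Real.one_sub_inv_le_log_of_pos hv
  have h3 : v * Real.log v ≤ v * (v - 1) := mul_le_mul_of_nonneg_left h1 hv.le
  have h4 : v * (1 - v⁻¹) ≤ v * Real.log v := mul_le_mul_of_nonneg_left h2 hv.le
  have h5 : v * (1 - v⁻¹) = v - 1 := by field_simp
  rw [abs_le]
  constructor <;> nlinarith

theorem int_log (m : ℕ) :
    IntegrableOn (fun v : ℝ => v ^ (m + 1) * (Real.log v * Real.exp (-v))) (Set.Ioi 0) := by
  refine Integrable.mono' (int_poly m) (by fun_prop) ?_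
  refine (ae_restrict_iff' measurableSet_Ioi).mpr (Eventually.of_forall fun v hv => ?_)
  rw [Set.mem_Ioi] at hv
  rw [Real.norm_eq_abs]
  have e : v ^ (m + 1) * (Real.log v * Real.exp (-v)) =
      v ^ m * (v * Real.log v) * Real.exp (-v) := by ring
  rw [e, abs_mul, abs_mul, abs_of_pos (Real.exp_pos _), abs_of_pos (by positivity : 0 < v ^ m)]
  have := vlog_abs hv
  gcongr

/-! ### The main term -/

theorem main_int (k : ℕ) (hk : 1 ≤ k) {u : ℝ} (hu : 0 < u) :
    ∫ v in Set.Ioi (0 : ℝ), wk k v * Mn (u * v) = u * (Real.log u + Ck k) := by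
  obtain ⟨j, rfl⟩ : ∃ j, k = j + 1 := ⟨k - 1, by omega⟩
  have hf0 : ((j + 1).factorial : ℝ) ≠ 0 := by exact_mod_cast (Nat.factorial_pos (j + 1)).ne'
  have i1 := int_log (j + 1)
  have i2 := (int_log j).const_mul (((j + 1 : ℕ) : ℝ))
  have i3 := int_pow (j + 2)
  have i4 := (int_pow (j + 1)).const_mul (((j + 1 : ℕ) : ℝ))
  have e : ∀ v ∈ Set.Ioi (0 : ℝ), wk (j + 1) v * Mn (u * v) =
      (u / ((j + 1).factorial : ℝ)) * ((v ^ (j + 1 + 1) * (Real.log v * Real.exp (-v))) -
        ((j + 1 : ℕ) : ℝ) * (v ^ (j + 1) * (Real.log v * Real.exp (-v)))) +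
      (u * (Real.log u + 2 * Real.eulerMascheroniConstant - 1) / ((j + 1).factorial : ℝ)) *
        ((v ^ (j + 2) * Real.exp (-v)) - ((j + 1 : ℕ) : ℝ) * (v ^ (j + 1) * Real.exp (-v))) := by
    intro v hv
    rw [Set.mem_Ioi] at hv
    unfold wk Mn
    rw [Real.log_mul hu.ne' hv.ne', Nat.add_sub_cancel]
    ring
  rw [setIntegral_congr_fun measurableSet_Ioi e, integral_add, integral_const_mul,
    integral_const_mul, integral_sub i1 i2, integral_sub i3 i4, integral_const_mul,
    integral_const_mul, val_log, val_log, val_pow, val_pow]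
  · unfold Ck
    rw [harmonic_succ (j + 1), Nat.factorial_succ (j + 1)]
    push_cast
    have h1 : ((j : ℝ) + 1 + 1) ≠ 0 := by positivity
    field_simp
    ring
  · exact (i1.sub i2).const_mul _
  · exact (i3.sub i4).const_mul _

/-! ### Partial summation -/

theorem Dt_dom {u : ℝ} (hu : 0 < u) (v : ℝ) (hv : 0 < v) :
    |Dt (u * v)| ≤ (1 + u) ^ 2 * (1 + v) ^ 2 := by
  rw [abs_of_nonneg (Dt_nonneg _)]
  refine (Dt_le (by positivity)).trans ?_
  rw [← mul_pow]
  have : 1 + u * v ≤ (1 + u) * (1 + v) := by nlinarith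
  gcongr

theorem hlimB (k : ℕ) {u : ℝ} (hu : 0 < u) (n : ℕ) (hn : 1 ≤ (n : ℝ) / u) :
    Gk k ((n : ℝ) / u) * ∑ j ∈ Finset.Icc 0 n, (j.divisors.card : ℝ) ≤
      (4 * (1 + u) ^ 2 / (k.factorial : ℝ)) *
        (((n : ℝ) / u) ^ (k + 2) * Real.exp (-((n : ℝ) / u))) := by
  generalize hv : (n : ℝ) / u = v at *
  have hv0 : 0 < v := by linarith
  have hnv : (n : ℝ) = u * v := by rw [← hv]; field_simp
  have h4 : ∑ j ∈ Finset.Icc 0 n, (j.divisors.card : ℝ) = Dt (u * v) := by
    rw [← hnv]; unfold Dt; rw [Nat.floor_natCast]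
  rw [h4]
  have h5 := Dt_dom hu v hv0
  rw [abs_of_nonneg (Dt_nonneg _)] at h5
  have h6 : (1 + v) ^ 2 ≤ 4 * v ^ 2 := by nlinarith
  have h7 : Dt (u * v) ≤ (1 + u) ^ 2 * (4 * v ^ 2) := by
    refine h5.trans ?_
    gcongr
  have h8 : 0 ≤ Gk k v := by unfold Gk; positivity
  refine (mul_le_mul_of_nonneg_left h7 h8).trans (le_of_eq ?_)
  unfold Gk
  ring

theorem hlimL (k : ℕ) {u : ℝ} (hu : 0 < u) : Tendsto (fun n : ℕ => Gk k ((n : ℝ) / u) *
      ∑ j ∈ Finset.Icc 0 n, (j.divisors.card : ℝ)) atTop (𝓝 0) := by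
  have h1 : Tendsto (fun v : ℝ => (4 * (1 + u) ^ 2 / (k.factorial : ℝ)) *
      (v ^ (k + 2) * Real.exp (-v))) atTop (𝓝 0) := by
    have := (Real.tendsto_pow_mul_exp_neg_atTop_nhds_zero (k + 2)).const_mul
      (4 * (1 + u) ^ 2 / (k.factorial : ℝ))
    rwa [mul_zero] at this
  have h2 : Tendsto (fun n : ℕ => (n : ℝ) / u) atTop atTop :=
    tendsto_natCast_atTop_atTop.atTop_div_const hu
  have h3 : Tendsto (fun n : ℕ => (4 * (1 + u) ^ 2 / (k.factorial : ℝ)) *
      (((n : ℝ) / u) ^ (k + 2) * Real.exp (-((n : ℝ) / u)))) atTop (𝓝 0) := h1.comp h2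
  refine squeeze_zero' (Eventually.of_forall fun n => ?_) ?_ h3
  · unfold Gk
    have : 0 ≤ ∑ j ∈ Finset.Icc 0 n, (j.divisors.card : ℝ) :=
      Finset.sum_nonneg fun n _ => by positivity
    positivity
  · filter_upwards [h2.eventually (eventually_ge_atTop 1)] with n hn
    exact hlimB k hu n hn

theorem abel (k : ℕ) {u : ℝ} (hu : 0 < u) :
    HasSum (fun n : ℕ => Gk k (n / u) * (n.divisors.card : ℝ))
      (∫ v in Set.Ioi (0 : ℝ), wk k v * Dt (u * v)) := by
  have hint : IntegrableOn (fun v => wk k v * Dt (u * v)) (Set.Ioi 0) :=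
    int_wk k (fun v => Dt (u * v)) (Dt_meas.comp (measurable_const_mul u)) _
      (Dt_dom hu)
  -- the function of `t`
  have hder : ∀ t : ℝ, HasDerivAt (fun t : ℝ => Gk k (t / u)) (-wk k (t / u) / u) t := by
    intro t
    have h1 := (Gk_deriv k (t / u)).comp t ((hasDerivAt_id t).div_const u)
    refine h1.congr_deriv ?_
    ring
  have hderiv : deriv (fun t : ℝ => Gk k (t / u)) = fun t => -wk k (t / u) / u :=
    funext fun t => (hder t).deriv
  set g : ℝ → ℝ := fun t => -wk k (t / u) / u * Dt t with hg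
  have hgu : ∀ v : ℝ, g (u * v) = -(wk k v * Dt (u * v)) / u := by
    intro v
    rw [hg]
    simp only
    rw [mul_div_cancel_left₀ _ hu.ne']
    ring
  have hgint : IntegrableOn g (Set.Ioi 0) := by
    have h0 : IntegrableOn (fun v => g (u * v)) (Set.Ioi 0) := by
      have h2 : IntegrableOn (fun v => -(wk k v * Dt (u * v)) / u) (Set.Ioi 0) :=
        Integrable.div_const (Integrable.neg hint) u
      exact h2.congr_fun (fun v _ => (hgu v).symm) measurableSet_Ioi
    have h1 := (integrableOn_Ioi_comp_mul_left_iff g 0 hu).mp h0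
    rwa [mul_zero] at h1
  have hval : ∫ t in Set.Ioi (0 : ℝ), g t = -∫ v in Set.Ioi (0 : ℝ), wk k v * Dt (u * v) := by
    have h1 := integral_comp_mul_left_Ioi g 0 hu
    rw [mul_zero, smul_eq_mul] at h1
    simp_rw [hgu] at h1
    rw [integral_div, integral_neg] at h1
    field_simp at h1
    linarith
  have hlim := hlimL k hu
  have key := tendsto_sum_mul_atTop_nhds_one_sub_integral
    (𝕜 := ℝ) (c := fun n : ℕ => (n.divisors.card : ℝ)) (f := fun t : ℝ => Gk k (t / u)) (l := 0)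
    (g := g) (fun t _ => (hder t).differentiableAt)
    (by
      rw [hderiv]
      refine Continuous.locallyIntegrable ?_ |>.locallyIntegrableOn _
      exact ((wk_cont k).comp (continuous_id.div_const u)).neg.div_const u)
    hlim
    (by
      rw [hderiv]
      exact Asymptotics.isBigO_refl _ _)
    ⟨Set.Ioi 0, Ioi_mem_atTop 0, hgint⟩
  rw [hderiv] at key
  have hval' : ∫ t in Set.Ioi (0 : ℝ), -wk k (t / u) / u *
      ∑ k ∈ Finset.Icc 0 ⌊t⌋₊, (k.divisors.card : ℝ) =
      -∫ v in Set.Ioi (0 : ℝ), wk k v * Dt (u * v) := hval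
  rw [hval', sub_neg_eq_add, zero_add] at key
  rw [hasSum_iff_tendsto_nat_of_nonneg]
  · rw [← tendsto_add_atTop_iff_nat 1]
    refine key.congr fun n => ?_
    refine Finset.sum_congr ?_ fun _ _ => rfl
    ext i
    simp only [Finset.mem_Icc, Finset.mem_range]
    omega
  · intro n
    unfold Gk
    positivity

/-! ### The error term -/

theorem err_int (k : ℕ) (hk : 1 ≤ k) {u : ℝ} (hu : 0 < u) :
    |∫ v in Set.Ioi (0 : ℝ), wk k v * (Dt (u * v) - Mn (u * v))| ≤ 70 * k * √u := by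
  obtain ⟨j, rfl⟩ : ∃ j, k = j + 1 := ⟨k - 1, by omega⟩
  have hf0 : (0 : ℝ) < ((j + 1).factorial : ℝ) := by exact_mod_cast (Nat.factorial_pos (j + 1))
  have i1 : IntegrableOn (fun v : ℝ => v ^ (j + 1) * Real.exp (-v) +
      v ^ (j + 2) * Real.exp (-v)) (Set.Ioi 0) := (int_pow (j + 1)).add (int_pow (j + 2))
  have i2 : IntegrableOn (fun v : ℝ => ((j + 1 : ℕ) : ℝ) * (v ^ j * Real.exp (-v) +
      v ^ (j + 1) * Real.exp (-v))) (Set.Ioi 0) :=
    Integrable.const_mul ((int_pow j).add (int_pow (j + 1))) (((j + 1 : ℕ) : ℝ))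
  have i3 : Integrable (fun v : ℝ => (14 * √u / ((j + 1).factorial : ℝ)) *
      (((v ^ (j + 1) * Real.exp (-v)) + (v ^ (j + 2) * Real.exp (-v))) +
        ((j + 1 : ℕ) : ℝ) * ((v ^ j * Real.exp (-v)) + (v ^ (j + 1) * Real.exp (-v)))))
      (volume.restrict (Set.Ioi 0)) :=
    Integrable.const_mul (i1.add i2) (14 * √u / ((j + 1).factorial : ℝ))
  have hval : ∫ v in Set.Ioi (0 : ℝ), (14 * √u / ((j + 1).factorial : ℝ)) *
      (((v ^ (j + 1) * Real.exp (-v)) + (v ^ (j + 2) * Real.exp (-v))) +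
        ((j + 1 : ℕ) : ℝ) * ((v ^ j * Real.exp (-v)) + (v ^ (j + 1) * Real.exp (-v)))) =
      14 * √u * (2 * (j : ℝ) + 5) := by
    rw [integral_const_mul, integral_add i1 i2, integral_add (int_pow _) (int_pow _),
      integral_const_mul, integral_add (int_pow _) (int_pow _), val_pow, val_pow, val_pow,
      Nat.factorial_succ (j + 1), Nat.factorial_succ j]
    push_cast
    have h1 : ((j.factorial : ℝ)) ≠ 0 := by exact_mod_cast (Nat.factorial_pos j).ne'
    have h2 : ((j : ℝ) + 1) ≠ 0 := by positivity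
    field_simp
    ring
  have h := norm_integral_le_of_norm_le (μ := volume.restrict (Set.Ioi (0 : ℝ)))
    (f := fun v => wk (j + 1) v * (Dt (u * v) - Mn (u * v))) i3 (by
      refine (ae_restrict_iff' measurableSet_Ioi).mpr (Eventually.of_forall fun v hv => ?_)
      rw [Set.mem_Ioi] at hv
      rw [Real.norm_eq_abs, abs_mul]
      have h1 := wk_abs (j + 1) hv
      have h2 := Dt_bound (t := u * v) (by positivity)
      rw [Real.sqrt_mul hu.le] at h2
      have h3 : √v ≤ 1 + v := by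
        have := Real.mul_self_sqrt hv.le
        nlinarith [sq_nonneg (√v - 1), Real.sqrt_nonneg v]
      have h4 : |Dt (u * v) - Mn (u * v)| ≤ 14 * √u * (1 + v) := by
        refine h2.trans ?_
        rw [← mul_assoc]
        gcongr
      calc |wk (j + 1) v| * |Dt (u * v) - Mn (u * v)|
          ≤ ((v ^ (j + 1) + ((j + 1 : ℕ) : ℝ) * v ^ (j + 1 - 1)) * Real.exp (-v) /
            ((j + 1).factorial : ℝ)) * (14 * √u * (1 + v)) :=
            mul_le_mul h1 h4 (abs_nonneg _) (by positivity)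
        _ = _ := by
            rw [Nat.add_sub_cancel]
            ring)
  rw [Real.norm_eq_abs, hval] at h
  refine h.trans ?_
  push_cast
  have : 0 ≤ √u := Real.sqrt_nonneg u
  nlinarith [mul_nonneg this (Nat.cast_nonneg (α := ℝ) j)]

end

end Pool.Agent.H262R4.TM.TV2

namespace Pool.Agent.H262R4.TM

open Pool.Agent.H262R4.TM.TV2 MeasureTheory in
/-- smooth sums of the divisor function -/
theorem t_V2 : P_V2 := by
  refine ⟨70, 1, by norm_num, ?_⟩
  intro k hk u hu
  have hu0 : 0 < u := by linarith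
  have hf0 : ((k.factorial : ℝ)) ≠ 0 := by exact_mod_cast (Nat.factorial_pos k).ne'
  have h1 := abel k hu0
  have hV : V2 k u = ∫ v in Set.Ioi (0 : ℝ), wk k v * Dt (u * v) := by
    unfold V2
    have h2 := (h1.mul_left (k.factorial : ℝ)).tsum_eq
    rw [div_eq_iff hf0, mul_comm (∫ v in Set.Ioi (0 : ℝ), wk k v * Dt (u * v)), ← h2]
    refine tsum_congr fun n => ?_
    unfold Gk Pool.Agent.H442R2.KF.tau
    field_simp
  have hD : IntegrableOn (fun v => wk k v * Dt (u * v)) (Set.Ioi 0) := by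
    refine int_wk k (fun v => Dt (u * v)) (Dt_meas.comp (measurable_const_mul u))
      ((1 + u) ^ 2) fun v hv => ?_
    rw [abs_of_nonneg (Dt_nonneg _)]
    refine (Dt_le (by positivity)).trans ?_
    rw [← mul_pow]
    have : 1 + u * v ≤ (1 + u) * (1 + v) := by nlinarith
    gcongr
  have hM : IntegrableOn (fun v => wk k v * Mn (u * v)) (Set.Ioi 0) := by
    refine int_wk k (fun v => Mn (u * v)) (Mn_meas.comp (measurable_const_mul u))
      ((1 + u) ^ 2 + 14 * (1 + u)) fun v hv => ?_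
    have a1 := Dt_bound (t := u * v) (by positivity)
    have a2 := Dt_le (t := u * v) (by positivity)
    have a3 := Dt_nonneg (u * v)
    have a4 : 1 + u * v ≤ (1 + u) * (1 + v) := by nlinarith
    have a5 : (1 + u * v) ^ 2 ≤ ((1 + u) * (1 + v)) ^ 2 := by gcongr
    have a6 : √(u * v) ≤ (1 + u) * (1 + v) ^ 2 := by
      have b0 : 0 ≤ u * v := by positivity
      have b1 : √(u * v) ≤ 1 + u * v := by
        have := Real.mul_self_sqrt b0
        nlinarith [sq_nonneg (√(u * v) - 1), Real.sqrt_nonneg (u * v)]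
      refine b1.trans (a4.trans ?_)
      have : 1 + v ≤ (1 + v) ^ 2 := by nlinarith
      gcongr
    have a7 : |Mn (u * v)| ≤ |Dt (u * v) - Mn (u * v)| + |Dt (u * v)| := by
      have : Mn (u * v) = Dt (u * v) - (Dt (u * v) - Mn (u * v)) := by ring
      rw [add_comm]
      calc |Mn (u * v)| = |Dt (u * v) - (Dt (u * v) - Mn (u * v))| := by rw [← this]
        _ ≤ _ := abs_sub _ _
    rw [abs_of_nonneg a3] at a7
    calc |Mn (u * v)| ≤ 14 * √(u * v) + (1 + u * v) ^ 2 := by linarith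
      _ ≤ 14 * ((1 + u) * (1 + v) ^ 2) + ((1 + u) * (1 + v)) ^ 2 := by linarith
      _ = _ := by ring
  have h3 : V2 k u - u * (Real.log u + Ck k) =
      ∫ v in Set.Ioi (0 : ℝ), wk k v * (Dt (u * v) - Mn (u * v)) := by
    rw [hV, ← main_int k hk hu0, ← integral_sub hD hM]
    refine setIntegral_congr_fun measurableSet_Ioi fun v _ => ?_
    ring
  rw [h3, pow_one]
  refine (err_int k hk hu0).trans ?_
  have h4 : √u ≤ u ^ (3 / 4 : ℝ) := by
    rw [Real.sqrt_eq_rpow]
    exact Real.rpow_le_rpow_of_exponent_le hu (by norm_num)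
  have : (0 : ℝ) ≤ 70 * (k : ℝ) := by positivity
  exact mul_le_mul_of_nonneg_left h4 this

end Pool.Agent.H262R4.TM
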