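import Pool.Agent.H262R4.TM.TM2
import Pool.Agent.H262R4.TM.V2
import Pool.Agent.H262R4.TM.TW
import Pool.Agent.H262R4.TM.E2a
import Pool.Agent.H262R4.TM.E2b
import Pool.Agent.H262R4.TM.FEb
import Pool.Agent.H262R4.TM.DUAL
import Pool.Agent.H262R4.TM.KU
import Pool.Agent.H262R4.TM.KER
import Pool.Agent.H262R4.TM.COP
import Pool.Agent.H262R4.TM.TRI
import Pool.Agent.H262R4.TM.TSM

/-!
TM project: assembly.
-/

namespace Pool.Agent.H262R4.TM

theorem f_KER : P_KER := t_KER t_KU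

theorem f_DUAL : P_DUAL := t_DUAL (t_FE_b t_E2a t_E2b)

theorem f_COP : P_COP := t_COP (t_TW t_TM2 t_V2) f_DUAL t_V2 f_KER

theorem f_TSM : P_TSM := t_TSM f_COP (t_TRI f_KER)

end Pool.Agent.H262R4.TM
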