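import Pool.Agent.H262R4.TM.BLKr
import Pool.Agent.H442R2.KF.Pc

/-!
TM project: the case `H ≤ K` of `P_BLK`, by padding with primes (backup file).
-/

namespace Pool.Agent.H262R4.TM

open Finset Filter Topology MeasureTheory Complex
open Pool.Agent.H306R2.SM (om cl ef Xf Gf Yf ee)
open Pool.Agent.H442R2.KF (e kf tau Wei FF Ker2 PL)

noncomputable section

namespace BLKb

open Pool.Agent.H442R2.KF (norm_e norm_kf kf_of_inv)

/-- a prime of `Q` that does not divide `n` -/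
theorem exists_not_dvd (Q : Finset ℕ) (hQ : ∀ q ∈ Q, Nat.Prime q) (x : ℕ) (hx : x < 2 ^ Q.card)
    (n : ℕ) (hn : 1 ≤ n) (hnx : n ≤ x) : ∃ q ∈ Q, ¬ q ∣ n := by
  by_contra hcon
  push Not at hcon
  have h1 : ∏ q ∈ Q, q ∣ n := Finset.prod_primes_dvd n (fun q hq => (hQ q hq).prime) hcon
  have h2 : ∏ q ∈ Q, q ≤ n := Nat.le_of_dvd hn h1
  have h3 : 2 ^ Q.card ≤ ∏ q ∈ Q, q := by
    rw [← Finset.prod_const]
    exact Finset.prod_le_prod' fun q hq => (hQ q hq).two_le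
  omega

/-- reindexing by multiples of `q` -/
theorem sum_mult (q : ℕ) (hq : 0 < q) (S I : Finset ℕ) (hSI : ∀ m ∈ S, q * m ∈ I) (f : ℕ → ℂ)
    (hf : ∀ x ∈ I, f x ≠ 0 → ∃ m ∈ S, x = q * m) :
    ∑ x ∈ I, f x = ∑ m ∈ S, f (q * m) := by
  have h1 : ∑ m ∈ S, f (q * m) = ∑ x ∈ S.image (fun m => q * m), f x := by
    rw [Finset.sum_image]
    intro a _ b _ hab
    exact Nat.eq_of_mul_eq_mul_left hq hab
  rw [h1]
  symm
  apply Finset.sum_subset
  · intro x hx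
    rw [mem_image] at hx
    obtain ⟨m, hm, rfl⟩ := hx
    exact hSI m hm
  · intro x hx hx'
    by_contra hne
    obtain ⟨m, hm, rfl⟩ := hf x hx hne
    exact hx' (mem_image_of_mem _ hm)

/-- padding of Kloosterman fractions -/
theorem kf_pad (b : ℤ) (q1 q2 m n : ℕ) (hn : 0 < n) (hq2 : 0 < q2)
    (h : Nat.Coprime (q1 * m) (q2 * n)) :
    kf (b * (q1 * q2)) ((q1 * m : ℕ) : ℤ) (q2 * n) = kf b m n := by
  have hc : IsCoprime ((q1 * m : ℕ) : ℤ) ((q2 * n : ℕ) : ℤ) := Nat.isCoprime_iff_coprime.2 h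
  obtain ⟨x, hx, -⟩ := Pool.Agent.H442R2.KF.TaskA.unit_inv (q2 * n) (Nat.mul_pos hq2 hn) _ hc
  have hx' : ((m * (q1 * x) : ℤ) : ZMod n) = 1 := by
    have h1 : ((q2 * n : ℕ) : ℤ) ∣ ((q1 * m : ℕ) : ℤ) * x - 1 := by
      rw [← ZMod.intCast_zmod_eq_zero_iff_dvd]
      rw [Int.cast_sub, hx]
      simp
    have h2 : (n : ℤ) ∣ m * (q1 * x) - 1 := by
      have h3 : (n : ℤ) ∣ ((q2 * n : ℕ) : ℤ) := ⟨q2, by push_cast; ring⟩
      have h4 := h3.trans h1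
      have h5 : (m : ℤ) * (q1 * x) - 1 = ((q1 * m : ℕ) : ℤ) * x - 1 := by push_cast; ring
      rwa [h5]
    rw [← ZMod.intCast_zmod_eq_zero_iff_dvd] at h2
    rw [Int.cast_sub, Int.cast_one, sub_eq_zero] at h2
    exact h2
  rw [kf_of_inv (q2 * n) (Nat.mul_pos hq2 hn) _ _ x hx, kf_of_inv n hn b m (q1 * x) hx']
  congr 1
  have hnr : (n : ℝ) ≠ 0 := by exact_mod_cast hn.ne'
  have hqr : (q2 : ℝ) ≠ 0 := by exact_mod_cast hq2.ne'
  push_cast
  field_simp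

/-- the two blocks -/
def SB (H : ℕ) : Finset ℕ := (Ioc H (2 * H)).filter (fun m => 4 * m ≤ 5 * H)

/-- padded coefficients -/
def pad (q H : ℕ) (α : ℕ → ℂ) (x : ℕ) : ℂ := if q ∣ x ∧ x / q ∈ SB H then α (x / q) else 0

theorem pad_mul (q H : ℕ) (hq : 0 < q) (α : ℕ → ℂ) (m : ℕ) (hm : m ∈ SB H) :
    pad q H α (q * m) = α m := by
  unfold pad
  rw [Nat.mul_div_cancel_left m hq, if_pos ⟨dvd_mul_right _ _, hm⟩]

theorem pad_ne (q H : ℕ) (α : ℕ → ℂ) (x : ℕ) (h : pad q H α x ≠ 0) : ∃ m ∈ SB H, x = q * m := by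
  unfold pad at h
  by_cases hc : q ∣ x ∧ x / q ∈ SB H
  · exact ⟨x / q, hc.2, (Nat.mul_div_cancel' hc.1).symm⟩
  · rw [if_neg hc] at h
    exact absurd rfl h

theorem pad_norm (q H : ℕ) (α : ℕ → ℂ) (hα : ∀ m, ‖α m‖ ≤ 1) (x : ℕ) : ‖pad q H α x‖ ≤ 1 := by
  unfold pad
  split_ifs
  · exact hα _
  · simp

/-- one class -/
theorem cls (H K J M q1 q2 : ℕ) (h1 : Nat.Prime q1) (h2 : Nat.Prime q2) (h12 : q1 ≠ q2)
    (hH : ∀ m ∈ SB H, q1 * m ∈ Ioc M (2 * M + 1)) (hK : ∀ n ∈ SB K, q2 * n ∈ Ioc M (2 * M + 1))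
    (ψ : ℕ → ℝ → ℂ) (σ : ℤ) (α β : ℕ → ℂ) (hα : ∀ m ∈ SB H, α m ≠ 0 → ¬ q2 ∣ m)
    (hβ : ∀ n ∈ SB K, β n ≠ 0 → ¬ q1 ∣ n) :
    ∑ m ∈ SB H, ∑ n ∈ (SB K).filter (fun n => Nat.Coprime m n),
      α m * β n * ∑ j ∈ Icc 1 J, ψ j ((m : ℝ) * n) * kf (σ * j) m n =
    ∑ m ∈ Ioc M (2 * M + 1), ∑ n ∈ (Ioc M (2 * M + 1)).filter (fun n => Nat.Coprime m n),
      pad q1 H α m * pad q2 K β n *
        FF (fun j s => ψ j (s / ((q1 : ℝ) * q2))) (σ * (q1 * q2)) J n m := by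
  have e1 : ∀ m, ∑ n ∈ (Ioc M (2 * M + 1)).filter (fun n => Nat.Coprime m n),
      pad q1 H α m * pad q2 K β n *
        FF (fun j s => ψ j (s / ((q1 : ℝ) * q2))) (σ * (q1 * q2)) J n m =
      ∑ n ∈ Ioc M (2 * M + 1), if Nat.Coprime m n then
      pad q1 H α m * pad q2 K β n *
        FF (fun j s => ψ j (s / ((q1 : ℝ) * q2))) (σ * (q1 * q2)) J n m else 0 := by
    intro m
    rw [sum_filter]
  simp_rw [e1]
  rw [sum_mult q1 h1.pos (SB H) (Ioc M (2 * M + 1)) hH]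
  swap
  · intro x _ hx
    apply pad_ne q1 H α x
    intro h0
    apply hx
    apply Finset.sum_eq_zero
    intro n _
    rw [h0, zero_mul, zero_mul, ite_self]
  refine Finset.sum_congr rfl fun m hm => ?_
  rw [sum_mult q2 h2.pos (SB K) (Ioc M (2 * M + 1)) hK]
  swap
  · intro x _ hx
    apply pad_ne q2 K β x
    intro h0
    apply hx
    rw [h0, mul_zero, zero_mul, ite_self]
  rw [sum_filter]
  refine Finset.sum_congr rfl fun n hn => ?_
  rw [pad_mul q1 H h1.pos α m hm, pad_mul q2 K h2.pos β n hn]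
  by_cases ha : α m = 0
  · rw [ha]; simp
  by_cases hb : β n = 0
  · rw [hb]; simp
  have hd2 := hα m hm ha
  have hd1 := hβ n hn hb
  have hn0 : 0 < n := by
    have := hn
    unfold SB at this
    rw [mem_filter, mem_Ioc] at this
    omega
  have hiff : Nat.Coprime (q1 * m) (q2 * n) ↔ Nat.Coprime m n := by
    constructor
    · intro h
      exact Nat.Coprime.coprime_mul_left (Nat.Coprime.coprime_mul_left_right h)
    · intro h
      have hc1 : Nat.Coprime q1 q2 := (Nat.coprime_primes h1 h2).2 h12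
      have hc2 : Nat.Coprime q1 n := (Nat.Prime.coprime_iff_not_dvd h1).2 hd1
      have hc3 : Nat.Coprime m q2 := ((Nat.Prime.coprime_iff_not_dvd h2).2 hd2).symm
      exact Nat.Coprime.mul_left (Nat.Coprime.mul_right hc1 hc2) (Nat.Coprime.mul_right hc3 h)
  by_cases hc : Nat.Coprime m n
  · rw [if_pos hc, if_pos (hiff.2 hc)]
    congr 1
    unfold FF
    refine Finset.sum_congr rfl fun j _ => ?_
    have hq1 : (q1 : ℝ) ≠ 0 := by exact_mod_cast h1.ne_zero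
    have hq2 : (q2 : ℝ) ≠ 0 := by exact_mod_cast h2.ne_zero
    have e2 : ((q1 * m : ℕ) : ℝ) * ((q2 * n : ℕ) : ℝ) / ((q1 : ℝ) * q2) = (m : ℝ) * n := by
      push_cast
      field_simp
    have e3 : kf ((j : ℤ) * (σ * (q1 * q2))) ((q1 * m : ℕ) : ℤ) (q2 * n) = kf (σ * j) m n := by
      rw [← kf_pad (σ * j) q1 q2 m n hn0 h2.pos (hiff.2 hc)]
      congr 1
      ring
    show _ = ψ j (((q1 * m : ℕ) : ℝ) * ((q2 * n : ℕ) : ℝ) / ((q1 : ℝ) * q2)) * _
    rw [e2, e3]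
  · rw [if_neg hc, if_neg (fun h => hc (hiff.1 h))]

theorem split1 (Q : Finset ℕ) (c : ℕ → ℕ) (S : Finset ℕ) (hc : ∀ m ∈ S, c m ∈ Q) (α : ℕ → ℂ)
    (F : ℕ → ℂ) : ∑ m ∈ S, α m * F m =
      ∑ q ∈ Q, ∑ m ∈ S, (if c m = q then α m else 0) * F m := by
  rw [Finset.sum_comm]
  refine Finset.sum_congr rfl fun m hm => ?_
  rw [← Finset.sum_mul, Finset.sum_ite_eq, if_pos (hc m hm)]

theorem card_SB (H : ℕ) : (SB H).card ≤ H := by
  unfold SB
  refine (Finset.card_filter_le _ _).trans ?_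
  rw [Nat.card_Ioc]
  omega

/-- trivial bound -/
theorem triv (H K J : ℕ) (hH : 1 ≤ H) (hK : 1 ≤ K) (V : ℝ) (ψ : ℕ → ℝ → ℂ)
    (hψ : ∀ j, Wx ((H : ℝ) * K / 2) V (ψ j)) (σ : ℤ) (α β : ℕ → ℂ) (hα : ∀ m, ‖α m‖ ≤ 1)
    (hβ : ∀ n, ‖β n‖ ≤ 1) :
    ‖∑ m ∈ SB H, ∑ n ∈ (SB K).filter (fun n => Nat.Coprime m n),
      α m * β n * ∑ j ∈ Icc 1 J, ψ j ((m : ℝ) * n) * kf (σ * j) m n‖ ≤ (H : ℝ) * K * J := by
  have h1 : ∀ m ∈ SB H, ‖∑ n ∈ (SB K).filter (fun n => Nat.Coprime m n),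
      α m * β n * ∑ j ∈ Icc 1 J, ψ j ((m : ℝ) * n) * kf (σ * j) m n‖ ≤ (K : ℝ) * J := by
    intro m hm
    have h2 : ∀ n ∈ (SB K).filter (fun n => Nat.Coprime m n),
        ‖α m * β n * ∑ j ∈ Icc 1 J, ψ j ((m : ℝ) * n) * kf (σ * j) m n‖ ≤ (J : ℝ) := by
      intro n hn
      have hm' : (H : ℝ) ≤ m := by
        have := hm
        unfold SB at this
        rw [mem_filter, mem_Ioc] at this
        exact_mod_cast this.1.1.le
      have hn' : (K : ℝ) ≤ n := by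
        have := (mem_filter.1 hn).1
        unfold SB at this
        rw [mem_filter, mem_Ioc] at this
        exact_mod_cast this.1.1.le
      have h3 : (H : ℝ) * K / 2 ≤ (m : ℝ) * n := by
        have hK0 : (0 : ℝ) ≤ K := Nat.cast_nonneg _
        have hH0 : (0 : ℝ) ≤ H := Nat.cast_nonneg _
        have : (H : ℝ) * K ≤ (m : ℝ) * n := mul_le_mul hm' hn' hK0 (hH0.trans hm')
        have h4 : 0 ≤ (H : ℝ) * K := by positivity
        linarith
      have h4 : ‖∑ j ∈ Icc 1 J, ψ j ((m : ℝ) * n) * kf (σ * j) m n‖ ≤ (J : ℝ) := by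
        refine (norm_sum_le _ _).trans ?_
        calc ∑ j ∈ Icc 1 J, ‖ψ j ((m : ℝ) * n) * kf (σ * j) m n‖ ≤ ∑ j ∈ Icc 1 J, (1 : ℝ) := by
              refine Finset.sum_le_sum fun j _ => ?_
              rw [norm_mul, norm_kf, mul_one]
              exact (hψ j).bd _ h3
          _ = J := by simp
      rw [norm_mul, norm_mul]
      calc ‖α m‖ * ‖β n‖ * ‖∑ j ∈ Icc 1 J, ψ j ((m : ℝ) * n) * kf (σ * j) m n‖ ≤ 1 * 1 * J := by
            refine mul_le_mul (mul_le_mul (hα m) (hβ n) (norm_nonneg _) zero_le_one) h4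
              (norm_nonneg _) (by norm_num)
        _ = J := by ring
    refine (norm_sum_le _ _).trans ((Finset.sum_le_card_nsmul _ _ _ h2).trans ?_)
    rw [nsmul_eq_mul]
    have h5 : (((SB K).filter (fun n => Nat.Coprime m n)).card : ℝ) ≤ K := by
      exact_mod_cast (Finset.card_filter_le _ _).trans (card_SB K)
    gcongr
  refine (norm_sum_le _ _).trans ((Finset.sum_le_card_nsmul _ _ _ h1).trans ?_)
  rw [nsmul_eq_mul]
  have h5 : ((SB H).card : ℝ) ≤ H := by exact_mod_cast card_SB H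
  have h6 : 0 ≤ (K : ℝ) * J := by positivity
  calc ((SB H).card : ℝ) * (K * J) ≤ H * (K * J) := by gcongr
    _ = (H : ℝ) * K * J := by ring

/-- bound for one class -/
theorem cls_bd (δ η0 C0 : ℝ) (hC0 : 0 < C0) (hη0 : 0 < η0)
    (hT : ∀ (M J q : ℕ), 1 ≤ M → 1 ≤ J → 1 ≤ q →
    (J : ℝ) * q ≤ (M : ℝ) ^ (1 / 14 - δ / 2) →
    ∀ V : ℝ, 1 ≤ V → ∀ ψ : ℕ → ℝ → ℂ, (∀ j, Wei M V (ψ j)) →
    ∀ k : ℤ, k ≠ 0 → (q : ℤ) ∣ k → |(k : ℝ)| * J ≤ V * (M : ℝ) ^ 2 →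
    ∀ α β : ℕ → ℂ, (∀ m, ‖α m‖ ≤ 1) → (∀ n, ‖β n‖ ≤ 1) → (∀ m, ¬ q ∣ m → α m = 0) →
    ‖∑ m ∈ Ioc M (2 * M + 1), ∑ n ∈ (Ioc M (2 * M + 1)).filter (fun n => Nat.Coprime m n),
      α m * β n * FF ψ k J n m‖ ≤ C0 * V ^ 2 * (M : ℝ) ^ (2 - η0) / q)
    (H K J q1 q2 Z : ℕ) (hH : 1 ≤ H) (hHK : H ≤ K) (hJ : 1 ≤ J) (hJ2 : J ≤ H * K)
    (h1 : Nat.Prime q1) (h2 : Nat.Prime q2) (h12 : q1 ≠ q2) (h20 : 20 ≤ q2) (hq2Z : q2 ≤ 2 * Z)
    (hr1 : 7 * (q2 * K) ≤ 10 * (q1 * H)) (hr2 : 10 * (q1 * H) ≤ 15 * (q2 * K))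
    (hJq : (J : ℝ) * q1 ≤ (K : ℝ) ^ (1 / 14 - δ / 2)) (hδ : δ ≤ 1 / 14)
    (V : ℝ) (hV : 1 ≤ V) (ψ : ℕ → ℝ → ℂ) (hψ : ∀ j, Wx ((H : ℝ) * K / 2) V (ψ j)) (σ : ℤ)
    (hσ : σ = 1 ∨ σ = -1) (α β : ℕ → ℂ) (hα1 : ∀ m, ‖α m‖ ≤ 1) (hβ1 : ∀ n, ‖β n‖ ≤ 1)
    (hα : ∀ m ∈ SB H, α m ≠ 0 → ¬ q2 ∣ m) (hβ : ∀ n ∈ SB K, β n ≠ 0 → ¬ q1 ∣ n) :
    ‖∑ m ∈ SB H, ∑ n ∈ (SB K).filter (fun n => Nat.Coprime m n),
      α m * β n * ∑ j ∈ Icc 1 J, ψ j ((m : ℝ) * n) * kf (σ * j) m n‖ ≤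
      8 * C0 * V ^ 2 * ((H : ℝ) * K) * Z * (K : ℝ) ^ (-η0) := by
  set M : ℕ := min (q1 * H) (q2 * K) with hM
  have hMl : M ≤ q1 * H := min_le_left _ _
  have hMr : M ≤ q2 * K := min_le_right _ _
  have hK1 : 1 ≤ K := hH.trans hHK
  have hq1K : K ≤ q1 * H := by nlinarith
  have hq2K : K ≤ q2 * K := by nlinarith
  have hKM : K ≤ M := le_min hq1K hq2K
  have hM1 : 1 ≤ M := hK1.trans hKM
  have hmax1 : 5 * (q1 * H) ≤ 8 * M := by
    rcases min_choice (q1 * H) (q2 * K) with h | h <;> rw [← hM] at h <;> rw [h] <;> omega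
  have hmax2 : 5 * (q2 * K) ≤ 8 * M := by
    rcases min_choice (q1 * H) (q2 * K) with h | h <;> rw [← hM] at h <;> rw [h] <;> omega
  have hI1 : ∀ m ∈ SB H, q1 * m ∈ Ioc M (2 * M + 1) := by
    intro m hm
    unfold SB at hm
    rw [mem_filter, mem_Ioc] at hm
    rw [mem_Ioc]
    have e1 : q1 * H < q1 * m := Nat.mul_lt_mul_of_pos_left hm.1.1 h1.pos
    have e2 : 4 * (q1 * m) ≤ 5 * (q1 * H) := by nlinarith [hm.2, h1.pos]
    constructor
    · omega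
    · omega
  have hI2 : ∀ n ∈ SB K, q2 * n ∈ Ioc M (2 * M + 1) := by
    intro m hm
    unfold SB at hm
    rw [mem_filter, mem_Ioc] at hm
    rw [mem_Ioc]
    have e1 : q2 * K < q2 * m := Nat.mul_lt_mul_of_pos_left hm.1.1 h2.pos
    have e2 : 4 * (q2 * m) ≤ 5 * (q2 * K) := by nlinarith [hm.2, h2.pos]
    constructor
    · omega
    · omega
  rw [cls H K J M q1 q2 h1 h2 h12 hI1 hI2 ψ σ α β hα hβ]
  have hMR : (1 : ℝ) ≤ M := by exact_mod_cast hM1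
  have hM0 : (0 : ℝ) < M := by linarith
  have hKR : (1 : ℝ) ≤ K := by exact_mod_cast hK1
  have hHR : (1 : ℝ) ≤ H := by exact_mod_cast hH
  have hKMR : (K : ℝ) ≤ M := by exact_mod_cast hKM
  have hq1R : (0 : ℝ) < q1 := by exact_mod_cast h1.pos
  have hq2R : (0 : ℝ) < q2 := by exact_mod_cast h2.pos
  -- `M²` against `q₁ q₂ H K`
  have hMM1 : (M : ℝ) ^ 2 ≤ q1 * q2 * (H * K) := by
    have : (M : ℝ) ^ 2 ≤ (q1 * H) * (q2 * K) := by
      have e1 : (M : ℝ) ≤ q1 * H := by exact_mod_cast hMl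
      have e2 : (M : ℝ) ≤ q2 * K := by exact_mod_cast hMr
      calc (M : ℝ) ^ 2 = M * M := by ring
        _ ≤ (q1 * H) * (q2 * K) := mul_le_mul e1 e2 hM0.le (hM0.le.trans e1)
    linarith [this, mul_comm (q1 * (H : ℝ)) (q2 * K)]
  have hMM2 : (q1 : ℝ) * q2 * (H * K) / 2 ≤ (M : ℝ) ^ 2 := by
    have e1 : 5 * ((q1 : ℝ) * H) ≤ 8 * M := by exact_mod_cast hmax1
    have e2 : 5 * ((q2 : ℝ) * K) ≤ 8 * M := by exact_mod_cast hmax2
    rcases min_choice (q1 * H) (q2 * K) with h | h <;> rw [← hM] at h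
    · have e3 : (M : ℝ) = q1 * H := by exact_mod_cast h
      nlinarith
    · have e3 : (M : ℝ) = q2 * K := by exact_mod_cast h
      nlinarith
  have hwei : ∀ j, Wei M (2 * V) (fun s => ψ j (s / ((q1 : ℝ) * q2))) := by
    intro j
    have hqq : (0 : ℝ) < q1 * q2 := by positivity
    have hle : ∀ s : ℝ, (M : ℝ) ^ 2 ≤ s → (H : ℝ) * K / 2 ≤ s / ((q1 : ℝ) * q2) := by
      intro s hs
      rw [le_div_iff₀ hqq]
      nlinarith
    constructor
    · intro s hs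
      exact (hψ j).bd _ (hle s hs)
    · intro s s' hs hs'
      refine ((hψ j).lip _ _ (hle s hs) (hle s' hs')).trans ?_
      have e1 : s / ((q1 : ℝ) * q2) - s' / ((q1 : ℝ) * q2) = (s - s') / ((q1 : ℝ) * q2) := by ring
      rw [e1, abs_div, abs_of_pos hqq]
      have hX : (0 : ℝ) < H * K / 2 := by positivity
      have e2 : V * (|s - s'| / ((q1 : ℝ) * q2)) / ((H : ℝ) * K / 2) =
          2 * V * |s - s'| / (q1 * q2 * (H * K)) := by
        field_simp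
      rw [e2]
      apply div_le_div_of_nonneg_left (by positivity) (by positivity) hMM1
  have hkJ : |((σ * (q1 * q2) : ℤ) : ℝ)| * J ≤ 2 * V * (M : ℝ) ^ 2 := by
    have e1 : |((σ * (q1 * q2) : ℤ) : ℝ)| = q1 * q2 := by
      push_cast
      rw [abs_mul, abs_mul, Nat.abs_cast, Nat.abs_cast]
      rcases hσ with h | h <;> rw [h] <;> simp
    rw [e1]
    have e2 : (J : ℝ) ≤ H * K := by exact_mod_cast hJ2
    have e3 : (q1 : ℝ) * q2 * J ≤ q1 * q2 * (H * K) := by gcongr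
    nlinarith [sq_nonneg (M : ℝ)]
  have hdvd : (q1 : ℤ) ∣ σ * (q1 * q2) := ⟨σ * q2, by ring⟩
  have hk0 : σ * ((q1 : ℤ) * q2) ≠ 0 := by
    have a1 : (q1 : ℤ) ≠ 0 := by exact_mod_cast h1.ne_zero
    have a2 : (q2 : ℤ) ≠ 0 := by exact_mod_cast h2.ne_zero
    have a3 : σ ≠ 0 := by rcases hσ with h | h <;> rw [h] <;> norm_num
    exact mul_ne_zero a3 (mul_ne_zero a1 a2)
  have hJq' : (J : ℝ) * q1 ≤ (M : ℝ) ^ (1 / 14 - δ / 2) :=
    hJq.trans (Real.rpow_le_rpow (by linarith) hKMR (by linarith))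
  refine (hT M J q1 hM1 hJ h1.one_lt.le hJq' (2 * V) (by linarith) _ hwei (σ * (q1 * q2)) hk0 hdvd
    hkJ (pad q1 H α) (pad q2 K β) (pad_norm _ _ _ hα1) (pad_norm _ _ _ hβ1) ?_).trans ?_
  · intro m hm
    unfold pad
    rw [if_neg (fun h => hm h.1)]
  · have e1 : (M : ℝ) ^ (2 - η0) ≤ q1 * q2 * (H * K) * (K : ℝ) ^ (-η0) := by
      have e2 : (M : ℝ) ^ (2 - η0) = (M : ℝ) ^ 2 * (M : ℝ) ^ (-η0) := by
        rw [sub_eq_add_neg, Real.rpow_add hM0, Real.rpow_two]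
      rw [e2]
      have e3 : (M : ℝ) ^ (-η0) ≤ (K : ℝ) ^ (-η0) := by
        apply Real.rpow_le_rpow_of_nonpos (by linarith) hKMR (by linarith)
      exact mul_le_mul hMM1 e3 (by positivity) (by positivity)
    have e4 : (q2 : ℝ) ≤ 2 * Z := by exact_mod_cast hq2Z
    rw [div_le_iff₀ hq1R]
    calc C0 * (2 * V) ^ 2 * (M : ℝ) ^ (2 - η0) ≤
        C0 * (2 * V) ^ 2 * (q1 * q2 * (H * K) * (K : ℝ) ^ (-η0)) := by gcongr
      _ ≤ C0 * (2 * V) ^ 2 * (q1 * (2 * Z) * (H * K) * (K : ℝ) ^ (-η0)) := by gcongr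
      _ = 8 * C0 * V ^ 2 * ((H : ℝ) * K) * Z * (K : ℝ) ^ (-η0) * q1 := by ring

/-- facts that hold for large `K` -/
theorem large (τ c : ℝ) (hτ : 0 < τ) (hc : 0 < c) : ∃ K0 : ℕ, 2 ≤ K0 ∧ ∀ K : ℕ, K0 ≤ K →
    ((20 : ℝ) ≤ (K : ℝ) ^ τ) ∧ (((Nat.log 2 (2 * K) + 1 : ℕ) : ℝ) ≤ (K : ℝ) ^ τ) ∧
    (((Nat.log 2 (2 * K) + 1 : ℕ) : ℝ) + 1 ≤ c * ((K : ℝ) ^ τ / 2) ^ (1 / 2 : ℝ)) := by
  set A1 : ℝ := 16 / τ + 3 with hA1
  have hA10 : 0 < A1 := by positivity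
  have hev : ∀ᶠ K : ℕ in atTop, max 20 (max (A1 * 2 / c) A1) ≤ (K : ℝ) ^ (τ / 4) :=
    ((tendsto_rpow_atTop (by positivity : 0 < τ / 4)).comp tendsto_natCast_atTop_atTop).eventually
      (eventually_ge_atTop _)
  obtain ⟨K1, hK1⟩ := Filter.eventually_atTop.1 hev
  refine ⟨max K1 2, le_max_right _ _, ?_⟩
  intro K hK
  have h1 := hK1 K ((le_max_left _ _).trans hK)
  have hK2 : 2 ≤ K := (le_max_right _ _).trans hK
  have hKR : (2 : ℝ) ≤ K := by exact_mod_cast hK2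
  have hK0 : (0 : ℝ) < K := by linarith
  set y : ℝ := (K : ℝ) ^ (τ / 4) with hy
  have hy20 : 20 ≤ y := (le_max_left _ _).trans h1
  have hyA : A1 * 2 / c ≤ y := (le_max_left _ _).trans ((le_max_right _ _).trans h1)
  have hyA1 : A1 ≤ y := (le_max_right _ _).trans ((le_max_right _ _).trans h1)
  have hKy : (K : ℝ) ^ τ = y ^ 4 := by
    rw [hy, ← Real.rpow_natCast, ← Real.rpow_mul hK0.le]
    congr 1
    push_cast
    ring
  -- the logarithm
  have hlog : ((Nat.log 2 (2 * K) : ℕ) : ℝ) ≤ (16 / τ + 1) * y := by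
    have e1 : ((Nat.log 2 (2 * K) : ℕ) : ℝ) ≤ Real.logb 2 ((2 * K : ℕ) : ℝ) := by
      exact_mod_cast Real.natLog_le_logb (2 * K) 2
    have e2 : Real.logb 2 ((2 * K : ℕ) : ℝ) = 1 + Real.logb 2 K := by
      push_cast
      rw [Real.logb_mul (by norm_num) hK0.ne', Real.logb_self_eq_one (by norm_num)]
    have e3 : Real.log K ≤ (K : ℝ) ^ (τ / 4) / (τ / 4) := Real.log_le_rpow_div hK0.le (by positivity)
    have e4 : Real.logb 2 K ≤ 2 * Real.log K := by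
      unfold Real.logb
      have h2 : (1 / 2 : ℝ) ≤ Real.log 2 := by
        have := Real.log_two_gt_d9
        linarith
      have h3 : 0 ≤ Real.log K := Real.log_nonneg (by linarith)
      rw [div_le_iff₀ (by linarith)]
      nlinarith
    have e5 : (K : ℝ) ^ (τ / 4) / (τ / 4) = 4 / τ * y := by
      rw [← hy]
      field_simp
    rw [e5] at e3
    have e6 : 0 ≤ 1 / τ * y := by positivity
    have e7 : (16 / τ + 1) * y = 16 * (1 / τ * y) + y := by ring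
    have e8 : 4 / τ * y = 4 * (1 / τ * y) := by ring
    rw [e7]
    rw [e8] at e3
    linarith
  have hD : (((Nat.log 2 (2 * K) + 1 : ℕ) : ℝ)) + 1 ≤ A1 * y := by
    push_cast
    rw [hA1]
    nlinarith
  refine ⟨?_, ?_, ?_⟩
  · rw [hKy]
    calc (20 : ℝ) ≤ y := hy20
      _ ≤ y ^ 4 := le_self_pow₀ (by linarith) (by norm_num)
  · rw [hKy]
    calc (((Nat.log 2 (2 * K) + 1 : ℕ) : ℝ)) ≤ A1 * y := by linarith
      _ ≤ y * y := by gcongr
      _ = y ^ 2 := by ring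
      _ ≤ y ^ 4 := pow_le_pow_right₀ (by linarith) (by norm_num)
  · refine hD.trans ?_
    rw [hKy]
    have e1 : y ^ 2 / 2 ≤ (y ^ 4 / 2) ^ (1 / 2 : ℝ) := by
      rw [← Real.sqrt_eq_rpow]
      apply Real.le_sqrt_of_sq_le
      have : 0 ≤ y ^ 4 := by positivity
      nlinarith
    have e2 : A1 * y ≤ c * (y ^ 2 / 2) := by
      rw [div_le_iff₀ hc] at hyA
      nlinarith
    exact e2.trans (by gcongr)

theorem main (h : P_TRI2) : P_BLKle := by
  intro δ hδ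
  obtain ⟨η0, C0, hη0, hC0, hT⟩ := h (δ / 2) (by positivity)
  obtain ⟨c, hc, hP⟩ := Pool.Agent.H442R2.KF.primes_dyadic (1 / 2) (by norm_num)
  set τ : ℝ := min δ η0 / 16 with hτ
  have hτ0 : 0 < τ := by
    rw [hτ]
    have : 0 < min δ η0 := lt_min hδ hη0
    positivity
  have hτδ : 16 * τ ≤ δ := by
    rw [hτ]
    have := min_le_left δ η0
    linarith
  have hτη : 16 * τ ≤ η0 := by
    rw [hτ]
    have := min_le_right δ η0
    linarith
  obtain ⟨K0, hK02, hK0⟩ := large τ c hτ0 hc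
  refine ⟨η0 / 2, 32 * C0 + (K0 : ℝ) * (K0 : ℝ) ^ (η0 / 2), by positivity, by positivity, ?_⟩
  intro H K J hH hHK hJ hJK V hV ψ hψ σ hσ α β hα hβ
  have hK1 : 1 ≤ K := hH.trans hHK
  have hKR : (1 : ℝ) ≤ K := by exact_mod_cast hK1
  have hKp : (0 : ℝ) < K := by linarith
  have hHR : (1 : ℝ) ≤ H := by exact_mod_cast hH
  have hHKR : (H : ℝ) ≤ K := by exact_mod_cast hHK
  have hJR : (1 : ℝ) ≤ J := by exact_mod_cast hJ
  have hKH : (1 : ℝ) ≤ (K : ℝ) / H := by rw [le_div_iff₀ (by linarith)]; linarith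
  have hJle : (J : ℝ) ≤ K := by
    have e1 : (K : ℝ) ^ (1 / 14 - δ) ≤ K := by
      calc (K : ℝ) ^ (1 / 14 - δ) ≤ (K : ℝ) ^ (1 : ℝ) :=
            Real.rpow_le_rpow_of_exponent_le hKR (by linarith)
        _ = K := Real.rpow_one _
    nlinarith
  have hV2 : 1 ≤ V ^ 2 := one_le_pow₀ hV
  -- rewrite the sums
  have hset : ∀ m : ℕ, (Ioc K (2 * K)).filter (fun n => 4 * n ≤ 5 * K ∧ Nat.Coprime m n) =
      (SB K).filter (fun n => Nat.Coprime m n) := by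
    intro m
    unfold SB
    rw [Finset.filter_filter]
  simp_rw [hset]
  change ‖∑ m ∈ SB H, ∑ n ∈ (SB K).filter (fun n => Nat.Coprime m n),
      α m * β n * ∑ j ∈ Icc 1 J, ψ j ((m : ℝ) * n) * kf (σ * j) m n‖ ≤ _
  rcases lt_or_ge K K0 with hKlt | hKge
  · -- small `K`
    refine (triv H K J hH hK1 V ψ hψ σ α β hα hβ).trans ?_
    have e1 : (K : ℝ) ≤ K0 := by exact_mod_cast hKlt.le
    have e2 : 1 ≤ (K0 : ℝ) ^ (η0 / 2) * (K : ℝ) ^ (-(η0 / 2)) := by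
      rw [Real.rpow_neg hKp.le, ← div_eq_mul_inv, le_div_iff₀ (by positivity), one_mul]
      exact Real.rpow_le_rpow hKp.le e1 (by positivity)
    have e3 : 0 ≤ 32 * C0 * V ^ 2 * ((H : ℝ) * K) * (K : ℝ) ^ (-(η0 / 2)) := by positivity
    calc (H : ℝ) * K * J ≤ (H : ℝ) * K * K0 :=
          mul_le_mul_of_nonneg_left (hJle.trans e1) (by positivity)
      _ = 1 * ((H : ℝ) * K * K0) := by ring
      _ ≤ V ^ 2 * ((K0 : ℝ) ^ (η0 / 2) * (K : ℝ) ^ (-(η0 / 2))) * ((H : ℝ) * K * K0) := by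
          have : 1 ≤ V ^ 2 * ((K0 : ℝ) ^ (η0 / 2) * (K : ℝ) ^ (-(η0 / 2))) :=
            one_le_mul_of_one_le_of_one_le hV2 e2
          gcongr
      _ ≤ V ^ 2 * ((K0 : ℝ) ^ (η0 / 2) * (K : ℝ) ^ (-(η0 / 2))) * ((H : ℝ) * K * K0) +
          32 * C0 * V ^ 2 * ((H : ℝ) * K) * (K : ℝ) ^ (-(η0 / 2)) := by linarith
      _ = _ := by ring
  · -- large `K`
    obtain ⟨hL1, hL2, hL3⟩ := hK0 K hKge
    have hK2 : 2 ≤ K := hK02.trans hKge
    have hδ14 : δ ≤ 1 / 14 := by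
      by_contra hcon
      push Not at hcon
      have e1 : (K : ℝ) ^ (1 / 14 - δ) < 1 :=
        Real.rpow_lt_one_of_one_lt_of_neg (by exact_mod_cast hK2) (by linarith)
      nlinarith
    set D : ℕ := Nat.log 2 (2 * K) + 1 with hD
    have hDpow : 2 * K < 2 ^ D := Nat.lt_pow_succ_log_self (by norm_num) _
    set Z : ℕ := ⌈(K : ℝ) ^ τ⌉₊ with hZ
    have hZl : (K : ℝ) ^ τ ≤ Z := Nat.le_ceil _
    have hZu : (Z : ℝ) ≤ 2 * (K : ℝ) ^ τ := by
      have := Nat.ceil_lt_add_one (by positivity : 0 ≤ (K : ℝ) ^ τ)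
      linarith
    have hZ20 : 20 ≤ Z := by
      have : (20 : ℝ) ≤ Z := hL1.trans hZl
      exact_mod_cast this
    -- many primes
    have hcard : ∀ L : ℕ, Z ≤ 2 * L → D + 1 ≤ (Pool.Agent.H442R2.KF.PL L).card := by
      intro L hL
      have hL1' : 1 ≤ L := by omega
      have e1 := hP L hL1'
      have e2 : (K : ℝ) ^ τ / 2 ≤ L := by
        have : (Z : ℝ) ≤ 2 * L := by exact_mod_cast hL
        linarith
      have e3 : ((K : ℝ) ^ τ / 2) ^ (1 / 2 : ℝ) ≤ (L : ℝ) ^ (1 - 1 / 2 : ℝ) := by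
        have : (1 - 1 / 2 : ℝ) = 1 / 2 := by norm_num
        rw [this]
        exact Real.rpow_le_rpow (by positivity) e2 (by norm_num)
      have e4 : ((D : ℕ) : ℝ) + 1 ≤ ((Pool.Agent.H442R2.KF.PL L).card : ℝ) :=
        hL3.trans (le_trans (by gcongr) e1)
      exact_mod_cast e4
    have hprime : ∀ L : ℕ, ∀ q ∈ Pool.Agent.H442R2.KF.PL L, Nat.Prime q := by
      intro L q hq
      unfold Pool.Agent.H442R2.KF.PL at hq
      exact (mem_filter.1 hq).2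
    have hrange : ∀ L : ℕ, ∀ q ∈ Pool.Agent.H442R2.KF.PL L, L < q ∧ q ≤ 2 * L := by
      intro L q hq
      unfold Pool.Agent.H442R2.KF.PL at hq
      exact mem_Ioc.1 (mem_filter.1 hq).1
    set Q2 : Finset ℕ := Pool.Agent.H442R2.KF.PL Z with hQ2
    have hQ2card : (Q2.card : ℝ) ≤ Z := by
      have : Q2.card ≤ Z := by
        rw [hQ2]
        unfold Pool.Agent.H442R2.KF.PL
        refine (Finset.card_filter_le _ _).trans ?_
        rw [Nat.card_Ioc]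
        omega
      exact_mod_cast this
    have hex2 : ∀ m : ℕ, ∃ q : ℕ, m ∈ SB H → q ∈ Q2 ∧ ¬ q ∣ m := by
      intro m
      by_cases hm : m ∈ SB H
      · have hm' := hm
        unfold SB at hm'
        rw [mem_filter, mem_Ioc] at hm'
        obtain ⟨q, hq, hqm⟩ := exists_not_dvd Q2 (hprime Z) (2 * K)
          (hDpow.trans_le (Nat.pow_le_pow_right (by norm_num) (by
            have := hcard Z (by omega)
            rw [← hQ2] at this
            omega))) m (by omega) (by omega)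
        exact ⟨q, fun _ => ⟨hq, hqm⟩⟩
      · exact ⟨0, fun h => absurd h hm⟩
    choose c2 hc2 using hex2
    -- the second padding set
    have hexS : ∀ q2 : ℕ, ∃ S : Finset ℕ, q2 ∈ Q2 →
        S.card = D ∧ (∀ q ∈ S, Nat.Prime q ∧ q ≠ q2 ∧ 7 * (q2 * K) ≤ 10 * (q * H) ∧
          10 * (q * H) ≤ 15 * (q2 * K)) := by
      intro q2
      by_cases hq2 : q2 ∈ Q2
      · have hr := hrange Z q2 hq2
        set w : ℕ := 7 * (q2 * K) / (10 * H) + 1 with hw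
        have hw1 : 7 * (q2 * K) < 10 * H * w := Nat.lt_mul_div_succ _ (by omega)
        have hw2 : 10 * H * w ≤ 7 * (q2 * K) + 10 * H := by
          rw [hw, Nat.mul_add, Nat.mul_one]
          have := Nat.mul_div_le (7 * (q2 * K)) (10 * H)
          omega
        have hZH : Z * H ≤ q2 * K := Nat.mul_le_mul hr.1.le hHK
        have hZw : Z ≤ 2 * w := by
          have e1 : H * (7 * Z) < H * (10 * w) := by nlinarith
          have e2 : 7 * Z < 10 * w := lt_of_mul_lt_mul_left e1 (Nat.zero_le _)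
          omega
        have e1 := hcard w hZw
        have e2 : D ≤ ((Pool.Agent.H442R2.KF.PL w).erase q2).card := by
          have := Finset.pred_card_le_card_erase (s := Pool.Agent.H442R2.KF.PL w) (a := q2)
          omega
        obtain ⟨S, hS, hScard⟩ := Finset.exists_subset_card_eq e2
        refine ⟨S, fun _ => ⟨hScard, ?_⟩⟩
        intro q hq
        have hq' := hS hq
        rw [mem_erase] at hq'
        have hr2 := hrange w q hq'.2
        refine ⟨hprime w q hq'.2, hq'.1, ?_, ?_⟩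
        · nlinarith
        · have e3 : 10 * (q * H) ≤ 20 * H * w := by nlinarith
          have e4 : 20 * H ≤ q2 * K := by
            calc 20 * H ≤ Z * H := Nat.mul_le_mul_right _ hZ20
              _ ≤ q2 * K := hZH
          nlinarith
      · exact ⟨∅, fun h => absurd h hq2⟩
    choose S1 hS1 using hexS
    have hex1 : ∀ q2 n : ℕ, ∃ q : ℕ, q2 ∈ Q2 → n ∈ SB K → q ∈ S1 q2 ∧ ¬ q ∣ n := by
      intro q2 n
      by_cases hq2 : q2 ∈ Q2
      · by_cases hn : n ∈ SB K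
        · have hn' := hn
          unfold SB at hn'
          rw [mem_filter, mem_Ioc] at hn'
          obtain ⟨q, hq, hqm⟩ := exists_not_dvd (S1 q2) (fun q hq => ((hS1 q2 hq2).2 q hq).1) (2 * K)
            (by rw [(hS1 q2 hq2).1]; exact hDpow) n (by omega) (by omega)
          exact ⟨q, fun _ _ => ⟨hq, hqm⟩⟩
        · exact ⟨0, fun _ h => absurd h hn⟩
      · exact ⟨0, fun h => absurd h hq2⟩
    choose c1 hc1 using hex1
    -- the decomposition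
    set X : ℕ → ℕ → ℂ := fun m n => ∑ j ∈ Icc 1 J, ψ j ((m : ℝ) * n) * kf (σ * j) m n with hX
    have hdec : ∑ m ∈ SB H, ∑ n ∈ (SB K).filter (fun n => Nat.Coprime m n), α m * β n * X m n =
        ∑ q2 ∈ Q2, ∑ q1 ∈ S1 q2, ∑ m ∈ SB H, ∑ n ∈ (SB K).filter (fun n => Nat.Coprime m n),
          (if c2 m = q2 then α m else 0) * (if c1 q2 n = q1 then β n else 0) * X m n := by
      have e1 : ∑ m ∈ SB H, ∑ n ∈ (SB K).filter (fun n => Nat.Coprime m n), α m * β n * X m n =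
          ∑ m ∈ SB H, α m * ∑ n ∈ (SB K).filter (fun n => Nat.Coprime m n), β n * X m n := by
        refine Finset.sum_congr rfl fun m _ => ?_
        rw [Finset.mul_sum]
        exact Finset.sum_congr rfl fun n _ => by ring
      rw [e1, split1 Q2 c2 (SB H) (fun m hm => (hc2 m hm).1)]
      refine Finset.sum_congr rfl fun q2 hq2 => ?_
      rw [Finset.sum_comm]
      refine Finset.sum_congr rfl fun m _ => ?_
      rw [split1 (S1 q2) (c1 q2) _ (fun n hn => (hc1 q2 n hq2 (mem_filter.1 hn).1).1),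
        Finset.mul_sum]
      refine Finset.sum_congr rfl fun q1 _ => ?_
      rw [Finset.mul_sum]
      exact Finset.sum_congr rfl fun n _ => by ring
    have hJHK : J ≤ H * K := by
      have : (J : ℝ) ≤ H * K := by nlinarith
      exact_mod_cast this
    have hbd : ∀ q2 ∈ Q2, ∀ q1 ∈ S1 q2,
        ‖∑ m ∈ SB H, ∑ n ∈ (SB K).filter (fun n => Nat.Coprime m n),
          (if c2 m = q2 then α m else 0) * (if c1 q2 n = q1 then β n else 0) * X m n‖ ≤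
        8 * C0 * V ^ 2 * ((H : ℝ) * K) * Z * (K : ℝ) ^ (-η0) := by
      intro q2 hq2 q1 hq1
      have hr := hrange Z q2 hq2
      obtain ⟨hp1, hne, hr1, hr2⟩ := (hS1 q2 hq2).2 q1 hq1
      refine cls_bd δ η0 C0 hC0 hη0 hT H K J q1 q2 Z hH hHK hJ hJHK hp1 (hprime Z q2 hq2) hne
        (by omega) hr.2 hr1 hr2 ?_ hδ14 V hV ψ hψ σ hσ (fun m => if c2 m = q2 then α m else 0)
        (fun n => if c1 q2 n = q1 then β n else 0) ?_ ?_ ?_ ?_
      · -- `J q₁ ≤ K ^ (1/14 - δ/2)`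
        have e1 : (10 : ℝ) * (q1 * H) ≤ 15 * (q2 * K) := by exact_mod_cast hr2
        have e2 : (q2 : ℝ) ≤ 2 * Z := by exact_mod_cast hr.2
        have e3 : (q1 : ℝ) ≤ 3 * Z * (K / H) := by
          have hH0 : (0 : ℝ) < H := by linarith
          rw [← mul_div_assoc, le_div_iff₀ hH0]
          nlinarith
        have e4 : (J : ℝ) * q1 ≤ 3 * Z * (K : ℝ) ^ (1 / 14 - δ) := by
          calc (J : ℝ) * q1 ≤ J * (3 * Z * (K / H)) := by gcongr
            _ = 3 * Z * (J * (K / H)) := by ring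
            _ ≤ 3 * Z * (K : ℝ) ^ (1 / 14 - δ) := by gcongr
        refine e4.trans ?_
        have e5 : (3 : ℝ) * Z ≤ (K : ℝ) ^ (2 * τ) := by
          have e6 : (K : ℝ) ^ (2 * τ) = (K : ℝ) ^ τ * (K : ℝ) ^ τ := by
            rw [← Real.rpow_add hKp]
            congr 1
            ring
          rw [e6]
          nlinarith
        calc 3 * Z * (K : ℝ) ^ (1 / 14 - δ) ≤ (K : ℝ) ^ (2 * τ) * (K : ℝ) ^ (1 / 14 - δ) := by
              gcongr
          _ = (K : ℝ) ^ (2 * τ + (1 / 14 - δ)) := by rw [← Real.rpow_add hKp]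
          _ ≤ (K : ℝ) ^ (1 / 14 - δ / 2) :=
              Real.rpow_le_rpow_of_exponent_le hKR (by linarith)
      · intro m
        split_ifs
        · exact hα m
        · simp
      · intro n
        split_ifs
        · exact hβ n
        · simp
      · intro m hm hne0
        by_cases hcm : c2 m = q2
        · rw [← hcm]
          exact (hc2 m hm).2
        · simp only [if_neg hcm] at hne0
          exact absurd rfl hne0
      · intro n hn hne0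
        by_cases hcn : c1 q2 n = q1
        · rw [← hcn]
          exact (hc1 q2 n hq2 hn).2
        · simp only [if_neg hcn] at hne0
          exact absurd rfl hne0
    rw [hdec]
    set B : ℝ := 8 * C0 * V ^ 2 * ((H : ℝ) * K) * Z * (K : ℝ) ^ (-η0) with hB
    have hB0 : 0 ≤ B := by positivity
    have htot : ‖∑ q2 ∈ Q2, ∑ q1 ∈ S1 q2, ∑ m ∈ SB H,
        ∑ n ∈ (SB K).filter (fun n => Nat.Coprime m n),
          (if c2 m = q2 then α m else 0) * (if c1 q2 n = q1 then β n else 0) * X m n‖ ≤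
        Z * (D * B) := by
      refine (norm_sum_le _ _).trans ?_
      have e1 : ∀ q2 ∈ Q2, ‖∑ q1 ∈ S1 q2, ∑ m ∈ SB H,
          ∑ n ∈ (SB K).filter (fun n => Nat.Coprime m n),
          (if c2 m = q2 then α m else 0) * (if c1 q2 n = q1 then β n else 0) * X m n‖ ≤ D * B := by
        intro q2 hq2
        refine (norm_sum_le _ _).trans ((Finset.sum_le_card_nsmul _ _ _ (hbd q2 hq2)).trans ?_)
        rw [nsmul_eq_mul, (hS1 q2 hq2).1]
      refine (Finset.sum_le_card_nsmul _ _ _ e1).trans ?_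
      rw [nsmul_eq_mul]
      gcongr
    refine htot.trans ?_
    have hfin : (Z : ℝ) * (D * B) ≤ 32 * C0 * V ^ 2 * ((H : ℝ) * K) * (K : ℝ) ^ (-(η0 / 2)) := by
      have e1 : (Z : ℝ) * (D * B) ≤ (2 * (K : ℝ) ^ τ) * ((K : ℝ) ^ τ *
          (8 * C0 * V ^ 2 * ((H : ℝ) * K) * (2 * (K : ℝ) ^ τ) * (K : ℝ) ^ (-η0))) := by
        rw [hB]
        gcongr
      refine e1.trans ?_
      have e2 : (K : ℝ) ^ τ * (K : ℝ) ^ τ * (K : ℝ) ^ τ * (K : ℝ) ^ (-η0) ≤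
          (K : ℝ) ^ (-(η0 / 2)) := by
        rw [← Real.rpow_add hKp, ← Real.rpow_add hKp, ← Real.rpow_add hKp]
        exact Real.rpow_le_rpow_of_exponent_le hKR (by linarith)
      calc (2 * (K : ℝ) ^ τ) * ((K : ℝ) ^ τ *
          (8 * C0 * V ^ 2 * ((H : ℝ) * K) * (2 * (K : ℝ) ^ τ) * (K : ℝ) ^ (-η0))) =
          32 * C0 * V ^ 2 * ((H : ℝ) * K) *
            ((K : ℝ) ^ τ * (K : ℝ) ^ τ * (K : ℝ) ^ τ * (K : ℝ) ^ (-η0)) := by ring
        _ ≤ _ := by gcongr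
    have e3 : 0 ≤ (K0 : ℝ) * (K0 : ℝ) ^ (η0 / 2) * (V ^ 2 * ((H : ℝ) * K) *
        (K : ℝ) ^ (-(η0 / 2))) := by positivity
    calc (Z : ℝ) * (D * B) ≤ 32 * C0 * V ^ 2 * ((H : ℝ) * K) * (K : ℝ) ^ (-(η0 / 2)) := hfin
      _ ≤ 32 * C0 * V ^ 2 * ((H : ℝ) * K) * (K : ℝ) ^ (-(η0 / 2)) +
          (K0 : ℝ) * (K0 : ℝ) ^ (η0 / 2) * (V ^ 2 * ((H : ℝ) * K) *
        (K : ℝ) ^ (-(η0 / 2))) := by linarith
      _ = _ := by ring

end BLKb

theorem t_BLK_b (h : P_TRI2) : P_BLK := blk_of_le (BLKb.main h)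

end

end Pool.Agent.H262R4.TM
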