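import Pool.Agent.H262R4.TM.Defs2
import Pool.Agent.H442R2.KF.Dg
import Pool.Agent.H442R2.KF.Kfb

/-! TM project (helper262), task DGQ: the sparse diagonal. -/

set_option autoImplicit false

namespace Pool.Agent.H262R4.TM

open Finset
open Pool.Agent.H442R2.KF (e kf tau Wei FF norm_e e_add conj_e e_zero e_int norm_kf kf_recip
  kf_of_inv norm_e_sub_le)

namespace TDGQ

/-- cancelling a common factor -/
lemma kf_cancel (q m n : ℕ) (hn : 0 < n) (b : ℤ) (h : Nat.Coprime (q * m) n) :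
    kf (b * q) ((q * m : ℕ) : ℤ) n = kf b (m : ℤ) n := by
  have hc : IsCoprime (((q * m : ℕ) : ℤ)) (n : ℤ) := Nat.isCoprime_iff_coprime.2 h
  obtain ⟨x, hx, -⟩ := Pool.Agent.H442R2.KF.TaskA.unit_inv n hn _ hc
  rw [kf_of_inv n hn (b * q) _ x hx, kf_of_inv n hn b m (q * x) (by
    rw [← hx]; push_cast; ring)]
  congr 1
  push_cast
  ring

/-- counting a residue class -/
lemma fib (M m : ℕ) (hm : 0 < m) (a : ℕ) :
    (m : ℝ) * (((Ioc M (2 * M + 1)).filter (fun x => x ≡ a [MOD m])).card : ℝ) ≤ M + 1 + m := by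
  have hcount := Nat.Ioc_filter_modEq_card M (2 * M + 1) hm a
  have hm0 : (0 : ℚ) < m := by exact_mod_cast hm
  have hle : (((Ioc M (2 * M + 1)).filter (fun x => x ≡ a [MOD m])).card : ℚ) ≤
      (M + 1) / m + 1 := by
    have h1 : (((Ioc M (2 * M + 1)).filter (fun x => x ≡ a [MOD m])).card : ℚ) =
        ((max (⌊(((2 * M + 1 : ℕ) : ℚ) - a) / (m : ℚ)⌋ - ⌊((M : ℚ) - a) / (m : ℚ)⌋) 0 : ℤ) : ℚ) := by
      exact_mod_cast hcount
    rw [h1]
    push_cast
    apply max_le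
    · have h2 := Int.floor_le (((2 * (M : ℚ) + 1) - a) / (m : ℚ))
      have h3 := Int.sub_one_lt_floor (((M : ℚ) - a) / (m : ℚ))
      have h4 : ((2 * (M : ℚ) + 1) - a) / m - ((M : ℚ) - a) / m = (M + 1) / m := by ring
      linarith
    · positivity
  have hle' : (((Ioc M (2 * M + 1)).filter (fun x => x ≡ a [MOD m])).card : ℝ) ≤
      (M + 1) / m + 1 := by
    have := (Rat.cast_le (K := ℝ)).2 hle
    push_cast at this
    exact this
  have hm1 : (0 : ℝ) < m := by exact_mod_cast hm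
  calc (m : ℝ) * _ ≤ m * ((M + 1) / m + 1) := mul_le_mul_of_nonneg_left hle' hm1.le
    _ = M + 1 + m := by field_simp

/-- large sieve type bound for one frequency vector; here `m` is the modulus -/
lemma one (M J m : ℕ) (hm : 0 < m) (T : ℝ) (hT : (M : ℝ) + 1 + m ≤ T * m)
    (k : ℤ) (c : ℕ → ℂ) (A : ℝ)
    (hA : 0 ≤ A) (hc : ∀ j ∈ Icc 1 J, ‖c j‖ ≤ A) :
    ∑ n ∈ (Ioc M (2 * M + 1)).filter (fun n => Nat.Coprime m n),
      ‖∑ j ∈ Icc 1 J, c j * kf ((j : ℤ) * k) n m‖ ^ 2 ≤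
      T * (A ^ 2 * ((m : ℝ) * J + (J : ℝ) ^ 2 * Int.gcd k m)) := by
  have : NeZero m := ⟨hm.ne'⟩
  have hm1 : (0 : ℝ) < m := by exact_mod_cast hm
  set Fu : ℕ → ℂ := fun u => ∑ j ∈ Icc 1 J, c j * e ((j : ℝ) * k * u / m) with hFu
  have h1 : ∀ n : ℕ, ∑ j ∈ Icc 1 J, c j * kf ((j : ℤ) * k) n m = Fu (((n : ZMod m)⁻¹).val) := by
    intro n
    rw [hFu]
    refine Finset.sum_congr rfl fun j _ => ?_
    unfold kf
    push_cast
    rfl
  have h2 : ∑ n ∈ (Ioc M (2 * M + 1)).filter (fun n => Nat.Coprime m n),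
      ‖∑ j ∈ Icc 1 J, c j * kf ((j : ℤ) * k) n m‖ ^ 2 ≤ T * ∑ u ∈ range m, ‖Fu u‖ ^ 2 := by
    simp only [h1]
    have hmap : ∀ n ∈ (Ioc M (2 * M + 1)).filter (fun n => Nat.Coprime m n),
        ((n : ZMod m)⁻¹).val ∈ range m := fun n _ => Finset.mem_range.2 (ZMod.val_lt _)
    rw [← Finset.sum_fiberwise_of_maps_to hmap, Finset.mul_sum]
    refine Finset.sum_le_sum fun u _ => ?_
    have h3 : ∑ n ∈ ((Ioc M (2 * M + 1)).filter (fun n => Nat.Coprime m n)).filter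
        (fun n : ℕ => ((n : ZMod m)⁻¹).val = u), ‖Fu (((n : ZMod m)⁻¹).val)‖ ^ 2 =
        ∑ n ∈ ((Ioc M (2 * M + 1)).filter (fun n => Nat.Coprime m n)).filter
        (fun n : ℕ => ((n : ZMod m)⁻¹).val = u), ‖Fu u‖ ^ 2 := by
      refine Finset.sum_congr rfl fun n hn => ?_
      rw [(Finset.mem_filter.1 hn).2]
    rw [h3, Finset.sum_const, nsmul_eq_mul]
    apply mul_le_mul_of_nonneg_right _ (by positivity)
    -- the fibre
    by_cases hne : (((Ioc M (2 * M + 1)).filter (fun n => Nat.Coprime m n)).filter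
        (fun n : ℕ => ((n : ZMod m)⁻¹).val = u)).Nonempty
    · obtain ⟨a, ha⟩ := hne
      have hsub : ((Ioc M (2 * M + 1)).filter (fun n => Nat.Coprime m n)).filter
          (fun n : ℕ => ((n : ZMod m)⁻¹).val = u) ⊆
          (Ioc M (2 * M + 1)).filter (fun x => x ≡ a [MOD m]) := by
        intro b hb
        rw [Finset.mem_filter, Finset.mem_filter] at ha hb
        rw [Finset.mem_filter]
        refine ⟨hb.1.1, ?_⟩
        have h3 : (a : ZMod m)⁻¹ = (b : ZMod m)⁻¹ := ZMod.val_injective m (by rw [ha.2, hb.2])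
        have ha1 : (a : ZMod m) * (a : ZMod m)⁻¹ = 1 := ZMod.coe_mul_inv_eq_one a ha.1.2.symm
        have hb1 : (b : ZMod m) * (b : ZMod m)⁻¹ = 1 := ZMod.coe_mul_inv_eq_one b hb.1.2.symm
        have h4 : (a : ZMod m) = b := by
          calc (a : ZMod m) = a * (b * (b : ZMod m)⁻¹) := by rw [hb1, mul_one]
            _ = b * (a * (b : ZMod m)⁻¹) := by ring
            _ = b * (a * (a : ZMod m)⁻¹) := by rw [h3]
            _ = b := by rw [ha1, mul_one]
        exact ((ZMod.natCast_eq_natCast_iff _ _ _).1 h4).symm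
      have h4 := fib M m hm a
      have h5 : ((((Ioc M (2 * M + 1)).filter (fun n => Nat.Coprime m n)).filter
          (fun n : ℕ => ((n : ZMod m)⁻¹).val = u)).card : ℝ) ≤
          (((Ioc M (2 * M + 1)).filter (fun x => x ≡ a [MOD m])).card : ℝ) := by
        exact_mod_cast Finset.card_le_card hsub
      refine h5.trans ?_
      have h6 : (m : ℝ) * (((Ioc M (2 * M + 1)).filter (fun x => x ≡ a [MOD m])).card : ℝ) ≤
          m * T := by linarith
      exact le_of_mul_le_mul_left h6 hm1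
    · rw [Finset.not_nonempty_iff_eq_empty] at hne
      rw [hne]
      simp only [Finset.card_empty, Nat.cast_zero]
      by_contra hT0
      push Not at hT0
      have : T * m < 0 := mul_neg_of_neg_of_pos hT0 hm1
      have hM0 : (0 : ℝ) ≤ M := Nat.cast_nonneg _
      linarith
  refine h2.trans ?_
  have hT0 : 0 ≤ T := by
    by_contra hT0
    push Not at hT0
    have : T * m < 0 := mul_neg_of_neg_of_pos hT0 hm1
    have hM0 : (0 : ℝ) ≤ M := Nat.cast_nonneg _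
    linarith
  apply mul_le_mul_of_nonneg_left _ hT0
  -- expand
  have h3 : ((∑ u ∈ range m, ‖Fu u‖ ^ 2 : ℝ) : ℂ) = ∑ j₁ ∈ Icc 1 J, ∑ j₂ ∈ Icc 1 J,
      c j₁ * (starRingEnd ℂ) (c j₂) *
        ∑ u ∈ range m, e (((((j₁ : ℤ) - j₂) * k : ℤ) : ℝ) * u / m) := by
    push_cast
    have h4 : ∀ u ∈ range m, ((‖Fu u‖ : ℂ)) ^ 2 = ∑ j₁ ∈ Icc 1 J, ∑ j₂ ∈ Icc 1 J,
        c j₁ * (starRingEnd ℂ) (c j₂) * e (((((j₁ : ℤ) - j₂) * k : ℤ) : ℝ) * u / m) := by
      intro u _
      rw [← Complex.mul_conj', hFu, map_sum, Finset.sum_mul_sum]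
      refine Finset.sum_congr rfl fun j₁ _ => Finset.sum_congr rfl fun j₂ _ => ?_
      rw [map_mul, conj_e]
      have h5 : e (((((j₁ : ℤ) - j₂) * k : ℤ) : ℝ) * u / m) =
          e ((j₁ : ℝ) * k * u / m) * e (-((j₂ : ℝ) * k * u / m)) := by
        rw [← e_add]
        congr 1
        push_cast
        ring
      rw [h5]
      ring
    rw [Finset.sum_congr rfl h4, Finset.sum_comm]
    refine Finset.sum_congr rfl fun j₁ _ => ?_
    rw [Finset.sum_comm]
    refine Finset.sum_congr rfl fun j₂ _ => ?_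
    rw [Finset.mul_sum]
    push_cast
    rfl
  have h5 : ∑ u ∈ range m, ‖Fu u‖ ^ 2 ≤ ∑ j₁ ∈ Icc 1 J, ∑ j₂ ∈ Icc 1 J,
      A * A * (if (m : ℤ) ∣ ((j₁ : ℤ) - j₂) * k then (m : ℝ) else 0) := by
    have h6 : ∑ u ∈ range m, ‖Fu u‖ ^ 2 = ‖((∑ u ∈ range m, ‖Fu u‖ ^ 2 : ℝ) : ℂ)‖ := by
      rw [Complex.norm_real, Real.norm_of_nonneg (by positivity)]
    rw [h6, h3]
    refine (norm_sum_le _ _).trans (Finset.sum_le_sum fun j₁ hj₁ => ?_)
    refine (norm_sum_le _ _).trans (Finset.sum_le_sum fun j₂ hj₂ => ?_)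
    rw [norm_mul, norm_mul, RCLike.norm_conj]
    exact mul_le_mul (mul_le_mul (hc _ hj₁) (hc _ hj₂) (norm_nonneg _) hA)
      (Pool.Agent.H442R2.KF.TaskTD.orth m hm _)
      (norm_nonneg _) (by positivity)
  refine h5.trans ?_
  have h7 : ∀ j₁ ∈ Icc 1 J, ∑ j₂ ∈ Icc 1 J,
      A * A * (if (m : ℤ) ∣ ((j₁ : ℤ) - j₂) * k then (m : ℝ) else 0) ≤
      A ^ 2 * (J * Int.gcd k m + m) := by
    intro j₁ _
    have h8 := Pool.Agent.H442R2.KF.TaskTD.count m hm k J j₁
    rw [← Finset.mul_sum, ← Finset.sum_filter, Finset.sum_const, nsmul_eq_mul, sq]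
    apply mul_le_mul_of_nonneg_left _ (by positivity)
    linarith
  refine (Finset.sum_le_sum h7).trans ?_
  rw [Finset.sum_const, Nat.card_Icc, Nat.add_sub_cancel, nsmul_eq_mul]
  apply le_of_eq
  ring

/-- the new weight -/
noncomputable def ww (ψ : ℕ → ℝ → ℂ) (k' : ℤ) (q m j n : ℕ) : ℂ :=
  ψ j (((q * m : ℕ) : ℝ) * n) * e (((j : ℝ) * k') / ((n : ℝ) * m))

/-- reciprocity for the inner sum -/
lemma FF_recip (ψ : ℕ → ℝ → ℂ) (k' : ℤ) (J q m n : ℕ) (hn : 0 < n) (hm : 0 < m)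
    (h : Nat.Coprime (q * m) n) :
    FF ψ (q * k') J n (q * m) = ∑ j ∈ Icc 1 J, ww ψ k' q m j n * kf ((j : ℤ) * (-k')) n m := by
  unfold FF ww
  refine Finset.sum_congr rfl fun j _ => ?_
  rw [mul_assoc]
  congr 1
  have h1 : ((j : ℤ) * (q * k')) = ((j : ℤ) * k') * q := by ring
  rw [h1, kf_cancel q m n hn _ h, kf_recip _ m n hm hn (Nat.Coprime.coprime_mul_left h)]
  push_cast
  congr 1
  unfold kf
  rw [conj_e]
  congr 1
  push_cast
  ring

/-- the bound for one modulus -/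
lemma DG_m (M J q m : ℕ) (hM : 1 ≤ M) (hq : 1 ≤ q) (hm : q * m ∈ Ioc M (2 * M + 1)) (V : ℝ)
    (hV : 1 ≤ V) (ψ : ℕ → ℝ → ℂ) (hψ : ∀ j, Wei M V (ψ j)) (k' : ℤ)
    (hk : |((q * k' : ℤ) : ℝ)| * J ≤ V * (M : ℝ) ^ 2) :
    ∑ n ∈ (Ioc M (2 * M + 1)).filter (fun n => Nat.Coprime (q * m) n),
      ‖FF ψ (q * k') J n (q * m)‖ ^ 2 ≤
      242 * V ^ 2 * q * ((m : ℝ) * J + (J : ℝ) ^ 2 * Int.gcd k' m) := by
  have hm' := Finset.mem_Ioc.1 hm
  have hm0 : 0 < m := by
    rcases Nat.eq_zero_or_pos m with h | h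
    · rw [h, mul_zero] at hm'; omega
    · exact h
  have hM1 : (1 : ℝ) ≤ M := by exact_mod_cast hM
  have hM0 : (0 : ℝ) < M := by linarith
  have hq1 : (1 : ℝ) ≤ q := by exact_mod_cast hq
  have hq0 : (0 : ℝ) < q := by linarith
  have hmr : (0 : ℝ) < m := by exact_mod_cast hm0
  have hqm : (M : ℝ) + 1 ≤ q * m := by exact_mod_cast hm'.1
  have hqm3 : (q : ℝ) * m ≤ 3 * M := by
    have : (q : ℝ) * m ≤ 2 * M + 1 := by exact_mod_cast hm'.2
    linarith
  have hpi : Real.pi ≤ 7 / 2 := by linarith [Real.pi_lt_d2]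
  -- coefficients
  set c : ℕ → ℕ → ℂ := fun i j => if i = M + 1 then ww ψ k' q m j (M + 1) else
    ww ψ k' q m j i - ww ψ k' q m j (i - 1) with hc
  set A : ℕ → ℝ := fun i => if i = M + 1 then 1 else 10 * V / M with hA
  have hApos : ∀ i, 0 < A i := by
    intro i
    simp only [hA]
    split_ifs
    · norm_num
    · positivity
  have hcA : ∀ i ∈ Ioc M (2 * M + 1), ∀ j ∈ Icc 1 J, ‖c i j‖ ≤ A i := by
    intro i hi j hj
    rw [Finset.mem_Ioc] at hi
    rw [Finset.mem_Icc] at hj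
    simp only [hc, hA]
    split_ifs with h
    · unfold ww
      rw [norm_mul, norm_e, mul_one]
      apply (hψ j).bd
      have : (M : ℝ) ≤ ((M + 1 : ℕ) : ℝ) := by push_cast; linarith
      push_cast
      nlinarith
    · have h1 : (M : ℝ) ≤ ((i - 1 : ℕ) : ℝ) := by
        have : M ≤ i - 1 := by omega
        exact_mod_cast this
      have h2 : ((i - 1 : ℕ) : ℝ) = (i : ℝ) - 1 := by
        rw [Nat.cast_sub (by omega)]; simp
      have hi0 : (0 : ℝ) < (i : ℝ) - 1 := by rw [h2] at h1; linarith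
      have h3 : (M : ℝ) ^ 2 ≤ ((q * m : ℕ) : ℝ) * ((i - 1 : ℕ) : ℝ) := by
        push_cast
        nlinarith
      have h4 : (M : ℝ) ^ 2 ≤ ((q * m : ℕ) : ℝ) * (i : ℝ) := by
        rw [h2] at h1 h3
        push_cast at h3 ⊢
        nlinarith
      have h5 := (hψ j).lip _ _ h4 h3
      have h6 : ‖ψ j (((q * m : ℕ) : ℝ) * (i : ℝ)) - ψ j (((q * m : ℕ) : ℝ) * ((i - 1 : ℕ) : ℝ))‖ ≤
          3 * V / M := by
        refine h5.trans ?_
        have h7 : |((q * m : ℕ) : ℝ) * (i : ℝ) - ((q * m : ℕ) : ℝ) * ((i - 1 : ℕ) : ℝ)| =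
            q * m := by
          rw [h2]
          have : ((q * m : ℕ) : ℝ) * (i : ℝ) - ((q * m : ℕ) : ℝ) * ((i : ℝ) - 1) = q * m := by
            push_cast; ring
          rw [this, abs_of_nonneg (by positivity)]
        rw [h7, div_le_div_iff₀ (by positivity) hM0]
        nlinarith [mul_le_mul_of_nonneg_left hqm3 (by positivity : 0 ≤ V * (M : ℝ))]
      have h8 : ‖e (((j : ℝ) * k') / ((i : ℝ) * m)) - e (((j : ℝ) * k') / (((i - 1 : ℕ) : ℝ) * m))‖ ≤
          7 * V / M := by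
        refine (norm_e_sub_le _ _).trans ?_
        have h9 : |((j : ℝ) * k') / ((i : ℝ) * m) - ((j : ℝ) * k') / (((i - 1 : ℕ) : ℝ) * m)| ≤
            V / M := by
          have h10 : ((j : ℝ) * k') / ((i : ℝ) * m) - ((j : ℝ) * k') / (((i - 1 : ℕ) : ℝ) * m) =
              -((j : ℝ) * (q * k')) / ((q * m) * i * (i - 1)) := by
            rw [h2]
            have hi1 : (i : ℝ) ≠ 0 := by linarith
            have hi2 : (i : ℝ) - 1 ≠ 0 := hi0.ne'
            field_simp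
            ring
          rw [h10, abs_div, abs_neg, abs_mul, div_le_div_iff₀ (by
            apply abs_pos.2
            have : (0 : ℝ) < i := by linarith
            positivity) hM0]
          have h11 : |(j : ℝ)| * |(q : ℝ) * k'| ≤ V * (M : ℝ) ^ 2 := by
            rw [abs_of_nonneg (by positivity : (0 : ℝ) ≤ j)]
            have h12 : (j : ℝ) ≤ J := by exact_mod_cast hj.2
            have h13 : |(q : ℝ) * k'| = |((q * k' : ℤ) : ℝ)| := by push_cast; rfl
            rw [h13]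
            calc (j : ℝ) * |((q * k' : ℤ) : ℝ)| ≤ J * |((q * k' : ℤ) : ℝ)| :=
                  mul_le_mul_of_nonneg_right h12 (abs_nonneg _)
              _ = |((q * k' : ℤ) : ℝ)| * J := by ring
              _ ≤ _ := hk
          have h14 : (M : ℝ) ^ 3 ≤ |(q : ℝ) * m * i * (i - 1)| := by
            rw [abs_of_nonneg (by
              have : (0 : ℝ) < i := by linarith
              positivity)]
            rw [h2] at h1
            have h15 : (M : ℝ) ≤ q * m := by linarith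
            have h16 : (M : ℝ) ≤ i := by linarith
            calc (M : ℝ) ^ 3 = M * M * M := by ring
              _ ≤ (q * m) * i * (i - 1) := by gcongr
          calc |(j : ℝ)| * |(q : ℝ) * k'| * M ≤ V * (M : ℝ) ^ 2 * M :=
                mul_le_mul_of_nonneg_right h11 hM0.le
            _ = V * (M : ℝ) ^ 3 := by ring
            _ ≤ _ := mul_le_mul_of_nonneg_left h14 (by positivity)
        calc 2 * Real.pi * _ ≤ 2 * Real.pi * (V / M) :=
              mul_le_mul_of_nonneg_left h9 (by positivity)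
          _ ≤ 7 * (V / M) := mul_le_mul_of_nonneg_right (by linarith) (by positivity)
          _ = 7 * V / M := by ring
      have h17 : ww ψ k' q m j i - ww ψ k' q m j (i - 1) =
          (ψ j (((q * m : ℕ) : ℝ) * (i : ℝ)) - ψ j (((q * m : ℕ) : ℝ) * ((i - 1 : ℕ) : ℝ))) *
            e (((j : ℝ) * k') / ((i : ℝ) * m)) +
          ψ j (((q * m : ℕ) : ℝ) * ((i - 1 : ℕ) : ℝ)) *
            (e (((j : ℝ) * k') / ((i : ℝ) * m)) - e (((j : ℝ) * k') / (((i - 1 : ℕ) : ℝ) * m))) := by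
        unfold ww
        ring
      rw [h17]
      refine (norm_add_le _ _).trans ?_
      rw [norm_mul, norm_mul, norm_e, mul_one]
      have h18 : ‖ψ j (((q * m : ℕ) : ℝ) * ((i - 1 : ℕ) : ℝ))‖ *
          ‖e (((j : ℝ) * k') / ((i : ℝ) * m)) - e (((j : ℝ) * k') / (((i - 1 : ℕ) : ℝ) * m))‖ ≤
          1 * (7 * V / M) :=
        mul_le_mul ((hψ j).bd _ h3) h8 (norm_nonneg _) zero_le_one
      calc _ ≤ 3 * V / M + 1 * (7 * V / M) := add_le_add h6 h18
        _ = 10 * V / M := by ring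
  set Y : ℕ → ℕ → ℂ := fun i n => ∑ j ∈ Icc 1 J, c i j * kf ((j : ℤ) * (-k')) n m with hY
  have hFF : ∀ n ∈ (Ioc M (2 * M + 1)).filter (fun n => Nat.Coprime (q * m) n),
      FF ψ (q * k') J n (q * m) = ∑ i ∈ Ioc M n, Y i n := by
    intro n hn
    rw [Finset.mem_filter, Finset.mem_Ioc] at hn
    rw [FF_recip ψ k' J q m n (by omega) hm0 hn.2]
    rw [hY, Finset.sum_comm]
    refine Finset.sum_congr rfl fun j _ => ?_
    rw [← Finset.sum_mul]
    congr 1
    obtain ⟨t, rfl⟩ : ∃ t, n = M + 1 + t := ⟨n - (M + 1), by omega⟩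
    exact Pool.Agent.H442R2.KF.TaskTD.tele (fun i => ww ψ k' q m j i) M t
  have hFF2 : ∀ n ∈ (Ioc M (2 * M + 1)).filter (fun n => Nat.Coprime (q * m) n),
      ‖FF ψ (q * k') J n (q * m)‖ ≤ ∑ i ∈ Ioc M (2 * M + 1), ‖Y i n‖ := by
    intro n hn
    rw [hFF n hn]
    refine (norm_sum_le _ _).trans ?_
    apply Finset.sum_le_sum_of_subset_of_nonneg
    · exact Finset.Ioc_subset_Ioc_right (Finset.mem_Ioc.1 (Finset.mem_filter.1 hn).1).2
    · intro _ _ _
      exact norm_nonneg _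
  have hsumA : ∑ i ∈ Ioc M (2 * M + 1), A i ≤ 11 * V := by
    have h1 : ∑ i ∈ Ioc M (2 * M + 1), A i ≤ ∑ i ∈ Ioc M (2 * M + 1),
        ((if i = M + 1 then (1 : ℝ) - 10 * V / M else 0) + 10 * V / M) := by
      refine Finset.sum_le_sum fun i _ => ?_
      simp only [hA]
      split_ifs <;> linarith
    refine h1.trans ?_
    rw [Finset.sum_add_distrib, Finset.sum_ite_eq', if_pos (by rw [Finset.mem_Ioc]; omega),
      Finset.sum_const, Pool.Agent.H442R2.KF.TaskTD.card_I, nsmul_eq_mul]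
    push_cast
    have : (M + 1 : ℝ) * (10 * V / M) = 10 * V + 10 * V / M := by field_simp
    rw [this]
    linarith
  have hsumA0 : 0 < ∑ i ∈ Ioc M (2 * M + 1), A i := by
    apply Finset.sum_pos (fun i _ => hApos i)
    exact ⟨M + 1, by rw [Finset.mem_Ioc]; omega⟩
  set SA := ∑ i ∈ Ioc M (2 * M + 1), A i with hSA
  have hgcd : Int.gcd (-k') m = Int.gcd k' m := Int.neg_gcd
  set Bd := (m : ℝ) * J + (J : ℝ) ^ 2 * Int.gcd k' m with hBd
  have hBd0 : 0 ≤ Bd := by positivity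
  have hstep : ∀ n ∈ (Ioc M (2 * M + 1)).filter (fun n => Nat.Coprime (q * m) n),
      ‖FF ψ (q * k') J n (q * m)‖ ^ 2 ≤ SA * ∑ i ∈ Ioc M (2 * M + 1), ‖Y i n‖ ^ 2 / A i := by
    intro n hn
    have h1 := hFF2 n hn
    have h2 := Finset.sq_sum_div_le_sum_sq_div (Ioc M (2 * M + 1)) (fun i => ‖Y i n‖)
      (fun i _ => hApos i)
    rw [div_le_iff₀ hsumA0] at h2
    calc ‖FF ψ (q * k') J n (q * m)‖ ^ 2 ≤ (∑ i ∈ Ioc M (2 * M + 1), ‖Y i n‖) ^ 2 :=
          pow_le_pow_left₀ (norm_nonneg _) h1 2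
      _ ≤ _ := h2
      _ = _ := mul_comm _ _
  refine (Finset.sum_le_sum hstep).trans ?_
  rw [← Finset.mul_sum, Finset.sum_comm]
  have hin : ∀ i ∈ Ioc M (2 * M + 1),
      ∑ n ∈ (Ioc M (2 * M + 1)).filter (fun n => Nat.Coprime (q * m) n),
      ‖Y i n‖ ^ 2 / A i ≤ A i * (2 * q * Bd) := by
    intro i hi
    rw [← Finset.sum_div, div_le_iff₀ (hApos i)]
    have h1 := one M J m hm0 (2 * q) (by
      have : (m : ℝ) ≤ q * m := by nlinarith
      linarith) (-k') (c i) (A i) (hApos i).le (hcA i hi)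
    have h2 : ∑ n ∈ (Ioc M (2 * M + 1)).filter (fun n => Nat.Coprime (q * m) n), ‖Y i n‖ ^ 2 ≤
        ∑ n ∈ (Ioc M (2 * M + 1)).filter (fun n => Nat.Coprime m n), ‖Y i n‖ ^ 2 := by
      apply Finset.sum_le_sum_of_subset_of_nonneg
      · intro n hn
        rw [Finset.mem_filter] at hn ⊢
        exact ⟨hn.1, Nat.Coprime.coprime_mul_left hn.2⟩
      · intro _ _ _
        positivity
    rw [hgcd] at h1
    calc _ ≤ _ := h2
      _ ≤ 2 * q * (A i ^ 2 * Bd) := h1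
      _ = _ := by ring
  have h1 := Finset.sum_le_sum hin
  rw [← Finset.sum_mul] at h1
  have hB2 : 0 ≤ 2 * q * Bd := by positivity
  calc SA * _ ≤ SA * (SA * (2 * q * Bd)) := mul_le_mul_of_nonneg_left h1 hsumA0.le
    _ = SA ^ 2 * (2 * q * Bd) := by ring
    _ ≤ (11 * V) ^ 2 * (2 * q * Bd) := by
      apply mul_le_mul_of_nonneg_right _ hB2
      exact pow_le_pow_left₀ hsumA0.le hsumA 2
    _ = 242 * V ^ 2 * q * Bd := by ring

/-- the sum of the gcd's -/
lemma gcd_sum (X : ℕ) (k : ℤ) (hk : k ≠ 0) :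
    ∑ n ∈ Ioc 0 X, (Int.gcd k n : ℝ) ≤ X * tau k.natAbs := by
  have hk0 : k.natAbs ≠ 0 := Int.natAbs_ne_zero.2 hk
  have h1 : ∀ n ∈ Ioc 0 X, (Int.gcd k n : ℝ) ≤
      ∑ f ∈ k.natAbs.divisors, if f ∣ n then (f : ℝ) else 0 := by
    intro n _
    have hmem : Int.gcd k n ∈ k.natAbs.divisors := by
      rw [Nat.mem_divisors]
      exact ⟨by
        have := Int.gcd_dvd_left k n
        exact Int.natCast_dvd.1 this, hk0⟩
    have h2 := Finset.single_le_sum (f := fun f : ℕ => if f ∣ n then (f : ℝ) else 0)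
      (fun f _ => by split_ifs <;> positivity) hmem
    rw [if_pos (by exact_mod_cast Int.gcd_dvd_right k n)] at h2
    exact h2
  refine (Finset.sum_le_sum h1).trans ?_
  rw [Finset.sum_comm]
  have h2 : ∀ f ∈ k.natAbs.divisors, ∑ n ∈ Ioc 0 X, (if f ∣ n then (f : ℝ) else 0) ≤ X := by
    intro f hf
    rw [← Finset.sum_filter, Finset.sum_const, nsmul_eq_mul]
    rw [Nat.Ioc_filter_dvd_card_eq_div]
    have : X / f * f ≤ X := Nat.div_mul_le_self _ _
    exact_mod_cast this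
  refine (Finset.sum_le_sum h2).trans ?_
  rw [Finset.sum_const, nsmul_eq_mul]
  unfold tau
  apply le_of_eq
  ring

end TDGQ

open TDGQ

theorem t_DGQ : P_DGQ := by
  intro ε hε
  set s : ℝ := min ε 1 / 2 with hs
  have hs0 : 0 < s := by rw [hs]; positivity
  have hs1 : s ≤ 1 / 2 := by rw [hs]; linarith [min_le_right ε 1]
  have hs2 : 2 * s ≤ ε := by rw [hs]; linarith [min_le_left ε 1]
  obtain ⟨C, hC, hdiv⟩ := Pool.Agent.H510R2.divisor_bound s hs0
  refine ⟨242 * (9 + 3 * C), by positivity, ?_⟩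
  intro M J q hM hJ hq hJq V hV ψ hψ k hk hqk hkJ
  obtain ⟨k', rfl⟩ := hqk
  have hk'0 : k' ≠ 0 := by
    rintro rfl
    exact hk (mul_zero _)
  have hM1 : (1 : ℝ) ≤ M := by exact_mod_cast hM
  have hM0 : (0 : ℝ) < M := by linarith
  have hJ1 : (1 : ℝ) ≤ J := by exact_mod_cast hJ
  have hq1 : (1 : ℝ) ≤ q := by exact_mod_cast hq
  have hq0 : (0 : ℝ) < q := by linarith
  have hV0 : 0 < V := by linarith
  have hJqM : (J : ℝ) * q ≤ M := by
    have h1 : J * q ≤ (J * q) ^ 4 := Nat.le_self_pow (by norm_num) _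
    exact_mod_cast h1.trans hJq
  -- the divisor function
  have htau : tau k'.natAbs ≤ C * (V * (M : ℝ) ^ ε) := by
    have h1 : 1 ≤ k'.natAbs := Nat.one_le_iff_ne_zero.2 (Int.natAbs_ne_zero.2 hk'0)
    refine (hdiv _ h1).trans ?_
    apply mul_le_mul_of_nonneg_left _ hC.le
    have h2 : (k'.natAbs : ℝ) ≤ V * (M : ℝ) ^ 2 := by
      have : (k'.natAbs : ℝ) = |(k' : ℝ)| := by
        rw [Nat.cast_natAbs]; push_cast; rfl
      rw [this]
      have h3 : |(k' : ℝ)| ≤ |((q * k' : ℤ) : ℝ)| := by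
        push_cast
        rw [abs_mul, abs_of_pos hq0]
        nlinarith [abs_nonneg (k' : ℝ)]
      have h4 : |((q * k' : ℤ) : ℝ)| * 1 ≤ |((q * k' : ℤ) : ℝ)| * J :=
        mul_le_mul_of_nonneg_left hJ1 (abs_nonneg _)
      linarith
    calc (k'.natAbs : ℝ) ^ s ≤ (V * (M : ℝ) ^ 2) ^ s := Real.rpow_le_rpow (by positivity) h2 hs0.le
      _ = V ^ s * (M : ℝ) ^ (2 * s) := by
          rw [Real.mul_rpow hV0.le (by positivity), ← Real.rpow_natCast (M : ℝ) 2,
            ← Real.rpow_mul hM0.le]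
          norm_num
      _ ≤ V ^ (1 : ℝ) * (M : ℝ) ^ ε :=
          mul_le_mul (Real.rpow_le_rpow_of_exponent_le hV (by linarith))
            (Real.rpow_le_rpow_of_exponent_le hM1 (by linarith)) (by positivity) (by positivity)
      _ = V * (M : ℝ) ^ ε := by rw [Real.rpow_one]
  -- change of the order of summation
  set X : ℕ := (2 * M + 1) / q with hX
  have hXM : (X : ℝ) * q ≤ 3 * M := by
    have h1 : X * q ≤ 2 * M + 1 := Nat.div_mul_le_self _ _
    have h2 : (X : ℝ) * q ≤ 2 * M + 1 := by exact_mod_cast h1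
    linarith
  have h1 : DGq ψ (q * k') M J q ≤ ∑ m ∈ Ioc 0 X,
      242 * V ^ 2 * q * ((m : ℝ) * J + (J : ℝ) ^ 2 * Int.gcd k' m) := by
    have h2 : DGq ψ (q * k') M J q = ∑ m ∈ (Ioc M (2 * M + 1)).filter (fun m => q ∣ m),
        ∑ n ∈ (Ioc M (2 * M + 1)).filter (fun n => Nat.Coprime m n),
          ‖FF ψ (q * k') J n m‖ ^ 2 := by
      unfold DGq
      rw [Finset.sum_comm' (t' := (Ioc M (2 * M + 1)).filter (fun m => q ∣ m))
        (s' := fun m => (Ioc M (2 * M + 1)).filter (fun n => Nat.Coprime m n))]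
      intro n m
      simp only [Finset.mem_filter]
      tauto
    rw [h2]
    have h3 : (Ioc M (2 * M + 1)).filter (fun m => q ∣ m) ⊆ (Ioc 0 X).image (fun m => q * m) := by
      intro m hm
      rw [Finset.mem_filter, Finset.mem_Ioc] at hm
      obtain ⟨⟨ha, hb⟩, m', rfl⟩ := hm
      rw [Finset.mem_image]
      refine ⟨m', ?_, rfl⟩
      rw [Finset.mem_Ioc]
      constructor
      · rcases Nat.eq_zero_or_pos m' with h | h
        · rw [h, mul_zero] at ha; omega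
        · exact h
      · rw [hX, Nat.le_div_iff_mul_le (by omega), mul_comm]
        exact hb
    -- extend by zero
    have h4 : ∀ m ∈ (Ioc M (2 * M + 1)).filter (fun m => q ∣ m),
        ∑ n ∈ (Ioc M (2 * M + 1)).filter (fun n => Nat.Coprime m n),
          ‖FF ψ (q * k') J n m‖ ^ 2 ≤
        242 * V ^ 2 * q * (((m / q : ℕ) : ℝ) * J + (J : ℝ) ^ 2 * Int.gcd k' ((m / q : ℕ) : ℤ)) := by
      intro m hm
      rw [Finset.mem_filter] at hm
      obtain ⟨ha, m', rfl⟩ := hm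
      rw [Nat.mul_div_cancel_left _ (by omega)]
      exact DG_m M J q m' hM hq ha V hV ψ hψ k' hkJ
    refine (Finset.sum_le_sum h4).trans ?_
    refine (Finset.sum_le_sum_of_subset_of_nonneg h3 (fun _ _ _ => by positivity)).trans ?_
    rw [Finset.sum_image (fun a _ b _ h => Nat.eq_of_mul_eq_mul_left (by omega) h)]
    apply le_of_eq
    refine Finset.sum_congr rfl fun m _ => ?_
    rw [Nat.mul_div_cancel_left _ (by omega)]
  refine h1.trans ?_
  rw [← Finset.mul_sum, Finset.sum_add_distrib, ← Finset.sum_mul, ← Finset.mul_sum]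
  have h2 : ∑ m ∈ Ioc 0 X, (m : ℝ) ≤ X * X := by
    calc ∑ m ∈ Ioc 0 X, (m : ℝ) ≤ ∑ m ∈ Ioc 0 X, (X : ℝ) := by
          refine Finset.sum_le_sum fun m hm => ?_
          exact_mod_cast (Finset.mem_Ioc.1 hm).2
      _ = X * X := by
          rw [Finset.sum_const, Nat.card_Ioc, nsmul_eq_mul, Nat.sub_zero]
  have h3 := gcd_sum X k' hk'0
  have hMe : (1 : ℝ) ≤ (M : ℝ) ^ ε := Real.one_le_rpow hM1 hε.le
  have hpow : (M : ℝ) ^ (2 + ε) = (M : ℝ) ^ 2 * (M : ℝ) ^ ε := by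
    rw [Real.rpow_add hM0]; norm_num
  have h4 : (∑ m ∈ Ioc 0 X, (m : ℝ)) * J * q * q ≤ 9 * V * ((M : ℝ) ^ 2 * (M : ℝ) ^ ε) * J := by
    calc (∑ m ∈ Ioc 0 X, (m : ℝ)) * J * q * q ≤ (X * X) * J * q * q := by gcongr
      _ = (X * q) * (X * q) * J := by ring
      _ ≤ (3 * M) * (3 * M) * J := by gcongr
      _ = 9 * 1 * ((M : ℝ) ^ 2 * 1) * J := by ring
      _ ≤ 9 * V * ((M : ℝ) ^ 2 * (M : ℝ) ^ ε) * J := by gcongr
  have h5 : ((J : ℝ) ^ 2 * ∑ m ∈ Ioc 0 X, (Int.gcd k' m : ℝ)) * q * q ≤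
      3 * C * V * ((M : ℝ) ^ 2 * (M : ℝ) ^ ε) * J := by
    calc ((J : ℝ) ^ 2 * ∑ m ∈ Ioc 0 X, (Int.gcd k' m : ℝ)) * q * q
        ≤ ((J : ℝ) ^ 2 * (X * (C * (V * (M : ℝ) ^ ε)))) * q * q := by
          apply mul_le_mul_of_nonneg_right _ hq0.le
          apply mul_le_mul_of_nonneg_right _ hq0.le
          apply mul_le_mul_of_nonneg_left _ (by positivity)
          exact h3.trans (mul_le_mul_of_nonneg_left htau (by positivity))
      _ = C * V * ((X * q) * (J * q) * (M : ℝ) ^ ε) * J := by ring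
      _ ≤ C * V * ((3 * M) * M * (M : ℝ) ^ ε) * J := by gcongr
      _ = _ := by ring
  rw [hpow, le_div_iff₀ hq0]
  calc 242 * V ^ 2 * q * ((∑ m ∈ Ioc 0 X, (m : ℝ)) * J +
        (J : ℝ) ^ 2 * ∑ m ∈ Ioc 0 X, (Int.gcd k' m : ℝ)) * q
      = 242 * V ^ 2 * ((∑ m ∈ Ioc 0 X, (m : ℝ)) * J * q * q +
        ((J : ℝ) ^ 2 * ∑ m ∈ Ioc 0 X, (Int.gcd k' m : ℝ)) * q * q) := by ring
    _ ≤ 242 * V ^ 2 * (9 * V * ((M : ℝ) ^ 2 * (M : ℝ) ^ ε) * J +
        3 * C * V * ((M : ℝ) ^ 2 * (M : ℝ) ^ ε) * J) := by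
        apply mul_le_mul_of_nonneg_left (add_le_add h4 h5) (by positivity)
    _ = _ := by ring

end Pool.Agent.H262R4.TM
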