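import Pool.Agent.H262R4.TM.Defs2
import Pool.Agent.H442R2.KF.Tri

/-! TM project, task TRI2: sparse version of the trilinear bound (after `KF.tri`). -/

namespace Pool.Agent.H262R4.TM

open Finset Filter Topology MeasureTheory Complex
open Pool.Agent.H306R2.SM (om cl ef Xf Gf Yf ee)
open Pool.Agent.H442R2.KF (e kf tau Wei FF Ker2 PL)

namespace TTRI2

open Pool.Agent.H442R2.KF (TaskTK.core TaskTK.cauchy HS2 primes_dyadic)

/-- the numerical part, from `KF.TaskTK.core` applied to `J q`, `q^2 G`, `q^2 H`, `q^2 T / 3` -/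
theorem core2 (M L J q : ℕ) (hM : 1 ≤ M) (hq : 1 ≤ q) (hL : 1 ≤ L) (hLM : (L : ℝ) ≤ M)
    (hL2 : (L : ℝ) ≤ 2 * (M : ℝ) ^ (1 / 14 : ℝ)) (hL1 : (M : ℝ) ^ (1 / 14 : ℝ) ≤ L)
    (d e c C1 C2 V p G H T : ℝ) (hd : 0 < d) (he : e = d / 6) (hc : 0 < c) (hC1 : 0 < C1)
    (hC2 : 0 < C2) (hV : 1 ≤ V) (hp1 : 1 ≤ p) (hJ : (J : ℝ) * q ≤ (M : ℝ) ^ (1 / 14 - d))
    (hpc : c * (L : ℝ) ^ (1 - e) ≤ p) (hG0 : 0 ≤ G)
    (hG : G ≤ C1 * V ^ 3 * (M : ℝ) ^ (2 + e) * J / q)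
    (hH : H ≤ C2 * (M : ℝ) ^ e * (p ^ 2 * (J : ℝ) ^ 2 * (M : ℝ) ^ 2 +
        V ^ 2 * (L : ℝ) ^ 7 * (J : ℝ) ^ 4 * (M : ℝ) ^ (3 / 2 : ℝ)))
    (hT : p ^ 2 * T ≤ 2 * (2 * M + 1) * (p * G + (3 * M / q) * Real.sqrt H) +
      8 * (16 : ℝ) ^ 2 * (3 * M / q) * G) :
    T ≤ 3 * (4102 * C1 / c + 12 * Real.sqrt C2 * (1 / c + 3 / c ^ 2)) * V ^ 3 *
      (M : ℝ) ^ (3 - d / 2) / (q : ℝ) ^ 2 := by
  have hM1 : (1 : ℝ) ≤ M := by exact_mod_cast hM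
  have hq1 : (1 : ℝ) ≤ q := by exact_mod_cast hq
  have hq0 : (0 : ℝ) < q := by linarith
  have hJ0 : (0 : ℝ) ≤ J := Nat.cast_nonneg _
  have hsH := Real.sqrt_nonneg H
  have hq2 : (q : ℝ) ^ 2 ≤ (q : ℝ) ^ 4 := pow_le_pow_right₀ hq1 (by norm_num)
  have key := TaskTK.core M L (J * q) hM hL hLM hL2 hL1 d e c C1 C2 V p ((q : ℝ) ^ 2 * G)
    ((q : ℝ) ^ 2 * H) ((q : ℝ) ^ 2 * T / 3) hd he hc hC1 hC2 hV hp1
    (by push_cast; exact hJ) hpc (by positivity) ?_ ?_ ?_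
  · rw [le_div_iff₀ (by positivity)]
    linarith
  · calc (q : ℝ) ^ 2 * G ≤ (q : ℝ) ^ 2 * (C1 * V ^ 3 * (M : ℝ) ^ (2 + e) * J / q) :=
          mul_le_mul_of_nonneg_left hG (by positivity)
      _ = C1 * V ^ 3 * (M : ℝ) ^ (2 + e) * ((J * q : ℕ) : ℝ) := by
          push_cast
          field_simp
  · have h1 : (q : ℝ) ^ 2 * (V ^ 2 * (L : ℝ) ^ 7 * (J : ℝ) ^ 4 * (M : ℝ) ^ (3 / 2 : ℝ)) ≤
        (q : ℝ) ^ 4 * (V ^ 2 * (L : ℝ) ^ 7 * (J : ℝ) ^ 4 * (M : ℝ) ^ (3 / 2 : ℝ)) :=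
      mul_le_mul_of_nonneg_right hq2 (by positivity)
    calc (q : ℝ) ^ 2 * H ≤ (q : ℝ) ^ 2 * (C2 * (M : ℝ) ^ e * (p ^ 2 * (J : ℝ) ^ 2 * (M : ℝ) ^ 2 +
          V ^ 2 * (L : ℝ) ^ 7 * (J : ℝ) ^ 4 * (M : ℝ) ^ (3 / 2 : ℝ))) :=
          mul_le_mul_of_nonneg_left hH (by positivity)
      _ = C2 * (M : ℝ) ^ e * (p ^ 2 * (J * q : ℝ) ^ 2 * (M : ℝ) ^ 2 +
          (q : ℝ) ^ 2 * (V ^ 2 * (L : ℝ) ^ 7 * (J : ℝ) ^ 4 * (M : ℝ) ^ (3 / 2 : ℝ))) := by ring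
      _ ≤ C2 * (M : ℝ) ^ e * (p ^ 2 * (J * q : ℝ) ^ 2 * (M : ℝ) ^ 2 +
          (q : ℝ) ^ 4 * (V ^ 2 * (L : ℝ) ^ 7 * (J : ℝ) ^ 4 * (M : ℝ) ^ (3 / 2 : ℝ))) := by
          apply mul_le_mul_of_nonneg_left _ (by positivity)
          linarith
      _ = _ := by
          push_cast
          ring
  · have h2 : Real.sqrt ((q : ℝ) ^ 2 * H) = q * Real.sqrt H := by
      rw [Real.sqrt_mul (by positivity), Real.sqrt_sq hq0.le]
    rw [h2]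
    have h3 : (q : ℝ) ^ 2 * (p ^ 2 * T) ≤ (q : ℝ) ^ 2 *
        (2 * (2 * M + 1) * (p * G + (3 * M / q) * Real.sqrt H) +
          8 * (16 : ℝ) ^ 2 * (3 * M / q) * G) := mul_le_mul_of_nonneg_left hT (by positivity)
    have h4 : (q : ℝ) ^ 2 * (2 * (2 * M + 1) * (p * G + (3 * M / q) * Real.sqrt H) +
          8 * (16 : ℝ) ^ 2 * (3 * M / q) * G) =
        2 * (2 * M + 1) * (p * ((q : ℝ) ^ 2 * G) + 3 * M * (q * Real.sqrt H)) +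
          8 * (16 : ℝ) ^ 2 * (3 * M) * (q * G) := by
      field_simp
    rw [h4] at h3
    have h5 : q * G ≤ (q : ℝ) ^ 2 * G := by
      have : (q : ℝ) ≤ (q : ℝ) ^ 2 := by nlinarith
      exact mul_le_mul_of_nonneg_right this hG0
    have h6 : 0 ≤ (q : ℝ) ^ 2 * G := by positivity
    have h7 : 0 ≤ q * Real.sqrt H := by positivity
    have hp0 : 0 ≤ p := by linarith
    have h8 : 0 ≤ p * ((q : ℝ) ^ 2 * G) := by positivity
    have h9 : 2 * (2 * (M : ℝ) + 1) * (p * ((q : ℝ) ^ 2 * G) + 3 * M * (q * Real.sqrt H)) ≤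
        2 * (2 * (M : ℝ) + 1) * (3 * (p * ((q : ℝ) ^ 2 * G) + (M + 1) * (q * Real.sqrt H))) := by
      apply mul_le_mul_of_nonneg_left _ (by positivity)
      nlinarith
    have h10 : 8 * (16 : ℝ) ^ 2 * (3 * M) * (q * G) ≤
        8 * (16 : ℝ) ^ 2 * (3 * ((M : ℝ) + 1)) * ((q : ℝ) ^ 2 * G) := by
      apply mul_le_mul _ h5 (by positivity) (by positivity)
      linarith
    have h11 : p ^ 2 * ((q : ℝ) ^ 2 * T / 3) = (q : ℝ) ^ 2 * (p ^ 2 * T) / 3 := by ring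
    rw [h11, div_le_iff₀ (by norm_num)]
    linarith

end TTRI2

open Pool.Agent.H442R2.KF (TaskTK.core TaskTK.cauchy HS2 primes_dyadic)

theorem t_TRI2 (h1 : P_DGQ) (h2 : P_AMP) : P_TRI2 := by
  intro δ hδ
  obtain ⟨C1, hC1, hDG⟩ := h1 (δ / 6) (by positivity)
  obtain ⟨C2, hC2, hHS⟩ := HS2 (δ / 6) (by positivity)
  obtain ⟨c, hc, hP⟩ := primes_dyadic (δ / 6) (by positivity)
  set K : ℝ := 4102 * C1 / c + 12 * Real.sqrt C2 * (1 / c + 3 / c ^ 2) with hK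
  have hs2 : 0 < Real.sqrt C2 := Real.sqrt_pos.2 hC2
  have hK0 : 0 < K := by positivity
  refine ⟨δ / 4, Real.sqrt (6 * K), by positivity, Real.sqrt_pos.2 (by positivity), ?_⟩
  intro M J q hM hJ1 hq hJ V hV ψ hψ k hk hqk hkJ α β hα hβ hαq
  have hM1 : (1 : ℝ) ≤ M := by exact_mod_cast hM
  have hM0 : (0 : ℝ) < M := by linarith
  have hq1 : (1 : ℝ) ≤ q := by exact_mod_cast hq
  have hq0 : (0 : ℝ) < q := by linarith
  have hJr1 : (1 : ℝ) ≤ J := by exact_mod_cast hJ1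
  -- the length of the amplifier
  set L : ℕ := ⌈(M : ℝ) ^ (1 / 14 : ℝ)⌉₊ with hLdef
  have hMp1 : 1 ≤ (M : ℝ) ^ (1 / 14 : ℝ) := Real.one_le_rpow hM1 (by norm_num)
  have hL1 : (M : ℝ) ^ (1 / 14 : ℝ) ≤ L := Nat.le_ceil _
  have hL : 1 ≤ L := by
    have : (1 : ℝ) ≤ L := hMp1.trans hL1
    exact_mod_cast this
  have hLM : L ≤ M := by
    apply Nat.ceil_le.2
    calc (M : ℝ) ^ (1 / 14 : ℝ) ≤ (M : ℝ) ^ (1 : ℝ) :=
          Real.rpow_le_rpow_of_exponent_le hM1 (by norm_num)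
      _ = M := Real.rpow_one _
  have hL2 : (L : ℝ) ≤ 2 * (M : ℝ) ^ (1 / 14 : ℝ) := by
    have := Nat.ceil_lt_add_one (by positivity : 0 ≤ (M : ℝ) ^ (1 / 14 : ℝ))
    linarith
  have hJq14 : (J : ℝ) * q ≤ (M : ℝ) ^ (1 / 14 : ℝ) :=
    hJ.trans (Real.rpow_le_rpow_of_exponent_le hM1 (by linarith))
  have hJqL : (J : ℝ) * q ≤ L := hJq14.trans hL1
  have hJL : J ≤ L := by
    have : (J : ℝ) ≤ L := by nlinarith
    exact_mod_cast this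
  have hqM : q ≤ M := by
    have h3 : (q : ℝ) ≤ L := by nlinarith
    have h4 : q ≤ L := by exact_mod_cast h3
    exact h4.trans hLM
  have hJq4 : (J * q) ^ 4 ≤ M := by
    have h3 : ((J : ℝ) * q) ^ 4 ≤ M := by
      calc ((J : ℝ) * q) ^ 4 ≤ ((M : ℝ) ^ (1 / 14 : ℝ)) ^ 4 :=
            pow_le_pow_left₀ (by positivity) hJq14 4
        _ = (M : ℝ) ^ (4 / 14 : ℝ) := by
            rw [← Real.rpow_natCast, ← Real.rpow_mul hM0.le]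
            norm_num
        _ ≤ (M : ℝ) ^ (1 : ℝ) := Real.rpow_le_rpow_of_exponent_le hM1 (by norm_num)
        _ = M := Real.rpow_one _
    exact_mod_cast h3
  have hκ : 2 * M + 1 < (L + 1) ^ 16 := by
    have h1 : (M : ℝ) < ((L : ℝ) + 1) ^ 14 := by
      calc (M : ℝ) = ((M : ℝ) ^ (1 / 14 : ℝ)) ^ 14 := by
            rw [← Real.rpow_natCast, ← Real.rpow_mul hM0.le]
            norm_num
        _ < ((L : ℝ) + 1) ^ 14 := by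
            apply pow_lt_pow_left₀ _ (by positivity) (by norm_num)
            linarith
    have h2 : M < (L + 1) ^ 14 := by exact_mod_cast h1
    have h3 : 4 ≤ (L + 1) ^ 2 := by nlinarith
    calc 2 * M + 1 < M * 4 + 1 := by omega
      _ ≤ (L + 1) ^ 14 * 4 := by omega
      _ ≤ (L + 1) ^ 14 * (L + 1) ^ 2 := Nat.mul_le_mul_left _ h3
      _ = (L + 1) ^ 16 := by ring
  set p : ℝ := ((PL L).card : ℝ) with hp
  have hpc := hP L hL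
  have hp0 : 0 < p := by
    have : 0 < c * (L : ℝ) ^ (1 - δ / 6) := by
      have : (0 : ℝ) < L := by exact_mod_cast hL
      positivity
    linarith
  have hp1 : 1 ≤ p := by
    rw [hp] at hp0 ⊢
    have : 0 < (PL L).card := by exact_mod_cast hp0
    exact_mod_cast this
  have hG0 : 0 ≤ DGq ψ k M J q := by
    unfold DGq
    positivity
  have hcore := TTRI2.core2 M L J q hM hq hL (by exact_mod_cast hLM) hL2 hL1 δ (δ / 6) c C1 C2 V p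
    (DGq ψ k M J q)
    (∑ m₁ ∈ Ioc M (2 * M + 1), ∑ m₂ ∈ Ioc M (2 * M + 1), ‖Ker2 ψ k M L J m₁ m₂‖ ^ 2)
    (∑ n ∈ Ioc M (2 * M + 1),
        ‖∑ m ∈ (Ioc M (2 * M + 1)).filter (fun m => Nat.Coprime m n), α m * FF ψ k J n m‖ ^ 2)
    hδ rfl hc hC1 hC2 hV hp1 hJ hpc hG0
    (hDG M J q hM hJ1 hq hJq4 V hV ψ hψ k hk hqk hkJ)
    (hHS M L J hM hL hLM hJ1 hJL V hV ψ hψ k hk hkJ)
    (by
      have := h2 M L J 16 q hM hL hq hqM hκ V ψ hψ k α hα hαq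
      rw [Nat.cast_ofNat] at this
      exact this)
  rw [← hK] at hcore
  have hcs := TaskTK.cauchy M (fun n m => α m * FF ψ k J n m) β hβ
  have e1 : ∑ m ∈ Ioc M (2 * M + 1), ∑ n ∈ (Ioc M (2 * M + 1)).filter (fun n => Nat.Coprime m n),
      α m * β n * FF ψ k J n m = ∑ m ∈ Ioc M (2 * M + 1),
      ∑ n ∈ (Ioc M (2 * M + 1)).filter (fun n => Nat.Coprime m n), β n * (α m * FF ψ k J n m) := by
    refine Finset.sum_congr rfl fun m _ => Finset.sum_congr rfl fun n _ => ?_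
    ring
  rw [e1]
  have h1 : ‖∑ m ∈ Ioc M (2 * M + 1), ∑ n ∈ (Ioc M (2 * M + 1)).filter (fun n => Nat.Coprime m n),
      β n * (α m * FF ψ k J n m)‖ ^ 2 ≤
      (Real.sqrt (6 * K) * V ^ 2 * (M : ℝ) ^ (2 - δ / 4) / q) ^ 2 := by
    refine hcs.trans ?_
    have h2 : ((M : ℝ) + 1) ≤ 2 * M := by linarith
    have h3 : (Real.sqrt (6 * K) * V ^ 2 * (M : ℝ) ^ (2 - δ / 4) / q) ^ 2 =
        6 * K * V ^ 4 * (M * (M : ℝ) ^ (3 - δ / 2)) / (q : ℝ) ^ 2 := by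
      rw [div_pow, mul_pow, mul_pow, Real.sq_sqrt (by positivity)]
      have h4 : ((M : ℝ) ^ (2 - δ / 4)) ^ 2 = M * (M : ℝ) ^ (3 - δ / 2) := by
        nth_rewrite 2 [← Real.rpow_one (M : ℝ)]
        rw [← Real.rpow_natCast, ← Real.rpow_mul hM0.le, ← Real.rpow_add hM0]
        congr 1
        push_cast
        ring
      rw [h4]
      ring
    rw [h3]
    have hV4 : V ^ 3 ≤ V ^ 4 := pow_le_pow_right₀ hV (by norm_num)
    calc _ ≤ (2 * (M : ℝ)) * (3 * K * V ^ 3 * (M : ℝ) ^ (3 - δ / 2) / (q : ℝ) ^ 2) :=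
          mul_le_mul h2 hcore (by positivity) (by positivity)
      _ = 6 * K * V ^ 3 * (M * (M : ℝ) ^ (3 - δ / 2)) / (q : ℝ) ^ 2 := by ring
      _ ≤ 6 * K * V ^ 4 * (M * (M : ℝ) ^ (3 - δ / 2)) / (q : ℝ) ^ 2 := by gcongr
  exact (pow_le_pow_iff_left₀ (norm_nonneg _) (by positivity) (by norm_num)).1 h1

end Pool.Agent.H262R4.TM
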