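import Pool.Agent.H262R4.TM.Defs2
import Pool.Agent.H262R4.TM.TW

set_option autoImplicit false

/-! TM project, task TSM2: final assembly, arbitrary Dirichlet polynomials. -/

namespace Pool.Agent.H262R4.TM

open Finset Filter Topology MeasureTheory Complex
open Pool.Agent.H306R2.SM (om cl ef Xf Gf Yf ee)
open Pool.Agent.H442R2.KF (e kf tau Wei FF Ker2 PL)

noncomputable section

namespace TTSM2

lemma gcd_sum (N : ℕ) (F : ℕ → ℕ → ℂ) :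
    ∑ h ∈ Icc 1 N, ∑ l ∈ Icc 1 N, F h l =
      ∑ g ∈ Icc 1 N, ∑ h ∈ Icc 1 (N / g),
        ∑ l ∈ (Icc 1 (N / g)).filter (fun l => Nat.Coprime h l), F (g * h) (g * l) := by
  rw [← Finset.sum_product']
  simp only [Finset.sum_sigma']
  refine Finset.sum_bij' (fun p _ => ⟨Nat.gcd p.1 p.2, ⟨p.1 / Nat.gcd p.1 p.2, p.2 / Nat.gcd p.1 p.2⟩⟩)
    (fun x _ => (x.1 * x.2.1, x.1 * x.2.2)) ?_ ?_ ?_ ?_ ?_
  · rintro ⟨h, l⟩ hp
    simp only [Finset.mem_product, Finset.mem_Icc] at hp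
    have hg : 0 < Nat.gcd h l := Nat.gcd_pos_of_pos_left _ (by omega)
    simp only [Finset.mem_sigma, Finset.mem_Icc, Finset.mem_filter]
    refine ⟨⟨hg, (Nat.gcd_le_left _ (by omega)).trans hp.1.2⟩, ⟨?_, Nat.div_le_div_right hp.1.2⟩,
      ⟨?_, Nat.div_le_div_right hp.2.2⟩, Nat.coprime_div_gcd_div_gcd hg⟩
    · exact Nat.div_pos (Nat.gcd_le_left _ (by omega)) hg
    · exact Nat.div_pos (Nat.gcd_le_right _ (by omega)) hg
  · rintro ⟨g, h, l⟩ hx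
    simp only [Finset.mem_sigma, Finset.mem_Icc, Finset.mem_filter] at hx
    obtain ⟨⟨hg1, hg2⟩, ⟨hh1, hh2⟩, ⟨hl1, hl2⟩, hc⟩ := hx
    simp only [Finset.mem_product, Finset.mem_Icc]
    refine ⟨⟨Nat.mul_pos hg1 hh1, ?_⟩, Nat.mul_pos hg1 hl1, ?_⟩
    · exact (Nat.mul_le_mul_left g hh2).trans (Nat.mul_div_le N g)
    · exact (Nat.mul_le_mul_left g hl2).trans (Nat.mul_div_le N g)
  · rintro ⟨h, l⟩ hp
    simp only
    rw [Nat.mul_div_cancel' (Nat.gcd_dvd_left h l), Nat.mul_div_cancel' (Nat.gcd_dvd_right h l)]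
  · rintro ⟨g, h, l⟩ hx
    simp only [Finset.mem_sigma, Finset.mem_Icc, Finset.mem_filter] at hx
    obtain ⟨⟨hg1, hg2⟩, ⟨hh1, hh2⟩, ⟨hl1, hl2⟩, hc⟩ := hx
    have e1 : Nat.gcd (g * h) (g * l) = g := by
      rw [Nat.gcd_mul_left, Nat.Coprime.gcd_eq_one hc, mul_one]
    simp only [e1, Nat.mul_div_cancel_left _ hg1]
  · rintro ⟨h, l⟩ hp
    simp only
    rw [Nat.mul_div_cancel' (Nat.gcd_dvd_left h l), Nat.mul_div_cancel' (Nat.gcd_dvd_right h l)]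

lemma Hsum (N : ℕ) : ∑ g ∈ Icc 1 N, 1 / (g : ℝ) ≤ 1 + Real.log N := by
  have h1 := harmonic_le_one_add_log N
  rw [harmonic_eq_sum_Icc] at h1
  push_cast at h1
  simpa [one_div] using h1

lemma inv_sqrt_exp (n : ℕ) (hn : 1 ≤ n) : 1 / Real.sqrt n = Real.exp (-(Real.log n / 2)) := by
  have hn0 : (0 : ℝ) < n := by exact_mod_cast hn
  rw [Real.exp_neg, Real.sqrt_eq_rpow, Real.rpow_def_of_pos hn0, one_div]
  congr 2
  ring

lemma cpow_cl (n : ℕ) (hn : 1 ≤ n) (t : ℝ) :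
    (n : ℂ) ^ (-(cl t)) = ((1 / Real.sqrt n : ℝ) : ℂ) *
      Complex.exp (((-(t * Real.log n) : ℝ) : ℂ) * I) := by
  have hn0 : (n : ℂ) ≠ 0 := by
    have : n ≠ 0 := by omega
    exact_mod_cast this
  rw [Complex.cpow_def_of_ne_zero hn0, ← Complex.natCast_log, inv_sqrt_exp n hn, Complex.ofReal_exp,
    ← Complex.exp_add]
  congr 1
  unfold cl
  push_cast
  ring

lemma sq_expand (N : ℕ) (a : ℕ → ℂ) (t : ℝ) :
    ((‖∑ n ∈ Icc 1 N, a n * (n : ℂ) ^ (-(cl t))‖ ^ 2 : ℝ) : ℂ) =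
      ∑ h ∈ Icc 1 N, ∑ l ∈ Icc 1 N, (a h * (starRingEnd ℂ) (a l) *
        ((1 / Real.sqrt ((h : ℝ) * l) : ℝ) : ℂ)) * ef (Real.log ((l : ℝ) / h)) t := by
  rw [Complex.ofReal_pow, ← Complex.mul_conj', map_sum, Finset.sum_mul_sum]
  refine Finset.sum_congr rfl fun h hh => Finset.sum_congr rfl fun l hl => ?_
  rw [Finset.mem_Icc] at hh hl
  have hh0 : (0 : ℝ) < h := by exact_mod_cast hh.1
  have hl0 : (0 : ℝ) < l := by exact_mod_cast hl.1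
  rw [cpow_cl h hh.1, cpow_cl l hl.1, map_mul, map_mul, Complex.conj_ofReal, ← Complex.exp_conj,
    map_mul, Complex.conj_ofReal, Complex.conj_I, Real.sqrt_mul hh0.le]
  unfold ef
  rw [Real.log_div hl0.ne' hh0.ne']
  have e1 : Complex.exp ((((Real.log l - Real.log h) * t : ℝ) : ℂ) * I) =
      Complex.exp (((-(t * Real.log h) : ℝ) : ℂ) * I) * Complex.exp (((-(t * Real.log l) : ℝ) : ℂ) * -I) := by
    rw [← Complex.exp_add]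
    congr 1
    push_cast
    ring
  rw [e1]
  push_cast
  ring

lemma int_ef (k : ℕ) {δ : ℝ} (hδ : 0 < δ) (θ : ℝ) :
    IntegrableOn (fun t => ((om k δ t * ‖riemannZeta (cl t)‖ ^ 2 : ℝ) : ℂ) * ef θ t) (Set.Ioi 0) := by
  refine Integrable.mono (TTW.int2 k hδ) ?_ ?_
  · refine Continuous.aestronglyMeasurable ?_
    exact (Complex.continuous_ofReal.comp ((TTW.om_cont k δ).mul (TTW.zeta_cont.norm.pow 2))).mul
      (TTW.ef_cont θ)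
  · refine Eventually.of_forall fun t => ?_
    rw [norm_mul, TTW.ef_norm, mul_one, Complex.norm_real]

lemma int_expand (k : ℕ) (T : ℝ) (hδ : 0 < (k : ℝ) / T) (N : ℕ) (a : ℕ → ℂ) :
    ((∫ t in Set.Ioi (0 : ℝ), om k (k / T) t * ‖riemannZeta (cl t)‖ ^ 2 *
        ‖∑ n ∈ Icc 1 N, a n * (n : ℂ) ^ (-(cl t))‖ ^ 2 : ℝ) : ℂ) =
      ∑ h ∈ Icc 1 N, ∑ l ∈ Icc 1 N, (a h * (starRingEnd ℂ) (a l) *
        ((1 / Real.sqrt ((h : ℝ) * l) : ℝ) : ℂ)) * Mt k T l h := by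
  rw [← integral_complex_ofReal]
  have h1 : ∀ t : ℝ, ((om k (k / T) t * ‖riemannZeta (cl t)‖ ^ 2 *
        ‖∑ n ∈ Icc 1 N, a n * (n : ℂ) ^ (-(cl t))‖ ^ 2 : ℝ) : ℂ) =
      ∑ h ∈ Icc 1 N, ∑ l ∈ Icc 1 N, (a h * (starRingEnd ℂ) (a l) *
        ((1 / Real.sqrt ((h : ℝ) * l) : ℝ) : ℂ)) *
        (((om k (k / T) t * ‖riemannZeta (cl t)‖ ^ 2 : ℝ) : ℂ) * ef (Real.log ((l : ℝ) / h)) t) := by
    intro t
    rw [Complex.ofReal_mul, sq_expand, Finset.mul_sum]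
    refine Finset.sum_congr rfl fun h _ => ?_
    rw [Finset.mul_sum]
    refine Finset.sum_congr rfl fun l _ => ?_
    ring
  simp only [h1]
  rw [integral_finsetSum]
  · refine Finset.sum_congr rfl fun h _ => ?_
    rw [integral_finsetSum]
    · refine Finset.sum_congr rfl fun l _ => ?_
      rw [integral_const_mul]
      rfl
    · intro l _
      exact (int_ef k hδ _).const_mul _
  · intro h _
    exact integrable_finsetSum _ fun l _ => (int_ef k hδ _).const_mul _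

lemma Mt_scale (k : ℕ) (T : ℝ) (g h l : ℕ) (hg : 1 ≤ g) : Mt k T (g * l) (g * h) = Mt k T l h := by
  unfold Mt
  have hg0 : (g : ℝ) ≠ 0 := by
    have : g ≠ 0 := by omega
    exact_mod_cast this
  have e1 : ((g * l : ℕ) : ℝ) / ((g * h : ℕ) : ℝ) = (l : ℝ) / h := by
    push_cast
    exact mul_div_mul_left _ _ hg0
  rw [e1]

/-- the remainder of `P_COP` -/
def Rr (k : ℕ) (T : ℝ) (h l : ℕ) : ℂ :=
  Mt k T h l - ((1 / Real.sqrt (h * l) * (Real.log (Yf k T / (h * l)) + Ck k) : ℝ) : ℂ) -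
      ((1 / Real.sqrt (h * l) : ℝ) : ℂ) *
        (Du k true 1 h l (Yf k T) + Du k false (-1) h l (Yf k T))

lemma pair_id (k : ℕ) (T : ℝ) (a : ℕ → ℂ) (g h l : ℕ) (hg : 1 ≤ g) (hh : 1 ≤ h) (hl : 1 ≤ l)
    (hc : Nat.Coprime h l) :
    (a (g * h) * (starRingEnd ℂ) (a (g * l)) *
        ((1 / Real.sqrt (((g * h : ℕ) : ℝ) * ((g * l : ℕ) : ℝ)) : ℝ) : ℂ)) * Mt k T (g * l) (g * h) -
      a (g * h) * (starRingEnd ℂ) (a (g * l)) *
        ((1 / (Nat.lcm (g * h) (g * l) : ℝ) *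
          (Real.log (Yf k T * (Nat.gcd (g * h) (g * l) : ℝ) ^ 2 /
            (((g * h : ℕ) : ℝ) * ((g * l : ℕ) : ℝ))) + Ck k) : ℝ) : ℂ) =
    ((1 / (g : ℝ) : ℝ) : ℂ) * (
      a (g * h) * (starRingEnd ℂ) (a (g * l)) * ((1 / ((l : ℝ) * h) : ℝ) : ℂ) *
        Du k true 1 l h (Yf k T) +
      a (g * h) * (starRingEnd ℂ) (a (g * l)) * ((1 / ((l : ℝ) * h) : ℝ) : ℂ) *
        Du k false (-1) l h (Yf k T) +
      a (g * h) * (starRingEnd ℂ) (a (g * l)) * ((1 / Real.sqrt ((l : ℝ) * h) : ℝ) : ℂ) *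
        Rr k T l h) := by
  have hg0 : (0 : ℝ) < g := by exact_mod_cast hg
  have hh0 : (0 : ℝ) < h := by exact_mod_cast hh
  have hl0 : (0 : ℝ) < l := by exact_mod_cast hl
  rw [Mt_scale k T g h l hg]
  have e1 : Nat.gcd (g * h) (g * l) = g := by
    rw [Nat.gcd_mul_left, Nat.Coprime.gcd_eq_one hc, mul_one]
  have e2 : Nat.lcm (g * h) (g * l) = g * (h * l) := by
    rw [Nat.lcm_mul_left, Nat.Coprime.lcm_eq_mul hc]
  have e3 : Real.sqrt (((g * h : ℕ) : ℝ) * ((g * l : ℕ) : ℝ)) = g * Real.sqrt ((l : ℝ) * h) := by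
    rw [show ((g * h : ℕ) : ℝ) * ((g * l : ℕ) : ℝ) = (g : ℝ) ^ 2 * ((l : ℝ) * h) by push_cast; ring,
      Real.sqrt_mul (by positivity), Real.sqrt_sq hg0.le]
  have e4 : Yf k T * (g : ℝ) ^ 2 / (((g * h : ℕ) : ℝ) * ((g * l : ℕ) : ℝ)) = Yf k T / ((l : ℝ) * h) := by
    push_cast
    field_simp
  rw [e1, e2, e3, e4]
  unfold Rr
  have hs : Real.sqrt ((l : ℝ) * h) ^ 2 = (l : ℝ) * h := Real.sq_sqrt (by positivity)
  have hs0 : 0 < Real.sqrt ((l : ℝ) * h) := Real.sqrt_pos.mpr (by positivity)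
  have e5 : (1 / ((g * (h * l) : ℕ) : ℝ)) = 1 / (g : ℝ) * (1 / Real.sqrt ((l : ℝ) * h)) ^ 2 := by
    rw [div_pow, hs]
    push_cast
    field_simp
  have e6 : 1 / ((l : ℝ) * h) = (1 / Real.sqrt ((l : ℝ) * h)) ^ 2 := by
    rw [div_pow, hs, one_pow]
  have e7 : 1 / ((g : ℝ) * Real.sqrt ((l : ℝ) * h)) = 1 / (g : ℝ) * (1 / Real.sqrt ((l : ℝ) * h)) := by
    rw [one_div_mul_one_div]
  rw [e5, e6, e7]
  generalize Real.log (Yf k T / ((l : ℝ) * h)) = X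
  generalize 1 / Real.sqrt ((l : ℝ) * h) = u
  generalize 1 / (g : ℝ) = v
  push_cast
  ring

lemma err_le (T : ℝ) (hT : 0 < T) (N h l : ℕ) (hh : 1 ≤ h) (hl : 1 ≤ l) (hhN : h ≤ N) (hlN : l ≤ N) :
    1 / Real.sqrt ((l : ℝ) * h) *
      (T ^ (-(3 / 5) : ℝ) + T ^ (-(1 / 5) : ℝ) * (h : ℝ) ^ (-(1 / 4) : ℝ) * (l : ℝ) ^ (-(1 / 2) : ℝ)) ≤
    1 / (h : ℝ) * (1 / (l : ℝ)) *
      ((N : ℝ) * T ^ (-(3 / 5) : ℝ) + (N : ℝ) ^ (1 / 4 : ℝ) * T ^ (-(1 / 5) : ℝ)) := by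
  have hh0 : (0 : ℝ) < h := by exact_mod_cast hh
  have hl0 : (0 : ℝ) < l := by exact_mod_cast hl
  have hhN' : (h : ℝ) ≤ N := by exact_mod_cast hhN
  have hlN' : (l : ℝ) ≤ N := by exact_mod_cast hlN
  have hN0 : (0 : ℝ) < N := by linarith
  have e0 : 1 / Real.sqrt ((l : ℝ) * h) = (l : ℝ) ^ (-(1 / 2) : ℝ) * (h : ℝ) ^ (-(1 / 2) : ℝ) := by
    rw [Real.sqrt_eq_rpow, one_div, ← Real.rpow_neg (by positivity), Real.mul_rpow hl0.le hh0.le]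
  have hinv : ∀ x : ℝ, 1 / x = x ^ (-1 : ℝ) := fun x => by rw [Real.rpow_neg_one, one_div]
  have p1 : (l : ℝ) ^ (-(1 / 2) : ℝ) ≤ 1 / (l : ℝ) * (N : ℝ) ^ (1 / 2 : ℝ) := by
    have : (l : ℝ) ^ (-(1 / 2) : ℝ) = 1 / (l : ℝ) * (l : ℝ) ^ (1 / 2 : ℝ) := by
      rw [hinv l, ← Real.rpow_add hl0]
      norm_num
    rw [this]
    gcongr
  have p2 : (h : ℝ) ^ (-(1 / 2) : ℝ) ≤ 1 / (h : ℝ) * (N : ℝ) ^ (1 / 2 : ℝ) := by
    have : (h : ℝ) ^ (-(1 / 2) : ℝ) = 1 / (h : ℝ) * (h : ℝ) ^ (1 / 2 : ℝ) := by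
      rw [hinv h, ← Real.rpow_add hh0]
      norm_num
    rw [this]
    gcongr
  have p3 : (h : ℝ) ^ (-(1 / 2) : ℝ) * (h : ℝ) ^ (-(1 / 4) : ℝ) ≤ 1 / (h : ℝ) * (N : ℝ) ^ (1 / 4 : ℝ) := by
    have : (h : ℝ) ^ (-(1 / 2) : ℝ) * (h : ℝ) ^ (-(1 / 4) : ℝ) = 1 / (h : ℝ) * (h : ℝ) ^ (1 / 4 : ℝ) := by
      rw [hinv h, ← Real.rpow_add hh0, ← Real.rpow_add hh0]
      norm_num
    rw [this]
    gcongr
  have p4 : (l : ℝ) ^ (-(1 / 2) : ℝ) * (l : ℝ) ^ (-(1 / 2) : ℝ) = 1 / (l : ℝ) := by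
    rw [hinv l, ← Real.rpow_add hl0]
    norm_num
  have p5 : (N : ℝ) ^ (1 / 2 : ℝ) * (N : ℝ) ^ (1 / 2 : ℝ) = N := by
    rw [← Real.rpow_add hN0]
    norm_num
  rw [e0]
  have q1 : (l : ℝ) ^ (-(1 / 2) : ℝ) * (h : ℝ) ^ (-(1 / 2) : ℝ) * T ^ (-(3 / 5) : ℝ) ≤
      1 / (h : ℝ) * (1 / (l : ℝ)) * ((N : ℝ) * T ^ (-(3 / 5) : ℝ)) := by
    calc (l : ℝ) ^ (-(1 / 2) : ℝ) * (h : ℝ) ^ (-(1 / 2) : ℝ) * T ^ (-(3 / 5) : ℝ)
        ≤ (1 / (l : ℝ) * (N : ℝ) ^ (1 / 2 : ℝ)) * (1 / (h : ℝ) * (N : ℝ) ^ (1 / 2 : ℝ)) *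
          T ^ (-(3 / 5) : ℝ) := by gcongr
      _ = 1 / (h : ℝ) * (1 / (l : ℝ)) * (((N : ℝ) ^ (1 / 2 : ℝ) * (N : ℝ) ^ (1 / 2 : ℝ)) *
          T ^ (-(3 / 5) : ℝ)) := by ring
      _ = _ := by rw [p5]
  have q2 : (l : ℝ) ^ (-(1 / 2) : ℝ) * (h : ℝ) ^ (-(1 / 2) : ℝ) *
      (T ^ (-(1 / 5) : ℝ) * (h : ℝ) ^ (-(1 / 4) : ℝ) * (l : ℝ) ^ (-(1 / 2) : ℝ)) ≤
      1 / (h : ℝ) * (1 / (l : ℝ)) * ((N : ℝ) ^ (1 / 4 : ℝ) * T ^ (-(1 / 5) : ℝ)) := by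
    calc (l : ℝ) ^ (-(1 / 2) : ℝ) * (h : ℝ) ^ (-(1 / 2) : ℝ) *
      (T ^ (-(1 / 5) : ℝ) * (h : ℝ) ^ (-(1 / 4) : ℝ) * (l : ℝ) ^ (-(1 / 2) : ℝ))
        = ((l : ℝ) ^ (-(1 / 2) : ℝ) * (l : ℝ) ^ (-(1 / 2) : ℝ)) *
          ((h : ℝ) ^ (-(1 / 2) : ℝ) * (h : ℝ) ^ (-(1 / 4) : ℝ)) * T ^ (-(1 / 5) : ℝ) := by ring
      _ = (1 / (l : ℝ)) * ((h : ℝ) ^ (-(1 / 2) : ℝ) * (h : ℝ) ^ (-(1 / 4) : ℝ)) *
          T ^ (-(1 / 5) : ℝ) := by rw [p4]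
      _ ≤ (1 / (l : ℝ)) * (1 / (h : ℝ) * (N : ℝ) ^ (1 / 4 : ℝ)) * T ^ (-(1 / 5) : ℝ) := by gcongr
      _ = _ := by ring
  calc _ = (l : ℝ) ^ (-(1 / 2) : ℝ) * (h : ℝ) ^ (-(1 / 2) : ℝ) * T ^ (-(3 / 5) : ℝ) +
      (l : ℝ) ^ (-(1 / 2) : ℝ) * (h : ℝ) ^ (-(1 / 2) : ℝ) *
      (T ^ (-(1 / 5) : ℝ) * (h : ℝ) ^ (-(1 / 4) : ℝ) * (l : ℝ) ^ (-(1 / 2) : ℝ)) := by ring
    _ ≤ _ := add_le_add q1 q2
    _ = _ := by ring

/-- the core estimate for given parameters -/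
lemma core (k : ℕ) (T η : ℝ) (hT : 0 < T) (N : ℕ) (a : ℕ → ℂ) (ha : ∀ n, ‖a n‖ ≤ 1)
    (hcop : ∀ h l : ℕ, 1 ≤ h → 1 ≤ l → Nat.Coprime h l → h ≤ N → l ≤ N →
      ‖Rr k T h l‖ ≤ T ^ (-(3 / 5) : ℝ) +
        T ^ (-(1 / 5) : ℝ) * (l : ℝ) ^ (-(1 / 4) : ℝ) * (h : ℝ) ^ (-(1 / 2) : ℝ))
    (htri : ∀ M : ℕ, M ≤ N → ∀ α β : ℕ → ℂ, (∀ m, ‖α m‖ ≤ 1) → (∀ m, ‖β m‖ ≤ 1) →
      ∀ (b : Bool) (σ : ℤ), (σ = 1 ∨ σ = -1) →
      ‖∑ l ∈ Icc 1 M, ∑ h ∈ (Icc 1 M).filter (fun h => Nat.Coprime l h),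
        α l * β h * ((1 / ((h : ℝ) * l) : ℝ) : ℂ) * Du k b σ h l (Yf k T)‖ ≤ η) :
    ‖∑ h ∈ Icc 1 N, ∑ l ∈ Icc 1 N, ((a h * (starRingEnd ℂ) (a l) *
        ((1 / Real.sqrt ((h : ℝ) * l) : ℝ) : ℂ)) * Mt k T l h -
      a h * (starRingEnd ℂ) (a l) *
        ((1 / (Nat.lcm h l : ℝ) *
          (Real.log (Yf k T * (Nat.gcd h l : ℝ) ^ 2 / ((h : ℝ) * l)) + Ck k) : ℝ) : ℂ))‖ ≤
    (∑ g ∈ Icc 1 N, 1 / (g : ℝ)) * (2 * η + (∑ g ∈ Icc 1 N, 1 / (g : ℝ)) ^ 2 *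
      ((N : ℝ) * T ^ (-(3 / 5) : ℝ) + (N : ℝ) ^ (1 / 4 : ℝ) * T ^ (-(1 / 5) : ℝ))) := by
  rw [gcd_sum N (fun h l => (a h * (starRingEnd ℂ) (a l) *
        ((1 / Real.sqrt ((h : ℝ) * l) : ℝ) : ℂ)) * Mt k T l h -
      a h * (starRingEnd ℂ) (a l) *
        ((1 / (Nat.lcm h l : ℝ) *
          (Real.log (Yf k T * (Nat.gcd h l : ℝ) ^ 2 / ((h : ℝ) * l)) + Ck k) : ℝ) : ℂ))]
  set E : ℝ := (N : ℝ) * T ^ (-(3 / 5) : ℝ) + (N : ℝ) ^ (1 / 4 : ℝ) * T ^ (-(1 / 5) : ℝ) with hE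
  have hE0 : 0 ≤ E := by positivity
  set Hs : ℝ := ∑ g ∈ Icc 1 N, 1 / (g : ℝ) with hHs
  rw [Finset.sum_mul]
  refine (norm_sum_le _ _).trans (Finset.sum_le_sum fun g hg => ?_)
  rw [Finset.mem_Icc] at hg
  have hg0 : (0 : ℝ) < g := by exact_mod_cast hg.1
  have hsub : Icc 1 (N / g) ⊆ Icc 1 N := Finset.Icc_subset_Icc_right (Nat.div_le_self N g)
  have hrew : ∑ h ∈ Icc 1 (N / g), ∑ l ∈ (Icc 1 (N / g)).filter (fun l => Nat.Coprime h l),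
      ((a (g * h) * (starRingEnd ℂ) (a (g * l)) *
        ((1 / Real.sqrt (((g * h : ℕ) : ℝ) * ((g * l : ℕ) : ℝ)) : ℝ) : ℂ)) * Mt k T (g * l) (g * h) -
      a (g * h) * (starRingEnd ℂ) (a (g * l)) *
        ((1 / (Nat.lcm (g * h) (g * l) : ℝ) *
          (Real.log (Yf k T * (Nat.gcd (g * h) (g * l) : ℝ) ^ 2 /
            (((g * h : ℕ) : ℝ) * ((g * l : ℕ) : ℝ))) + Ck k) : ℝ) : ℂ)) =
      ((1 / (g : ℝ) : ℝ) : ℂ) * (
        ∑ h ∈ Icc 1 (N / g), ∑ l ∈ (Icc 1 (N / g)).filter (fun l => Nat.Coprime h l),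
          a (g * h) * (starRingEnd ℂ) (a (g * l)) * ((1 / ((l : ℝ) * h) : ℝ) : ℂ) *
            Du k true 1 l h (Yf k T) +
        ∑ h ∈ Icc 1 (N / g), ∑ l ∈ (Icc 1 (N / g)).filter (fun l => Nat.Coprime h l),
          a (g * h) * (starRingEnd ℂ) (a (g * l)) * ((1 / ((l : ℝ) * h) : ℝ) : ℂ) *
            Du k false (-1) l h (Yf k T) +
        ∑ h ∈ Icc 1 (N / g), ∑ l ∈ (Icc 1 (N / g)).filter (fun l => Nat.Coprime h l),
          a (g * h) * (starRingEnd ℂ) (a (g * l)) * ((1 / Real.sqrt ((l : ℝ) * h) : ℝ) : ℂ) *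
            Rr k T l h) := by
    rw [← Finset.sum_add_distrib, ← Finset.sum_add_distrib, Finset.mul_sum]
    refine Finset.sum_congr rfl fun h hh => ?_
    rw [← Finset.sum_add_distrib, ← Finset.sum_add_distrib, Finset.mul_sum]
    refine Finset.sum_congr rfl fun l hl => ?_
    rw [Finset.mem_filter, Finset.mem_Icc] at hl
    rw [Finset.mem_Icc] at hh
    exact pair_id k T a g h l hg.1 hh.1 hl.1.1 hl.2
  rw [hrew, norm_mul, Complex.norm_real, Real.norm_of_nonneg (by positivity)]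
  refine mul_le_mul_of_nonneg_left ?_ (by positivity)
  have ha' : ∀ n, ‖(starRingEnd ℂ) (a n)‖ ≤ 1 := by
    intro n
    rw [RCLike.norm_conj]
    exact ha n
  have t1 := htri (N / g) (Nat.div_le_self N g) (fun m => a (g * m))
    (fun m => (starRingEnd ℂ) (a (g * m))) (fun m => ha _) (fun m => ha' _) true 1 (Or.inl rfl)
  have t2 := htri (N / g) (Nat.div_le_self N g) (fun m => a (g * m))
    (fun m => (starRingEnd ℂ) (a (g * m))) (fun m => ha _) (fun m => ha' _) false (-1) (Or.inr rfl)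
  have t3 : ‖∑ h ∈ Icc 1 (N / g), ∑ l ∈ (Icc 1 (N / g)).filter (fun l => Nat.Coprime h l),
          a (g * h) * (starRingEnd ℂ) (a (g * l)) * ((1 / Real.sqrt ((l : ℝ) * h) : ℝ) : ℂ) *
            Rr k T l h‖ ≤ Hs ^ 2 * E := by
    have u1 : ∀ h ∈ Icc 1 (N / g), ‖∑ l ∈ (Icc 1 (N / g)).filter (fun l => Nat.Coprime h l),
          a (g * h) * (starRingEnd ℂ) (a (g * l)) * ((1 / Real.sqrt ((l : ℝ) * h) : ℝ) : ℂ) *
            Rr k T l h‖ ≤ 1 / (h : ℝ) * (Hs * E) := by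
      intro h hh
      rw [Finset.mem_Icc] at hh
      have hhN : h ≤ N := hh.2.trans (Nat.div_le_self N g)
      have u2 : ∀ l ∈ (Icc 1 (N / g)).filter (fun l => Nat.Coprime h l),
          ‖a (g * h) * (starRingEnd ℂ) (a (g * l)) * ((1 / Real.sqrt ((l : ℝ) * h) : ℝ) : ℂ) *
            Rr k T l h‖ ≤ 1 / (h : ℝ) * (1 / (l : ℝ)) * E := by
        intro l hl
        rw [Finset.mem_filter, Finset.mem_Icc] at hl
        have hlN : l ≤ N := hl.1.2.trans (Nat.div_le_self N g)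
        have hb := hcop l h hl.1.1 hh.1 hl.2.symm hlN hhN
        rw [norm_mul, norm_mul, norm_mul, Complex.norm_real, Real.norm_of_nonneg (by positivity)]
        calc ‖a (g * h)‖ * ‖(starRingEnd ℂ) (a (g * l))‖ * (1 / Real.sqrt ((l : ℝ) * h)) *
              ‖Rr k T l h‖ ≤ 1 * 1 * (1 / Real.sqrt ((l : ℝ) * h)) * (T ^ (-(3 / 5) : ℝ) +
        T ^ (-(1 / 5) : ℝ) * (h : ℝ) ^ (-(1 / 4) : ℝ) * (l : ℝ) ^ (-(1 / 2) : ℝ)) := by
              gcongr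
              · exact ha _
              · exact ha' _
          _ ≤ _ := by
              rw [one_mul, one_mul]
              exact err_le T hT N h l hh.1 hl.1.1 hhN hlN
      calc _ ≤ ∑ l ∈ (Icc 1 (N / g)).filter (fun l => Nat.Coprime h l),
            1 / (h : ℝ) * (1 / (l : ℝ)) * E := (norm_sum_le _ _).trans (Finset.sum_le_sum u2)
        _ ≤ ∑ l ∈ Icc 1 N, 1 / (h : ℝ) * (1 / (l : ℝ)) * E := by
            refine Finset.sum_le_sum_of_subset_of_nonneg ((Finset.filter_subset _ _).trans hsub) ?_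
            intro l _ _
            positivity
        _ = _ := by
            rw [hHs, Finset.sum_mul, Finset.mul_sum]
            exact Finset.sum_congr rfl fun l _ => by ring
    calc _ ≤ ∑ h ∈ Icc 1 (N / g), 1 / (h : ℝ) * (Hs * E) :=
          (norm_sum_le _ _).trans (Finset.sum_le_sum u1)
      _ ≤ ∑ h ∈ Icc 1 N, 1 / (h : ℝ) * (Hs * E) := by
          refine Finset.sum_le_sum_of_subset_of_nonneg hsub ?_
          intro l _ _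
          positivity
      _ = Hs * (Hs * E) := by rw [← Finset.sum_mul]
      _ = _ := by ring
  refine (norm_add_le _ _).trans ?_
  refine (add_le_add ((norm_add_le _ _).trans (add_le_add t1 t2)) t3).trans ?_
  linarith

end TTSM2

open TTSM2

theorem t_TSM2 (h1 : P_COP) (h2 : P_TRIG) : P_TSM2 := by
  intro θ hθ
  set θ' : ℝ := max θ (1 / 4) with hθ'
  have hθ0 : 0 < θ' := lt_of_lt_of_le (by norm_num) (le_max_right _ _)
  have hθ1 : θ' < 14 / 27 := max_lt hθ (by norm_num)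
  obtain ⟨η₀, hη₀, hT2⟩ := h2 θ' hθ0 hθ1
  set η : ℝ := min η₀ (1 / 15) / 2 with hη
  have hηpos : 0 < η := by
    have : 0 < min η₀ (1 / 15) := lt_min hη₀ (by norm_num)
    positivity
  have hη1 : 2 * η ≤ η₀ := by
    have := min_le_left η₀ (1 / 15)
    linarith
  have hη2 : 2 * η ≤ 1 / 15 := by
    have := min_le_right η₀ (1 / 15)
    linarith
  refine ⟨η, hηpos, ?_⟩
  filter_upwards [h1, hT2, eventually_gt_atTop (Real.exp 1), TTW.log_pow_le 20 η hηpos 3] with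
    T hcop htri hTe hlog
  intro k hk N hN a ha
  have hT1 : 1 < T := by
    have := Real.add_one_le_exp 1
    linarith
  have hT0 : 0 < T := by linarith
  have hL1 : 1 ≤ Real.log T := by
    rw [Real.le_log_iff_exp_le hT0]
    exact hTe.le
  have hk1 : (1 : ℝ) ≤ k := le_trans (by nlinarith) hk.1
  have hδ : 0 < (k : ℝ) / T := by positivity
  have hN' : (N : ℝ) ≤ T ^ θ' :=
    hN.trans (Real.rpow_le_rpow_of_exponent_le hT1.le (le_max_left _ _))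
  rw [int_expand k T hδ N a, ← Finset.sum_sub_distrib]
  simp only [← Finset.sum_sub_distrib]
  refine (core k T (T ^ (-η₀)) hT0 N a ha ?_ ?_).trans ?_
  · intro h l hh hl hc hhN hlN
    have b1 : ∀ m : ℕ, m ≤ N → (m : ℝ) ≤ T ^ (3 / 5 : ℝ) := by
      intro m hm
      calc (m : ℝ) ≤ N := by exact_mod_cast hm
        _ ≤ T ^ θ' := hN'
        _ ≤ T ^ (3 / 5 : ℝ) := Real.rpow_le_rpow_of_exponent_le hT1.le (by linarith)
    exact hcop k hk h l hh hl hc (b1 h hhN) (b1 l hlN)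
  · intro M hM α β hα hβ b σ hσ
    refine htri k hk M ?_ α β hα hβ b σ hσ
    calc (M : ℝ) ≤ N := by exact_mod_cast hM
      _ ≤ T ^ θ' := hN'
  · set Hs : ℝ := ∑ g ∈ Icc 1 N, 1 / (g : ℝ) with hHs
    have hHs0 : 0 ≤ Hs := Finset.sum_nonneg fun g _ => by positivity
    have hHs1 : Hs ≤ 2 * Real.log T := by
      have a1 := Hsum N
      have a2 : Real.log N ≤ Real.log T := by
        rcases Nat.eq_zero_or_pos N with h0 | h0
        · rw [h0, Nat.cast_zero, Real.log_zero]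
          linarith
        · apply Real.log_le_log (by exact_mod_cast h0)
          calc (N : ℝ) ≤ T ^ θ' := hN'
            _ ≤ T ^ (1 : ℝ) := Real.rpow_le_rpow_of_exponent_le hT1.le (by linarith)
            _ = T := Real.rpow_one T
      linarith
    have c1 : T ^ (-η₀) ≤ T ^ (-(2 * η)) :=
      Real.rpow_le_rpow_of_exponent_le hT1.le (by linarith)
    have c2 : (N : ℝ) * T ^ (-(3 / 5) : ℝ) ≤ T ^ (-(2 * η)) := by
      calc (N : ℝ) * T ^ (-(3 / 5) : ℝ) ≤ T ^ θ' * T ^ (-(3 / 5) : ℝ) := by gcongr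
        _ = T ^ (θ' + -(3 / 5)) := (Real.rpow_add hT0 _ _).symm
        _ ≤ T ^ (-(2 * η)) := Real.rpow_le_rpow_of_exponent_le hT1.le (by linarith)
    have c3 : (N : ℝ) ^ (1 / 4 : ℝ) * T ^ (-(1 / 5) : ℝ) ≤ T ^ (-(2 * η)) := by
      calc (N : ℝ) ^ (1 / 4 : ℝ) * T ^ (-(1 / 5) : ℝ)
          ≤ (T ^ θ') ^ (1 / 4 : ℝ) * T ^ (-(1 / 5) : ℝ) := by gcongr
        _ = T ^ (θ' * (1 / 4) + -(1 / 5)) := by
            rw [← Real.rpow_mul hT0.le, ← Real.rpow_add hT0]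
        _ ≤ T ^ (-(2 * η)) := Real.rpow_le_rpow_of_exponent_le hT1.le (by linarith)
    have hP : 0 < T ^ (-(2 * η)) := by positivity
    set P : ℝ := T ^ (-(2 * η)) with hPdef
    set L : ℝ := Real.log T with hL
    have d1 : Hs * (2 * T ^ (-η₀) + Hs ^ 2 * ((N : ℝ) * T ^ (-(3 / 5) : ℝ) +
        (N : ℝ) ^ (1 / 4 : ℝ) * T ^ (-(1 / 5) : ℝ))) ≤ (2 * L) * (2 * P + (2 * L) ^ 2 * (P + P)) := by
      gcongr
    have d2 : (2 * L) * (2 * P + (2 * L) ^ 2 * (P + P)) ≤ 20 * L ^ 3 * P := by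
      have : L ≤ L ^ 3 := by nlinarith [sq_nonneg L]
      nlinarith
    have d3 : 20 * L ^ 3 * P ≤ T ^ η * P := mul_le_mul_of_nonneg_right hlog hP.le
    have d4 : T ^ η * P = T ^ (-η) := by
      rw [hPdef, ← Real.rpow_add hT0]
      congr 1
      ring
    linarith

end

end Pool.Agent.H262R4.TM
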