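import Pool.Agent.H262R4.TM.TM2
import Pool.Agent.H262R4.TM.V2
import Pool.Agent.H262R4.TM.TW
import Pool.Agent.H262R4.TM.E2a
import Pool.Agent.H262R4.TM.E2b
import Pool.Agent.H262R4.TM.FEb
import Pool.Agent.H262R4.TM.DUAL
import Pool.Agent.H262R4.TM.KU
import Pool.Agent.H262R4.TM.KER
import Pool.Agent.H262R4.TM.COP
import Pool.Agent.H262R4.TM.DGQ
import Pool.Agent.H262R4.TM.AMP
import Pool.Agent.H262R4.TM.TRI2
import Pool.Agent.H262R4.TM.BLKb
import Pool.Agent.H262R4.TM.TRIG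
import Pool.Agent.H262R4.TM.TSM2

/-!
TM project: assembly of the general theorem.
-/

namespace Pool.Agent.H262R4.TM

theorem g_KER : P_KER := t_KER t_KU

theorem g_COP : P_COP := t_COP (t_TW t_TM2 t_V2) (t_DUAL (t_FE_b t_E2a t_E2b)) t_V2 g_KER

theorem g_BLK : P_BLK := t_BLK_b (t_TRI2 t_DGQ t_AMP)

theorem f_TSM2 : P_TSM2 := t_TSM2 g_COP (t_TRIG g_BLK g_KER)

end Pool.Agent.H262R4.TM
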