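import Pool.Agent.H262R4.TM.Defs2
import Pool.Agent.H442R2.KF.Kfb
import Pool.Agent.H442R2.KF.Pc

/-!
Task BLK (helper885): two blocks of different sizes.
-/

set_option autoImplicit false

namespace Pool.Agent.H262R4.TM

open Finset Filter Topology MeasureTheory Complex
open Pool.Agent.H442R2.KF (e kf tau Wei FF Ker2 PL kf_of_inv norm_kf kf_recip primes_dyadic)

noncomputable section

namespace TBLK

theorem kf_pad (b : ℤ) (q1 q2 m n : ℕ) (hq1 : 0 < q1) (hq2 : 0 < q2) (hn : 0 < n)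
    (hc : Nat.Coprime (q1 * m) (q2 * n)) :
    kf (b * ((q1 : ℤ) * q2)) ((q1 * m : ℕ) : ℤ) (q2 * n) = kf b m n := by
  have hc' : IsCoprime ((q1 * m : ℕ) : ℤ) ((q2 * n : ℕ) : ℤ) := Nat.isCoprime_iff_coprime.2 hc
  obtain ⟨x, y, hxy⟩ := hc'
  have hpos : 0 < q2 * n := Nat.mul_pos hq2 hn
  have h1 : ((((q1 * m : ℕ) : ℤ) * x : ℤ) : ZMod (q2 * n)) = 1 := by
    have h2 : (((q1 * m : ℕ) : ℤ) * x : ℤ) = 1 - y * ((q2 * n : ℕ) : ℤ) := by
      linear_combination hxy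
    rw [h2, Int.cast_sub, Int.cast_mul, Int.cast_natCast (q2 * n), ZMod.natCast_self, mul_zero,
      sub_zero, Int.cast_one]
  have h3 : (((m : ℤ) * ((q1 : ℤ) * x) : ℤ) : ZMod n) = 1 := by
    have h2 : ((m : ℤ) * ((q1 : ℤ) * x) : ℤ) = 1 - (y * q2) * ((n : ℕ) : ℤ) := by
      push_cast at hxy ⊢
      linear_combination hxy
    rw [h2, Int.cast_sub, Int.cast_mul, Int.cast_natCast n, ZMod.natCast_self, mul_zero,
      sub_zero, Int.cast_one]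
  rw [kf_of_inv (q2 * n) hpos _ _ x h1, kf_of_inv n hn _ _ ((q1 : ℤ) * x) h3]
  congr 1
  have hq2r : (q2 : ℝ) ≠ 0 := by exact_mod_cast hq2.ne'
  have hnr : (n : ℝ) ≠ 0 := by exact_mod_cast hn.ne'
  push_cast
  field_simp

theorem pad_sum (S A : Finset ℕ) (q : ℕ) (hq : 0 < q) (hA : ∀ m ∈ A, q * m ∈ S) (f : ℕ → ℂ) :
    ∑ m' ∈ S, (if q ∣ m' ∧ m' / q ∈ A then f m' else 0) = ∑ m ∈ A, f (q * m) := by
  rw [← sum_filter]
  have h1 : S.filter (fun m' => q ∣ m' ∧ m' / q ∈ A) = A.image (fun m => q * m) := by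
    ext m'
    simp only [mem_filter, mem_image]
    constructor
    · rintro ⟨-, ⟨c, rfl⟩, hc⟩
      rw [Nat.mul_div_cancel_left _ hq] at hc
      exact ⟨c, hc, rfl⟩
    · rintro ⟨c, hc, rfl⟩
      exact ⟨hA c hc, Dvd.intro _ rfl, by rwa [Nat.mul_div_cancel_left _ hq]⟩
  rw [h1, sum_image]
  intro a _ b _ hab
  exact Nat.eq_of_mul_eq_mul_left hq hab

theorem wei_pad (H K q1 q2 M : ℕ) (V : ℝ) (hV : 1 ≤ V) (ψ : ℝ → ℂ)
    (hψ : Wx ((H : ℝ) * K / 2) V ψ) (hH : 1 ≤ H) (hK : 1 ≤ K) (hq1 : 1 ≤ q1) (hq2 : 1 ≤ q2)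
    (h1 : q1 * q2 * (H * K) ≤ 2 * M ^ 2) (h2 : M ^ 2 ≤ q1 * q2 * (H * K)) :
    Wei M (2 * V) (fun s => ψ (s / ((q1 : ℝ) * q2))) := by
  have hHr : (1 : ℝ) ≤ H := by exact_mod_cast hH
  have hKr : (1 : ℝ) ≤ K := by exact_mod_cast hK
  have hq1r : (1 : ℝ) ≤ q1 := by exact_mod_cast hq1
  have hq2r : (1 : ℝ) ≤ q2 := by exact_mod_cast hq2
  have hqq : (0 : ℝ) < (q1 : ℝ) * q2 := by positivity
  have hHK : (0 : ℝ) < (H : ℝ) * K := by positivity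
  have h1r : (q1 : ℝ) * q2 * (H * K) ≤ 2 * (M : ℝ) ^ 2 := by exact_mod_cast h1
  have h2r : (M : ℝ) ^ 2 ≤ (q1 : ℝ) * q2 * (H * K) := by exact_mod_cast h2
  have hM : (0 : ℝ) < (M : ℝ) ^ 2 := by nlinarith
  have hs : ∀ s : ℝ, (M : ℝ) ^ 2 ≤ s → (H : ℝ) * K / 2 ≤ s / ((q1 : ℝ) * q2) := by
    intro s hs
    rw [le_div_iff₀ hqq]
    nlinarith
  refine ⟨fun s h => hψ.bd _ (hs s h), fun s s' h h' => ?_⟩
  refine (hψ.lip _ _ (hs s h) (hs s' h')).trans ?_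
  rw [← sub_div, abs_div, abs_of_pos hqq]
  have e1 : V * (|s - s'| / ((q1 : ℝ) * q2)) / ((H : ℝ) * K / 2) =
      2 * V * |s - s'| / ((q1 : ℝ) * q2 * (H * K)) := by
    field_simp
  rw [e1]
  gcongr

/-- the conclusion of `P_TRI2` -/
def Tri (δ' η' C' : ℝ) : Prop := ∀ (M J q : ℕ), 1 ≤ M → 1 ≤ J → 1 ≤ q →
    (J : ℝ) * q ≤ (M : ℝ) ^ (1 / 14 - δ') →
    ∀ V : ℝ, 1 ≤ V → ∀ ψ : ℕ → ℝ → ℂ, (∀ j, Wei M V (ψ j)) →
    ∀ k : ℤ, k ≠ 0 → (q : ℤ) ∣ k → |(k : ℝ)| * J ≤ V * (M : ℝ) ^ 2 →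
    ∀ α β : ℕ → ℂ, (∀ m, ‖α m‖ ≤ 1) → (∀ n, ‖β n‖ ≤ 1) → (∀ m, ¬ q ∣ m → α m = 0) →
    ‖∑ m ∈ Ioc M (2 * M + 1), ∑ n ∈ (Ioc M (2 * M + 1)).filter (fun n => Nat.Coprime m n),
      α m * β n * FF ψ k J n m‖ ≤ C' * V ^ 2 * (M : ℝ) ^ (2 - η') / q

theorem FF_pad (ψ : ℕ → ℝ → ℂ) (σ : ℤ) (J q1 q2 m n : ℕ) (hq1 : 0 < q1) (hq2 : 0 < q2)
    (hn : 0 < n) (hc : Nat.Coprime (q1 * m) (q2 * n)) :
    FF (fun j s => ψ j (s / ((q1 : ℝ) * q2))) (σ * ((q1 : ℤ) * q2)) J (q2 * n) (q1 * m) =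
      ∑ j ∈ Icc 1 J, ψ j ((m : ℝ) * n) * kf (σ * j) m n := by
  unfold FF
  refine sum_congr rfl fun j _ => ?_
  have hq1r : (q1 : ℝ) ≠ 0 := by exact_mod_cast hq1.ne'
  have hq2r : (q2 : ℝ) ≠ 0 := by exact_mod_cast hq2.ne'
  have e1 : (((q1 * m : ℕ) : ℝ) * ((q2 * n : ℕ) : ℝ)) / ((q1 : ℝ) * q2) = (m : ℝ) * n := by
    push_cast
    field_simp
  dsimp only
  rw [e1, show (j : ℤ) * (σ * ((q1 : ℤ) * q2)) = (σ * j) * ((q1 : ℤ) * q2) by ring,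
    kf_pad (σ * j) q1 q2 m n hq1 hq2 hn hc]

theorem cls_bound (δ' η' C' : ℝ) (hT : Tri δ' η' C')
    (H K J q1 q2 : ℕ) (hH : 1 ≤ H) (hK : 1 ≤ K) (hJ : 1 ≤ J) (hq1 : q1.Prime) (hq2 : q2.Prime)
    (hne : q1 ≠ q2) (h7 : 7 * (q2 * K) ≤ 10 * (q1 * H)) (h15 : 2 * (q1 * H) ≤ 3 * (q2 * K))
    (M : ℕ) (hM : M = min (q1 * H) (q2 * K))
    (hJq : (J : ℝ) * q1 ≤ (M : ℝ) ^ (1 / 14 - δ'))
    (hJHK : J ≤ H * K) (V : ℝ) (hV : 1 ≤ V) (ψ : ℕ → ℝ → ℂ)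
    (hψ : ∀ j, Wx ((H : ℝ) * K / 2) V (ψ j)) (σ : ℤ) (hσ : σ = 1 ∨ σ = -1) (α β : ℕ → ℂ)
    (hα : ∀ m, ‖α m‖ ≤ 1) (hβ : ∀ n, ‖β n‖ ≤ 1) (A B : Finset ℕ)
    (hA : ∀ m ∈ A, H < m ∧ 4 * m ≤ 5 * H ∧ ¬ q2 ∣ m)
    (hB : ∀ n ∈ B, K < n ∧ 4 * n ≤ 5 * K ∧ ¬ q1 ∣ n) :
    ‖∑ m ∈ A, ∑ n ∈ B.filter (fun n => Nat.Coprime m n),
      α m * β n * ∑ j ∈ Icc 1 J, ψ j ((m : ℝ) * n) * kf (σ * j) m n‖ ≤
      C' * (2 * V) ^ 2 * (M : ℝ) ^ (2 - η') / q1 := by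
  have hq1p : 0 < q1 := hq1.pos
  have hq2p : 0 < q2 := hq2.pos
  have a1 : 1 ≤ q1 * H := Nat.mul_pos hq1p hH
  have a2 : 1 ≤ q2 * K := Nat.mul_pos hq2p hK
  have hMa : M ≤ q1 * H := by rw [hM]; exact min_le_left _ _
  have hMb : M ≤ q2 * K := by rw [hM]; exact min_le_right _ _
  have hMc : 2 * (q1 * H) ≤ 3 * M ∧ 2 * (q2 * K) ≤ 3 * M := by
    rw [hM]
    rcases le_total (q1 * H) (q2 * K) with h | h
    · rw [min_eq_left h]; omega
    · rw [min_eq_right h]; omega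
  have hM1 : 1 ≤ M := by omega
  have hprod : q1 * q2 * (H * K) = (q1 * H) * (q2 * K) := by ring
  have h1 : q1 * q2 * (H * K) ≤ 2 * M ^ 2 := by
    rw [hprod]
    have e : 4 * ((q1 * H) * (q2 * K)) ≤ (3 * M) * (3 * M) * 1 := by
      rcases le_total (q1 * H) (q2 * K) with h | h
      · have : M = q1 * H := by rw [hM, min_eq_left h]
        rw [← this]
        nlinarith [hMc.2]
      · have : M = q2 * K := by rw [hM, min_eq_right h]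
        rw [← this]
        nlinarith [hMc.1]
    rcases le_total (q1 * H) (q2 * K) with h | h
    · have : M = q1 * H := by rw [hM, min_eq_left h]
      rw [← this]
      nlinarith [hMc.2]
    · have : M = q2 * K := by rw [hM, min_eq_right h]
      rw [← this]
      nlinarith [hMc.1]
  have h2 : M ^ 2 ≤ q1 * q2 * (H * K) := by
    rw [hprod, sq]
    exact Nat.mul_le_mul hMa hMb
  have hW : ∀ j, Wei M (2 * V) ((fun j s => ψ j (s / ((q1 : ℝ) * q2))) j) := fun j =>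
    wei_pad H K q1 q2 M V hV (ψ j) (hψ j) hH hK hq1p hq2p h1 h2
  have hk0 : σ * ((q1 : ℤ) * q2) ≠ 0 := by
    have b1 : (q1 : ℤ) ≠ 0 := by exact_mod_cast hq1p.ne'
    have b2 : (q2 : ℤ) ≠ 0 := by exact_mod_cast hq2p.ne'
    have b3 : σ ≠ 0 := by rcases hσ with h | h <;> rw [h] <;> norm_num
    exact mul_ne_zero b3 (mul_ne_zero b1 b2)
  have hkd : (q1 : ℤ) ∣ σ * ((q1 : ℤ) * q2) := ⟨σ * q2, by ring⟩
  have hkJ : |((σ * ((q1 : ℤ) * q2) : ℤ) : ℝ)| * J ≤ 2 * V * (M : ℝ) ^ 2 := by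
    have b1 : |((σ * ((q1 : ℤ) * q2) : ℤ) : ℝ)| = (q1 : ℝ) * q2 := by
      rcases hσ with h | h <;> rw [h]
      · push_cast
        rw [one_mul]
        exact abs_of_nonneg (by positivity)
      · push_cast
        rw [neg_one_mul, abs_neg]
        exact abs_of_nonneg (by positivity)
    rw [b1]
    have b2 : (q1 : ℝ) * q2 * (H * K) ≤ 2 * (M : ℝ) ^ 2 := by exact_mod_cast h1
    have b3 : (J : ℝ) ≤ (H : ℝ) * K := by exact_mod_cast hJHK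
    calc (q1 : ℝ) * q2 * J ≤ (q1 : ℝ) * q2 * (H * K) := by gcongr
      _ ≤ 2 * (M : ℝ) ^ 2 := b2
      _ ≤ 2 * V * (M : ℝ) ^ 2 := by
        have : 0 ≤ (M : ℝ) ^ 2 := by positivity
        nlinarith
  have key := hT M J q1 hM1 hJ hq1p hJq (2 * V) (by linarith)
    (fun j s => ψ j (s / ((q1 : ℝ) * q2))) hW (σ * ((q1 : ℤ) * q2)) hk0 hkd hkJ
    (fun m' => if q1 ∣ m' ∧ m' / q1 ∈ A then α (m' / q1) else 0)
    (fun n' => if q2 ∣ n' ∧ n' / q2 ∈ B then β (n' / q2) else 0)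
    (by
      intro m'
      split_ifs
      · exact hα _
      · simp)
    (by
      intro n'
      split_ifs
      · exact hβ _
      · simp)
    (by
      intro m' hm'
      rw [if_neg]
      exact fun h => hm' h.1)
  have hAS : ∀ m ∈ A, q1 * m ∈ Ioc M (2 * M + 1) := by
    intro m hm
    obtain ⟨c1, c2, -⟩ := hA m hm
    rw [mem_Ioc]
    have d1 : q1 * H < q1 * m := Nat.mul_lt_mul_of_pos_left c1 hq1p
    have d2 : 4 * (q1 * m) ≤ 5 * (q1 * H) := by nlinarith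
    have d3 := hMc.1
    constructor <;> omega
  have hBS : ∀ n ∈ B, q2 * n ∈ Ioc M (2 * M + 1) := by
    intro n hn
    obtain ⟨c1, c2, -⟩ := hB n hn
    rw [mem_Ioc]
    have d1 : q2 * K < q2 * n := Nat.mul_lt_mul_of_pos_left c1 hq2p
    have d2 : 4 * (q2 * n) ≤ 5 * (q2 * K) := by nlinarith
    have d3 := hMc.2
    constructor <;> omega
  have hsum : ∑ m ∈ Ioc M (2 * M + 1), ∑ n ∈ (Ioc M (2 * M + 1)).filter
      (fun n => Nat.Coprime m n),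
      (if q1 ∣ m ∧ m / q1 ∈ A then α (m / q1) else 0) *
      (if q2 ∣ n ∧ n / q2 ∈ B then β (n / q2) else 0) *
      FF (fun j s => ψ j (s / ((q1 : ℝ) * q2))) (σ * ((q1 : ℤ) * q2)) J n m =
      ∑ m ∈ A, ∑ n ∈ B.filter (fun n => Nat.Coprime m n),
      α m * β n * ∑ j ∈ Icc 1 J, ψ j ((m : ℝ) * n) * kf (σ * j) m n := by
    have s1 : ∀ m' ∈ Ioc M (2 * M + 1), ∑ n ∈ (Ioc M (2 * M + 1)).filter
        (fun n => Nat.Coprime m' n),
        (if q1 ∣ m' ∧ m' / q1 ∈ A then α (m' / q1) else 0) *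
        (if q2 ∣ n ∧ n / q2 ∈ B then β (n / q2) else 0) *
        FF (fun j s => ψ j (s / ((q1 : ℝ) * q2))) (σ * ((q1 : ℤ) * q2)) J n m' =
        if q1 ∣ m' ∧ m' / q1 ∈ A then
          ∑ n ∈ Ioc M (2 * M + 1), (if q2 ∣ n ∧ n / q2 ∈ B then
            (if Nat.Coprime m' n then α (m' / q1) * β (n / q2) *
              FF (fun j s => ψ j (s / ((q1 : ℝ) * q2))) (σ * ((q1 : ℤ) * q2)) J n m' else 0)
            else 0)
        else 0 := by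
      intro m' _
      rw [sum_filter]
      split_ifs with hd
      · refine sum_congr rfl fun n _ => ?_
        split_ifs <;> simp
      · refine sum_eq_zero fun n _ => ?_
        split_ifs <;> simp
    rw [sum_congr rfl s1, pad_sum _ A q1 hq1p hAS (fun m' => ∑ n ∈ Ioc M (2 * M + 1),
      (if q2 ∣ n ∧ n / q2 ∈ B then
            (if Nat.Coprime m' n then α (m' / q1) * β (n / q2) *
              FF (fun j s => ψ j (s / ((q1 : ℝ) * q2))) (σ * ((q1 : ℤ) * q2)) J n m' else 0)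
            else 0))]
    refine sum_congr rfl fun m hm => ?_
    rw [pad_sum _ B q2 hq2p hBS (fun n => if Nat.Coprime (q1 * m) n then
      α (q1 * m / q1) * β (n / q2) *
        FF (fun j s => ψ j (s / ((q1 : ℝ) * q2))) (σ * ((q1 : ℤ) * q2)) J n (q1 * m) else 0)]
    rw [sum_filter]
    refine sum_congr rfl fun n hn => ?_
    obtain ⟨-, -, hm2⟩ := hA m hm
    obtain ⟨hnK, -, hn1⟩ := hB n hn
    have hn0 : 0 < n := by omega
    have hiff : Nat.Coprime (q1 * m) (q2 * n) ↔ Nat.Coprime m n := by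
      constructor
      · intro h
        exact Nat.Coprime.coprime_mul_left (Nat.Coprime.coprime_mul_left_right h)
      · intro h
        have g1 : Nat.Coprime q1 q2 := (Nat.coprime_primes hq1 hq2).2 hne
        have g2 : Nat.Coprime q1 n := (Nat.Prime.coprime_iff_not_dvd hq1).2 hn1
        have g3 : Nat.Coprime m q2 := ((Nat.Prime.coprime_iff_not_dvd hq2).2 hm2).symm
        exact Nat.Coprime.mul_left (Nat.Coprime.mul_right g1 g2) (Nat.Coprime.mul_right g3 h)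
    by_cases hc : Nat.Coprime m n
    · rw [if_pos (hiff.2 hc), if_pos hc, Nat.mul_div_cancel_left _ hq1p,
        Nat.mul_div_cancel_left _ hq2p, FF_pad ψ σ J q1 q2 m n hq1p hq2p hn0 (hiff.2 hc)]
    · rw [if_neg (fun h => hc (hiff.1 h)), if_neg hc]
  rw [hsum] at key
  exact key

theorem sel (P : Finset ℕ) (hP : ∀ q ∈ P, q.Prime) (N0 : ℕ) (hc : P.card = N0) (n : ℕ)
    (hn : 0 < n) (hlt : n < 2 ^ N0) : ∃ q ∈ P, ¬ q ∣ n := by
  by_contra hcon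
  push Not at hcon
  have h1 : ∏ p ∈ P, p ∣ n :=
    Finset.prod_primes_dvd n (fun q hq => Nat.prime_iff.1 (hP q hq)) hcon
  have h2 := Nat.le_of_dvd hn h1
  have h3 : 2 ^ P.card ≤ ∏ p ∈ P, p := by
    apply Finset.pow_card_le_prod
    intro q hq
    exact (hP q hq).two_le
  rw [hc] at h3
  omega

theorem split_sum (A B P : Finset ℕ) (f : ℕ → ℕ) (hf : ∀ n ∈ B, f n ∈ P) (g : ℕ → ℕ → ℂ) :
    ∑ m ∈ A, ∑ n ∈ B.filter (fun n => Nat.Coprime m n), g m n =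
      ∑ q ∈ P, ∑ m ∈ A, ∑ n ∈ (B.filter (fun n => f n = q)).filter (fun n => Nat.Coprime m n),
        g m n := by
  rw [sum_comm]
  refine sum_congr rfl fun m _ => ?_
  rw [← sum_fiberwise_of_maps_to (t := P) (g := f)
    (fun n hn => hf n (mem_filter.1 hn).1)]
  refine sum_congr rfl fun q _ => ?_
  rw [filter_filter, filter_filter]
  refine sum_congr ?_ fun _ _ => rfl
  ext n
  simp only [mem_filter]
  tauto

theorem case1 (δ' η' C' : ℝ) (hT : Tri δ' η' C') (hC' : 0 < C') (hη' : 0 < η')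
    (h14 : 0 ≤ 1 / 14 - δ') (H K J N0 Z : ℕ) (hH : 1 ≤ H) (hHK : H ≤ K) (hJ : 1 ≤ J)
    (hJK : J ≤ K) (hZ : 20 ≤ Z) (hN0 : 2 * K < 2 ^ N0)
    (hPL : ∀ w : ℕ, Z ≤ 2 * w → N0 + 1 ≤ (PL w).card)
    (hJZ : 4 * (Z : ℝ) * (J * (K / H)) ≤ (K : ℝ) ^ (1 / 14 - δ'))
    (V : ℝ) (hV : 1 ≤ V) (ψ : ℕ → ℝ → ℂ)
    (hψ : ∀ j, Wx ((H : ℝ) * K / 2) V (ψ j)) (σ : ℤ) (hσ : σ = 1 ∨ σ = -1) (α β : ℕ → ℂ)
    (hα : ∀ m, ‖α m‖ ≤ 1) (hβ : ∀ n, ‖β n‖ ≤ 1) :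
    ‖∑ m ∈ (Ioc H (2 * H)).filter (fun m => 4 * m ≤ 5 * H),
      ∑ n ∈ (Ioc K (2 * K)).filter (fun n => 4 * n ≤ 5 * K ∧ Nat.Coprime m n),
      α m * β n * ∑ j ∈ Icc 1 J, ψ j ((m : ℝ) * n) * kf (σ * j) m n‖ ≤
      (N0 : ℝ) * (N0 * (8 * C' * V ^ 2 * Z * (H * K) * (K : ℝ) ^ (-η'))) := by
  have hK : 1 ≤ K := le_trans hH hHK
  have hHr : (0 : ℝ) < H := by exact_mod_cast hH
  have hKr : (0 : ℝ) < K := by exact_mod_cast hK
  -- primes in the fixed window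
  obtain ⟨P2, hP2s, hP2c⟩ : ∃ P2 ⊆ PL Z, P2.card = N0 :=
    exists_subset_card_eq (le_trans (Nat.le_succ _) (hPL Z (by omega)))
  have hP2 : ∀ q ∈ P2, Z < q ∧ q ≤ 2 * Z ∧ q.Prime := by
    intro q hq
    have := hP2s hq
    rw [PL, mem_filter, mem_Ioc] at this
    exact ⟨this.1.1, this.1.2, this.2⟩
  -- primes in the variable window
  have hex : ∀ q2 : ℕ, ∃ P1 : Finset ℕ, q2 ∈ P2 → (P1.card = N0 ∧ ∀ q ∈ P1,
      7 * q2 * K / (10 * H) + 1 < q ∧ q ≤ 2 * (7 * q2 * K / (10 * H) + 1) ∧ q.Prime ∧ q ≠ q2) := by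
    intro q2
    by_cases hq2 : q2 ∈ P2
    · obtain ⟨c1, c2, c3⟩ := hP2 q2 hq2
      have hw : Z ≤ 2 * (7 * q2 * K / (10 * H) + 1) := by
        have h1 : 7 * q2 * K < (10 * H) * (7 * q2 * K / (10 * H) + 1) :=
          Nat.lt_mul_div_succ _ (by omega)
        have h2 : 7 * q2 * H ≤ 7 * q2 * K := Nat.mul_le_mul_left _ hHK
        have h3 : H * (7 * q2) < H * (10 * (7 * q2 * K / (10 * H) + 1)) := by
          calc H * (7 * q2) = 7 * q2 * H := by ring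
            _ ≤ 7 * q2 * K := h2
            _ < (10 * H) * (7 * q2 * K / (10 * H) + 1) := h1
            _ = _ := by ring
        have h4 := Nat.lt_of_mul_lt_mul_left h3
        omega
      have h5 := hPL _ hw
      have h6 : N0 ≤ ((PL (7 * q2 * K / (10 * H) + 1)).erase q2).card := by
        have := pred_card_le_card_erase (s := PL (7 * q2 * K / (10 * H) + 1)) (a := q2)
        omega
      obtain ⟨P1, hs, hc⟩ := exists_subset_card_eq h6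
      refine ⟨P1, fun _ => ⟨hc, fun q hq => ?_⟩⟩
      have := hs hq
      rw [mem_erase, PL, mem_filter, mem_Ioc] at this
      exact ⟨this.2.1.1, this.2.1.2, this.2.2, this.1⟩
    · exact ⟨∅, fun h => absurd h hq2⟩
  choose P1 hP1 using hex
  set A0 := (Ioc H (2 * H)).filter (fun m => 4 * m ≤ 5 * H) with hA0
  set B0 := (Ioc K (2 * K)).filter (fun n => 4 * n ≤ 5 * K) with hB0
  have hA0' : ∀ m ∈ A0, H < m ∧ m ≤ 2 * H ∧ 4 * m ≤ 5 * H := by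
    intro m hm
    rw [hA0, mem_filter, mem_Ioc] at hm
    exact ⟨hm.1.1, hm.1.2, hm.2⟩
  have hB0' : ∀ n ∈ B0, K < n ∧ n ≤ 2 * K ∧ 4 * n ≤ 5 * K := by
    intro m hm
    rw [hB0, mem_filter, mem_Ioc] at hm
    exact ⟨hm.1.1, hm.1.2, hm.2⟩
  have hf2 : ∀ m : ℕ, ∃ q : ℕ, m ∈ A0 → (q ∈ P2 ∧ ¬ q ∣ m) := by
    intro m
    by_cases hm : m ∈ A0
    · obtain ⟨c1, c2, c3⟩ := hA0' m hm
      obtain ⟨q, hq, hqm⟩ := sel P2 (fun q hq => (hP2 q hq).2.2) N0 hP2c m (by omega) (by omega)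
      exact ⟨q, fun _ => ⟨hq, hqm⟩⟩
    · exact ⟨0, fun h => absurd h hm⟩
  choose f2 hf2 using hf2
  have hf1 : ∀ q2 n : ℕ, ∃ q : ℕ, q2 ∈ P2 → n ∈ B0 → (q ∈ P1 q2 ∧ ¬ q ∣ n) := by
    intro q2 n
    by_cases hm : q2 ∈ P2 ∧ n ∈ B0
    · obtain ⟨c1, c2, c3⟩ := hB0' n hm.2
      obtain ⟨q, hq, hqm⟩ := sel (P1 q2) (fun q hq => ((hP1 q2 hm.1).2 q hq).2.2.1) N0
        (hP1 q2 hm.1).1 n (by omega) (by omega)
      exact ⟨q, fun _ _ => ⟨hq, hqm⟩⟩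
    · exact ⟨0, fun h h' => absurd ⟨h, h'⟩ hm⟩
  choose f1 hf1 using hf1
  -- decomposition
  have e1 : ∑ m ∈ A0, ∑ n ∈ (Ioc K (2 * K)).filter (fun n => 4 * n ≤ 5 * K ∧ Nat.Coprime m n),
      α m * β n * ∑ j ∈ Icc 1 J, ψ j ((m : ℝ) * n) * kf (σ * j) m n =
      ∑ q2 ∈ P2, ∑ q1 ∈ P1 q2, ∑ m ∈ A0.filter (fun m => f2 m = q2),
        ∑ n ∈ (B0.filter (fun n => f1 q2 n = q1)).filter (fun n => Nat.Coprime m n),
        α m * β n * ∑ j ∈ Icc 1 J, ψ j ((m : ℝ) * n) * kf (σ * j) m n := by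
    have s1 : ∀ m ∈ A0, ∑ n ∈ (Ioc K (2 * K)).filter (fun n => 4 * n ≤ 5 * K ∧ Nat.Coprime m n),
        α m * β n * ∑ j ∈ Icc 1 J, ψ j ((m : ℝ) * n) * kf (σ * j) m n =
        ∑ n ∈ B0.filter (fun n => Nat.Coprime m n),
        α m * β n * ∑ j ∈ Icc 1 J, ψ j ((m : ℝ) * n) * kf (σ * j) m n := by
      intro m _
      rw [hB0, filter_filter]
    rw [sum_congr rfl s1, ← sum_fiberwise_of_maps_to (t := P2) (g := f2)
      (fun m hm => (hf2 m hm).1)]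
    refine sum_congr rfl fun q2 hq2 => ?_
    exact split_sum _ B0 (P1 q2) (f1 q2) (fun n hn => (hf1 q2 n hq2 hn).1) _
  rw [e1]
  refine (norm_sum_le _ _).trans ?_
  have hbd : ∀ q2 ∈ P2, ∀ q1 ∈ P1 q2, ‖∑ m ∈ A0.filter (fun m => f2 m = q2),
        ∑ n ∈ (B0.filter (fun n => f1 q2 n = q1)).filter (fun n => Nat.Coprime m n),
        α m * β n * ∑ j ∈ Icc 1 J, ψ j ((m : ℝ) * n) * kf (σ * j) m n‖ ≤
        8 * C' * V ^ 2 * Z * (H * K) * (K : ℝ) ^ (-η') := by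
    intro q2 hq2 q1 hq1
    obtain ⟨c1, c2, c3⟩ := hP2 q2 hq2
    obtain ⟨d1, d2, d3, d4⟩ := (hP1 q2 hq2).2 q1 hq1
    have w1 : 7 * q2 * K < (10 * H) * (7 * q2 * K / (10 * H) + 1) :=
      Nat.lt_mul_div_succ _ (by omega)
    have w2 : (10 * H) * (7 * q2 * K / (10 * H)) ≤ 7 * q2 * K := Nat.mul_div_le _ _
    have w3 : (10 * H) * (7 * q2 * K / (10 * H) + 1) ≤ 7 * q2 * K + 10 * H := by
      rw [mul_add, mul_one]
      omega
    generalize 7 * q2 * K / (10 * H) + 1 = w at d1 d2 w1 w3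
    have h7 : 7 * (q2 * K) ≤ 10 * (q1 * H) := by
      have : (10 * H) * w ≤ (10 * H) * q1 := Nat.mul_le_mul_left _ d1.le
      nlinarith
    have h20 : 20 * K ≤ q2 * K := Nat.mul_le_mul_right _ (by omega)
    have h15' : 10 * (q1 * H) ≤ 15 * (q2 * K) := by
      have : (10 * H) * q1 ≤ (10 * H) * (2 * w) := Nat.mul_le_mul_left _ d2
      nlinarith
    have h15 : 2 * (q1 * H) ≤ 3 * (q2 * K) := by omega
    obtain ⟨M, hM⟩ : ∃ M : ℕ, M = min (q1 * H) (q2 * K) := ⟨_, rfl⟩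
    have hMK : K ≤ M := by
      rw [hM]
      apply le_min
      · omega
      · omega
    have hMa : M ≤ q1 * H := by rw [hM]; exact min_le_left _ _
    have hMb : M ≤ q2 * K := by rw [hM]; exact min_le_right _ _
    have hMKr : (K : ℝ) ≤ M := by exact_mod_cast hMK
    have hM0 : (0 : ℝ) < M := lt_of_lt_of_le hKr hMKr
    have hq1r : (0 : ℝ) < q1 := by exact_mod_cast d3.pos
    have hJq : (J : ℝ) * q1 ≤ (M : ℝ) ^ (1 / 14 - δ') := by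
      have t1 : (q1 : ℝ) * H ≤ 4 * Z * K := by
        have t2 : 10 * (q1 * H) ≤ 40 * Z * K := by
          have : q2 * K ≤ 2 * Z * K := Nat.mul_le_mul_right _ c2
          nlinarith
        have t3 : (10 : ℝ) * ((q1 : ℝ) * H) ≤ 40 * Z * K := by exact_mod_cast t2
        linarith
      have t4 : (q1 : ℝ) ≤ 4 * Z * (K / H) := by
        rw [← mul_div_assoc, le_div_iff₀ hHr]
        exact t1
      calc (J : ℝ) * q1 ≤ J * (4 * Z * (K / H)) := by gcongr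
        _ = 4 * (Z : ℝ) * (J * (K / H)) := by ring
        _ ≤ (K : ℝ) ^ (1 / 14 - δ') := hJZ
        _ ≤ (M : ℝ) ^ (1 / 14 - δ') := Real.rpow_le_rpow hKr.le hMKr h14
    have hJHK : J ≤ H * K := le_trans hJK (Nat.le_mul_of_pos_left _ hH)
    have key := cls_bound δ' η' C' hT H K J q1 q2 hH hK hJ d3 c3 d4 h7 h15 M hM hJq hJHK V hV ψ hψ
      σ hσ α β hα hβ (A0.filter (fun m => f2 m = q2)) (B0.filter (fun n => f1 q2 n = q1))
      (by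
        intro m hm
        rw [mem_filter] at hm
        obtain ⟨a1, a2, a3⟩ := hA0' m hm.1
        refine ⟨a1, a3, ?_⟩
        rw [← hm.2]
        exact (hf2 m hm.1).2)
      (by
        intro n hn
        rw [mem_filter] at hn
        obtain ⟨a1, a2, a3⟩ := hB0' n hn.1
        refine ⟨a1, a3, ?_⟩
        rw [← hn.2]
        exact (hf1 q2 n hq2 hn.1).2)
    refine key.trans ?_
    have u1 : (M : ℝ) ^ (2 - η') = (M : ℝ) ^ 2 * (M : ℝ) ^ (-η') := by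
      rw [sub_eq_add_neg, Real.rpow_add hM0, Real.rpow_two]
    have u2 : (M : ℝ) ^ (-η') ≤ (K : ℝ) ^ (-η') :=
      Real.rpow_le_rpow_of_nonpos hKr hMKr (by linarith)
    have u3 : (M : ℝ) ^ 2 ≤ q1 * (2 * Z * (H * K)) := by
      have v1 : M ^ 2 ≤ (q1 * H) * (q2 * K) := by
        rw [sq]
        exact Nat.mul_le_mul hMa hMb
      have v2 : (q1 * H) * (q2 * K) ≤ (q1 * H) * (2 * Z * K) :=
        Nat.mul_le_mul_left _ (Nat.mul_le_mul_right _ c2)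
      have v3 : M ^ 2 ≤ q1 * (2 * Z * (H * K)) := by
        calc M ^ 2 ≤ (q1 * H) * (2 * Z * K) := v1.trans v2
          _ = _ := by ring
      exact_mod_cast v3
    have u4 : (0 : ℝ) < (K : ℝ) ^ (-η') := Real.rpow_pos_of_pos hKr _
    rw [u1, div_le_iff₀ hq1r]
    calc C' * (2 * V) ^ 2 * ((M : ℝ) ^ 2 * (M : ℝ) ^ (-η')) ≤
        C' * (2 * V) ^ 2 * ((q1 * (2 * Z * (H * K))) * (K : ℝ) ^ (-η')) := by gcongr
      _ = 8 * C' * V ^ 2 * Z * (H * K) * (K : ℝ) ^ (-η') * q1 := by ring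
  calc ∑ q2 ∈ P2, ‖∑ q1 ∈ P1 q2, ∑ m ∈ A0.filter (fun m => f2 m = q2),
        ∑ n ∈ (B0.filter (fun n => f1 q2 n = q1)).filter (fun n => Nat.Coprime m n),
        α m * β n * ∑ j ∈ Icc 1 J, ψ j ((m : ℝ) * n) * kf (σ * j) m n‖ ≤
      ∑ q2 ∈ P2, (N0 : ℝ) * (8 * C' * V ^ 2 * Z * (H * K) * (K : ℝ) ^ (-η')) := by
        refine sum_le_sum fun q2 hq2 => ?_
        refine (norm_sum_le _ _).trans ((sum_le_sum (hbd q2 hq2)).trans ?_)
        rw [sum_const, (hP1 q2 hq2).1, nsmul_eq_mul]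
    _ = _ := by rw [sum_const, hP2c, nsmul_eq_mul]

theorem params (c δ0 η' : ℝ) (hc : 0 < c) (hδ : 0 < δ0) (hη : 0 < η') :
    ∃ K0 : ℕ, 1 ≤ K0 ∧ ∀ K : ℕ, K0 ≤ K → ∃ N0 Z : ℕ, 20 ≤ Z ∧ 2 * K < 2 ^ N0 ∧
      (∀ w : ℕ, Z ≤ 2 * w → (N0 : ℝ) + 1 ≤ c * (w : ℝ) ^ (1 - 1 / 2 : ℝ)) ∧
      4 * (Z : ℝ) ≤ (K : ℝ) ^ (δ0 / 2) ∧ (N0 : ℝ) ^ 2 * Z ≤ (K : ℝ) ^ (η' / 2) := by
  obtain ⟨c1, hc1⟩ : ∃ c1 : ℝ, c1 = min c 1 := ⟨_, rfl⟩
  have hc10 : 0 < c1 := by rw [hc1]; exact lt_min hc one_pos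
  have hc1c : c1 ≤ c := by rw [hc1]; exact min_le_left _ _
  have hc11 : c1 ≤ 1 := by rw [hc1]; exact min_le_right _ _
  obtain ⟨s, hs⟩ : ∃ s : ℝ, s = min (δ0 / 8) (η' / 16) := ⟨_, rfl⟩
  have hs0 : 0 < s := by rw [hs]; exact lt_min (by linarith) (by linarith)
  have hs1 : s ≤ δ0 / 8 := by rw [hs]; exact min_le_left _ _
  have hs2 : s ≤ η' / 16 := by rw [hs]; exact min_le_right _ _
  have E1 : ∀ᶠ x : ℝ in atTop, Real.log x ≤ c1 / 16 * x ^ s := by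
    have h1 := (isLittleO_log_rpow_atTop hs0).bound (show 0 < c1 / 16 by positivity)
    filter_upwards [h1, eventually_ge_atTop 1] with x hx hx1
    rw [Real.norm_of_nonneg (Real.log_nonneg hx1),
      Real.norm_of_nonneg (Real.rpow_nonneg (by linarith) _)] at hx
    exact hx
  have E2 : ∀ᶠ x : ℝ in atTop, 24 / c1 + 10 ≤ x ^ s :=
    (tendsto_rpow_atTop hs0).eventually_ge_atTop _
  obtain ⟨X0, hX0⟩ := ((E1.and E2).and (eventually_ge_atTop (1 : ℝ))).exists_forall_of_atTop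
  refine ⟨⌈X0⌉₊ + 1, by omega, fun K hK => ?_⟩
  have hKX : X0 ≤ (K : ℝ) := by
    have h1 : X0 ≤ (⌈X0⌉₊ : ℝ) := Nat.le_ceil _
    have h2 : ((⌈X0⌉₊ : ℕ) : ℝ) ≤ (K : ℝ) := by
      have : ⌈X0⌉₊ ≤ K := by omega
      exact_mod_cast this
    linarith
  obtain ⟨⟨f1, f2⟩, f3⟩ := hX0 (K : ℝ) hKX
  have hKpos : (0 : ℝ) < K := by linarith
  obtain ⟨y, hy⟩ : ∃ y : ℝ, y = (K : ℝ) ^ s := ⟨_, rfl⟩
  rw [← hy] at f1 f2
  have hcinv : 0 < 24 / c1 := by positivity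
  have hy10 : 10 ≤ y := by linarith
  have hy24 : 24 ≤ c1 * y := by
    have : 24 / c1 ≤ y := by linarith
    rw [div_le_iff₀ hc10] at this
    linarith
  have hypow : ∀ n : ℕ, y ^ n = (K : ℝ) ^ (s * n) := by
    intro n
    rw [hy, Real.rpow_mul hKpos.le, Real.rpow_natCast]
  refine ⟨Nat.log 2 (2 * K) + 1, ⌈y ^ 2⌉₊ + 20, by omega,
    Nat.lt_pow_succ_log_self (by norm_num) _, ?_, ?_, ?_⟩
  · intro w hw
    have hN : ((Nat.log 2 (2 * K) + 1 : ℕ) : ℝ) + 1 ≤ c1 / 4 * y := by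
      have h2K : (2 * K : ℕ) ≠ 0 := by
        have : 0 < K := by omega
        omega
      have h1 : ((2 ^ Nat.log 2 (2 * K) : ℕ) : ℝ) ≤ ((2 * K : ℕ) : ℝ) := by
        exact_mod_cast Nat.pow_log_le_self 2 h2K
      push_cast at h1
      have h3 : (Nat.log 2 (2 * K) : ℝ) * Real.log 2 ≤ Real.log 2 + Real.log K := by
        rw [← Real.log_pow, ← Real.log_mul (by norm_num) hKpos.ne']
        exact Real.log_le_log (by positivity) h1
      have h4 : (0.69 : ℝ) < Real.log 2 := by linarith [Real.log_two_gt_d9]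
      have h5 : 0 ≤ Real.log K := Real.log_nonneg f3
      have h6 : (Nat.log 2 (2 * K) : ℝ) ≤ 1 + 2 * Real.log K := by
        by_contra hcon
        push Not at hcon
        have : (1 + 2 * Real.log K) * Real.log 2 < (Nat.log 2 (2 * K) : ℝ) * Real.log 2 :=
          mul_lt_mul_of_pos_right hcon (by linarith)
        nlinarith
      push_cast
      linarith
    have hw1 : y ^ 2 ≤ 2 * (w : ℝ) := by
      have h1 : y ^ 2 ≤ (⌈y ^ 2⌉₊ : ℝ) := Nat.le_ceil _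
      have h2 : ((⌈y ^ 2⌉₊ + 20 : ℕ) : ℝ) ≤ ((2 * w : ℕ) : ℝ) := by exact_mod_cast hw
      push_cast at h2
      linarith
    have hw2 : y / 2 ≤ (w : ℝ) ^ (1 - 1 / 2 : ℝ) := by
      rw [show (1 - 1 / 2 : ℝ) = 1 / 2 by norm_num, ← Real.sqrt_eq_rpow]
      apply Real.le_sqrt_of_sq_le
      nlinarith
    calc ((Nat.log 2 (2 * K) + 1 : ℕ) : ℝ) + 1 ≤ c1 / 4 * y := hN
      _ ≤ c * (y / 2) := by nlinarith
      _ ≤ c * (w : ℝ) ^ (1 - 1 / 2 : ℝ) := by gcongr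
  · have hZ : ((⌈y ^ 2⌉₊ + 20 : ℕ) : ℝ) ≤ y ^ 2 + 21 := by
      have := Nat.ceil_lt_add_one (show 0 ≤ y ^ 2 by positivity)
      push_cast
      linarith
    have h1 : (K : ℝ) ^ (s * (4 : ℕ)) ≤ (K : ℝ) ^ (δ0 / 2) := by
      apply Real.rpow_le_rpow_of_exponent_le f3
      push_cast
      linarith
    rw [← hypow] at h1
    have h2 : 4 * (y ^ 2 + 21) ≤ y ^ 4 := by nlinarith [sq_nonneg (y ^ 2 - 100), sq_nonneg y]
    linarith
  · have hZ : ((⌈y ^ 2⌉₊ + 20 : ℕ) : ℝ) ≤ y ^ 2 + 21 := by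
      have := Nat.ceil_lt_add_one (show 0 ≤ y ^ 2 by positivity)
      push_cast
      linarith
    have hN : ((Nat.log 2 (2 * K) + 1 : ℕ) : ℝ) ≤ y := by
      have h2K : (2 * K : ℕ) ≠ 0 := by
        have : 0 < K := by omega
        omega
      have h1 : ((2 ^ Nat.log 2 (2 * K) : ℕ) : ℝ) ≤ ((2 * K : ℕ) : ℝ) := by
        exact_mod_cast Nat.pow_log_le_self 2 h2K
      push_cast at h1
      have h3 : (Nat.log 2 (2 * K) : ℝ) * Real.log 2 ≤ Real.log 2 + Real.log K := by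
        rw [← Real.log_pow, ← Real.log_mul (by norm_num) hKpos.ne']
        exact Real.log_le_log (by positivity) h1
      have h4 : (0.69 : ℝ) < Real.log 2 := by linarith [Real.log_two_gt_d9]
      have h5 : 0 ≤ Real.log K := Real.log_nonneg f3
      have h6 : (Nat.log 2 (2 * K) : ℝ) ≤ 1 + 2 * Real.log K := by
        by_contra hcon
        push Not at hcon
        have : (1 + 2 * Real.log K) * Real.log 2 < (Nat.log 2 (2 * K) : ℝ) * Real.log 2 :=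
          mul_lt_mul_of_pos_right hcon (by linarith)
        nlinarith
      push_cast
      nlinarith
    have h1 : (K : ℝ) ^ (s * (8 : ℕ)) ≤ (K : ℝ) ^ (η' / 2) := by
      apply Real.rpow_le_rpow_of_exponent_le f3
      push_cast
      linarith
    rw [← hypow] at h1
    have h0 : (0 : ℝ) ≤ ((Nat.log 2 (2 * K) + 1 : ℕ) : ℝ) := Nat.cast_nonneg _
    calc ((Nat.log 2 (2 * K) + 1 : ℕ) : ℝ) ^ 2 * ((⌈y ^ 2⌉₊ + 20 : ℕ) : ℝ) ≤
          y ^ 2 * (y ^ 2 + 21) := by gcongr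
      _ ≤ y ^ 2 * y ^ 6 := by
          have : y ^ 2 + 21 ≤ y ^ 6 := by
            have h3 : (1 : ℝ) ≤ y := by linarith
            have h4 : y ^ 4 ≤ y ^ 6 := pow_le_pow_right₀ h3 (by norm_num)
            nlinarith [sq_nonneg (y ^ 2 - 100), sq_nonneg y]
          gcongr
      _ = y ^ 8 := by ring
      _ ≤ _ := h1

theorem trivial_bound (H K J : ℕ) (hH : 1 ≤ H) (hK : 1 ≤ K) (V : ℝ) (ψ : ℕ → ℝ → ℂ)
    (hψ : ∀ j, Wx ((H : ℝ) * K / 2) V (ψ j)) (σ : ℤ) (α β : ℕ → ℂ)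
    (hα : ∀ m, ‖α m‖ ≤ 1) (hβ : ∀ n, ‖β n‖ ≤ 1) :
    ‖∑ m ∈ (Ioc H (2 * H)).filter (fun m => 4 * m ≤ 5 * H),
      ∑ n ∈ (Ioc K (2 * K)).filter (fun n => 4 * n ≤ 5 * K ∧ Nat.Coprime m n),
      α m * β n * ∑ j ∈ Icc 1 J, ψ j ((m : ℝ) * n) * kf (σ * j) m n‖ ≤ H * (K * J) := by
  refine (norm_sum_le _ _).trans ?_
  have h1 : ∀ m ∈ (Ioc H (2 * H)).filter (fun m => 4 * m ≤ 5 * H),
      ‖∑ n ∈ (Ioc K (2 * K)).filter (fun n => 4 * n ≤ 5 * K ∧ Nat.Coprime m n),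
      α m * β n * ∑ j ∈ Icc 1 J, ψ j ((m : ℝ) * n) * kf (σ * j) m n‖ ≤ (K : ℝ) * J := by
    intro m hm
    rw [mem_filter, mem_Ioc] at hm
    refine (norm_sum_le _ _).trans ?_
    have h2 : ∀ n ∈ (Ioc K (2 * K)).filter (fun n => 4 * n ≤ 5 * K ∧ Nat.Coprime m n),
        ‖α m * β n * ∑ j ∈ Icc 1 J, ψ j ((m : ℝ) * n) * kf (σ * j) m n‖ ≤ (J : ℝ) := by
      intro n hn
      rw [mem_filter, mem_Ioc] at hn
      have hmn : (H : ℝ) * K / 2 ≤ (m : ℝ) * n := by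
        have a1 : H * K ≤ m * n := Nat.mul_le_mul (by omega) (by omega)
        have a2 : (H : ℝ) * K ≤ (m : ℝ) * n := by exact_mod_cast a1
        have a3 : (0 : ℝ) ≤ (H : ℝ) * K := by positivity
        linarith
      have h3 : ‖∑ j ∈ Icc 1 J, ψ j ((m : ℝ) * n) * kf (σ * j) m n‖ ≤ (J : ℝ) := by
        refine (norm_sum_le _ _).trans ?_
        calc ∑ j ∈ Icc 1 J, ‖ψ j ((m : ℝ) * n) * kf (σ * j) m n‖ ≤ ∑ j ∈ Icc 1 J, (1 : ℝ) := by
              refine sum_le_sum fun j _ => ?_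
              rw [norm_mul, norm_kf, mul_one]
              exact (hψ j).bd _ hmn
          _ = J := by simp
      rw [norm_mul, norm_mul]
      calc ‖α m‖ * ‖β n‖ * ‖∑ j ∈ Icc 1 J, ψ j ((m : ℝ) * n) * kf (σ * j) m n‖ ≤
            1 * 1 * (J : ℝ) := by
            gcongr
            · exact hα m
            · exact hβ n
        _ = J := by ring
    refine (sum_le_sum h2).trans ?_
    rw [sum_const, nsmul_eq_mul]
    have h4 : ((Ioc K (2 * K)).filter (fun n => 4 * n ≤ 5 * K ∧ Nat.Coprime m n)).card ≤ K := by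
      refine (card_filter_le _ _).trans ?_
      rw [Nat.card_Ioc]
      omega
    gcongr
  refine (sum_le_sum h1).trans ?_
  rw [sum_const, nsmul_eq_mul]
  have h4 : ((Ioc H (2 * H)).filter (fun m => 4 * m ≤ 5 * H)).card ≤ H := by
    refine (card_filter_le _ _).trans ?_
    rw [Nat.card_Ioc]
    omega
  gcongr

theorem caseA (δ0 : ℝ) (hδ : 0 < δ0) (hδ1 : δ0 ≤ 1 / 14) (h : P_TRI2) :
    ∃ η C : ℝ, 0 < η ∧ 0 < C ∧ ∀ (H K J : ℕ), 1 ≤ H → H ≤ K → 1 ≤ J →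
    (J : ℝ) * (K / H) ≤ (K : ℝ) ^ (1 / 14 - δ0) →
    ∀ V : ℝ, 1 ≤ V → ∀ ψ : ℕ → ℝ → ℂ, (∀ j, Wx ((H : ℝ) * K / 2) V (ψ j)) →
    ∀ σ : ℤ, (σ = 1 ∨ σ = -1) →
    ∀ α β : ℕ → ℂ, (∀ m, ‖α m‖ ≤ 1) → (∀ n, ‖β n‖ ≤ 1) →
    ‖∑ m ∈ (Ioc H (2 * H)).filter (fun m => 4 * m ≤ 5 * H),
      ∑ n ∈ (Ioc K (2 * K)).filter (fun n => 4 * n ≤ 5 * K ∧ Nat.Coprime m n),
      α m * β n * ∑ j ∈ Icc 1 J, ψ j ((m : ℝ) * n) * kf (σ * j) m n‖ ≤
      C * V ^ 2 * ((H : ℝ) * K) * (K : ℝ) ^ (-η) := by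
  obtain ⟨η', C', hη', hC', hT⟩ := h (δ0 / 2) (by linarith)
  obtain ⟨c, hc, hPD⟩ := primes_dyadic (1 / 2) (by norm_num)
  obtain ⟨K0, hK0, hpar⟩ := params c δ0 η' hc hδ hη'
  refine ⟨η' / 2, 8 * C' + (K0 : ℝ) * (K0 : ℝ) ^ (η' / 2), by linarith, by positivity, ?_⟩
  intro H K J hH hHK hJ hJK V hV ψ hψ σ hσ α β hα hβ
  have hK : 1 ≤ K := le_trans hH hHK
  have hKr1 : (1 : ℝ) ≤ K := by exact_mod_cast hK
  have hKr : (0 : ℝ) < K := by linarith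
  have hHr1 : (1 : ℝ) ≤ H := by exact_mod_cast hH
  have hHr : (0 : ℝ) < H := by linarith
  have hJr : (0 : ℝ) ≤ J := Nat.cast_nonneg _
  have hKH : (1 : ℝ) ≤ K / H := by
    rw [le_div_iff₀ hHr, one_mul]
    exact_mod_cast hHK
  have hJle : (J : ℝ) ≤ K := by
    calc (J : ℝ) = J * 1 := by ring
      _ ≤ J * (K / H) := by gcongr
      _ ≤ (K : ℝ) ^ (1 / 14 - δ0) := hJK
      _ ≤ (K : ℝ) ^ (1 : ℝ) := Real.rpow_le_rpow_of_exponent_le hKr1 (by linarith)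
      _ = K := Real.rpow_one _
  have hJK' : J ≤ K := by exact_mod_cast hJle
  have hK0r : (1 : ℝ) ≤ K0 := by exact_mod_cast hK0
  have hV2 : (1 : ℝ) ≤ V ^ 2 := by nlinarith
  have hKη : (0 : ℝ) < (K : ℝ) ^ (-(η' / 2)) := Real.rpow_pos_of_pos hKr _
  rcases le_or_gt K0 K with hKK | hKK
  · obtain ⟨N0, Z, hZ, hN0, hw, hZ1, hZ2⟩ := hpar K hKK
    have hPL : ∀ w : ℕ, Z ≤ 2 * w → N0 + 1 ≤ (PL w).card := by
      intro w hw1
      have h1 := hw w hw1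
      have h2 := hPD w (by omega)
      have h3 : (N0 : ℝ) + 1 ≤ ((PL w).card : ℝ) := h1.trans h2
      exact_mod_cast h3
    have hJZ : 4 * (Z : ℝ) * (J * (K / H)) ≤ (K : ℝ) ^ (1 / 14 - δ0 / 2) := by
      calc 4 * (Z : ℝ) * (J * (K / H)) ≤ (K : ℝ) ^ (δ0 / 2) * (K : ℝ) ^ (1 / 14 - δ0) := by
            gcongr
        _ = (K : ℝ) ^ (1 / 14 - δ0 / 2) := by
            rw [← Real.rpow_add hKr]
            congr 1
            ring
    have key := case1 (δ0 / 2) η' C' hT hC' hη' (by linarith) H K J N0 Z hH hHK hJ hJK' hZ hN0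
      hPL hJZ V hV ψ hψ σ hσ α β hα hβ
    refine key.trans ?_
    have e1 : (K : ℝ) ^ (η' / 2) * (K : ℝ) ^ (-η') = (K : ℝ) ^ (-(η' / 2)) := by
      rw [← Real.rpow_add hKr]
      congr 1
      ring
    have hKη' : (0 : ℝ) < (K : ℝ) ^ (-η') := Real.rpow_pos_of_pos hKr _
    calc (N0 : ℝ) * (N0 * (8 * C' * V ^ 2 * Z * (H * K) * (K : ℝ) ^ (-η'))) =
          ((N0 : ℝ) ^ 2 * Z) * (8 * C' * V ^ 2 * (H * K) * (K : ℝ) ^ (-η')) := by ring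
      _ ≤ (K : ℝ) ^ (η' / 2) * (8 * C' * V ^ 2 * (H * K) * (K : ℝ) ^ (-η')) := by gcongr
      _ = 8 * C' * V ^ 2 * (H * K) * ((K : ℝ) ^ (η' / 2) * (K : ℝ) ^ (-η')) := by ring
      _ = 8 * C' * V ^ 2 * (H * K) * (K : ℝ) ^ (-(η' / 2)) := by rw [e1]
      _ ≤ (8 * C' + (K0 : ℝ) * (K0 : ℝ) ^ (η' / 2)) * V ^ 2 * ((H : ℝ) * K) *
          (K : ℝ) ^ (-(η' / 2)) := by
          have : 0 ≤ (K0 : ℝ) * (K0 : ℝ) ^ (η' / 2) := by positivity
          gcongr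
          linarith
  · have hKK0 : (K : ℝ) ≤ K0 := by exact_mod_cast hKK.le
    refine (trivial_bound H K J hH hK V ψ hψ σ α β hα hβ).trans ?_
    have h1 : (1 : ℝ) ≤ (K0 : ℝ) ^ (η' / 2) * (K : ℝ) ^ (-(η' / 2)) := by
      have h2 : (K : ℝ) ^ (η' / 2) ≤ (K0 : ℝ) ^ (η' / 2) :=
        Real.rpow_le_rpow hKr.le hKK0 (by linarith)
      calc (1 : ℝ) = (K : ℝ) ^ (η' / 2) * (K : ℝ) ^ (-(η' / 2)) := by
            rw [← Real.rpow_add hKr, add_neg_cancel, Real.rpow_zero]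
        _ ≤ _ := by gcongr
    calc (H : ℝ) * (K * J) ≤ H * (K * K0) := by
          have : (J : ℝ) ≤ K0 := hJle.trans hKK0
          gcongr
      _ = K0 * 1 * 1 * ((H : ℝ) * K) := by ring
      _ ≤ K0 * ((K0 : ℝ) ^ (η' / 2) * (K : ℝ) ^ (-(η' / 2))) * V ^ 2 * ((H : ℝ) * K) := by
          gcongr
      _ = (0 + K0 * (K0 : ℝ) ^ (η' / 2)) * V ^ 2 * ((H : ℝ) * K) * (K : ℝ) ^ (-(η' / 2)) := by
          ring
      _ ≤ _ := by gcongr; linarith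

theorem kf_neg (b m : ℤ) (n : ℕ) : (starRingEnd ℂ) (kf b m n) = kf (-b) m n := by
  unfold kf
  rw [Pool.Agent.H442R2.KF.conj_e]
  congr 1
  push_cast
  ring

/-- the weights after reciprocity -/
def psr (ψ : ℕ → ℝ → ℂ) (σ : ℤ) (J : ℕ) (j : ℕ) (s : ℝ) : ℂ :=
  ψ j s * e (((σ : ℝ) * (min j J : ℕ)) / s)

theorem psr_Wx (X V : ℝ) (hX : 0 < X) (hV : 1 ≤ V) (ψ : ℕ → ℝ → ℂ) (hψ : ∀ j, Wx X V (ψ j))
    (σ : ℤ) (hσ : σ = 1 ∨ σ = -1) (J : ℕ) (hJ : (J : ℝ) ≤ 2 * X) (j : ℕ) :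
    Wx X (14 * V) (psr ψ σ J j) := by
  refine ⟨fun s hs => ?_, fun s s' hs hs' => ?_⟩
  · unfold psr
    rw [norm_mul, Pool.Agent.H442R2.KF.norm_e, mul_one]
    exact (hψ j).bd s hs
  · unfold psr
    have hs0 : 0 < s := lt_of_lt_of_le hX hs
    have hs0' : 0 < s' := lt_of_lt_of_le hX hs'
    obtain ⟨a, ha⟩ : ∃ a : ℝ, a = (σ : ℝ) * (min j J : ℕ) := ⟨_, rfl⟩
    rw [← ha]
    have ha1 : |a| ≤ J := by
      rw [ha, abs_mul]
      have h1 : |(σ : ℝ)| = 1 := by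
        rcases hσ with h | h <;> rw [h] <;> simp
      rw [h1, one_mul, abs_of_nonneg (Nat.cast_nonneg _)]
      exact_mod_cast min_le_right _ _
    have e1 : ψ j s * e (a / s) - ψ j s' * e (a / s') =
        (ψ j s - ψ j s') * e (a / s) + ψ j s' * (e (a / s) - e (a / s')) := by ring
    rw [e1]
    refine (norm_add_le _ _).trans ?_
    rw [norm_mul, norm_mul, Pool.Agent.H442R2.KF.norm_e, mul_one]
    have h1 := (hψ j).lip s s' hs hs'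
    have h2 := (hψ j).bd s' hs'
    have h3 := Pool.Agent.H442R2.KF.norm_e_sub_le (a / s) (a / s')
    have h4 : |a / s - a / s'| ≤ 2 * |s - s'| / X := by
      have e2 : a / s - a / s' = a * (s' - s) / (s * s') := by
        field_simp
      rw [e2, abs_div, abs_mul, abs_of_pos (mul_pos hs0 hs0'), abs_sub_comm s' s]
      rw [div_le_div_iff₀ (mul_pos hs0 hs0') hX]
      have h5 : X * X ≤ s * s' := mul_le_mul hs hs' hX.le hs0.le
      have h6 : 0 ≤ |s - s'| := abs_nonneg _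
      have h7 : |a| ≤ 2 * X := ha1.trans hJ
      calc |a| * |s - s'| * X ≤ (2 * X) * |s - s'| * X := by gcongr
        _ = 2 * |s - s'| * (X * X) := by ring
        _ ≤ 2 * |s - s'| * (s * s') := by gcongr
    have h8 : 0 ≤ |s - s'| / X := by positivity
    have h9 : Real.pi ≤ 3.25 := by linarith [Real.pi_lt_d2]
    calc ‖ψ j s - ψ j s'‖ + ‖ψ j s'‖ * ‖e (a / s) - e (a / s')‖ ≤
          V * |s - s'| / X + 1 * (2 * Real.pi * (2 * |s - s'| / X)) := by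
          gcongr
          exact h3.trans (by gcongr)
      _ = (V + 4 * Real.pi) * (|s - s'| / X) := by ring
      _ ≤ (14 * V) * (|s - s'| / X) := by
          gcongr
          linarith
      _ = 14 * V * |s - s'| / X := by ring

theorem swap_sum (H K J : ℕ) (hH : 1 ≤ H) (hK : 1 ≤ K) (ψ : ℕ → ℝ → ℂ) (σ : ℤ) (α β : ℕ → ℂ) :
    ∑ m ∈ (Ioc H (2 * H)).filter (fun m => 4 * m ≤ 5 * H),
      ∑ n ∈ (Ioc K (2 * K)).filter (fun n => 4 * n ≤ 5 * K ∧ Nat.Coprime m n),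
      α m * β n * ∑ j ∈ Icc 1 J, ψ j ((m : ℝ) * n) * kf (σ * j) m n =
    ∑ n ∈ (Ioc K (2 * K)).filter (fun n => 4 * n ≤ 5 * K),
      ∑ m ∈ (Ioc H (2 * H)).filter (fun m => 4 * m ≤ 5 * H ∧ Nat.Coprime n m),
      β n * α m * ∑ j ∈ Icc 1 J, psr ψ σ J j ((n : ℝ) * m) * kf (-σ * j) n m := by
  have e1 : ∀ m : ℕ, (Ioc K (2 * K)).filter (fun n => 4 * n ≤ 5 * K ∧ Nat.Coprime m n) =
      ((Ioc K (2 * K)).filter (fun n => 4 * n ≤ 5 * K)).filter (fun n => Nat.Coprime m n) := by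
    intro m
    rw [filter_filter]
  have e2 : ∀ n : ℕ, (Ioc H (2 * H)).filter (fun m => 4 * m ≤ 5 * H ∧ Nat.Coprime n m) =
      ((Ioc H (2 * H)).filter (fun m => 4 * m ≤ 5 * H)).filter (fun m => Nat.Coprime n m) := by
    intro m
    rw [filter_filter]
  simp only [e1, e2, sum_filter (fun n => Nat.Coprime _ n)]
  rw [sum_comm]
  refine sum_congr rfl fun n hn => sum_congr rfl fun m hm => ?_
  rw [mem_filter, mem_Ioc] at hn hm
  by_cases hc : Nat.Coprime m n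
  · rw [if_pos hc, if_pos hc.symm, mul_comm (α m) (β n)]
    congr 1
    refine sum_congr rfl fun j hj => ?_
    rw [mem_Icc] at hj
    have hn0 : 0 < n := by omega
    have hm0 : 0 < m := by omega
    rw [kf_recip (σ * j) m n hm0 hn0 hc, kf_neg]
    unfold psr
    rw [min_eq_left hj.2, mul_comm (n : ℝ) (m : ℝ), neg_mul]
    have e3 : (((σ * (j : ℤ) : ℤ) : ℝ)) / ((m : ℝ) * n) = (σ : ℝ) * ((j : ℕ) : ℝ) / ((m : ℝ) * n) := by
      push_cast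
      ring
    rw [e3]
    ring
  · rw [if_neg hc, if_neg (fun h => hc h.symm)]

end TBLK

open TBLK in
theorem t_BLK (h : P_TRI2) : P_BLK := by
  intro δ hδ
  obtain ⟨η, C, hη, hC, hcase⟩ := caseA (min δ (1 / 14)) (lt_min hδ (by norm_num))
    (min_le_right _ _) h
  refine ⟨η, 196 * C, hη, by positivity, ?_⟩
  intro H K J hH hK hJ hJHK V hV ψ hψ σ hσ α β hα hβ
  have hHr1 : (1 : ℝ) ≤ H := by exact_mod_cast hH
  have hKr1 : (1 : ℝ) ≤ K := by exact_mod_cast hK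
  have hJr1 : (1 : ℝ) ≤ J := by exact_mod_cast hJ
  rcases le_total H K with hHK | hHK
  · have hHKr : (H : ℝ) ≤ K := by exact_mod_cast hHK
    rw [max_eq_right hHKr, min_eq_left hHKr] at hJHK
    rw [max_eq_right hHKr]
    have h1 : (K : ℝ) ^ (1 / 14 - δ) ≤ (K : ℝ) ^ (1 / 14 - min δ (1 / 14)) :=
      Real.rpow_le_rpow_of_exponent_le hKr1 (by linarith [min_le_left δ (1 / 14)])
    have key := hcase H K J hH hHK hJ (hJHK.trans h1) V hV ψ hψ σ hσ α β hα hβ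
    refine key.trans ?_
    have h2 : (0 : ℝ) ≤ (K : ℝ) ^ (-η) := Real.rpow_nonneg (by linarith) _
    have h3 : C ≤ 196 * C := by linarith
    gcongr
  · have hHKr : (K : ℝ) ≤ H := by exact_mod_cast hHK
    rw [max_eq_left hHKr, min_eq_right hHKr] at hJHK
    rw [max_eq_left hHKr]
    have h1 : (H : ℝ) ^ (1 / 14 - δ) ≤ (H : ℝ) ^ (1 / 14 - min δ (1 / 14)) :=
      Real.rpow_le_rpow_of_exponent_le hHr1 (by linarith [min_le_left δ (1 / 14)])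
    have hXX : (K : ℝ) * H / 2 = (H : ℝ) * K / 2 := by ring
    have hX : 0 < (K : ℝ) * H / 2 := by positivity
    have hJX : (J : ℝ) ≤ 2 * ((K : ℝ) * H / 2) := by
      have hKH : (1 : ℝ) ≤ H / K := by
        rw [le_div_iff₀ (by linarith), one_mul]
        exact hHKr
      have h4 : (J : ℝ) ≤ H := by
        calc (J : ℝ) = J * 1 := by ring
          _ ≤ J * (H / K) := by gcongr
          _ ≤ (H : ℝ) ^ (1 / 14 - δ) := hJHK
          _ ≤ (H : ℝ) ^ (1 : ℝ) := Real.rpow_le_rpow_of_exponent_le hHr1 (by linarith)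
          _ = H := Real.rpow_one _
      nlinarith
    have hψ' : ∀ j, Wx ((K : ℝ) * H / 2) (14 * V) (psr ψ σ J j) := fun j =>
      psr_Wx _ V hX hV ψ (fun j => by rw [hXX]; exact hψ j) σ hσ J hJX j
    have hσ' : -σ = 1 ∨ -σ = -1 := by
      rcases hσ with h | h <;> rw [h] <;> simp
    have key := hcase K H J hK hHK hJ (hJHK.trans h1) (14 * V) (by linarith) (psr ψ σ J) hψ'
      (-σ) hσ' β α hβ hα
    rw [swap_sum H K J hH hK ψ σ α β]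
    refine key.trans (le_of_eq ?_)
    ring

end

end Pool.Agent.H262R4.TM
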