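import Pool.Agent.H262R4.TM.Defs2
import Pool.Agent.H442R2.KF.Kfb

/-!
TM project: reduction of `P_BLK` to the case `H ≤ K` by reciprocity.
-/

namespace Pool.Agent.H262R4.TM

open Finset Filter Topology MeasureTheory Complex
open Pool.Agent.H306R2.SM (om cl ef Xf Gf Yf ee)
open Pool.Agent.H442R2.KF (e kf tau Wei FF Ker2 PL)

noncomputable section

/-- the case `H ≤ K` of `P_BLK` -/
def P_BLKle : Prop :=
  ∀ δ : ℝ, 0 < δ → ∃ (η C : ℝ), 0 < η ∧ 0 < C ∧ ∀ (H K J : ℕ), 1 ≤ H → H ≤ K → 1 ≤ J →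
    (J : ℝ) * ((K : ℝ) / H) ≤ (K : ℝ) ^ (1 / 14 - δ) →
    ∀ V : ℝ, 1 ≤ V → ∀ ψ : ℕ → ℝ → ℂ, (∀ j, Wx ((H : ℝ) * K / 2) V (ψ j)) →
    ∀ σ : ℤ, (σ = 1 ∨ σ = -1) →
    ∀ α β : ℕ → ℂ, (∀ m, ‖α m‖ ≤ 1) → (∀ n, ‖β n‖ ≤ 1) →
    ‖∑ m ∈ (Ioc H (2 * H)).filter (fun m => 4 * m ≤ 5 * H),
      ∑ n ∈ (Ioc K (2 * K)).filter (fun n => 4 * n ≤ 5 * K ∧ Nat.Coprime m n),
      α m * β n * ∑ j ∈ Icc 1 J, ψ j ((m : ℝ) * n) * kf (σ * j) m n‖ ≤
      C * V ^ 2 * ((H : ℝ) * K) * (K : ℝ) ^ (-η)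

namespace BLKr

open Pool.Agent.H442R2.KF (norm_e norm_e_sub_le conj_e kf_recip)

theorem swap_sum (H K : ℕ) (F : ℕ → ℕ → ℂ) :
    ∑ m ∈ (Ioc H (2 * H)).filter (fun m => 4 * m ≤ 5 * H),
      ∑ n ∈ (Ioc K (2 * K)).filter (fun n => 4 * n ≤ 5 * K ∧ Nat.Coprime m n), F m n =
    ∑ n ∈ (Ioc K (2 * K)).filter (fun n => 4 * n ≤ 5 * K),
      ∑ m ∈ (Ioc H (2 * H)).filter (fun m => 4 * m ≤ 5 * H ∧ Nat.Coprime n m), F m n := by
  refine Finset.sum_comm' ?_
  intro x y
  simp only [mem_filter]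
  rw [Nat.coprime_comm (n := y) (m := x)]
  tauto

theorem kf_neg (B m : ℤ) (n : ℕ) : kf (-B) m n = (starRingEnd ℂ) (kf B m n) := by
  unfold kf
  rw [conj_e]
  congr 1
  push_cast
  ring

theorem wx (X V : ℝ) (hX : 0 < X) (a : ℝ) (ha : |a| ≤ 2 * X) (ψ : ℝ → ℂ) (h : Wx X V ψ) :
    Wx X (V + 13) (fun s => ψ s * e (a / s)) := by
  constructor
  · intro s hs
    rw [norm_mul, norm_e, mul_one]
    exact h.bd s hs
  · intro s s' hs hs'
    have h1 : ψ s * e (a / s) - ψ s' * e (a / s') =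
        (ψ s - ψ s') * e (a / s) + ψ s' * (e (a / s) - e (a / s')) := by ring
    show ‖ψ s * e (a / s) - ψ s' * e (a / s')‖ ≤ _
    rw [h1]
    have hs0 : 0 < s := by linarith
    have hs0' : 0 < s' := by linarith
    have h2 : ‖(ψ s - ψ s') * e (a / s)‖ ≤ V * |s - s'| / X := by
      rw [norm_mul, norm_e, mul_one]
      exact h.lip s s' hs hs'
    have h3 : ‖ψ s' * (e (a / s) - e (a / s'))‖ ≤ 13 * |s - s'| / X := by
      rw [norm_mul]
      have h4 := norm_e_sub_le (a / s) (a / s')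
      have h5 : a / s - a / s' = a * (s' - s) / (s * s') := by
        field_simp
      rw [h5, abs_div, abs_mul, abs_of_pos (mul_pos hs0 hs0'), abs_sub_comm s' s] at h4
      have h6 : |a| * |s - s'| / (s * s') ≤ 2 * |s - s'| / X := by
        rw [div_le_div_iff₀ (by positivity) hX]
        have h7 : X * X ≤ s * s' := mul_le_mul hs hs' hX.le hs0.le
        have h8 := abs_nonneg (s - s')
        calc |a| * |s - s'| * X ≤ (2 * X) * |s - s'| * X := by gcongr
          _ = 2 * |s - s'| * (X * X) := by ring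
          _ ≤ 2 * |s - s'| * (s * s') := by gcongr
      have h9 : 2 * Real.pi * (2 * |s - s'| / X) ≤ 13 * |s - s'| / X := by
        have hp := Real.pi_lt_d2
        have h10 : 0 ≤ |s - s'| / X := by positivity
        have h11 : 2 * Real.pi * (2 * |s - s'| / X) = 4 * Real.pi * (|s - s'| / X) := by ring
        have h12 : 13 * |s - s'| / X = 13 * (|s - s'| / X) := by ring
        rw [h11, h12]
        nlinarith
      calc ‖ψ s'‖ * ‖e (a / s) - e (a / s')‖ ≤ 1 * (2 * Real.pi * (2 * |s - s'| / X)) := by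
            refine mul_le_mul (h.bd s' hs') (h4.trans ?_) (norm_nonneg _) zero_le_one
            gcongr
        _ ≤ 13 * |s - s'| / X := by rw [one_mul]; exact h9
    calc _ ≤ _ := norm_add_le _ _
      _ ≤ V * |s - s'| / X + 13 * |s - s'| / X := add_le_add h2 h3
      _ = (V + 13) * |s - s'| / X := by ring

end BLKr

theorem blk_of_le (h : P_BLKle) : P_BLK := by
  intro δ hδ
  obtain ⟨η, C, hη, hC, hmain⟩ := h δ hδ
  refine ⟨η, 196 * C, hη, by positivity, ?_⟩
  intro H K J hH hK hJ hJR V hV ψ hψ σ hσ α β hα hβ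
  have hH1 : (1 : ℝ) ≤ H := by exact_mod_cast hH
  have hK1 : (1 : ℝ) ≤ K := by exact_mod_cast hK
  rcases le_or_gt H K with hHK | hHK
  · have hHKr : (H : ℝ) ≤ K := by exact_mod_cast hHK
    rw [max_eq_right hHKr, min_eq_left hHKr] at hJR
    rw [max_eq_right hHKr]
    refine (hmain H K J hH hHK hJ hJR V hV ψ hψ σ hσ α β hα hβ).trans ?_
    have h1 : 0 ≤ V ^ 2 * ((H : ℝ) * K) * (K : ℝ) ^ (-η) := by positivity
    calc C * V ^ 2 * ((H : ℝ) * K) * (K : ℝ) ^ (-η) =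
        C * (V ^ 2 * ((H : ℝ) * K) * (K : ℝ) ^ (-η)) := by ring
      _ ≤ (196 * C) * (V ^ 2 * ((H : ℝ) * K) * (K : ℝ) ^ (-η)) := by
          apply mul_le_mul_of_nonneg_right _ h1
          linarith
      _ = _ := by ring
  · have hHKr : (K : ℝ) < H := by exact_mod_cast hHK
    rw [max_eq_left hHKr.le, min_eq_right hHKr.le] at hJR
    rw [max_eq_left hHKr.le]
    have hX : 0 < (K : ℝ) * H / 2 := by positivity
    -- `J ≤ HK`
    have hJH : (J : ℝ) ≤ K * H := by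
      have h1 : 1 ≤ (H : ℝ) / K := by rw [le_div_iff₀ (by linarith)]; linarith
      have h2 : (H : ℝ) ^ (1 / 14 - δ) ≤ H := by
        calc (H : ℝ) ^ (1 / 14 - δ) ≤ (H : ℝ) ^ (1 : ℝ) :=
              Real.rpow_le_rpow_of_exponent_le hH1 (by linarith)
          _ = H := Real.rpow_one _
      have hJ0 : (0 : ℝ) ≤ J := Nat.cast_nonneg _
      nlinarith
    set ψ' : ℕ → ℝ → ℂ := fun j s => if j ≤ J then ψ j s * e (((σ * j : ℤ) : ℝ) / s) else 0
      with hψ'
    have hσa : |((σ : ℤ) : ℝ)| = 1 := by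
      rcases hσ with h | h <;> rw [h] <;> norm_num
    have hwx : ∀ j, Wx ((K : ℝ) * H / 2) (V + 13) (ψ' j) := by
      intro j
      by_cases hj : j ≤ J
      · have h1 : ψ' j = fun s => ψ j s * e (((σ * j : ℤ) : ℝ) / s) := by
          funext s
          simp only [hψ', if_pos hj]
        rw [h1]
        apply BLKr.wx _ _ hX
        · push_cast
          rw [abs_mul, hσa, one_mul, Nat.abs_cast]
          have : (j : ℝ) ≤ J := by exact_mod_cast hj
          linarith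
        · have := hψ j
          rwa [mul_comm (H : ℝ)] at this
      · have h1 : ψ' j = fun _ => 0 := by
          funext s
          simp only [hψ', if_neg hj]
        rw [h1]
        constructor
        · intro s _
          simp
        · intro s s' _ _
          simp only [sub_zero, norm_zero]
          positivity
    have key := hmain K H J hK hHK.le hJ hJR (V + 13) (by linarith) ψ' hwx (-σ)
      (by rcases hσ with h | h <;> rw [h] <;> simp) β α hβ hα
    rw [BLKr.swap_sum]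
    have e1 : ∑ n ∈ (Ioc K (2 * K)).filter (fun n => 4 * n ≤ 5 * K),
        ∑ m ∈ (Ioc H (2 * H)).filter (fun m => 4 * m ≤ 5 * H ∧ Nat.Coprime n m),
        α m * β n * ∑ j ∈ Icc 1 J, ψ j ((m : ℝ) * n) * kf (σ * j) m n =
      ∑ n ∈ (Ioc K (2 * K)).filter (fun n => 4 * n ≤ 5 * K),
        ∑ m ∈ (Ioc H (2 * H)).filter (fun m => 4 * m ≤ 5 * H ∧ Nat.Coprime n m),
        β n * α m * ∑ j ∈ Icc 1 J, ψ' j ((n : ℝ) * m) * kf (-σ * j) n m := by
      refine Finset.sum_congr rfl fun n hn => Finset.sum_congr rfl fun m hm => ?_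
      rw [mem_filter, mem_Ioc] at hn hm
      rw [mul_comm (α m)]
      congr 1
      refine Finset.sum_congr rfl fun j hj => ?_
      rw [mem_Icc] at hj
      simp only [hψ', if_pos hj.2]
      have hcop : Nat.Coprime m n := hm.2.2.symm
      rw [Pool.Agent.H442R2.KF.kf_recip (σ * j) m n (by omega) (by omega) hcop, neg_mul,
        BLKr.kf_neg, mul_comm (n : ℝ) (m : ℝ)]
      ring
    rw [e1]
    refine key.trans ?_
    have h14 : V + 13 ≤ 14 * V := by linarith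
    have h1 : (V + 13) ^ 2 ≤ (14 * V) ^ 2 := pow_le_pow_left₀ (by linarith) h14 2
    calc C * (V + 13) ^ 2 * ((K : ℝ) * H) * (H : ℝ) ^ (-η) ≤
        C * (14 * V) ^ 2 * ((K : ℝ) * H) * (H : ℝ) ^ (-η) := by gcongr
      _ = 196 * C * V ^ 2 * ((H : ℝ) * K) * (H : ℝ) ^ (-η) := by ring

end

end Pool.Agent.H262R4.TM
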