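import Pool.Agent.H262R4.TM.Defs

set_option autoImplicit false

namespace Pool.Agent.H262R4.TM

open Finset Filter Topology MeasureTheory Complex
open Pool.Agent.H306R2.SM (om cl ef Xf Gf Yf ee)
open Pool.Agent.H442R2.KF (kf tau)

namespace TCOP

/-- logarithmic powers are small -/
theorem logs (C : ℝ) (A : ℕ) (c : ℝ) (hc : 0 < c) :
    ∀ᶠ T : ℝ in atTop, C * (4 * Real.log T ^ 2) ^ A ≤ T ^ c := by
  have h1 := (isLittleO_log_rpow_rpow_atTop (2 * A : ℕ) hc).def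
    (show (0:ℝ) < 1 / (|C| * 4 ^ A + 1) by positivity)
  filter_upwards [h1, eventually_ge_atTop 1] with T hT hT1
  have hl : 0 ≤ Real.log T := Real.log_nonneg hT1
  rw [Real.rpow_natCast, Real.norm_of_nonneg (by positivity), Real.norm_of_nonneg (by positivity),
    one_div, inv_mul_eq_div, le_div_iff₀ (by positivity)] at hT
  have h2 : C * (4 * Real.log T ^ 2) ^ A ≤ |C| * 4 ^ A * Real.log T ^ (2 * A) := by
    rw [mul_pow, ← pow_mul, ← mul_assoc]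
    gcongr
    exact le_abs_self C
  have h3 : 0 ≤ Real.log T ^ (2 * A) := by positivity
  nlinarith

theorem card_fiber (n : ℕ) (_ : n ≠ 0) : (n.divisorsAntidiagonal.card : ℝ) = tau n := by
  unfold tau
  rw [← Nat.map_div_right_divisors, Finset.card_map]

/-- grouping a sum over pairs by the product -/
theorem grp (g : ℕ → ℂ)
    (hs : Summable (fun m : ℕ × ℕ => if m.1 = 0 ∨ m.2 = 0 then (0 : ℂ) else g (m.1 * m.2))) :
    HasSum (fun m : ℕ × ℕ => if m.1 = 0 ∨ m.2 = 0 then (0 : ℂ) else g (m.1 * m.2))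
      (∑' n : ℕ, (tau n : ℂ) * g n) := by
  set F : ℕ × ℕ → ℂ := fun m => if m.1 = 0 ∨ m.2 = 0 then (0 : ℂ) else g (m.1 * m.2) with hF
  have h1 := hs.hasSum.tsum_fiberwise (fun m : ℕ × ℕ => m.1 * m.2)
  have h2 : ∀ n : ℕ, ∑' b : ((fun m : ℕ × ℕ => m.1 * m.2) ⁻¹' {n}), F b = (tau n : ℂ) * g n := by
    intro n
    rcases Nat.eq_zero_or_pos n with rfl | hn
    · have h3 : ∀ b : ((fun m : ℕ × ℕ => m.1 * m.2) ⁻¹' {0}), F b = 0 := by
        rintro ⟨b, hb⟩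
        have hb' : b.1 * b.2 = 0 := hb
        rw [hF]
        exact if_pos (Nat.mul_eq_zero.1 hb')
      simp only [h3, tsum_zero]
      simp [tau]
    · have h3 : ((fun m : ℕ × ℕ => m.1 * m.2) ⁻¹' {n}) = (n.divisorsAntidiagonal : Set (ℕ × ℕ)) := by
        ext m
        simp only [Set.mem_preimage, Set.mem_singleton_iff, Finset.mem_coe,
          Nat.mem_divisorsAntidiagonal]
        exact ⟨fun h => ⟨h, hn.ne'⟩, fun h => h.1⟩
      rw [h3]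
      rw [Finset.tsum_subtype' n.divisorsAntidiagonal F]
      rw [Finset.sum_congr rfl (g := fun _ => g n), Finset.sum_const, nsmul_eq_mul]
      · congr 1
        have := card_fiber n hn.ne'
        rw [← this]; simp
      · intro m hm
        have hm' := Nat.mem_divisorsAntidiagonal.1 hm
        have hm1 : ¬ (m.1 = 0 ∨ m.2 = 0) := by
          intro hcon
          have : m.1 * m.2 = 0 := Nat.mul_eq_zero.2 hcon
          omega
        rw [hF]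
        show (if m.1 = 0 ∨ m.2 = 0 then (0 : ℂ) else g (m.1 * m.2)) = g n
        rw [if_neg hm1, hm'.1]
  have h3 : (∑' m, F m) = ∑' n : ℕ, (tau n : ℂ) * g n := by
    rw [← h1.tsum_eq]
    exact tsum_congr h2
  rw [← h3]
  exact hs.hasSum

/-- the majorant -/
noncomputable def q (m : ℕ × ℕ) : ℝ := ((m.1 : ℝ) ^ 2)⁻¹ * ((m.2 : ℝ) ^ 2)⁻¹

theorem q_nonneg (m : ℕ × ℕ) : 0 ≤ q m := by unfold q; positivity

theorem q_summable : Summable q := by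
  have h1 : Summable (fun n : ℕ => ((n : ℝ) ^ 2)⁻¹) := Real.summable_nat_pow_inv.2 (by norm_num)
  exact h1.mul_of_nonneg h1 (fun n => by positivity) (fun n => by positivity)

/-- the kernel bound -/
theorem ker_bound (H : ℝ → ℂ) (K : ℝ) (hK : 0 ≤ K) (hH : ∀ y : ℝ, 0 < y → ‖H y‖ ≤ K * (y ^ 10)⁻¹)
    (m1 m2 : ℕ) (h1 : m1 ≠ 0) (h2 : m2 ≠ 0) (d W : ℝ) (hd : 0 < d) (hW : 0 < W)
    (hdm : d ≤ (m1 : ℝ) * m2) :
    ‖H ((m1 : ℝ) * m2 * W / d)‖ ≤ K * (d ^ 2 * (W ^ 10)⁻¹) * q (m1, m2) := by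
  have hm1 : (0:ℝ) < m1 := by exact_mod_cast Nat.pos_of_ne_zero h1
  have hm2 : (0:ℝ) < m2 := by exact_mod_cast Nat.pos_of_ne_zero h2
  have hm : (0:ℝ) < (m1 : ℝ) * m2 := by positivity
  refine (hH _ (by positivity)).trans ?_
  rw [mul_assoc K]
  refine mul_le_mul_of_nonneg_left ?_ hK
  have e1 : (m1 : ℝ) * m2 * W / d = ((m1 : ℝ) * m2 / d) * W := by ring
  have h3 : 1 ≤ (m1 : ℝ) * m2 / d := (one_le_div hd).2 hdm
  have h4 : ((m1 : ℝ) * m2 / d) ^ 2 ≤ ((m1 : ℝ) * m2 / d) ^ 10 := pow_le_pow_right₀ h3 (by norm_num)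
  rw [e1, mul_pow, mul_inv]
  have h5 : (((m1 : ℝ) * m2 / d) ^ 10)⁻¹ ≤ (((m1 : ℝ) * m2 / d) ^ 2)⁻¹ :=
    inv_anti₀ (by positivity) h4
  have h6 : d ^ 2 * (W ^ 10)⁻¹ * q (m1, m2) = (((m1 : ℝ) * m2 / d) ^ 2)⁻¹ * (W ^ 10)⁻¹ := by
    unfold q
    field_simp
  rw [h6]
  exact mul_le_mul_of_nonneg_right h5 (by positivity)

theorem dv1_norm (h m : ℕ) : ‖dv1 h m‖ ≤ 1 := by
  unfold dv1; split_ifs <;> simp

theorem dv1_coef (h : ℕ) (m : ℕ × ℕ) : ‖-dv1 h m.1 - dv1 h m.2 + dv1 h m.1 * dv1 h m.2‖ ≤ 3 := by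
  have a1 := dv1_norm h m.1
  have a2 := dv1_norm h m.2
  have a3 : ‖dv1 h m.1 * dv1 h m.2‖ ≤ 1 := by
    rw [norm_mul]; exact mul_le_one₀ a1 (norm_nonneg _) a2
  refine (norm_add_le _ _).trans ?_
  have := norm_sub_le (-dv1 h m.1) (dv1 h m.2)
  rw [norm_neg] at this
  linarith

theorem dv1_zero (h : ℕ) (m : ℕ × ℕ) (h1 : ¬ h ∣ m.1) (h2 : ¬ h ∣ m.2) :
    -dv1 h m.1 - dv1 h m.2 + dv1 h m.1 * dv1 h m.2 = 0 := by
  unfold dv1
  rw [if_neg h1, if_neg h2]; simp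

theorem F_sum (k : ℕ) (b : Bool) (σ : ℤ) (h l : ℕ) (Y K : ℝ) (hK : 0 ≤ K)
    (hH : ∀ y : ℝ, 0 < y → ‖Hk k b y‖ ≤ K * (y ^ 10)⁻¹) (hh : 1 ≤ h) (hl : 1 ≤ l) (hY : 0 < Y) :
    HasSum (fun m : ℕ × ℕ => if m.1 = 0 ∨ m.2 = 0 then (0 : ℂ) else
      kf (σ * ((m.1 : ℤ) * m.2)) l h * Hk k b ((m.1 : ℝ) * m.2 * Y / ((h : ℝ) * l)))
      (Du k b σ h l Y) := by
  have hh' : (0:ℝ) < h := by exact_mod_cast hh
  have hl' : (0:ℝ) < l := by exact_mod_cast hl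
  have e1 : (fun m : ℕ × ℕ => if m.1 = 0 ∨ m.2 = 0 then (0 : ℂ) else
      kf (σ * ((m.1 : ℤ) * m.2)) l h * Hk k b ((m.1 : ℝ) * m.2 * Y / ((h : ℝ) * l))) =
      fun m : ℕ × ℕ => if m.1 = 0 ∨ m.2 = 0 then (0 : ℂ) else
        (fun n : ℕ => kf (σ * n) l h * Hk k b ((n : ℝ) * Y / ((h : ℝ) * l))) (m.1 * m.2) := by
    funext m
    simp only [Nat.cast_mul]
  have hs : Summable (fun m : ℕ × ℕ => if m.1 = 0 ∨ m.2 = 0 then (0 : ℂ) else
        (fun n : ℕ => kf (σ * n) l h * Hk k b ((n : ℝ) * Y / ((h : ℝ) * l))) (m.1 * m.2)) := by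
    rw [← e1]
    refine Summable.of_norm_bounded (g := fun m => K * (1 ^ 2 * ((Y / ((h:ℝ) * l)) ^ 10)⁻¹) * q m)
      (q_summable.mul_left _) ?_
    intro m
    split_ifs with hm
    · rw [norm_zero]
      have := q_nonneg m
      positivity
    · push Not at hm
      rw [norm_mul, Pool.Agent.H442R2.KF.norm_kf, one_mul]
      have h1 : (1:ℝ) ≤ (m.1 : ℝ) * m.2 := by
        have : 1 ≤ m.1 * m.2 := Nat.one_le_iff_ne_zero.2 (Nat.mul_ne_zero hm.1 hm.2)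
        exact_mod_cast this
      have h2 := ker_bound (Hk k b) K hK hH m.1 m.2 hm.1 hm.2 1 (Y / ((h:ℝ) * l)) one_pos
        (by positivity) h1
      have e2 : (m.1 : ℝ) * m.2 * (Y / ((h:ℝ) * l)) / 1 = (m.1 : ℝ) * m.2 * Y / ((h : ℝ) * l) := by
        ring
      rwa [e2] at h2
  rw [e1]
  have h3 := grp (fun n : ℕ => kf (σ * n) l h * Hk k b ((n : ℝ) * Y / ((h : ℝ) * l))) hs
  have e3 : (∑' n : ℕ, (tau n : ℂ) * (kf (σ * n) l h * Hk k b ((n : ℝ) * Y / ((h : ℝ) * l)))) =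
      Du k b σ h l Y := by
    unfold Du
    exact tsum_congr fun n => by rw [mul_assoc]
  rw [← e3]
  exact h3

theorem G_sum (k : ℕ) (b : Bool) (h l : ℕ) (Y K : ℝ) (hK : 0 ≤ K)
    (hH : ∀ y : ℝ, 0 < y → ‖Hk k b y‖ ≤ K * (y ^ 10)⁻¹) (hh : 1 ≤ h) (hl : 1 ≤ l) (hY : 0 < Y) :
    ∃ S : ℂ, HasSum (fun m : ℕ × ℕ => if m.1 = 0 ∨ m.2 = 0 then (0 : ℂ) else
      (-dv1 h m.1 - dv1 h m.2 + dv1 h m.1 * dv1 h m.2) *
        Hk k b ((m.1 : ℝ) * m.2 * Y / ((h : ℝ) * l))) S ∧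
      ‖S‖ ≤ 3 * (K * ((h:ℝ) ^ 2 * ((Y / l) ^ 10)⁻¹)) * ∑' m, q m := by
  have hh' : (0:ℝ) < h := by exact_mod_cast hh
  have hl' : (0:ℝ) < l := by exact_mod_cast hl
  have hb : ∀ m : ℕ × ℕ, ‖(if m.1 = 0 ∨ m.2 = 0 then (0 : ℂ) else
      (-dv1 h m.1 - dv1 h m.2 + dv1 h m.1 * dv1 h m.2) *
        Hk k b ((m.1 : ℝ) * m.2 * Y / ((h : ℝ) * l)))‖ ≤
      3 * (K * ((h:ℝ) ^ 2 * ((Y / l) ^ 10)⁻¹)) * q m := by
    intro m
    have hq := q_nonneg m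
    split_ifs with hm
    · rw [norm_zero]
      positivity
    · push Not at hm
      by_cases hd : h ∣ m.1 ∨ h ∣ m.2
      · have h1 : (h:ℝ) ≤ (m.1 : ℝ) * m.2 := by
          have : h ≤ m.1 * m.2 := by
            apply Nat.le_of_dvd (Nat.pos_of_ne_zero (Nat.mul_ne_zero hm.1 hm.2))
            rcases hd with hd | hd
            · exact hd.mul_right _
            · exact hd.mul_left _
          exact_mod_cast this
        have h2 := ker_bound (Hk k b) K hK hH m.1 m.2 hm.1 hm.2 h (Y / l) hh'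
          (by positivity) h1
        have e2 : (m.1 : ℝ) * m.2 * (Y / l) / h = (m.1 : ℝ) * m.2 * Y / ((h : ℝ) * l) := by
          field_simp
        rw [e2] at h2
        rw [norm_mul]
        have h3 := dv1_coef h m
        calc _ ≤ 3 * (K * ((h:ℝ) ^ 2 * ((Y / l) ^ 10)⁻¹) * q (m.1, m.2)) :=
              mul_le_mul h3 h2 (norm_nonneg _) (by norm_num)
          _ = 3 * (K * ((h:ℝ) ^ 2 * ((Y / l) ^ 10)⁻¹)) * q m := by ring
      · push Not at hd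
        rw [dv1_zero h m hd.1 hd.2, zero_mul, norm_zero]
        positivity
  have hs2 : HasSum (fun m => 3 * (K * ((h:ℝ) ^ 2 * ((Y / l) ^ 10)⁻¹)) * q m)
      (3 * (K * ((h:ℝ) ^ 2 * ((Y / l) ^ 10)⁻¹)) * ∑' m, q m) := q_summable.hasSum.mul_left _
  have hs : Summable (fun m : ℕ × ℕ => if m.1 = 0 ∨ m.2 = 0 then (0 : ℂ) else
      (-dv1 h m.1 - dv1 h m.2 + dv1 h m.1 * dv1 h m.2) *
        Hk k b ((m.1 : ℝ) * m.2 * Y / ((h : ℝ) * l))) := Summable.of_norm_bounded hs2.summable hb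
  exact ⟨_, hs.hasSum, tsum_of_norm_bounded hs2 hb⟩

/-- the exponential sum of one pair -/
theorem dualX (h2 : P_DUAL) (k h l : ℕ) (Y K : ℝ) (hk : 3 ≤ k) (hh : 1 ≤ h) (hl : 1 ≤ l)
    (hc : Nat.Coprime h l) (hY : 0 < Y) (hK : 0 ≤ K)
    (hH : ∀ b, ∀ y : ℝ, 0 < y → ‖Hk k b y‖ ≤ K * (y ^ 10)⁻¹) :
    ∃ G : ℂ, ‖G‖ ≤ 6 * (K * ((h:ℝ) ^ 2 * ((Y / l) ^ 10)⁻¹)) * ∑' m, q m ∧
      S2 k h l Y / (((k.factorial : ℝ) * Y ^ (k + 1) : ℝ) : ℂ) =
        ((1 / Y * (2 * V2 k (Y / l) - V2 k (h * Y / l) / h) : ℝ) : ℂ) +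
        ((1 / l : ℝ) : ℂ) * (Du k true 1 h l Y + Du k false (-1) h l Y + G) := by
  obtain ⟨G1, hG1, hG1n⟩ := G_sum k true h l Y K hK (hH true) hh hl hY
  obtain ⟨G2, hG2, hG2n⟩ := G_sum k false h l Y K hK (hH false) hh hl hY
  have hF1 := F_sum k true 1 h l Y K hK (hH true) hh hl hY
  have hF2 := F_sum k false (-1) h l Y K hK (hH false) hh hl hY
  have hD := h2 k h l Y hk hh hl hc hY
  have hsum := (((hF1.add hF2).add (hG1.add hG2)).mul_left ((Y / l : ℝ) : ℂ))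
  have heq : S2 k h l Y / (((k.factorial : ℝ) * Y ^ k : ℝ) : ℂ) -
        ((2 * V2 k (Y / l) - V2 k (h * Y / l) / h : ℝ) : ℂ) =
      ((Y / l : ℝ) : ℂ) * ((Du k true 1 h l Y + Du k false (-1) h l Y) + (G1 + G2)) := by
    refine hD.unique ?_
    refine hsum.congr_fun ?_
    intro m
    by_cases hm : m.1 = 0 ∨ m.2 = 0
    · simp only [if_pos hm, add_zero, mul_zero]
    · simp only [if_neg hm]
      unfold cd
      ring
  refine ⟨G1 + G2, ?_, ?_⟩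
  · refine (norm_add_le _ _).trans ?_
    linarith
  · have hYc : (Y : ℂ) ≠ 0 := by exact_mod_cast hY.ne'
    have e1 : S2 k h l Y / (((k.factorial : ℝ) * Y ^ (k + 1) : ℝ) : ℂ) =
        (1 / (Y : ℂ)) * (S2 k h l Y / (((k.factorial : ℝ) * Y ^ k : ℝ) : ℂ)) := by
      have hfc : ((k.factorial : ℝ) : ℂ) ≠ 0 := by
        have := Nat.factorial_pos k
        have h3 : (k.factorial : ℝ) ≠ 0 := by positivity
        exact_mod_cast h3
      push_cast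
      rw [pow_succ]
      field_simp
    rw [e1]
    have e2 : S2 k h l Y / (((k.factorial : ℝ) * Y ^ k : ℝ) : ℂ) =
        ((2 * V2 k (Y / l) - V2 k (h * Y / l) / h : ℝ) : ℂ) +
        ((Y / l : ℝ) : ℂ) * ((Du k true 1 h l Y + Du k false (-1) h l Y) + (G1 + G2)) := by
      rw [← heq]; ring
    rw [e2]
    push_cast
    field_simp

end TCOP

end Pool.Agent.H262R4.TM
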