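import Pool.Agent.H262R4.TM.COPa

set_option autoImplicit false

namespace Pool.Agent.H262R4.TM

open Finset Filter Topology MeasureTheory Complex
open Pool.Agent.H306R2.SM (om cl ef Xf Gf Yf ee)
open Pool.Agent.H442R2.KF (kf tau)

namespace TCOP

/-- the main term -/
theorem mainterm (V : ℝ → ℝ) (Y h l c E : ℝ) (hY : 0 < Y) (hh : 1 ≤ h) (hl : 1 ≤ l)
    (hYl : 1 ≤ Y / l) (hE : 0 ≤ E)
    (hV : ∀ u : ℝ, 1 ≤ u → |V u - u * (Real.log u + c)| ≤ E * u ^ (3 / 4 : ℝ)) :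
    |Real.sqrt (l / h) * (1 / Y * (2 * V (Y / l) - V (h * Y / l) / h)) -
      1 / Real.sqrt (h * l) * (Real.log (Y / (h * l)) + c)| ≤
      3 * E * Y ^ (-(1 / 4) : ℝ) * (l ^ (-(1 / 4) : ℝ) * h ^ (-(1 / 2) : ℝ)) := by
  have hh0 : 0 < h := by linarith
  have hl0 : 0 < l := by linarith
  have hu0 : 0 < Y / l := by positivity
  have a1 := hV (Y / l) hYl
  have hYl2 : 1 ≤ h * Y / l := by
    rw [mul_div_assoc]; nlinarith
  have a2 := hV (h * Y / l) hYl2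
  have e1 : Real.sqrt (l / h) / l = 1 / Real.sqrt (h * l) := by
    rw [Real.sqrt_div hl0.le, Real.sqrt_mul hh0.le]
    have h1 : Real.sqrt l * Real.sqrt l = l := Real.mul_self_sqrt hl0.le
    have h2 : 0 < Real.sqrt l := Real.sqrt_pos.2 hl0
    have h3 : 0 < Real.sqrt h := Real.sqrt_pos.2 hh0
    rw [div_div, div_eq_div_iff (by positivity) (by positivity)]
    calc Real.sqrt l * (Real.sqrt h * Real.sqrt l) = Real.sqrt h * (Real.sqrt l * Real.sqrt l) := by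
          ring
      _ = 1 * (Real.sqrt h * l) := by rw [h1]; ring
  have e2 : Real.log (h * Y / l) = Real.log (Y / l) + Real.log h := by
    rw [mul_div_assoc, Real.log_mul hh0.ne' hu0.ne']; ring
  have e3 : Real.log (Y / (h * l)) = Real.log (Y / l) - Real.log h := by
    rw [show Y / (h * l) = (Y / l) / h by field_simp, Real.log_div hu0.ne' hh0.ne']
  set L := Real.log (Y / l) with hL
  set D1 := V (Y / l) - (Y / l) * (L + c) with hD1
  set D2 := V (h * Y / l) - (h * Y / l) * (Real.log (h * Y / l) + c) with hD2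
  have e4 : Real.sqrt (l / h) * (1 / Y * (2 * V (Y / l) - V (h * Y / l) / h)) -
      1 / Real.sqrt (h * l) * (Real.log (Y / (h * l)) + c) =
      Real.sqrt (l / h) / Y * (2 * D1 - D2 / h) := by
    rw [← e1, e3, hD1, hD2, e2]
    field_simp
    ring
  rw [e4, abs_mul, abs_of_nonneg (by positivity)]
  have b1 : (h * Y / l) ^ (3 / 4 : ℝ) / h ≤ (Y / l) ^ (3 / 4 : ℝ) := by
    rw [mul_div_assoc, Real.mul_rpow hh0.le hu0.le, div_le_iff₀ hh0, mul_comm]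
    refine mul_le_mul_of_nonneg_left ?_ (by positivity)
    calc h ^ (3 / 4 : ℝ) ≤ h ^ (1 : ℝ) := Real.rpow_le_rpow_of_exponent_le hh (by norm_num)
      _ = h := Real.rpow_one h
  have b2 : |2 * D1 - D2 / h| ≤ 3 * E * (Y / l) ^ (3 / 4 : ℝ) := by
    have c1 : |2 * D1 - D2 / h| ≤ |2 * D1| + |D2 / h| := abs_sub _ _
    rw [abs_mul, abs_of_pos (show (0:ℝ) < 2 by norm_num), abs_div, abs_of_pos hh0] at c1
    have c2 : |D2| / h ≤ E * (Y / l) ^ (3 / 4 : ℝ) := by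
      calc |D2| / h ≤ E * (h * Y / l) ^ (3 / 4 : ℝ) / h := by gcongr
        _ = E * ((h * Y / l) ^ (3 / 4 : ℝ) / h) := by ring
        _ ≤ _ := by gcongr
    linarith
  have e5 : Real.sqrt (l / h) / Y * (3 * E * (Y / l) ^ (3 / 4 : ℝ)) =
      3 * E * Y ^ (-(1 / 4) : ℝ) * (l ^ (-(1 / 4) : ℝ) * h ^ (-(1 / 2) : ℝ)) := by
    have f1 : Real.sqrt (l / h) = l ^ (1 / 2 : ℝ) * h ^ (-(1 / 2) : ℝ) := by
      rw [Real.sqrt_eq_rpow, Real.div_rpow hl0.le hh0.le, Real.rpow_neg hh0.le]; rfl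
    have f2 : (Y / l) ^ (3 / 4 : ℝ) = Y ^ (3 / 4 : ℝ) * l ^ (-(3 / 4) : ℝ) := by
      rw [Real.div_rpow hY.le hl0.le, Real.rpow_neg hl0.le]; rfl
    have f3 : Y ^ (3 / 4 : ℝ) / Y = Y ^ (-(1 / 4) : ℝ) := by
      rw [show (-(1 / 4) : ℝ) = 3 / 4 - 1 by norm_num, Real.rpow_sub_one hY.ne']
    have f4 : l ^ (1 / 2 : ℝ) * l ^ (-(3 / 4) : ℝ) = l ^ (-(1 / 4) : ℝ) := by
      rw [← Real.rpow_add hl0]; norm_num
    rw [f1, f2, ← f3, ← f4]; ring
  calc Real.sqrt (l / h) / Y * |2 * D1 - D2 / h|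
      ≤ Real.sqrt (l / h) / Y * (3 * E * (Y / l) ^ (3 / 4 : ℝ)) := by gcongr
    _ = _ := e5

end TCOP

end Pool.Agent.H262R4.TM
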