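import Pool.Agent.H306R2.SM.Defs
import Pool.Agent.H442R2.KF.Defs2

/-!
TM project (helper262): the twisted second moment of zeta with a Dirichlet polynomial longer than
`T^(1/2)`. Definitions and statements. The weight `om k δ t`, the function `Gf`, `cl`, `ef`, `ee`, `Yf`
are those of helper306 (`Pool.Agent.H306R2.SM.Defs`); `kf`, `tau` those of helper442.
-/

namespace Pool.Agent.H262R4.TM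

open Finset Filter Topology MeasureTheory Complex
open Pool.Agent.H306R2.SM (om cl ef Xf Gf Yf ee)
open Pool.Agent.H442R2.KF (kf tau)

noncomputable section

/-- `Σ τ(n) (nl/h)^k exp(-(nl/h)/Y) e(-nl/h)` -/
def S2 (k h l : ℕ) (Y : ℝ) : ℂ :=
  ∑' n : ℕ, ((tau n * ((n : ℝ) * l / h) ^ k * Real.exp (-((n : ℝ) * l / h / Y)) : ℝ) : ℂ) *
    ee h (-((n : ℤ) * l))

/-- `V(u) = (1/k!) Σ τ(n) (n/u)^k e^{-n/u}` -/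
def V2 (k : ℕ) (u : ℝ) : ℝ :=
  (∑' n : ℕ, tau n * ((n : ℝ) / u) ^ k * Real.exp (-((n : ℝ) / u))) / (k.factorial : ℝ)

/-- the constant of the main term, `H_k + γ` -/
def Ck (k : ℕ) : ℝ := (harmonic k : ℝ) + Real.eulerMascheroniConstant

/-- Mellin transform of the dual kernels -/
def Kc (k : ℕ) (b : Bool) (s : ℂ) : ℂ :=
  Complex.Gamma (s + k) / (k.factorial : ℂ) * Complex.Gamma (1 - s) ^ 2 *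
    (2 * (Real.pi : ℂ)) ^ (-(2 * (1 - s))) *
    (if b then 2 * Complex.cos ((Real.pi : ℂ) * (1 - s)) else 2)

/-- the dual kernels: `(1/2πi) ∫_{(-1/2)} Kc(s) y^{s-1} ds` -/
def Hk (k : ℕ) (b : Bool) (y : ℝ) : ℂ :=
  (1 / (2 * (Real.pi : ℂ))) *
    ∫ τ : ℝ, Kc k b (-1 / 2 + (τ : ℂ) * I) * (y : ℂ) ^ (-3 / 2 + (τ : ℂ) * I)

/-- finite Fourier transform -/
def Ft (h : ℕ) [NeZero h] (Φ : ZMod h → ZMod h → ℂ) (u v : ZMod h) : ℂ :=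
  ∑ x : ZMod h, ∑ y : ZMod h, Φ x y * (ZMod.stdAddChar (u * x + v * y) : ℂ)

/-- two-variable Hurwitz function -/
def E2 (h : ℕ) [NeZero h] (Φ : ZMod h → ZMod h → ℂ) (s : ℂ) : ℂ :=
  (h : ℂ) ^ (-(2 * s)) * ∑ x : ZMod h, ∑ y : ZMod h, Φ x y *
    (HurwitzZeta.hurwitzZeta (ZMod.toAddCircle x) s *
      HurwitzZeta.hurwitzZeta (ZMod.toAddCircle y) s)

/-- its Dirichlet coefficients -/
def F2 (h : ℕ) [NeZero h] (Φ : ZMod h → ZMod h → ℂ) (n : ℕ) : ℂ :=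
  ∑ x ∈ n.divisorsAntidiagonal, Φ (x.1 : ZMod h) (x.2 : ZMod h)

/-- zero sums in each variable, and even -/
structure Z2 (h : ℕ) [NeZero h] (Φ : ZMod h → ZMod h → ℂ) : Prop where
  left : ∀ y, ∑ x, Φ x y = 0
  right : ∀ x, ∑ y, Φ x y = 0
  even : ∀ x y, Φ (-x) (-y) = Φ x y

/-- indicator of `h ∣ m` -/
def dv1 (h m : ℕ) : ℂ := if h ∣ m then 1 else 0

/-- dual coefficients: `e(σ m₁ m₂ l̄ / h) - 1_{h | m₁} - 1_{h | m₂} + 1_{h | m₁, h | m₂}` -/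
def cd (σ : ℤ) (h l : ℕ) (m : ℕ × ℕ) : ℂ :=
  kf (σ * ((m.1 : ℤ) * m.2)) l h - dv1 h m.1 - dv1 h m.2 + dv1 h m.1 * dv1 h m.2

/-- the range of the parameters -/
def Rng (T : ℝ) (k : ℕ) : Prop := Real.log T ^ 2 ≤ k ∧ (k : ℝ) ≤ 4 * Real.log T ^ 2

/-- the twisted moment -/
def Mt (k : ℕ) (T : ℝ) (h l : ℕ) : ℂ :=
  ∫ t in Set.Ioi (0 : ℝ), ((om k (k / T) t * ‖riemannZeta (cl t)‖ ^ 2 : ℝ) : ℂ) *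
    ef (Real.log ((h : ℝ) / l)) t

/-- the dual sum -/
def Du (k : ℕ) (b : Bool) (σ : ℤ) (h l : ℕ) (Y : ℝ) : ℂ :=
  ∑' n : ℕ, (tau n : ℂ) * kf (σ * n) l h * Hk k b ((n : ℝ) * Y / ((h : ℝ) * l))

/-! ### Statements -/

/-- contour shift for one pair -/
def P_TM2 : Prop :=
  ∀ᶠ T : ℝ in atTop, ∀ k : ℕ, Rng T k → ∀ h l : ℕ, 1 ≤ h → 1 ≤ l → (h : ℝ) ≤ T → (l : ℝ) ≤ T →
    ‖(∫ t in Set.Ioi (0 : ℝ), riemannZeta (cl t) ^ 2 * Gf k (k / T) (cl t) *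
        ef (Real.log ((h : ℝ) / l)) t) -
      (Real.sqrt ((l : ℝ) / h) : ℂ) * (S2 k h l (Yf k T) /
        (((k.factorial : ℝ) * Yf k T ^ (k + 1) : ℝ) : ℂ))‖ ≤ T ^ (-6 : ℝ)

/-- smooth sums of the divisor function -/
def P_V2 : Prop :=
  ∃ C : ℝ, ∃ A : ℕ, 0 < C ∧ ∀ k : ℕ, 1 ≤ k → ∀ u : ℝ, 1 ≤ u →
    |V2 k u - u * (Real.log u + Ck k)| ≤ C * (k : ℝ) ^ A * u ^ (3 / 4 : ℝ)

/-- the twisted moment of one pair as an exponential sum -/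
def P_TW : Prop :=
  ∀ᶠ T : ℝ in atTop, ∀ k : ℕ, Rng T k → ∀ h l : ℕ, 1 ≤ h → 1 ≤ l → (h : ℝ) ≤ T → (l : ℝ) ≤ T →
    ‖Mt k T h l - (Real.sqrt ((l : ℝ) / h) : ℂ) * (S2 k h l (Yf k T) /
        (((k.factorial : ℝ) * Yf k T ^ (k + 1) : ℝ) : ℂ))‖ ≤ T ^ (-(2 / 3) : ℝ)

/-- `E2` continues to an entire function of polynomial growth -/
def P_E2a : Prop :=
  ∀ (h : ℕ) [NeZero h] (Φ : ZMod h → ZMod h → ℂ), Z2 h Φ →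
    (∃ g : ℂ → ℂ, Differentiable ℂ g ∧ ∀ s : ℂ, s ≠ 1 → g s = E2 h Φ s) ∧
    (∃ C : ℝ, ∃ A : ℕ, 0 ≤ C ∧ ∀ s : ℂ, -(1 / 2) ≤ s.re → s.re ≤ 3 → 1 ≤ |s.im| →
      ‖E2 h Φ s‖ ≤ C * |s.im| ^ A) ∧
    ∀ s : ℂ, 1 < s.re → LSeriesHasSum (F2 h Φ) s (E2 h Φ s)

/-- functional equation on the line `Re s = -1/2` -/
def P_E2b : Prop :=
  ∀ (h : ℕ) [NeZero h] (Φ : ZMod h → ZMod h → ℂ), Z2 h Φ → ∀ τ : ℝ,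
    HasSum (fun m : ℕ × ℕ => if m.1 = 0 ∨ m.2 = 0 then (0 : ℂ) else
      (((m.1 : ℝ) * m.2 : ℝ) : ℂ) ^ (-3 / 2 + (τ : ℂ) * I) *
        (Ft h Φ m.1 m.2 * (2 * Complex.cos ((Real.pi : ℂ) * (1 - (-1 / 2 + (τ : ℂ) * I)))) +
          Ft h Φ m.1 (-(m.2 : ZMod h)) * 2) *
        ((h : ℂ) ^ (-(2 * (-1 / 2 + (τ : ℂ) * I))) *
          Complex.Gamma (1 - (-1 / 2 + (τ : ℂ) * I)) ^ 2 *
          (2 * (Real.pi : ℂ)) ^ (-(2 * (1 - (-1 / 2 + (τ : ℂ) * I))))))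
      (E2 h Φ (-1 / 2 + (τ : ℂ) * I))

/-- Voronoi summation -/
def P_FE : Prop :=
  ∀ (k h : ℕ) [NeZero h] (Φ : ZMod h → ZMod h → ℂ) (V : ℝ), 3 ≤ k → Z2 h Φ → 0 < V →
    HasSum (fun m : ℕ × ℕ => if m.1 = 0 ∨ m.2 = 0 then (0 : ℂ) else
      ((V / (h : ℝ) ^ 2 : ℝ) : ℂ) *
        (Ft h Φ m.1 m.2 * Hk k true ((m.1 : ℝ) * m.2 * V / (h : ℝ) ^ 2) +
          Ft h Φ m.1 (-(m.2 : ZMod h)) * Hk k false ((m.1 : ℝ) * m.2 * V / (h : ℝ) ^ 2)))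
      ((∑' n : ℕ, F2 h Φ n * ((((n : ℝ) / V) ^ k * Real.exp (-((n : ℝ) / V)) : ℝ) : ℂ)) /
        (k.factorial : ℂ))

/-- the dual form of `S2` -/
def P_DUAL : Prop :=
  ∀ (k h l : ℕ) (Y : ℝ), 3 ≤ k → 1 ≤ h → 1 ≤ l → Nat.Coprime h l → 0 < Y →
    HasSum (fun m : ℕ × ℕ => if m.1 = 0 ∨ m.2 = 0 then (0 : ℂ) else
      ((Y / l : ℝ) : ℂ) *
        (cd 1 h l m * Hk k true ((m.1 : ℝ) * m.2 * Y / ((h : ℝ) * l)) +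
          cd (-1) h l m * Hk k false ((m.1 : ℝ) * m.2 * Y / ((h : ℝ) * l))))
      (S2 k h l Y / (((k.factorial : ℝ) * Y ^ k : ℝ) : ℂ) -
        ((2 * V2 k (Y / l) - V2 k (h * Y / l) / h : ℝ) : ℂ))

/-- uniform bound of the Mellin transform in vertical strips `Re s = 1 - c`, `c > 0` -/
def P_KU : Prop :=
  ∀ c1 c2 : ℝ, 0 < c1 → c1 ≤ c2 → ∃ (C : ℝ) (A k0 : ℕ), 0 < C ∧ ∀ k : ℕ, k0 ≤ k → ∀ (b : Bool)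
    (c : ℝ), c1 ≤ c → c ≤ c2 → ∀ τ : ℝ,
    ‖Kc k b (((1 - c : ℝ) : ℂ) + (τ : ℂ) * I)‖ ≤ C * (k : ℝ) ^ A / (1 + |τ|) ^ 4

/-- bounds for the kernels -/
def P_KER : Prop :=
  ∀ c : ℝ, 0 < c → ∃ (C : ℝ) (A k0 : ℕ), 0 < C ∧ ∀ k : ℕ, k0 ≤ k → ∀ (b : Bool) (y : ℝ), 0 < y →
    ‖Hk k b y‖ ≤ C * (k : ℝ) ^ A * y ^ (-c) ∧
    ∀ y' : ℝ, y ≤ y' → ‖Hk k b y - Hk k b y'‖ ≤ C * (k : ℝ) ^ A * y ^ (-c) * ((y' - y) / y)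

/-- one coprime pair -/
def P_COP : Prop :=
  ∀ᶠ T : ℝ in atTop, ∀ k : ℕ, Rng T k → ∀ h l : ℕ, 1 ≤ h → 1 ≤ l → Nat.Coprime h l →
    (h : ℝ) ≤ T ^ (3 / 5 : ℝ) → (l : ℝ) ≤ T ^ (3 / 5 : ℝ) →
    ‖Mt k T h l - ((1 / Real.sqrt (h * l) * (Real.log (Yf k T / (h * l)) + Ck k) : ℝ) : ℂ) -
      ((1 / Real.sqrt (h * l) : ℝ) : ℂ) *
        (Du k true 1 h l (Yf k T) + Du k false (-1) h l (Yf k T))‖ ≤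
      T ^ (-(3 / 5) : ℝ) + T ^ (-(1 / 5) : ℝ) * (l : ℝ) ^ (-(1 / 4) : ℝ) * (h : ℝ) ^ (-(1 / 2) : ℝ)

/-- the dual sums on average, from `KF.tri` -/
def P_TRI : Prop :=
  ∀ θ : ℝ, 0 < θ → θ < 14 / 27 → ∃ η : ℝ, 0 < η ∧ ∀ᶠ T : ℝ in atTop, ∀ k : ℕ, Rng T k →
    ∀ M : ℕ, (M : ℝ) ≤ T ^ θ → ∀ α β : ℕ → ℂ, (∀ m, ‖α m‖ ≤ 1) → (∀ m, ‖β m‖ ≤ 1) →
    ∀ (b : Bool) (σ : ℤ), (σ = 1 ∨ σ = -1) →
    ‖∑ l ∈ Ioc M (2 * M + 1), ∑ h ∈ (Ioc M (2 * M + 1)).filter (fun h => Nat.Coprime l h),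
      α l * β h * ((1 / ((h : ℝ) * l) : ℝ) : ℂ) * Du k b σ h l (Yf k T)‖ ≤ T ^ (-η)

/-- the final theorem -/
def P_TSM : Prop :=
  ∀ θ : ℝ, θ < 14 / 27 → ∃ η : ℝ, 0 < η ∧ ∀ᶠ T : ℝ in atTop, ∀ k : ℕ, Rng T k →
    ∀ N : ℕ, (N : ℝ) ≤ T ^ θ → ∀ a : ℕ → ℂ, (∀ n, ‖a n‖ ≤ 1) →
    ‖((∫ t in Set.Ioi (0 : ℝ), om k (k / T) t * ‖riemannZeta (cl t)‖ ^ 2 *
        ‖∑ n ∈ Ioc N (2 * N), a n * (n : ℂ) ^ (-(cl t))‖ ^ 2 : ℝ) : ℂ) -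
      ∑ h ∈ Ioc N (2 * N), ∑ l ∈ Ioc N (2 * N), a h * (starRingEnd ℂ) (a l) *
        ((1 / (Nat.lcm h l : ℝ) *
          (Real.log (Yf k T * (Nat.gcd h l : ℝ) ^ 2 / ((h : ℝ) * l)) + Ck k) : ℝ) : ℂ)‖ ≤ T ^ (-η)

end

end Pool.Agent.H262R4.TM
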