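import Pool.Agent.H262R4.TM.Defs

/-!
TM project (helper262), second part: Dirichlet polynomials with arbitrary support `[1, N]`. Statements.
-/

namespace Pool.Agent.H262R4.TM

open Finset Filter Topology MeasureTheory Complex
open Pool.Agent.H306R2.SM (om cl ef Xf Gf Yf ee)
open Pool.Agent.H442R2.KF (e kf tau Wei FF Ker2 PL)

noncomputable section

/-- the diagonal quantity of `KF`, restricted to multiples `m` of `q` -/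
def DGq (ψ : ℕ → ℝ → ℂ) (k : ℤ) (M J q : ℕ) : ℝ :=
  ∑ n ∈ Ioc M (2 * M + 1), ∑ m ∈ (Ioc M (2 * M + 1)).filter (fun m => Nat.Coprime m n ∧ q ∣ m),
    ‖FF ψ k J n m‖ ^ 2

/-- sparse version of `KF.DG_le` -/
def P_DGQ : Prop :=
  ∀ ε : ℝ, 0 < ε → ∃ C : ℝ, 0 < C ∧ ∀ (M J q : ℕ), 1 ≤ M → 1 ≤ J → 1 ≤ q → (J * q) ^ 4 ≤ M →
    ∀ V : ℝ, 1 ≤ V → ∀ ψ : ℕ → ℝ → ℂ, (∀ j, Wei M V (ψ j)) →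
    ∀ k : ℤ, k ≠ 0 → (q : ℤ) ∣ k → |(k : ℝ)| * J ≤ V * (M : ℝ) ^ 2 →
    DGq ψ k M J q ≤ C * V ^ 3 * (M : ℝ) ^ (2 + ε) * J / q

/-- sparse version of `KF.ampl2` -/
def P_AMP : Prop :=
  ∀ (M L J κ q : ℕ), 1 ≤ M → 1 ≤ L → 1 ≤ q → q ≤ M → 2 * M + 1 < (L + 1) ^ κ → ∀ (V : ℝ)
    (ψ : ℕ → ℝ → ℂ), (∀ j, Wei M V (ψ j)) → ∀ (k : ℤ) (α : ℕ → ℂ), (∀ m, ‖α m‖ ≤ 1) →
    (∀ m, ¬ q ∣ m → α m = 0) →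
    ((PL L).card : ℝ) ^ 2 * ∑ n ∈ Ioc M (2 * M + 1),
        ‖∑ m ∈ (Ioc M (2 * M + 1)).filter (fun m => Nat.Coprime m n), α m * FF ψ k J n m‖ ^ 2 ≤
      2 * (2 * M + 1) * ((PL L).card * DGq ψ k M J q + (3 * M / q) *
        Real.sqrt (∑ m₁ ∈ Ioc M (2 * M + 1), ∑ m₂ ∈ Ioc M (2 * M + 1),
          ‖Ker2 ψ k M L J m₁ m₂‖ ^ 2)) + 8 * (κ : ℝ) ^ 2 * (3 * M / q) * DGq ψ k M J q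

/-- sparse version of `KF.tri` -/
def P_TRI2 : Prop :=
  ∀ δ : ℝ, 0 < δ → ∃ (η C : ℝ), 0 < η ∧ 0 < C ∧ ∀ (M J q : ℕ), 1 ≤ M → 1 ≤ J → 1 ≤ q →
    (J : ℝ) * q ≤ (M : ℝ) ^ (1 / 14 - δ) →
    ∀ V : ℝ, 1 ≤ V → ∀ ψ : ℕ → ℝ → ℂ, (∀ j, Wei M V (ψ j)) →
    ∀ k : ℤ, k ≠ 0 → (q : ℤ) ∣ k → |(k : ℝ)| * J ≤ V * (M : ℝ) ^ 2 →
    ∀ α β : ℕ → ℂ, (∀ m, ‖α m‖ ≤ 1) → (∀ n, ‖β n‖ ≤ 1) → (∀ m, ¬ q ∣ m → α m = 0) →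
    ‖∑ m ∈ Ioc M (2 * M + 1), ∑ n ∈ (Ioc M (2 * M + 1)).filter (fun n => Nat.Coprime m n),
      α m * β n * FF ψ k J n m‖ ≤ C * V ^ 2 * (M : ℝ) ^ (2 - η) / q

/-- weights on `[X, ∞)` -/
structure Wx (X V : ℝ) (ψ : ℝ → ℂ) : Prop where
  bd : ∀ s : ℝ, X ≤ s → ‖ψ s‖ ≤ 1
  lip : ∀ s s' : ℝ, X ≤ s → X ≤ s' → ‖ψ s - ψ s'‖ ≤ V * |s - s'| / X

/-- two blocks of different sizes; either of `m` (inverted) and `n` (modulus) may be the larger -/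
def P_BLK : Prop :=
  ∀ δ : ℝ, 0 < δ → ∃ (η C : ℝ), 0 < η ∧ 0 < C ∧ ∀ (H K J : ℕ), 1 ≤ H → 1 ≤ K → 1 ≤ J →
    (J : ℝ) * (max (H : ℝ) K / min (H : ℝ) K) ≤ (max (H : ℝ) K) ^ (1 / 14 - δ) →
    ∀ V : ℝ, 1 ≤ V → ∀ ψ : ℕ → ℝ → ℂ, (∀ j, Wx ((H : ℝ) * K / 2) V (ψ j)) →
    ∀ σ : ℤ, (σ = 1 ∨ σ = -1) →
    ∀ α β : ℕ → ℂ, (∀ m, ‖α m‖ ≤ 1) → (∀ n, ‖β n‖ ≤ 1) →
    ‖∑ m ∈ (Ioc H (2 * H)).filter (fun m => 4 * m ≤ 5 * H),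
      ∑ n ∈ (Ioc K (2 * K)).filter (fun n => 4 * n ≤ 5 * K ∧ Nat.Coprime m n),
      α m * β n * ∑ j ∈ Icc 1 J, ψ j ((m : ℝ) * n) * kf (σ * j) m n‖ ≤
      C * V ^ 2 * ((H : ℝ) * K) * (max (H : ℝ) K) ^ (-η)

/-- the dual sums on average, arbitrary supports -/
def P_TRIG : Prop :=
  ∀ θ : ℝ, 0 < θ → θ < 14 / 27 → ∃ η : ℝ, 0 < η ∧ ∀ᶠ T : ℝ in atTop, ∀ k : ℕ, Rng T k →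
    ∀ N : ℕ, (N : ℝ) ≤ T ^ θ → ∀ α β : ℕ → ℂ, (∀ m, ‖α m‖ ≤ 1) → (∀ m, ‖β m‖ ≤ 1) →
    ∀ (b : Bool) (σ : ℤ), (σ = 1 ∨ σ = -1) →
    ‖∑ l ∈ Icc 1 N, ∑ h ∈ (Icc 1 N).filter (fun h => Nat.Coprime l h),
      α l * β h * ((1 / ((h : ℝ) * l) : ℝ) : ℂ) * Du k b σ h l (Yf k T)‖ ≤ T ^ (-η)

/-- the final theorem for arbitrary Dirichlet polynomials of length `N` -/
def P_TSM2 : Prop :=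
  ∀ θ : ℝ, θ < 14 / 27 → ∃ η : ℝ, 0 < η ∧ ∀ᶠ T : ℝ in atTop, ∀ k : ℕ, Rng T k →
    ∀ N : ℕ, (N : ℝ) ≤ T ^ θ → ∀ a : ℕ → ℂ, (∀ n, ‖a n‖ ≤ 1) →
    ‖((∫ t in Set.Ioi (0 : ℝ), om k (k / T) t * ‖riemannZeta (cl t)‖ ^ 2 *
        ‖∑ n ∈ Icc 1 N, a n * (n : ℂ) ^ (-(cl t))‖ ^ 2 : ℝ) : ℂ) -
      ∑ h ∈ Icc 1 N, ∑ l ∈ Icc 1 N, a h * (starRingEnd ℂ) (a l) *
        ((1 / (Nat.lcm h l : ℝ) *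
          (Real.log (Yf k T * (Nat.gcd h l : ℝ) ^ 2 / ((h : ℝ) * l)) + Ck k) : ℝ) : ℂ)‖ ≤ T ^ (-η)

end

end Pool.Agent.H262R4.TM
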