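import Pool.Agent.H402R2.SM_T4b
import Pool.Agent.H262R4.TM.Defs

set_option autoImplicit false

/-!
TM2: contour shift for one pair (adaptation of helper402's `twist_main`: `ζ²` instead of `ζ³`,
and the ratio `r = h/l` may be smaller than one).
-/

namespace Pool.Agent.H262R4.TM.TTM2

open MeasureTheory Filter Topology Complex Set Pool.Agent.H306R2 Pool.Agent.H306R2.SM
open Pool.Agent.H402R2.T4b (zz zz_re zz_im zz_ne zz_arg zz_norm Gf_norm Gf_small Gf_diff KK Gf_eq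
  term_eq vint cahen shift_up int_exp_abs final_est)
open Pool.Agent.H442R2.KF (tau)

noncomputable section

/-- `max(1,r)^(3/2)` -/
def RR (r : ℝ) : ℝ := (max 1 r) ^ (3 / 2 : ℝ)

lemma RR_nonneg (r : ℝ) : 0 ≤ RR r := by
  unfold RR
  have : (1 : ℝ) ≤ max 1 r := le_max_left _ _
  positivity

lemma tau_hasSum (s : ℂ) (hs : 1 < s.re) :
    HasSum (fun n : ℕ => (tau n : ℂ) * (n : ℂ) ^ (-s)) (riemannZeta s ^ 2) := by
  have h := zetaA_hasSum 2 1 1 (by
    intro n hn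
    rw [ArithmeticFunction.one_apply_ne]
    rintro rfl
    simp at hn) s hs
  have h2 : Dp (1 : ArithmeticFunction ℝ) 1 s = 1 := by
    unfold Dp; simp
  rw [h2, mul_one, mul_one] at h
  have e : ∀ n, (zR ^ 2) n = tau n := by
    intro n
    rw [pow_two, ArithmeticFunction.mul_apply]
    unfold tau zR
    have h3 : ∀ x ∈ n.divisorsAntidiagonal,
        ((ArithmeticFunction.zeta : ArithmeticFunction ℝ) x.1) *
          ((ArithmeticFunction.zeta : ArithmeticFunction ℝ) x.2) = 1 := by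
      intro x hx
      obtain ⟨hx1, hx2⟩ := Nat.mem_divisorsAntidiagonal.mp hx
      have h4 : x.1 ≠ 0 := by
        intro h5
        rw [h5, zero_mul] at hx1
        exact hx2 hx1.symm
      have h5 : x.2 ≠ 0 := by
        intro h5
        rw [h5, mul_zero] at hx1
        exact hx2 hx1.symm
      rw [ArithmeticFunction.natCoe_apply, ArithmeticFunction.natCoe_apply,
        ArithmeticFunction.zeta_apply_ne h4, ArithmeticFunction.zeta_apply_ne h5]
      norm_num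
    rw [Finset.sum_congr rfl h3, Finset.sum_const, nsmul_eq_mul, mul_one]
    congr 1
    rw [← Nat.map_div_right_divisors, Finset.card_map]
  simpa only [e] using h

lemma tau_nonneg (n : ℕ) : 0 ≤ tau n := by unfold tau; positivity

lemma tau_zero : tau 0 = 0 := by unfold tau; simp

/-- `Σ τ(n) n^{-2}` -/
def Z2 : ℝ := ∑' n : ℕ, tau n * ((n : ℝ) ^ 2)⁻¹

lemma norm_term (n : ℕ) (τ : ℝ) :
    ‖(tau n : ℂ) * (n : ℂ) ^ (-((2 : ℂ) + τ * I))‖ = tau n * ((n : ℝ) ^ 2)⁻¹ := by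
  rcases Nat.eq_zero_or_pos n with h | h
  · subst h; simp [tau_zero]
  · rw [norm_mul, Complex.norm_real, Real.norm_of_nonneg (tau_nonneg n),
      Complex.norm_natCast_cpow_of_pos h]
    congr 1
    have e : (-((2 : ℂ) + τ * I)).re = -2 := by simp
    rw [e, Real.rpow_neg (by positivity)]
    congr 1
    norm_cast

lemma Z2_summable : Summable (fun n : ℕ => tau n * ((n : ℝ) ^ 2)⁻¹) := by
  have h := (tau_hasSum ((2 : ℂ) + (0 : ℝ) * I) (by simp)).summable.norm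
  refine h.congr fun n => ?_
  exact norm_term n 0

lemma zeta_le_Z2 (τ : ℝ) : ‖riemannZeta ((2 : ℂ) + τ * I) ^ 2‖ ≤ Z2 := by
  have h := tau_hasSum ((2 : ℂ) + τ * I) (by simp)
  rw [← h.tsum_eq]
  exact tsum_of_norm_bounded Z2_summable.hasSum fun n => (norm_term n τ).le

lemma Z2_nonneg : 0 ≤ Z2 := (norm_nonneg _).trans (zeta_le_Z2 0)

/-- the full integrand -/
def Ph (k : ℕ) (δ r : ℝ) (s : ℂ) : ℂ :=
  riemannZeta s ^ 2 * Gf k δ s * Complex.exp ((s - 1 / 2) * (Real.log r : ℂ))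

lemma Ph_diff (k : ℕ) (δ r : ℝ) (s : ℂ) (hs : 0 < s.re) (hs1 : s ≠ 1) :
    DifferentiableAt ℂ (Ph k δ r) s := by
  unfold Ph
  exact (((differentiableAt_riemannZeta hs1).pow 2).mul (Gf_diff k δ s hs)).mul (by fun_prop)

lemma exp_norm (r : ℝ) (hr : 0 < r) (s : ℂ) (h1 : 1 / 2 ≤ s.re) (h2 : s.re ≤ 2) :
    ‖Complex.exp ((s - 1 / 2) * (Real.log r : ℂ))‖ ≤ RR r := by
  have hm : (1 : ℝ) ≤ max 1 r := le_max_left _ _
  unfold RR
  rw [Complex.norm_exp, Complex.re_mul_ofReal, Real.rpow_def_of_pos (by linarith)]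
  apply Real.exp_le_exp.2
  have h0 := Real.log_nonneg hm
  have h3 : Real.log r ≤ Real.log (max 1 r) := Real.log_le_log hr (le_max_right _ _)
  have e : (s - 1 / 2).re = s.re - 1 / 2 := by
    rw [Complex.sub_re]; norm_num
  rw [e]
  calc (s.re - 1 / 2) * Real.log r ≤ (s.re - 1 / 2) * Real.log (max 1 r) :=
        mul_le_mul_of_nonneg_left h3 (by linarith)
    _ ≤ (3 / 2) * Real.log (max 1 r) := mul_le_mul_of_nonneg_right (by linarith) h0
    _ = Real.log (max 1 r) * (3 / 2) := by ring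

lemma zeta_two (s : ℂ) (h1 : 1 / 2 ≤ s.re) (h2 : s.re ≤ 2) (h3 : 1 / 2 ≤ ‖s - 1‖) :
    ‖riemannZeta s ^ 2‖ ≤ 216 * (|s.im| + 3) ^ 6 := by
  have h := zeta_norm_le h1 h3
  have hs : ‖s‖ ≤ 2 + |s.im| := by
    have := Complex.norm_le_abs_re_add_abs_im s
    rw [abs_of_nonneg (by linarith : 0 ≤ s.re)] at this
    linarith
  rw [norm_pow]
  have h4 : (1 : ℝ) ≤ |s.im| + 3 := by
    have := abs_nonneg s.im
    linarith
  calc ‖riemannZeta s‖ ^ 2 ≤ (6 * (‖s‖ + 1) ^ 2) ^ 2 := by gcongr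
    _ ≤ (6 * (2 + |s.im| + 1) ^ 2) ^ 2 := by gcongr
    _ = 36 * (|s.im| + 3) ^ 4 := by ring
    _ ≤ 216 * (|s.im| + 3) ^ 6 := by
        have h5 : (|s.im| + 3) ^ 4 ≤ (|s.im| + 3) ^ 6 := pow_le_pow_right₀ h4 (by norm_num)
        have h6 : 0 ≤ (|s.im| + 3) ^ 6 := by positivity
        linarith

/-- bound on the small part of the strip -/
lemma Ph_small (k : ℕ) (hk : 2 ≤ k) (δ : ℝ) (hδ : 0 < δ) (r : ℝ) (hr : 0 < r) (s : ℂ)
    (h1 : 1 / 2 ≤ s.re) (h2 : s.re ≤ 2) (h3 : s.im ≤ 1) (h4 : 0 ≤ s.im) (h5 : 1 / 2 ≤ ‖s - 1‖) :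
    ‖Ph k δ r s‖ ≤ 216 * 4 ^ 6 * (2 * Real.exp 2) * (((k : ℝ) + 1) * (2 * δ) ^ (k + 1) * RR r) := by
  unfold Ph
  rw [norm_mul, norm_mul]
  have a1 := zeta_two s h1 h2 h5
  have a2 := Gf_small k hk δ hδ s h1 h2 h3
  have a3 := exp_norm r hr s h1 h2
  have a4 : 216 * (|s.im| + 3) ^ 6 ≤ 216 * (4 : ℝ) ^ 6 := by
    rw [abs_of_nonneg h4]
    have : s.im + 3 ≤ 4 := by linarith
    gcongr
  have a5 : Real.exp (-(1 / 2 * |s.im|)) ≤ 1 := by
    rw [Real.exp_le_one_iff]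
    have := abs_nonneg s.im
    linarith
  have hr0 : 0 ≤ RR r := RR_nonneg r
  calc ‖riemannZeta s ^ 2‖ * ‖Gf k δ s‖ * ‖Complex.exp ((s - 1 / 2) * (Real.log r : ℂ))‖ ≤
      (216 * (4 : ℝ) ^ 6) * (2 * ((k : ℝ) + 1) * (2 * δ) ^ (k + 1) * Real.exp 2 * 1) * RR r := by
        gcongr
        · exact a1.trans a4
        · exact a2.trans (by gcongr)
    _ = _ := by ring

/-- decay at infinity -/
lemma Ph_decay (k : ℕ) (δ : ℝ) (hδ : 0 < δ) (r : ℝ) (hr : 0 < r) :
    ∃ B η : ℝ, 0 < η ∧ ∀ s : ℂ, 1 / 2 ≤ s.re → s.re ≤ 2 → 1 ≤ s.im →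
      ‖Ph k δ r s‖ ≤ B * Real.exp (-(η * s.im)) := by
  have hpi := Real.pi_gt_three
  obtain ⟨hφ0, hφ1⟩ := zz_arg δ hδ
  set φ := arg (zz δ) with hφ
  set θ := (φ + Real.pi / 2) / 2 with hθ
  have hθ0 : 0 ≤ θ := by positivity
  have hθ1 : θ < Real.pi / 2 := by rw [hθ]; linarith
  have hcos : 0 < Real.cos θ := Real.cos_pos_of_mem_Ioo ⟨by linarith, hθ1⟩
  have hcos1 : Real.cos θ ≤ 1 := Real.cos_le_one θ
  set η := (θ - φ) / 2 with hη
  have hη0 : 0 < η := by rw [hη, hθ]; linarith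
  -- bound of the real Gamma on a compact
  obtain ⟨G, hG⟩ : ∃ G : ℝ, ∀ x ∈ Icc (1 / 2 : ℝ) 2, |Real.Gamma (x + k)| ≤ G := by
    have hc : ContinuousOn (fun x : ℝ => Real.Gamma (x + k)) (Icc (1 / 2 : ℝ) 2) := by
      intro x hx
      have hx0 : 0 < x + k := by
        have : (0:ℝ) ≤ k := Nat.cast_nonneg k
        linarith [hx.1]
      have : ContinuousAt Real.Gamma (x + k) := by
        apply (Real.differentiableAt_Gamma _).continuousAt
        intro m hm
        have : (0:ℝ) ≤ m := Nat.cast_nonneg m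
        linarith
      exact (ContinuousAt.comp (f := fun x : ℝ => x + (k : ℝ)) this (by fun_prop)).continuousWithinAt
    obtain ⟨C, hC⟩ := isCompact_Icc.exists_bound_of_continuousOn hc
    exact ⟨C, fun x hx => by simpa using hC x hx⟩
  have hG0 : 0 ≤ G := (abs_nonneg _).trans (hG 1 ⟨by norm_num, by norm_num⟩)
  refine ⟨216 * (720 / η ^ 6 * Real.exp (3 * η)) * (δ ^ (k + 1) / (k.factorial : ℝ) *
    (G / Real.cos θ ^ ((2 : ℝ) + k))) * RR r, η, hη0, fun s h1 h2 h3 => ?_⟩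
  have him : |s.im| = s.im := abs_of_nonneg (by linarith)
  have hs1 : 1 / 2 ≤ ‖s - 1‖ := by
    have := Complex.abs_im_le_norm (s - 1)
    simp only [Complex.sub_im, Complex.one_im, sub_zero] at this
    rw [him] at this
    linarith
  have a1 := zeta_two s h1 h2 hs1
  have a2 := Gf_norm k δ hδ s (by linarith) θ hθ0 hθ1
  have a3 := exp_norm r hr s h1 h2
  rw [him] at a1 a2
  have a4 : (s.im + 3) ^ 6 ≤ 720 / η ^ 6 * (Real.exp (3 * η) * Real.exp (η * s.im)) := by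
    have h := Real.pow_div_factorial_le_exp (η * (s.im + 3)) (by positivity) 6
    rw [← Real.exp_add, show 3 * η + η * s.im = η * (s.im + 3) by ring]
    have e : ((6 : ℕ).factorial : ℝ) = 720 := by norm_num [Nat.factorial]
    rw [e, mul_pow, div_le_iff₀ (by norm_num)] at h
    rw [div_mul_eq_mul_div, le_div_iff₀ (by positivity)]
    linarith
  have hcc : Real.cos θ ^ ((2 : ℝ) + k) ≤ Real.cos θ ^ (s.re + k) :=
    Real.rpow_le_rpow_of_exponent_ge hcos hcos1 (by linarith)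
  have hGs : Real.Gamma (s.re + k) ≤ G := (le_abs_self _).trans (hG s.re ⟨h1, h2⟩)
  have hr0 : 0 ≤ RR r := RR_nonneg r
  unfold Ph
  rw [norm_mul, norm_mul]
  calc ‖riemannZeta s ^ 2‖ * ‖Gf k δ s‖ * ‖Complex.exp ((s - 1 / 2) * (Real.log r : ℂ))‖ ≤
      (216 * (720 / η ^ 6 * (Real.exp (3 * η) * Real.exp (η * s.im)))) *
        (δ ^ (k + 1) / (k.factorial : ℝ) *
          (Real.exp (-θ * s.im) * G / Real.cos θ ^ ((2 : ℝ) + k)) * Real.exp (φ * s.im)) *
        RR r := by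
        gcongr
        · exact a1.trans (by gcongr)
        · refine a2.trans ?_
          gcongr
    _ = 216 * (720 / η ^ 6 * Real.exp (3 * η)) * (δ ^ (k + 1) / (k.factorial : ℝ) *
        (G / Real.cos θ ^ ((2 : ℝ) + k))) * RR r *
        (Real.exp (η * s.im) * Real.exp (-θ * s.im) * Real.exp (φ * s.im)) := by ring
    _ = _ := by
        congr 1
        rw [← Real.exp_add, ← Real.exp_add]
        congr 1
        rw [hη]; ring

/-- weight on the line `Re s = 2` -/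
def Wt (k : ℕ) (δ r τ : ℝ) : ℂ :=
  Gf k δ ((2 : ℂ) + τ * I) * Complex.exp ((((2 : ℂ) + τ * I) - 1 / 2) * (Real.log r : ℂ))

lemma Wt_int (k : ℕ) (δ : ℝ) (hδ : 0 < δ) (r : ℝ) (hr : 0 < r) : Integrable (Wt k δ r) := by
  have h := vint (ω := zz δ) (by rw [zz_re]; positivity) (c := 2 + k) (by positivity)
  have e : Wt k δ r = fun τ : ℝ => ((KK k δ : ℂ) * Complex.exp ((((2 : ℂ) + τ * I) - 1 / 2) * (Real.log r : ℂ))) *
      ((1 / zz δ) ^ ((((2 + k : ℝ) : ℝ) : ℂ) + τ * I) * Complex.Gamma ((((2 + k : ℝ) : ℝ) : ℂ) + τ * I)) := by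
    funext τ
    unfold Wt
    rw [Gf_eq k δ hδ, show (2 : ℂ) + τ * I + k = (((2 + k : ℝ) : ℝ) : ℂ) + τ * I by push_cast; ring]
    ring
  rw [e]
  refine h.bdd_mul (c := |KK k δ| * RR r) ?_ ?_
  · apply Continuous.aestronglyMeasurable
    fun_prop
  · refine Eventually.of_forall fun τ => ?_
    rw [norm_mul, Complex.norm_real, Real.norm_eq_abs]
    apply mul_le_mul_of_nonneg_left _ (abs_nonneg _)
    exact exp_norm r hr _ (by simp; norm_num) (by simp)

lemma Ph_line (k : ℕ) (δ r τ : ℝ) :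
    Ph k δ r ((2 : ℂ) + τ * I) = ∑' n : ℕ, ((tau n : ℂ) * (n : ℂ) ^ (-((2 : ℂ) + τ * I))) * Wt k δ r τ := by
  rw [tsum_mul_right, (tau_hasSum ((2 : ℂ) + τ * I) (by simp)).tsum_eq]
  unfold Ph Wt
  ring

lemma line_int (k : ℕ) (δ : ℝ) (hδ : 0 < δ) (r : ℝ) (hr : 0 < r) :
    Integrable (fun τ : ℝ => Ph k δ r ((2 : ℂ) + τ * I)) ∧
    ∫ τ : ℝ, Ph k δ r ((2 : ℂ) + τ * I) = ∑' n : ℕ, ((tau n : ℂ) *
      ((KK k δ * ((n : ℝ) / r) ^ k * Real.exp (-(1 / 2 * Real.log r)) : ℝ) : ℂ) *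
      (2 * Real.pi * Complex.exp (-((((n : ℝ) / r : ℝ) : ℂ) * zz δ)))) := by
  have hW := Wt_int k δ hδ r hr
  set F : ℕ → ℝ → ℂ := fun n τ => ((tau n : ℂ) * (n : ℂ) ^ (-((2 : ℂ) + τ * I))) * Wt k δ r τ with hF
  have hmeas : ∀ n : ℕ, Continuous fun τ : ℝ => (tau n : ℂ) * (n : ℂ) ^ (-((2 : ℂ) + τ * I)) := by
    intro n
    rcases Nat.eq_zero_or_pos n with h | h
    · subst h
      simp only [tau_zero, Complex.ofReal_zero, zero_mul]
      exact continuous_const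
    · apply Continuous.mul continuous_const
      apply Continuous.const_cpow (by fun_prop)
      left
      exact_mod_cast h.ne'
  have hFint : ∀ n, Integrable (F n) := by
    intro n
    refine hW.bdd_mul (c := tau n * ((n : ℝ) ^ 2)⁻¹) (hmeas n).aestronglyMeasurable ?_
    exact Eventually.of_forall fun τ => (norm_term n τ).le
  have hnorm : ∀ n, ∫ τ, ‖F n τ‖ = tau n * ((n : ℝ) ^ 2)⁻¹ * ∫ τ, ‖Wt k δ r τ‖ := by
    intro n
    rw [← integral_const_mul]
    apply integral_congr_ae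
    refine Eventually.of_forall fun τ => ?_
    simp only [hF]
    rw [norm_mul, norm_term]
  have hsum : Summable fun n => ∫ τ, ‖F n τ‖ := by
    simp_rw [hnorm]
    exact Z2_summable.mul_right _
  have hmain := hasSum_integral_of_summable_integral_norm hFint hsum
  have hPh : (fun τ : ℝ => Ph k δ r ((2 : ℂ) + τ * I)) = fun τ => ∑' n, F n τ := by
    funext τ
    exact Ph_line k δ r τ
  have hcontPh : Continuous (fun τ : ℝ => Ph k δ r ((2 : ℂ) + τ * I)) := by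
    rw [continuous_iff_continuousAt]
    intro τ
    have h1 : ContinuousAt (Ph k δ r) ((2 : ℂ) + τ * I) := by
      apply (Ph_diff k δ r _ (by simp) _).continuousAt
      intro h
      have := congrArg Complex.re h
      simp at this
    exact ContinuousAt.comp (f := fun y : ℝ => (2 : ℂ) + y * I) h1 (by fun_prop)
  constructor
  · refine Integrable.mono' (hW.norm.const_mul Z2) hcontPh.aestronglyMeasurable ?_
    refine Eventually.of_forall fun τ => ?_
    have : Ph k δ r ((2 : ℂ) + τ * I) = riemannZeta ((2 : ℂ) + τ * I) ^ 2 * Wt k δ r τ := by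
      unfold Ph Wt; ring
    rw [this, norm_mul]
    exact mul_le_mul_of_nonneg_right (zeta_le_Z2 τ) (norm_nonneg _)
  · rw [hPh, ← hmain.tsum_eq]
    apply tsum_congr
    intro n
    rcases Nat.eq_zero_or_pos n with h | h
    · subst h
      simp [hF, tau_zero]
    · have hn0 : (0 : ℝ) < n := by exact_mod_cast h
      have hx : 0 < (n : ℝ) / r := by positivity
      have hω : 0 < ((((n : ℝ) / r : ℝ) : ℂ) * zz δ).re := by
        rw [Complex.re_ofReal_mul, zz_re]; positivity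
      have hc := cahen hω (c := 2 + k) (by positivity)
      rw [← hc, mul_assoc, ← integral_const_mul, ← integral_const_mul]
      apply integral_congr_ae
      refine Eventually.of_forall fun τ => ?_
      simp only [hF]
      unfold Wt
      rw [mul_assoc, term_eq k δ hδ r hr n h]
      rw [show (2 : ℂ) + τ * I + k = (((2 + k : ℝ) : ℝ) : ℂ) + τ * I by push_cast; ring]

/-- the value of the line integral -/
lemma line_value (k : ℕ) (T : ℝ) (hT : 0 < T) (hk : 1 ≤ k) (h l : ℕ) (hl : 1 ≤ l) (hh : 1 ≤ h) :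
    ∫ τ : ℝ, Ph k (k / T) ((h : ℝ) / l) ((2 : ℂ) + τ * I) =
      (Real.sqrt ((l : ℝ) / h) : ℂ) * (S2 k h l (Yf k T) /
            (((k.factorial : ℝ) * Yf k T ^ (k + 1) : ℝ) : ℂ)) := by
  have hk0 : (0 : ℝ) < k := by exact_mod_cast hk
  have hl0 : (0 : ℝ) < l := by exact_mod_cast hl
  have hh0 : (0 : ℝ) < h := by exact_mod_cast hh
  have hr : 0 < (h : ℝ) / l := by positivity
  have hδ : 0 < (k : ℝ) / T := by positivity
  rw [(line_int k (k / T) hδ ((h : ℝ) / l) hr).2]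
  have hpi := Real.pi_pos
  have hY : 2 * Real.pi * ((k : ℝ) / T) = 1 / Yf k T := by
    unfold Yf; field_simp
  have hY0 : 0 < Yf k T := by unfold Yf; positivity
  have hsq : Real.exp (-(1 / 2 * Real.log ((h : ℝ) / l))) = Real.sqrt ((l : ℝ) / h) := by
    rw [Real.sqrt_eq_rpow, Real.rpow_def_of_pos (by positivity)]
    congr 1
    rw [show (l : ℝ) / h = ((h : ℝ) / l)⁻¹ by rw [inv_div], Real.log_inv]
    ring
  have hKK : KK k (k / T) * (2 * Real.pi) = 1 / ((k.factorial : ℝ) * Yf k T ^ (k + 1)) := by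
    unfold KK
    have : ((k : ℝ) / T) ^ (k + 1) * (2 * Real.pi) ^ k / (k.factorial : ℝ) * (2 * Real.pi) =
        (2 * Real.pi * ((k : ℝ) / T)) ^ (k + 1) / (k.factorial : ℝ) := by
      rw [mul_pow (2 * Real.pi) ((k : ℝ) / T), pow_succ (2 * Real.pi)]; ring
    rw [this, hY, one_div, inv_pow]
    field_simp
  unfold S2
  rw [← tsum_div_const, ← tsum_mul_left]
  apply tsum_congr
  intro n
  have hx : (n : ℝ) / ((h : ℝ) / l) = (n : ℝ) * l / h := by field_simp
  rw [hx, hsq]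
  have hexp : Complex.exp (-((((n : ℝ) * l / h : ℝ) : ℂ) * zz (k / T))) =
      (Real.exp (-((n : ℝ) * l / h / Yf k T)) : ℂ) * ee h (-((n : ℤ) * l)) := by
    unfold ee zz
    rw [Complex.ofReal_exp, ← Complex.exp_add]
    congr 1
    have e : ((2 : ℂ) * Real.pi * (((k : ℝ) / T : ℝ) : ℂ)) = ((1 / Yf k T : ℝ) : ℂ) := by
      rw [← hY]; push_cast; ring
    rw [e]
    push_cast
    ring
  rw [hexp]
  have hKC : (KK k (k / T) : ℂ) * (2 * Real.pi) =
      1 / (((k.factorial : ℝ) * Yf k T ^ (k + 1) : ℝ) : ℂ) := by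
    have := congrArg (fun x : ℝ => (x : ℂ)) hKK
    push_cast at this ⊢
    exact this
  push_cast at hKC ⊢
  linear_combination ((tau n : ℂ) * ((n : ℂ) * l / h) ^ k * (Real.sqrt ((l : ℝ) / h) : ℂ) *
    Complex.exp (-((n : ℂ) * l / h / (Yf k T : ℂ))) * ee h (-((n : ℤ) * l))) * hKC

/-- the error bound -/
lemma main_bound : ∃ C : ℝ, 0 < C ∧ ∀ (k : ℕ), 2 ≤ k → ∀ δ : ℝ, 0 < δ → ∀ r : ℝ, 0 < r →
    ‖(∫ t in Ioi (0 : ℝ), Ph k δ r (1 / 2 + t * I)) - ∫ τ : ℝ, Ph k δ r ((2 : ℂ) + τ * I)‖ ≤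
      C * (((k : ℝ) + 1) * (2 * δ) ^ (k + 1) * RR r) := by
  set J0 := ∫ y : ℝ, Real.exp (-(1 / 2 * |y|)) with hJ0
  have hJ : 0 ≤ J0 := integral_nonneg fun y => (Real.exp_pos _).le
  have hZ := Z2_nonneg
  refine ⟨216 * 4 ^ 6 * (2 * Real.exp 2) * (5 / 2) + Z2 * (2 * Real.exp 2) * J0, by positivity,
    fun k hk δ hδ r hr => ?_⟩
  have hr0 : 0 ≤ RR r := RR_nonneg r
  set E := ((k : ℝ) + 1) * (2 * δ) ^ (k + 1) * RR r with hE
  have hE0 : 0 ≤ E := by positivity
  set M := 216 * 4 ^ 6 * (2 * Real.exp 2) * E with hM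
  obtain ⟨B, η, hη, hB⟩ := Ph_decay k δ hδ r hr
  have hsh := shift_up (Ph k δ r) (fun s h1 h2 h3 => Ph_diff k δ r s (by linarith) (by
    rintro rfl
    simp only [Complex.one_im] at h3
    linarith)) B η hη hB M (fun s h1 h2 h3 => by
      refine Ph_small k hk δ hδ r hr s h1 h2 h3.le (by linarith) ?_
      have := Complex.abs_im_le_norm (s - 1)
      simp only [Complex.sub_im, Complex.one_im, sub_zero] at this
      rw [h3, abs_one] at this
      linarith)
  obtain ⟨i1, i2, hdiff⟩ := hsh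
  obtain ⟨j2, -⟩ := line_int k δ hδ r hr
  -- the part (0,1] of the critical line
  have hcrit : ∀ t : ℝ, t ∈ Ioc (0 : ℝ) 1 → ‖Ph k δ r (1 / 2 + t * I)‖ ≤ M := by
    intro t ht
    have hre : ((1 : ℂ) / 2 + t * I).re = 1 / 2 := by simp
    have him : ((1 : ℂ) / 2 + t * I).im = t := by simp
    refine Ph_small k hk δ hδ r hr _ (by rw [hre]) (by rw [hre]; norm_num) (by rw [him]; exact ht.2)
      (by rw [him]; exact ht.1.le) ?_
    have := Complex.abs_re_le_norm ((1 : ℂ) / 2 + t * I - 1)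
    rw [Complex.sub_re, hre, Complex.one_re] at this
    have e : |(1 / 2 : ℝ) - 1| = 1 / 2 := by rw [abs_of_neg] <;> norm_num
    rw [e] at this
    exact this
  have hcontc : Continuous (fun t : ℝ => Ph k δ r (1 / 2 + t * I)) := by
    rw [continuous_iff_continuousAt]
    intro τ
    have h1 : ContinuousAt (Ph k δ r) ((1 : ℂ) / 2 + τ * I) := by
      apply (Ph_diff k δ r _ (by simp) _).continuousAt
      intro h
      have := congrArg Complex.re h
      simp at this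
    exact ContinuousAt.comp (f := fun y : ℝ => (1 : ℂ) / 2 + y * I) h1 (by fun_prop)
  have i0 : IntegrableOn (fun t : ℝ => Ph k δ r (1 / 2 + t * I)) (Ioc 0 1) :=
    (hcontc.integrableOn_Icc (a := 0) (b := 1)).mono_set Ioc_subset_Icc_self
  have hsplit1 : ∫ t in Ioi (0 : ℝ), Ph k δ r (1 / 2 + t * I) =
      (∫ t in Ioc (0 : ℝ) 1, Ph k δ r (1 / 2 + t * I)) +
        ∫ t in Ioi (1 : ℝ), Ph k δ r (1 / 2 + t * I) := by
    rw [← Ioc_union_Ioi_eq_Ioi (zero_le_one : (0 : ℝ) ≤ 1)]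
    apply setIntegral_union
    · rw [Set.disjoint_left]
      intro x hx hx2
      exact absurd hx.2 (not_le.2 hx2)
    · exact measurableSet_Ioi
    · exact i0
    · exact i1
  have hsplit2 : ∫ τ : ℝ, Ph k δ r ((2 : ℂ) + τ * I) =
      (∫ τ in Iic (1 : ℝ), Ph k δ r ((2 : ℂ) + τ * I)) +
        ∫ τ in Ioi (1 : ℝ), Ph k δ r ((2 : ℂ) + τ * I) := by
    rw [← integral_add_compl (measurableSet_Iic (a := (1 : ℝ))) j2, Set.compl_Iic]
  have hb1 : ‖∫ t in Ioc (0 : ℝ) 1, Ph k δ r (1 / 2 + t * I)‖ ≤ M := by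
    have := norm_setIntegral_le_of_norm_le_const (μ := volume) (s := Ioc (0 : ℝ) 1)
      (f := fun t : ℝ => Ph k δ r (1 / 2 + t * I)) (C := M) (by simp) hcrit
    simpa using this
  have hb2 : ‖∫ τ in Iic (1 : ℝ), Ph k δ r ((2 : ℂ) + τ * I)‖ ≤ Z2 * (2 * Real.exp 2) * J0 * E := by
    have hle : ∀ τ ∈ Iic (1 : ℝ), ‖Ph k δ r ((2 : ℂ) + τ * I)‖ ≤
        (Z2 * (2 * Real.exp 2) * E) * Real.exp (-(1 / 2 * |τ|)) := by
      intro τ hτ
      have hτ1 : τ ≤ 1 := hτ
      have a2 := Gf_small k hk δ hδ ((2 : ℂ) + τ * I) (by simp; norm_num) (by simp) (by simpa using hτ1)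
      have a3 := exp_norm r hr ((2 : ℂ) + τ * I) (by simp; norm_num) (by simp)
      have him : ((2 : ℂ) + τ * I).im = τ := by simp
      rw [him] at a2
      unfold Ph
      rw [norm_mul, norm_mul]
      calc _ ≤ Z2 * (2 * ((k : ℝ) + 1) * (2 * δ) ^ (k + 1) * Real.exp 2 * Real.exp (-(1 / 2 * |τ|))) *
            RR r := by
            gcongr
            exact zeta_le_Z2 τ
        _ = _ := by rw [hE]; ring
    have hI := (int_exp_abs (a := 1 / 2) (by norm_num)).const_mul (Z2 * (2 * Real.exp 2) * E)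
    calc ‖∫ τ in Iic (1 : ℝ), Ph k δ r ((2 : ℂ) + τ * I)‖ ≤
        ∫ τ in Iic (1 : ℝ), (Z2 * (2 * Real.exp 2) * E) * Real.exp (-(1 / 2 * |τ|)) := by
          apply norm_integral_le_of_norm_le hI.integrableOn
          exact (ae_restrict_iff' measurableSet_Iic).2 (Eventually.of_forall hle)
      _ ≤ ∫ τ : ℝ, (Z2 * (2 * Real.exp 2) * E) * Real.exp (-(1 / 2 * |τ|)) := by
          apply setIntegral_le_integral hI
          refine Eventually.of_forall fun τ => ?_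
          simp only [Pi.zero_apply]
          positivity
      _ = _ := by rw [integral_const_mul, ← hJ0]; ring
  rw [hsplit1, hsplit2]
  have e : ∀ a b c d : ℂ, a + b - (c + d) = a + (b - d) - c := by intro a b c d; ring
  rw [e]
  calc _ ≤ ‖∫ t in Ioc (0 : ℝ) 1, Ph k δ r (1 / 2 + t * I)‖ +
      ‖(∫ t in Ioi (1 : ℝ), Ph k δ r (1 / 2 + t * I)) - ∫ τ in Ioi (1 : ℝ), Ph k δ r ((2 : ℂ) + τ * I)‖ +
      ‖∫ τ in Iic (1 : ℝ), Ph k δ r ((2 : ℂ) + τ * I)‖ :=
        (norm_sub_le _ _).trans (by gcongr; exact norm_add_le _ _)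
    _ ≤ M + 3 / 2 * M + Z2 * (2 * Real.exp 2) * J0 * E := by gcongr
    _ = _ := by rw [hM]; ring

end

end Pool.Agent.H262R4.TM.TTM2

namespace Pool.Agent.H262R4.TM

open Finset Filter Topology MeasureTheory Complex
open Pool.Agent.H306R2.SM (om cl ef Xf Gf Yf ee)
open Pool.Agent.H442R2.KF (kf tau)

theorem t_TM2 : P_TM2 := by
  obtain ⟨C, hC, hb⟩ := TTM2.main_bound
  filter_upwards [Pool.Agent.H402R2.T4b.final_est C hC, eventually_ge_atTop 1] with T hT hT1 k hR h l hh hl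
    hhT hlT
  obtain ⟨hk, hfin⟩ := hT k hR.1 hR.2
  have hT0 : 0 < T := by linarith
  have hk0 : (0 : ℝ) < k := by
    have : (2 : ℝ) ≤ k := by exact_mod_cast hk
    linarith
  have hl0 : (1 : ℝ) ≤ l := by exact_mod_cast hl
  have hh0 : (1 : ℝ) ≤ h := by exact_mod_cast hh
  have hr : 0 < (h : ℝ) / l := by positivity
  have hrT : (h : ℝ) / l ≤ T := by
    rw [div_le_iff₀ (by linarith)]
    nlinarith
  have h1 := hb k hk (k / T) (by positivity) ((h : ℝ) / l) hr
  rw [TTM2.line_value k T hT0 (by omega) h l hl hh] at h1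
  have e : ∫ t in Set.Ioi (0 : ℝ), riemannZeta (cl t) ^ 2 * Gf k (k / T) (cl t) *
            ef (Real.log ((h : ℝ) / l)) t =
      ∫ t in Set.Ioi (0 : ℝ), TTM2.Ph k (k / T) ((h : ℝ) / l) (1 / 2 + t * I) := by
    apply integral_congr_ae
    refine Eventually.of_forall fun t => ?_
    simp only [TTM2.Ph, cl, ef]
    congr 2
    push_cast
    ring
  rw [e]
  refine h1.trans (le_trans ?_ hfin)
  have : TTM2.RR ((h : ℝ) / l) ≤ T ^ (3 / 2 : ℝ) := by
    unfold TTM2.RR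
    exact Real.rpow_le_rpow (by positivity) (max_le hT1 hrT) (by norm_num)
  gcongr

end Pool.Agent.H262R4.TM
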