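import Pool.Agent.H262R4.TM.TRIGc

set_option autoImplicit false

namespace Pool.Agent.H262R4.TM

open Finset Filter Topology MeasureTheory Complex
open Pool.Agent.H306R2.SM (om cl ef Xf Gf Yf ee)
open Pool.Agent.H442R2.KF (e kf tau Wei FF Ker2 PL)

namespace TTRIG

/-- the grid -/
def Hs (H0 : ℕ) : ℕ → ℕ
  | 0 => H0
  | i + 1 => 5 * Hs H0 i / 4

theorem Hs_le (H0 : ℕ) (i : ℕ) : Hs H0 i ≤ Hs H0 (i + 1) := by
  simp only [Hs]; omega

theorem Hs_ge (H0 : ℕ) (i : ℕ) : H0 ≤ Hs H0 i := by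
  induction i with
  | zero => exact le_rfl
  | succ i ih => exact ih.trans (Hs_le H0 i)

theorem Hs_grow (H0 : ℕ) (h : 6 ≤ H0) (i : ℕ) : (9 / 8 : ℝ) ^ i * H0 ≤ Hs H0 i := by
  induction i with
  | zero => simp [Hs]
  | succ i ih =>
      have h1 := Hs_ge H0 i
      have h2 : 9 * Hs H0 i ≤ 8 * Hs H0 (i + 1) := by
        simp only [Hs]; omega
      have h3 : 9 * (Hs H0 i : ℝ) ≤ 8 * (Hs H0 (i + 1) : ℝ) := by exact_mod_cast h2
      have h4 : (9 / 8 : ℝ) ^ (i + 1) * H0 = 9 / 8 * ((9 / 8 : ℝ) ^ i * H0) := by ring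
      rw [h4]
      linarith

theorem Hs_big (T : ℝ) (hT : 1 < T) (H0 : ℕ) (h : 6 ≤ H0) :
    T ≤ Hs H0 ⌈10 * Real.log T⌉₊ := by
  have hT0 : 0 < T := by linarith
  have hl : 0 < Real.log T := Real.log_pos hT
  have h1 := Hs_grow H0 h ⌈10 * Real.log T⌉₊
  have h2 : (1 / 10 : ℝ) ≤ Real.log (9 / 8) := by
    have := Real.one_sub_inv_le_log_of_pos (show (0 : ℝ) < 9 / 8 by norm_num)
    norm_num at this
    linarith
  have h3 : T ≤ (9 / 8 : ℝ) ^ ⌈10 * Real.log T⌉₊ := by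
    have e1 : (9 / 8 : ℝ) ^ ⌈10 * Real.log T⌉₊ =
        Real.exp (Real.log (9 / 8) * (⌈10 * Real.log T⌉₊ : ℝ)) := by
      rw [← Real.rpow_natCast, Real.rpow_def_of_pos (by norm_num)]
    rw [e1]
    calc T = Real.exp (Real.log T) := (Real.exp_log hT0).symm
      _ ≤ _ := by
          apply Real.exp_le_exp.2
          have h4 : 10 * Real.log T ≤ (⌈10 * Real.log T⌉₊ : ℝ) := Nat.le_ceil _
          calc Real.log T = 1 / 10 * (10 * Real.log T) := by ring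
            _ ≤ Real.log (9 / 8) * (⌈10 * Real.log T⌉₊ : ℝ) := by gcongr
  have h5 : (1 : ℝ) ≤ H0 := by
    have : 1 ≤ H0 := by omega
    exact_mod_cast this
  have h6 : (0 : ℝ) < (9 / 8 : ℝ) ^ ⌈10 * Real.log T⌉₊ := by positivity
  nlinarith

/-- block sets -/
theorem Ioc_block (H : ℕ) : Ioc H (5 * H / 4) = (Ioc H (2 * H)).filter (fun m => 4 * m ≤ 5 * H) := by
  ext m
  simp only [Finset.mem_Ioc, Finset.mem_filter]
  omega

/-- the small part -/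
theorem small (h2 : P_KER) (θ : ℝ) (hθ : 0 < θ) (hθ1 : θ < 14 / 27) :
    ∀ᶠ T : ℝ in atTop, ∀ k : ℕ, Rng T k → ∀ (b : Bool) (σ : ℤ) (h l : ℕ), 1 ≤ h → 1 ≤ l →
      (h : ℝ) * l ≤ T ^ (2 / 5 + θ) →
      ‖Du k b σ h l (Yf k T)‖ ≤ T ^ (-4 : ℝ) * ∑' n : ℕ, 1 / ((n : ℝ) + 1) ^ 2 := by
  filter_upwards [du_tail h2 (1 / 100) (by norm_num), ev_Y (1 / 100) (by norm_num),
    eventually_gt_atTop (1 : ℝ)] with T hdu hY hT1 k hk b σ h l hh hl hhl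
  have hT0 : 0 < T := by linarith
  obtain ⟨hY1, hY2⟩ := hY k hk
  have hh0 : (0 : ℝ) < h := by exact_mod_cast hh
  have hl0 : (0 : ℝ) < l := by exact_mod_cast hl
  have hhl0 : 0 < (h : ℝ) * l := by positivity
  have e1 : T ^ (1 / 100 : ℝ) * ((h : ℝ) * l) ≤ Yf k T := by
    calc T ^ (1 / 100 : ℝ) * ((h : ℝ) * l) ≤ T ^ (1 / 100 : ℝ) * T ^ (2 / 5 + θ) := by gcongr
      _ = T ^ (1 / 100 + (2 / 5 + θ)) := by rw [← Real.rpow_add hT0]
      _ ≤ T ^ (1 - 1 / 100 : ℝ) := Real.rpow_le_rpow_of_exponent_le hT1.le (by linarith)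
      _ ≤ _ := hY1
  have e2 : T ^ (1 / 100 : ℝ) ≤ Yf k T / ((h : ℝ) * l) := (le_div_iff₀ hhl0).2 e1
  have e3 : T ^ (-3 : ℝ) ≤ Yf k T / ((h : ℝ) * l) :=
    (Real.rpow_le_rpow_of_exponent_le hT1.le (by norm_num)).trans e2
  have e4 := hdu k hk b σ h l 0 (Yf k T) hh hl e3 (by simpa using e2)
  simpa using e4

end TTRIG

end Pool.Agent.H262R4.TM
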