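import Pool.Agent.H262R4.TM.TRIGd
import Pool.Agent.H262R4.TM.TRIGe

set_option autoImplicit false

namespace Pool.Agent.H262R4.TM

open Finset Filter Topology MeasureTheory Complex
open Pool.Agent.H306R2.SM (om cl ef Xf Gf Yf ee)
open Pool.Agent.H442R2.KF (e kf tau Wei FF Ker2 PL)

namespace TTRIG

theorem sum_supp (N H0 R : ℕ) (hNR : N ≤ R) (g : ℕ → ℂ)
    (hg : ∀ l, ¬(H0 < l ∧ l ≤ N) → g l = 0) : ∑ l ∈ Icc 1 N, g l = ∑ l ∈ Ioc H0 R, g l := by
  have e1 : ∑ l ∈ Ioc H0 N, g l = ∑ l ∈ Icc 1 N, g l := by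
    apply Finset.sum_subset
    · intro x hx
      rw [Finset.mem_Ioc] at hx
      rw [Finset.mem_Icc]; omega
    · intro x _ hnx
      apply hg
      rw [Finset.mem_Ioc] at hnx
      exact hnx
  have e2 : ∑ l ∈ Ioc H0 N, g l = ∑ l ∈ Ioc H0 R, g l := by
    apply Finset.sum_subset
    · intro x hx
      rw [Finset.mem_Ioc] at hx ⊢
      omega
    · intro x _ hnx
      apply hg
      rw [Finset.mem_Ioc] at hnx
      exact hnx
  rw [← e1, e2]

/-- cutting out the small part -/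
theorem split (N H0 : ℕ) (α β : ℕ → ℂ) (hα : ∀ m, ‖α m‖ ≤ 1) (hβ : ∀ m, ‖β m‖ ≤ 1)
    (D : ℕ → ℕ → ℂ) (E : ℝ) (hE : 0 ≤ E)
    (hD : ∀ l h, 1 ≤ l → l ≤ N → 1 ≤ h → h ≤ N → (l ≤ H0 ∨ h ≤ H0) → ‖D l h‖ ≤ E) :
    ‖∑ l ∈ Icc 1 N, ∑ h ∈ (Icc 1 N).filter (fun h => Nat.Coprime l h),
      α l * β h * ((1 / ((h : ℝ) * l) : ℝ) : ℂ) * D l h‖ ≤
    ‖∑ l ∈ Icc 1 N, ∑ h ∈ (Icc 1 N).filter (fun h => Nat.Coprime l h),
      (if H0 < l ∧ l ≤ N then α l else 0) * (if H0 < h ∧ h ≤ N then β h else 0) *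
        ((1 / ((h : ℝ) * l) : ℝ) : ℂ) * D l h‖ + (N : ℝ) * N * E := by
  have e1 : ∑ l ∈ Icc 1 N, ∑ h ∈ (Icc 1 N).filter (fun h => Nat.Coprime l h),
      α l * β h * ((1 / ((h : ℝ) * l) : ℝ) : ℂ) * D l h =
    ∑ l ∈ Icc 1 N, ∑ h ∈ (Icc 1 N).filter (fun h => Nat.Coprime l h),
      (if H0 < l ∧ l ≤ N then α l else 0) * (if H0 < h ∧ h ≤ N then β h else 0) *
        ((1 / ((h : ℝ) * l) : ℝ) : ℂ) * D l h +
    ∑ l ∈ Icc 1 N, ∑ h ∈ (Icc 1 N).filter (fun h => Nat.Coprime l h),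
      (α l * β h - (if H0 < l ∧ l ≤ N then α l else 0) * (if H0 < h ∧ h ≤ N then β h else 0)) *
        ((1 / ((h : ℝ) * l) : ℝ) : ℂ) * D l h := by
    rw [← Finset.sum_add_distrib]
    apply Finset.sum_congr rfl
    intro l _
    rw [← Finset.sum_add_distrib]
    apply Finset.sum_congr rfl
    intro h _
    ring
  rw [e1]
  refine (norm_add_le _ _).trans (add_le_add le_rfl ?_)
  have h1 : ∀ l ∈ Icc 1 N, ‖∑ h ∈ (Icc 1 N).filter (fun h => Nat.Coprime l h),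
      (α l * β h - (if H0 < l ∧ l ≤ N then α l else 0) * (if H0 < h ∧ h ≤ N then β h else 0)) *
        ((1 / ((h : ℝ) * l) : ℝ) : ℂ) * D l h‖ ≤ N * E := by
    intro l hl
    rw [Finset.mem_Icc] at hl
    have h2 : ∀ h ∈ (Icc 1 N).filter (fun h => Nat.Coprime l h),
        ‖(α l * β h - (if H0 < l ∧ l ≤ N then α l else 0) * (if H0 < h ∧ h ≤ N then β h else 0)) *
        ((1 / ((h : ℝ) * l) : ℝ) : ℂ) * D l h‖ ≤ E := by
      intro h hh
      rw [Finset.mem_filter, Finset.mem_Icc] at hh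
      have l0 : (1 : ℝ) ≤ l := by exact_mod_cast hl.1
      have h0 : (1 : ℝ) ≤ h := by exact_mod_cast hh.1.1
      have hhl : (1 : ℝ) ≤ (h : ℝ) * l := by nlinarith
      by_cases hs : l ≤ H0 ∨ h ≤ H0
      · have e2 := hD l h hl.1 hl.2 hh.1.1 hh.1.2 hs
        have e3 : (if H0 < l ∧ l ≤ N then α l else 0) * (if H0 < h ∧ h ≤ N then β h else 0) = 0 := by
          rcases hs with hs | hs
          · rw [if_neg (by omega), zero_mul]
          · rw [if_neg (show ¬ (H0 < h ∧ h ≤ N) by omega), mul_zero]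
        rw [e3, sub_zero, norm_mul, norm_mul, norm_mul, Complex.norm_real,
          Real.norm_of_nonneg (by positivity)]
        have e4 : 1 / ((h : ℝ) * l) ≤ 1 := (div_le_one (by linarith)).2 hhl
        calc ‖α l‖ * ‖β h‖ * (1 / ((h : ℝ) * l)) * ‖D l h‖ ≤ 1 * 1 * 1 * E := by
              gcongr
              · exact hα l
              · exact hβ h
          _ = E := by ring
      · push Not at hs
        rw [if_pos ⟨hs.1, hl.2⟩, if_pos ⟨hs.2, hh.1.2⟩, sub_self, zero_mul, zero_mul, norm_zero]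
        exact hE
    refine (norm_sum_le_of_le _ h2).trans ?_
    rw [Finset.sum_const, nsmul_eq_mul]
    have h3 : ((((Icc 1 N).filter (fun h => Nat.Coprime l h)).card : ℕ) : ℝ) ≤ N := by
      have := Finset.card_filter_le (Icc 1 N) (fun h => Nat.Coprime l h)
      rw [Nat.card_Icc] at this
      have h4 : ((Icc 1 N).filter (fun h => Nat.Coprime l h)).card ≤ N := by omega
      exact_mod_cast h4
    gcongr
  refine (norm_sum_le_of_le _ h1).trans ?_
  rw [Finset.sum_const, nsmul_eq_mul, Nat.card_Icc, Nat.add_sub_cancel, mul_assoc]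

/-- decomposition into blocks -/
theorem blocks (N H0 r : ℕ) (hN : N ≤ Hs H0 r) (α β : ℕ → ℂ) (D : ℕ → ℕ → ℂ) (E : ℝ)
    (hα : ∀ l, ¬(H0 < l ∧ l ≤ N) → α l = 0) (hβ : ∀ l, ¬(H0 < l ∧ l ≤ N) → β l = 0) (hE : 0 ≤ E)
    (hb : ∀ H K : ℕ, H0 ≤ H → H0 ≤ K → H < N → K < N →
      ‖∑ l ∈ (Ioc H (2 * H)).filter (fun m => 4 * m ≤ 5 * H),
        ∑ h ∈ (Ioc K (2 * K)).filter (fun n => 4 * n ≤ 5 * K ∧ Nat.Coprime l n),
        α l * β h * ((1 / ((h : ℝ) * l) : ℝ) : ℂ) * D l h‖ ≤ E) :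
    ‖∑ l ∈ Icc 1 N, ∑ h ∈ (Icc 1 N).filter (fun h => Nat.Coprime l h),
      α l * β h * ((1 / ((h : ℝ) * l) : ℝ) : ℂ) * D l h‖ ≤ (r : ℝ) * r * E := by
  set F : ℕ → ℕ → ℂ := fun l h => if Nat.Coprime l h then
    α l * β h * ((1 / ((h : ℝ) * l) : ℝ) : ℂ) * D l h else 0 with hF
  have hF1 : ∀ l h, ¬(H0 < l ∧ l ≤ N) → F l h = 0 := by
    intro l h hl
    simp only [hF, hα l hl, zero_mul, ite_self]
  have hF2 : ∀ l h, ¬(H0 < h ∧ h ≤ N) → F l h = 0 := by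
    intro l h hl
    simp only [hF, hβ h hl, mul_zero, zero_mul, ite_self]
  have e1 : ∑ l ∈ Icc 1 N, ∑ h ∈ (Icc 1 N).filter (fun h => Nat.Coprime l h),
      α l * β h * ((1 / ((h : ℝ) * l) : ℝ) : ℂ) * D l h =
      ∑ l ∈ Ioc (Hs H0 0) (Hs H0 r), ∑ h ∈ Ioc (Hs H0 0) (Hs H0 r), F l h := by
    have e2 : ∑ l ∈ Icc 1 N, ∑ h ∈ (Icc 1 N).filter (fun h => Nat.Coprime l h),
        α l * β h * ((1 / ((h : ℝ) * l) : ℝ) : ℂ) * D l h =
        ∑ l ∈ Icc 1 N, ∑ h ∈ Ioc H0 (Hs H0 r), F l h := by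
      apply Finset.sum_congr rfl
      intro l _
      rw [Finset.sum_filter]
      exact sum_supp N H0 _ hN (F l) (hF2 l)
    rw [e2]
    exact sum_supp N H0 _ hN (fun l => ∑ h ∈ Ioc H0 (Hs H0 r), F l h)
      (fun l hl => Finset.sum_eq_zero (fun h _ => hF1 l h hl))
  rw [e1, sum_seq2 (Hs H0) (Hs_le H0)]
  have h3 : ∀ i ∈ range r, ‖∑ j ∈ range r, ∑ l ∈ Ioc (Hs H0 i) (Hs H0 (i + 1)),
      ∑ h ∈ Ioc (Hs H0 j) (Hs H0 (j + 1)), F l h‖ ≤ r * E := by
    intro i _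
    have h4 : ∀ j ∈ range r, ‖∑ l ∈ Ioc (Hs H0 i) (Hs H0 (i + 1)),
        ∑ h ∈ Ioc (Hs H0 j) (Hs H0 (j + 1)), F l h‖ ≤ E := by
      intro j _
      by_cases hi : Hs H0 i < N
      · by_cases hj : Hs H0 j < N
        · have e5 := hb (Hs H0 i) (Hs H0 j) (Hs_ge H0 i) (Hs_ge H0 j) hi hj
          have e6 : ∑ l ∈ Ioc (Hs H0 i) (Hs H0 (i + 1)),
              ∑ h ∈ Ioc (Hs H0 j) (Hs H0 (j + 1)), F l h =
              ∑ l ∈ (Ioc (Hs H0 i) (2 * Hs H0 i)).filter (fun m => 4 * m ≤ 5 * Hs H0 i),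
              ∑ h ∈ (Ioc (Hs H0 j) (2 * Hs H0 j)).filter
                (fun n => 4 * n ≤ 5 * Hs H0 j ∧ Nat.Coprime l n),
              α l * β h * ((1 / ((h : ℝ) * l) : ℝ) : ℂ) * D l h := by
            rw [← Ioc_block]
            apply Finset.sum_congr rfl
            intro l _
            rw [← Finset.filter_filter, ← Ioc_block, Finset.sum_filter]
            rfl
          rw [e6]
          exact e5
        · have e7 : ∑ l ∈ Ioc (Hs H0 i) (Hs H0 (i + 1)),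
              ∑ h ∈ Ioc (Hs H0 j) (Hs H0 (j + 1)), F l h = 0 := by
            apply Finset.sum_eq_zero
            intro l _
            apply Finset.sum_eq_zero
            intro h hh
            rw [Finset.mem_Ioc] at hh
            exact hF2 l h (by omega)
          rw [e7, norm_zero]
          exact hE
      · have e7 : ∑ l ∈ Ioc (Hs H0 i) (Hs H0 (i + 1)),
            ∑ h ∈ Ioc (Hs H0 j) (Hs H0 (j + 1)), F l h = 0 := by
          apply Finset.sum_eq_zero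
          intro l hl
          rw [Finset.mem_Ioc] at hl
          apply Finset.sum_eq_zero
          intro h _
          exact hF1 l h (by omega)
        rw [e7, norm_zero]
        exact hE
    refine (norm_sum_le_of_le _ h4).trans ?_
    rw [Finset.sum_const, nsmul_eq_mul, Finset.card_range]
  refine (norm_sum_le_of_le _ h3).trans ?_
  rw [Finset.sum_const, nsmul_eq_mul, Finset.card_range, mul_assoc]

end TTRIG

open TTRIG in
theorem t_TRIG (h1 : P_BLK) (h2 : P_KER) : P_TRIG := by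
  intro θ hθ hθ1
  obtain ⟨η1, hη1, hb⟩ := blkbound h1 h2 θ hθ hθ1
  obtain ⟨Cz, hCz⟩ : ∃ Cz : ℝ, Cz = ∑' n : ℕ, 1 / ((n : ℝ) + 1) ^ 2 := ⟨_, rfl⟩
  have hCz0 : 0 ≤ Cz := by rw [hCz]; exact tsum_nonneg (fun n => by positivity)
  obtain ⟨η, hη0, hηa, hηb⟩ : ∃ η : ℝ, 0 < η ∧ η ≤ 1 ∧ η ≤ η1 / 2 :=
    ⟨min (η1 / 2) 1, lt_min (by positivity) one_pos, min_le_right _ _, min_le_left _ _⟩
  refine ⟨η, hη0, ?_⟩
  filter_upwards [hb, small h2 θ hθ hθ1, ev_const 6 (3 / 10) (by norm_num),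
    ev_const 2 (1 / 10) (by norm_num), ev_const (2 * Cz) 1 one_pos,
    ev_polylog 242 1 (η1 / 2) (by positivity) (by norm_num),
    eventually_ge_atTop (Real.exp 1)] with T hb hsm h6 h22 hTC hlg hTe k hk N hN α β hα hβ b σ hσ
  have hT1 : 1 < T := by
    have := Real.add_one_lt_exp (one_ne_zero)
    linarith
  have hT0 : 0 < T := by linarith
  have hlog : 1 ≤ Real.log T := by
    rw [Real.le_log_iff_exp_le hT0]; exact hTe
  rw [Real.rpow_one] at hTC
  obtain ⟨H0, hH0⟩ : ∃ H0 : ℕ, H0 = ⌊T ^ (2 / 5 : ℝ)⌋₊ := ⟨_, rfl⟩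
  have hH0a : (H0 : ℝ) ≤ T ^ (2 / 5 : ℝ) := by rw [hH0]; exact Nat.floor_le (by positivity)
  have hH0b : T ^ (3 / 10 : ℝ) ≤ H0 := by
    have e1 : T ^ (2 / 5 : ℝ) < H0 + 1 := by rw [hH0]; exact Nat.lt_floor_add_one _
    have e2 : T ^ (2 / 5 : ℝ) = T ^ (1 / 10 : ℝ) * T ^ (3 / 10 : ℝ) := by
      rw [← Real.rpow_add hT0]; norm_num
    have e3 : 2 * T ^ (3 / 10 : ℝ) ≤ T ^ (1 / 10 : ℝ) * T ^ (3 / 10 : ℝ) := by gcongr
    linarith
  have hH06 : 6 ≤ H0 := by exact_mod_cast h6.trans hH0b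
  obtain ⟨r, hr⟩ : ∃ r : ℕ, r = ⌈10 * Real.log T⌉₊ := ⟨_, rfl⟩
  have hNT : (N : ℝ) ≤ T := by
    calc (N : ℝ) ≤ T ^ θ := hN
      _ ≤ T ^ (1 : ℝ) := Real.rpow_le_rpow_of_exponent_le hT1.le (by linarith)
      _ = T := Real.rpow_one T
  have hNr : N ≤ Hs H0 r := by
    have := Hs_big T hT1 H0 hH06
    rw [← hr] at this
    exact_mod_cast hNT.trans this
  -- the small part
  have s1 := split N H0 α β hα hβ (fun l h => Du k b σ h l (Yf k T)) (T ^ (-4 : ℝ) * Cz)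
    (by positivity) (by
      intro l h hl hlN hh hhN hs
      rw [hCz]
      apply hsm k hk b σ h l hh hl
      have l1 : (l : ℝ) ≤ T ^ θ := le_trans (by exact_mod_cast hlN) hN
      have h1 : (h : ℝ) ≤ T ^ θ := le_trans (by exact_mod_cast hhN) hN
      rcases hs with hs | hs
      · have : (l : ℝ) ≤ T ^ (2 / 5 : ℝ) := le_trans (by exact_mod_cast hs) hH0a
        calc (h : ℝ) * l ≤ T ^ θ * T ^ (2 / 5 : ℝ) := by gcongr
          _ = T ^ (2 / 5 + θ) := by rw [← Real.rpow_add hT0]; congr 1; ring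
      · have : (h : ℝ) ≤ T ^ (2 / 5 : ℝ) := le_trans (by exact_mod_cast hs) hH0a
        calc (h : ℝ) * l ≤ T ^ (2 / 5 : ℝ) * T ^ θ := by gcongr
          _ = T ^ (2 / 5 + θ) := by rw [← Real.rpow_add hT0])
  -- the blocks
  have s2 := blocks N H0 r hNr (fun l => if H0 < l ∧ l ≤ N then α l else 0)
    (fun h => if H0 < h ∧ h ≤ N then β h else 0) (fun l h => Du k b σ h l (Yf k T)) (T ^ (-η1))
    (fun l hl => if_neg hl) (fun l hl => if_neg hl) (by positivity) (by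
      intro H K hH hK hHN hKN
      have a1 : T ^ (3 / 10 : ℝ) ≤ H := hH0b.trans (by exact_mod_cast hH)
      have a2 : T ^ (3 / 10 : ℝ) ≤ K := hH0b.trans (by exact_mod_cast hK)
      have a3 : (H : ℝ) ≤ T ^ θ := le_trans (by exact_mod_cast hHN.le) hN
      have a4 : (K : ℝ) ≤ T ^ θ := le_trans (by exact_mod_cast hKN.le) hN
      refine hb k hk H K a1 a2 a3 a4 _ _ ?_ ?_ b σ hσ
      · intro m
        by_cases hm : H0 < m ∧ m ≤ N
        · rw [if_pos hm]; exact hα m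
        · rw [if_neg hm]; simp
      · intro m
        by_cases hm : H0 < m ∧ m ≤ N
        · rw [if_pos hm]; exact hβ m
        · rw [if_neg hm]; simp)
  have s3 : (r : ℝ) * r * T ^ (-η1) ≤ T ^ (-η) / 2 := by
    have a1 : (r : ℝ) ≤ 11 * Real.log T := by
      have : (r : ℝ) < 10 * Real.log T + 1 := by
        rw [hr]; exact Nat.ceil_lt_add_one (by positivity)
      linarith
    have a2 : (r : ℝ) * r ≤ 121 * k := by
      calc (r : ℝ) * r ≤ (11 * Real.log T) * (11 * Real.log T) := by gcongr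
        _ = 121 * Real.log T ^ 2 := by ring
        _ ≤ 121 * k := by
            have := hk.1
            linarith
    have a3 := hlg k hk.2
    rw [pow_one] at a3
    have a4 : (r : ℝ) * r ≤ T ^ (η1 / 2) / 2 := by linarith
    calc (r : ℝ) * r * T ^ (-η1) ≤ T ^ (η1 / 2) / 2 * T ^ (-η1) := by gcongr
      _ = T ^ (-(η1 / 2)) / 2 := by
          have : T ^ (η1 / 2) * T ^ (-η1) = T ^ (-(η1 / 2)) := by
            rw [← Real.rpow_add hT0]; congr 1; ring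
          rw [← this]; ring
      _ ≤ T ^ (-η) / 2 := by
          have := Real.rpow_le_rpow_of_exponent_le hT1.le (show -(η1 / 2) ≤ -η by linarith)
          linarith
  have s4 : (N : ℝ) * N * (T ^ (-4 : ℝ) * Cz) ≤ T ^ (-η) / 2 := by
    have a1 : T ^ (-1 : ℝ) ≤ T ^ (-η) :=
      Real.rpow_le_rpow_of_exponent_le hT1.le (by linarith)
    calc (N : ℝ) * N * (T ^ (-4 : ℝ) * Cz) ≤ T * T * (T ^ (-4 : ℝ) * (T / 2)) := by
          have : Cz ≤ T / 2 := by linarith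
          gcongr
      _ = T ^ (-1 : ℝ) / 2 := by
          have : T * T * (T ^ (-4 : ℝ) * T) = T ^ (-1 : ℝ) := by
            have e1 : T ^ (-4 : ℝ) = (T ^ 4)⁻¹ := by
              rw [Real.rpow_neg hT0.le]; norm_num
            rw [e1, Real.rpow_neg_one]
            field_simp
          rw [← this]; ring
      _ ≤ _ := by linarith
  refine s1.trans ?_
  linarith

end Pool.Agent.H262R4.TM
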