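import Pool.Agent.H262R4.TM.Defs2
import Pool.Agent.H510R2.Div

set_option autoImplicit false

namespace Pool.Agent.H262R4.TM

open Finset Filter Topology MeasureTheory Complex
open Pool.Agent.H306R2.SM (om cl ef Xf Gf Yf ee)
open Pool.Agent.H442R2.KF (e kf tau Wei FF Ker2 PL)

namespace TTRIG

theorem ev_polylog (C : ℝ) (A : ℕ) (ε : ℝ) (hε : 0 < ε) (hC : 0 ≤ C) :
    ∀ᶠ T : ℝ in atTop, ∀ k : ℕ, (k : ℝ) ≤ 4 * Real.log T ^ 2 → C * (k : ℝ) ^ A ≤ T ^ ε := by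
  have h1 : (fun T : ℝ => C * 4 ^ A * Real.log T ^ (((2 * A : ℕ) : ℝ))) =o[atTop]
      fun T : ℝ => T ^ ε :=
    (isLittleO_log_rpow_rpow_atTop _ hε).const_mul_left _
  filter_upwards [h1.bound one_pos, eventually_ge_atTop (1 : ℝ)] with T hT hT1 k hk
  have hl : 0 ≤ Real.log T := Real.log_nonneg hT1
  have h2 : C * 4 ^ A * Real.log T ^ (2 * A) ≤ T ^ ε := by
    rw [one_mul, Real.rpow_natCast, Real.norm_of_nonneg (by positivity),
      Real.norm_of_nonneg (by positivity)] at hT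
    exact hT
  calc C * (k : ℝ) ^ A ≤ C * (4 * Real.log T ^ 2) ^ A := by gcongr
    _ = C * 4 ^ A * Real.log T ^ (2 * A) := by rw [mul_pow, ← pow_mul]; ring
    _ ≤ T ^ ε := h2

theorem ev_k0 (k0 : ℕ) : ∀ᶠ T : ℝ in atTop, ∀ k : ℕ, Rng T k → k0 ≤ k := by
  have h : Tendsto (fun T : ℝ => Real.log T ^ 2) atTop atTop :=
    (tendsto_pow_atTop two_ne_zero).comp Real.tendsto_log_atTop
  filter_upwards [h.eventually_ge_atTop (k0 : ℝ)] with T hT k hk
  exact_mod_cast hT.trans hk.1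

/-- pointwise bound of the kernel far out -/
theorem ker1 (h2 : P_KER) (ν : ℝ) (hν : 0 < ν) :
    ∀ᶠ T : ℝ in atTop, ∀ k : ℕ, Rng T k → ∀ (b : Bool) (x : ℝ) (n : ℕ), T ^ (-3 : ℝ) ≤ x → 1 ≤ n →
      T ^ ν ≤ (n : ℝ) * x → ‖Hk k b ((n : ℝ) * x)‖ ≤ T ^ (-4 : ℝ) / (n : ℝ) ^ 3 := by
  have hc : (0 : ℝ) < 3 + 14 / ν := by positivity
  obtain ⟨C, A, k0, hC, hK⟩ := h2 (3 + 14 / ν) hc
  filter_upwards [ev_polylog C A 1 one_pos hC.le, ev_k0 k0, eventually_gt_atTop (1 : ℝ)] with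
    T h1 h3 hT1 k hk b x n hx hn hnx
  have hT0 : 0 < T := by linarith
  have hx0 : 0 < x := lt_of_lt_of_le (Real.rpow_pos_of_pos hT0 _) hx
  have hn0 : (0 : ℝ) < n := by exact_mod_cast hn
  have hy : 0 < (n : ℝ) * x := by positivity
  have hb := (hK k (h3 k hk) b _ hy).1
  have hk1 : C * (k : ℝ) ^ A ≤ T := by
    have := h1 k hk.2
    rwa [Real.rpow_one] at this
  refine hb.trans ?_
  have e1 : ((n : ℝ) * x) ^ (-(3 + 14 / ν)) = ((n : ℝ) * x) ^ (-(14 / ν)) * ((n : ℝ) * x) ^ (-3 : ℝ) := by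
    rw [← Real.rpow_add hy]; congr 1; ring
  have e2 : ((n : ℝ) * x) ^ (-(14 / ν)) ≤ T ^ (-14 : ℝ) := by
    calc ((n : ℝ) * x) ^ (-(14 / ν)) ≤ (T ^ ν) ^ (-(14 / ν)) :=
          Real.rpow_le_rpow_of_nonpos (by positivity) hnx (by
            have : 0 < 14 / ν := by positivity
            linarith)
      _ = T ^ (-14 : ℝ) := by
          rw [← Real.rpow_mul hT0.le]; congr 1; field_simp
  have e3 : ((n : ℝ) * x) ^ (-3 : ℝ) ≤ T ^ (9 : ℝ) / (n : ℝ) ^ 3 := by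
    rw [Real.mul_rpow hn0.le hx0.le]
    have e4 : (n : ℝ) ^ (-3 : ℝ) = 1 / (n : ℝ) ^ 3 := by
      rw [Real.rpow_neg hn0.le, one_div]
      norm_num
    have e5 : x ^ (-3 : ℝ) ≤ T ^ (9 : ℝ) := by
      calc x ^ (-3 : ℝ) ≤ (T ^ (-3 : ℝ)) ^ (-3 : ℝ) :=
            Real.rpow_le_rpow_of_nonpos (by positivity) hx (by norm_num)
        _ = T ^ (9 : ℝ) := by rw [← Real.rpow_mul hT0.le]; norm_num
    rw [e4, div_eq_mul_one_div (T ^ (9 : ℝ)), mul_comm]
    gcongr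
  rw [e1]
  calc C * (k : ℝ) ^ A * (((n : ℝ) * x) ^ (-(14 / ν)) * ((n : ℝ) * x) ^ (-3 : ℝ))
      ≤ T * (T ^ (-14 : ℝ) * (T ^ (9 : ℝ) / (n : ℝ) ^ 3)) := by gcongr
    _ = T ^ (-4 : ℝ) / (n : ℝ) ^ 3 := by
        have : T * (T ^ (-14 : ℝ) * T ^ (9 : ℝ)) = T ^ (-4 : ℝ) := by
          nth_rewrite 1 [← Real.rpow_one T]
          rw [← Real.rpow_add hT0, ← Real.rpow_add hT0]; norm_num
        rw [← this]; ring

/-- tails of series -/
theorem tail (a : ℕ → ℂ) (D : ℝ) (J : ℕ) (ha0 : a 0 = 0)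
    (ha : ∀ n, J + 1 ≤ n → ‖a n‖ ≤ D / (n : ℝ) ^ 2) :
    ‖(∑' n, a n) - ∑ n ∈ Icc 1 J, a n‖ ≤ D * ∑' n : ℕ, 1 / ((n : ℝ) + 1) ^ 2 := by
  have hs2 : Summable (fun n : ℕ => 1 / ((n : ℝ) + 1) ^ 2) := by
    have := (summable_nat_add_iff 1).2 (Real.summable_one_div_nat_pow.2 (one_lt_two))
    simpa using this
  have hD : 0 ≤ D := by
    have h1 := (norm_nonneg _).trans (ha (J + 1) le_rfl)
    have h2 : (0 : ℝ) < ((J + 1 : ℕ) : ℝ) ^ 2 := by positivity
    rcases le_or_gt 0 D with h | h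
    · exact h
    · exact absurd h1 (not_le.2 (div_neg_of_neg_of_pos h h2))
  have hb : ∀ n : ℕ, ‖a (n + (J + 1))‖ ≤ D * (1 / ((n : ℝ) + 1) ^ 2) := by
    intro n
    refine (ha _ (by omega)).trans ?_
    rw [div_eq_mul_one_div]
    have : ((n : ℝ) + 1) ^ 2 ≤ ((n + (J + 1) : ℕ) : ℝ) ^ 2 := by
      have : (n : ℝ) + 1 ≤ ((n + (J + 1) : ℕ) : ℝ) := by
        push_cast
        have : (0 : ℝ) ≤ J := Nat.cast_nonneg _
        linarith
      gcongr
    gcongr
  have hs3 : Summable (fun n : ℕ => D * (1 / ((n : ℝ) + 1) ^ 2)) := hs2.mul_left D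
  have hs4 : Summable (fun n : ℕ => a (n + (J + 1))) := Summable.of_norm_bounded hs3 hb
  have hs : Summable a := (summable_nat_add_iff (J + 1)).1 hs4
  rw [← hs.sum_add_tsum_nat_add (J + 1)]
  have hr : ∑ i ∈ range (J + 1), a i = ∑ n ∈ Icc 1 J, a n := by
    symm
    apply Finset.sum_subset
    · intro x hx
      rw [Finset.mem_Icc] at hx
      rw [Finset.mem_range]; omega
    · intro x hx hnx
      rw [Finset.mem_range] at hx
      rw [Finset.mem_Icc] at hnx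
      have : x = 0 := by omega
      rw [this, ha0]
  rw [hr, add_sub_cancel_left]
  calc ‖∑' n, a (n + (J + 1))‖ ≤ ∑' n : ℕ, D * (1 / ((n : ℝ) + 1) ^ 2) :=
        tsum_of_norm_bounded hs3.hasSum hb
    _ = _ := tsum_mul_left

theorem tau_zero : tau 0 = 0 := by simp [tau]

theorem tau_le (n : ℕ) : tau n ≤ n := by
  unfold tau
  exact_mod_cast Nat.card_divisors_le_self n

theorem tau_nonneg (n : ℕ) : 0 ≤ tau n := by unfold tau; positivity

/-- truncation of the dual sum -/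
theorem du_tail (h2 : P_KER) (ν : ℝ) (hν : 0 < ν) :
    ∀ᶠ T : ℝ in atTop, ∀ k : ℕ, Rng T k → ∀ (b : Bool) (σ : ℤ) (h l J : ℕ) (Y : ℝ), 1 ≤ h → 1 ≤ l →
      T ^ (-3 : ℝ) ≤ Y / ((h : ℝ) * l) → T ^ ν ≤ ((J : ℝ) + 1) * (Y / ((h : ℝ) * l)) →
      ‖Du k b σ h l Y - ∑ n ∈ Icc 1 J, (tau n : ℂ) * kf (σ * n) l h *
        Hk k b ((n : ℝ) * Y / ((h : ℝ) * l))‖ ≤
        T ^ (-4 : ℝ) * ∑' n : ℕ, 1 / ((n : ℝ) + 1) ^ 2 := by
  filter_upwards [ker1 h2 ν hν, eventually_gt_atTop (1 : ℝ)] with T hT hT1 k hk b σ h l J Y hh hl hx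
    hJ
  have hT0 : 0 < T := by linarith
  have hx0 : 0 < Y / ((h : ℝ) * l) := lt_of_lt_of_le (Real.rpow_pos_of_pos hT0 _) hx
  refine tail _ _ J (by rw [tau_zero]; simp) ?_
  intro n hn
  have hn1 : 1 ≤ n := by omega
  have hn0 : (0 : ℝ) < n := by exact_mod_cast hn1
  have e1 : (n : ℝ) * Y / ((h : ℝ) * l) = (n : ℝ) * (Y / ((h : ℝ) * l)) := by ring
  have e2 : T ^ ν ≤ (n : ℝ) * (Y / ((h : ℝ) * l)) := by
    refine hJ.trans ?_
    have : (J : ℝ) + 1 ≤ n := by exact_mod_cast hn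
    gcongr
  have e3 := hT k hk b _ n hx hn1 e2
  rw [norm_mul, norm_mul, Pool.Agent.H442R2.KF.norm_kf, mul_one, e1, Complex.norm_real,
    Real.norm_of_nonneg (tau_nonneg n)]
  calc tau n * ‖Hk k b ((n : ℝ) * (Y / ((h : ℝ) * l)))‖ ≤ n * (T ^ (-4 : ℝ) / (n : ℝ) ^ 3) := by
        have := tau_le n
        have := tau_nonneg n
        gcongr
    _ = T ^ (-4 : ℝ) / (n : ℝ) ^ 2 := by field_simp

/-- the weights of one block -/
theorem wx (C : ℝ) (A : ℕ) (k : ℕ) (b : Bool) (c : ℝ) (hc : 0 < c) (hc1 : c ≤ 1)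
    (hK : ∀ y : ℝ, 0 < y → ‖Hk k b y‖ ≤ C * (k : ℝ) ^ A * y ^ (-c) ∧
      ∀ y' : ℝ, y ≤ y' → ‖Hk k b y - Hk k b y'‖ ≤ C * (k : ℝ) ^ A * y ^ (-c) * ((y' - y) / y))
    (X Z B : ℝ) (hX : 0 < X) (hZ : 0 < Z) (hB : 0 < B) (t : ℝ) (ht : 0 ≤ t)
    (hBt : 2 * (C * (k : ℝ) ^ A) * t * (X / Z) ^ c ≤ B) (hC : 0 ≤ C) :
    Wx X 1 (fun s => ((t * (X / s) / B : ℝ) : ℂ) * Hk k b (Z / s)) := by
  have hCk : 0 ≤ C * (k : ℝ) ^ A := by positivity
  -- the basic quantity
  have key : ∀ s : ℝ, X ≤ s → (X / s) * (Z / s) ^ (-c) ≤ (X / Z) ^ c := by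
    intro s hs
    have hs0 : 0 < s := lt_of_lt_of_le hX hs
    have e1 : (Z / s) ^ (-c) = (s / X) ^ c * (X / Z) ^ c := by
      rw [Real.rpow_neg (by positivity), ← Real.inv_rpow (by positivity), inv_div,
        ← Real.mul_rpow (by positivity) (by positivity)]
      congr 1; field_simp
    have e2 : (s / X) ^ c ≤ s / X := by
      have : 1 ≤ s / X := (one_le_div hX).2 hs
      calc (s / X) ^ c ≤ (s / X) ^ (1 : ℝ) := Real.rpow_le_rpow_of_exponent_le this hc1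
        _ = s / X := Real.rpow_one _
    rw [e1]
    calc X / s * ((s / X) ^ c * (X / Z) ^ c) ≤ X / s * (s / X * (X / Z) ^ c) := by gcongr
      _ = (X / Z) ^ c := by field_simp
  constructor
  · intro s hs
    have hs0 : 0 < s := lt_of_lt_of_le hX hs
    rw [norm_mul, Complex.norm_real, Real.norm_of_nonneg (by positivity)]
    have h1 := (hK (Z / s) (by positivity)).1
    have h2 := key s hs
    calc t * (X / s) / B * ‖Hk k b (Z / s)‖ ≤ t * (X / s) / B * (C * (k : ℝ) ^ A * (Z / s) ^ (-c)) := by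
          gcongr
      _ = (C * (k : ℝ) ^ A * t * ((X / s) * (Z / s) ^ (-c))) / B := by ring
      _ ≤ (C * (k : ℝ) ^ A * t * (X / Z) ^ c) / B := by gcongr
      _ ≤ 1 := by
          rw [div_le_one hB]
          have : 0 ≤ C * (k : ℝ) ^ A * t * (X / Z) ^ c := by positivity
          nlinarith
  · -- Lipschitz, first for `s ≤ s'`
    have main : ∀ s s' : ℝ, X ≤ s → s ≤ s' →
        ‖((t * (X / s) / B : ℝ) : ℂ) * Hk k b (Z / s) -
          ((t * (X / s') / B : ℝ) : ℂ) * Hk k b (Z / s')‖ ≤ 1 * |s - s'| / X := by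
      intro s s' hs hss
      have hs0 : 0 < s := lt_of_lt_of_le hX hs
      have hs0' : 0 < s' := lt_of_lt_of_le hs0 hss
      have hs' : X ≤ s' := hs.trans hss
      have e0 : ((t * (X / s) / B : ℝ) : ℂ) * Hk k b (Z / s) -
          ((t * (X / s') / B : ℝ) : ℂ) * Hk k b (Z / s') =
          ((t * (X / s - X / s') / B : ℝ) : ℂ) * Hk k b (Z / s) +
          ((t * (X / s') / B : ℝ) : ℂ) * (Hk k b (Z / s) - Hk k b (Z / s')) := by
        push_cast; ring
      have hxx : 0 ≤ X / s - X / s' := by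
        rw [sub_nonneg]; gcongr
      have n1 : ‖((t * (X / s - X / s') / B : ℝ) : ℂ) * Hk k b (Z / s)‖ ≤
          (C * (k : ℝ) ^ A * t * (X / Z) ^ c) / B * ((s' - s) / X) := by
        rw [norm_mul, Complex.norm_real, Real.norm_of_nonneg (by positivity)]
        have h1 := (hK (Z / s) (by positivity)).1
        have h2 := key s hs
        have h3 : X / s - X / s' = X / s * ((s' - s) / s') := by field_simp
        have h4 : (s' - s) / s' ≤ (s' - s) / X := by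
          have : 0 ≤ s' - s := by linarith
          gcongr
        have h5 : 0 ≤ (s' - s) / s' := div_nonneg (by linarith) hs0'.le
        calc t * (X / s - X / s') / B * ‖Hk k b (Z / s)‖
            ≤ t * (X / s - X / s') / B * (C * (k : ℝ) ^ A * (Z / s) ^ (-c)) := by gcongr
          _ = (C * (k : ℝ) ^ A * t * ((X / s) * (Z / s) ^ (-c))) / B * ((s' - s) / s') := by
              rw [h3]; ring
          _ ≤ (C * (k : ℝ) ^ A * t * (X / Z) ^ c) / B * ((s' - s) / X) := by gcongr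
      have n2 : ‖((t * (X / s') / B : ℝ) : ℂ) * (Hk k b (Z / s) - Hk k b (Z / s'))‖ ≤
          (C * (k : ℝ) ^ A * t * (X / Z) ^ c) / B * ((s' - s) / X) := by
        rw [norm_mul, Complex.norm_real, Real.norm_of_nonneg (by positivity), norm_sub_rev]
        have h1 := (hK (Z / s') (by positivity)).2 (Z / s) (by gcongr)
        have h2 := key s' hs'
        have h3 : (Z / s - Z / s') / (Z / s') = (s' - s) / s := by field_simp
        have h4 : (s' - s) / s ≤ (s' - s) / X := by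
          have : 0 ≤ s' - s := by linarith
          gcongr
        have h5 : 0 ≤ (s' - s) / s := div_nonneg (by linarith) hs0.le
        rw [h3] at h1
        calc t * (X / s') / B * ‖Hk k b (Z / s') - Hk k b (Z / s)‖
            ≤ t * (X / s') / B * (C * (k : ℝ) ^ A * (Z / s') ^ (-c) * ((s' - s) / s)) := by gcongr
          _ = (C * (k : ℝ) ^ A * t * ((X / s') * (Z / s') ^ (-c))) / B * ((s' - s) / s) := by ring
          _ ≤ (C * (k : ℝ) ^ A * t * (X / Z) ^ c) / B * ((s' - s) / X) := by gcongr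
      rw [e0]
      refine (norm_add_le _ _).trans ((add_le_add n1 n2).trans ?_)
      have e5 : |s - s'| = s' - s := by rw [abs_sub_comm, abs_of_nonneg (by linarith)]
      rw [e5, one_mul]
      have e6 : 2 * (C * (k : ℝ) ^ A * t * (X / Z) ^ c / B) ≤ 1 := by
        rw [← mul_div_assoc, div_le_one hB]
        calc 2 * (C * (k : ℝ) ^ A * t * (X / Z) ^ c) = 2 * (C * (k : ℝ) ^ A) * t * (X / Z) ^ c := by
              ring
          _ ≤ B := hBt
      have e7 : 0 ≤ (s' - s) / X := div_nonneg (by linarith) hX.le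
      nlinarith
    intro s s' hs hs'
    rcases le_total s s' with h | h
    · exact main s s' hs h
    · have := main s' s hs' h
      rwa [norm_sub_rev, abs_sub_comm] at this

end TTRIG

end Pool.Agent.H262R4.TM
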