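import Pool.Agent.H262R4.TM.TRIGa

set_option autoImplicit false

namespace Pool.Agent.H262R4.TM

open Finset Filter Topology MeasureTheory Complex
open Pool.Agent.H306R2.SM (om cl ef Xf Gf Yf ee)
open Pool.Agent.H442R2.KF (e kf tau Wei FF Ker2 PL)

namespace TTRIG

theorem ev_const (C ε : ℝ) (hε : 0 < ε) : ∀ᶠ T : ℝ in atTop, C ≤ T ^ ε :=
  (tendsto_rpow_atTop hε).eventually_ge_atTop C

/-- facts on `Y` -/
theorem ev_Y (ν : ℝ) (hν : 0 < ν) : ∀ᶠ T : ℝ in atTop, ∀ k : ℕ, Rng T k →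
    T ^ (1 - ν) ≤ Yf k T ∧ Yf k T ≤ T := by
  filter_upwards [ev_polylog (2 * Real.pi) 1 ν hν (by positivity), ev_k0 1,
    eventually_gt_atTop (1 : ℝ)] with T h1 h3 hT1 k hk
  have hT0 : 0 < T := by linarith
  have hk1 : (1 : ℝ) ≤ k := by exact_mod_cast h3 k hk
  have h4 := h1 k hk.2
  rw [pow_one] at h4
  have hpi : (3 : ℝ) < Real.pi := Real.pi_gt_three
  have h5 : (1 : ℝ) ≤ 2 * Real.pi * k := by nlinarith
  unfold Yf
  constructor
  · rw [Real.rpow_sub hT0, Real.rpow_one]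
    gcongr
  · exact div_le_self hT0.le h5

/-- trivial bound of a block -/
theorem pairs_le (H K : ℕ) (hH : 1 ≤ H) (hK : 1 ≤ K) (α β : ℕ → ℂ) (hα : ∀ m, ‖α m‖ ≤ 1)
    (hβ : ∀ m, ‖β m‖ ≤ 1) (E : ℝ) (D : ℕ → ℕ → ℂ)
    (hD : ∀ l h : ℕ, H < l → 4 * l ≤ 5 * H → K < h → 4 * h ≤ 5 * K → ‖D l h‖ ≤ E) (hE : 0 ≤ E) :
    ‖∑ l ∈ (Ioc H (2 * H)).filter (fun m => 4 * m ≤ 5 * H),
        ∑ h ∈ (Ioc K (2 * K)).filter (fun n => 4 * n ≤ 5 * K ∧ Nat.Coprime l n),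
        α l * β h * ((1 / ((h : ℝ) * l) : ℝ) : ℂ) * D l h‖ ≤ E := by
  have hH0 : (0 : ℝ) < H := by exact_mod_cast hH
  have hK0 : (0 : ℝ) < K := by exact_mod_cast hK
  have h1 : ∀ l ∈ (Ioc H (2 * H)).filter (fun m => 4 * m ≤ 5 * H),
      ‖∑ h ∈ (Ioc K (2 * K)).filter (fun n => 4 * n ≤ 5 * K ∧ Nat.Coprime l n),
        α l * β h * ((1 / ((h : ℝ) * l) : ℝ) : ℂ) * D l h‖ ≤ E / H := by
    intro l hl
    rw [Finset.mem_filter, Finset.mem_Ioc] at hl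
    have h2 : ∀ h ∈ (Ioc K (2 * K)).filter (fun n => 4 * n ≤ 5 * K ∧ Nat.Coprime l n),
        ‖α l * β h * ((1 / ((h : ℝ) * l) : ℝ) : ℂ) * D l h‖ ≤ E / (H * K) := by
      intro h hh
      rw [Finset.mem_filter, Finset.mem_Ioc] at hh
      have e1 := hD l h hl.1.1 hl.2 hh.1.1 hh.2.1
      have hl0 : (H : ℝ) ≤ l := by exact_mod_cast hl.1.1.le
      have hh0 : (K : ℝ) ≤ h := by exact_mod_cast hh.1.1.le
      have hl0' : (0 : ℝ) < l := by linarith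
      have hh0' : (0 : ℝ) < h := by linarith
      rw [norm_mul, norm_mul, norm_mul, Complex.norm_real, Real.norm_of_nonneg (by positivity)]
      have e2 : 1 / ((h : ℝ) * l) ≤ 1 / (H * K) := by
        rw [mul_comm (H : ℝ)]
        gcongr
      calc ‖α l‖ * ‖β h‖ * (1 / ((h : ℝ) * l)) * ‖D l h‖ ≤ 1 * 1 * (1 / (H * K)) * E := by
            gcongr
            · exact hα l
            · exact hβ h
        _ = E / (H * K) := by ring
    refine (norm_sum_le_of_le _ h2).trans ?_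
    rw [Finset.sum_const, nsmul_eq_mul]
    have h3 : ((((Ioc K (2 * K)).filter (fun n => 4 * n ≤ 5 * K ∧ Nat.Coprime l n)).card : ℕ) : ℝ) ≤
        K := by
      have := Finset.card_filter_le (Ioc K (2 * K)) (fun n => 4 * n ≤ 5 * K ∧ Nat.Coprime l n)
      rw [Nat.card_Ioc] at this
      have h4 : ((Ioc K (2 * K)).filter (fun n => 4 * n ≤ 5 * K ∧ Nat.Coprime l n)).card ≤ K := by
        omega
      exact_mod_cast h4
    calc _ ≤ (K : ℝ) * (E / (H * K)) := by gcongr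
      _ = E / H := by field_simp
  refine (norm_sum_le_of_le _ h1).trans ?_
  rw [Finset.sum_const, nsmul_eq_mul]
  have h3 : ((((Ioc H (2 * H)).filter (fun n => 4 * n ≤ 5 * H)).card : ℕ) : ℝ) ≤ H := by
    have := Finset.card_filter_le (Ioc H (2 * H)) (fun n => 4 * n ≤ 5 * H)
    rw [Nat.card_Ioc] at this
    have h4 : ((Ioc H (2 * H)).filter (fun n => 4 * n ≤ 5 * H)).card ≤ H := by
      omega
    exact_mod_cast h4
  calc _ ≤ (H : ℝ) * (E / H) := by gcongr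
    _ = E := by field_simp

/-- sequences of consecutive intervals -/
theorem sum_seq (H : ℕ → ℕ) (hH : ∀ i, H i ≤ H (i + 1)) (g : ℕ → ℂ) (r : ℕ) :
    ∑ l ∈ Ioc (H 0) (H r), g l = ∑ i ∈ range r, ∑ l ∈ Ioc (H i) (H (i + 1)), g l := by
  induction r with
  | zero => simp
  | succ r ih =>
      rw [Finset.sum_range_succ, ← ih, Finset.sum_Ioc_consecutive _ (monotone_nat_of_le_succ hH (Nat.zero_le r)) (hH r)]

theorem sum_seq2 (H : ℕ → ℕ) (hH : ∀ i, H i ≤ H (i + 1)) (F : ℕ → ℕ → ℂ) (r : ℕ) :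
    ∑ l ∈ Ioc (H 0) (H r), ∑ h ∈ Ioc (H 0) (H r), F l h =
      ∑ i ∈ range r, ∑ j ∈ range r, ∑ l ∈ Ioc (H i) (H (i + 1)), ∑ h ∈ Ioc (H j) (H (j + 1)),
        F l h := by
  rw [sum_seq H hH]
  apply Finset.sum_congr rfl
  intro i _
  rw [Finset.sum_comm (s := range r)]
  apply Finset.sum_congr rfl
  intro l _
  exact sum_seq H hH _ r

end TTRIG

end Pool.Agent.H262R4.TM
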