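import Pool.Agent.H262R4.TM.TRIGb

set_option autoImplicit false

namespace Pool.Agent.H262R4.TM

open Finset Filter Topology MeasureTheory Complex
open Pool.Agent.H306R2.SM (om cl ef Xf Gf Yf ee)
open Pool.Agent.H442R2.KF (e kf tau Wei FF Ker2 PL)

namespace TTRIG

/-- the truncated sum in terms of the weights -/
theorem tr_eq (k : ℕ) (b : Bool) (σ : ℤ) (H K J : ℕ) (Y B : ℝ) (hH : 1 ≤ H) (hK : 1 ≤ K)
    (hB : 0 < B) (α β : ℕ → ℂ) :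
    ∑ l ∈ (Ioc H (2 * H)).filter (fun m => 4 * m ≤ 5 * H),
        ∑ h ∈ (Ioc K (2 * K)).filter (fun n => 4 * n ≤ 5 * K ∧ Nat.Coprime l n),
        α l * β h * ((1 / ((h : ℝ) * l) : ℝ) : ℂ) * ∑ n ∈ Icc 1 J, (tau n : ℂ) * kf (σ * n) l h *
        Hk k b ((n : ℝ) * Y / ((h : ℝ) * l)) =
    ((2 * B / (H * K) : ℝ) : ℂ) * ∑ m ∈ (Ioc H (2 * H)).filter (fun m => 4 * m ≤ 5 * H),
      ∑ n ∈ (Ioc K (2 * K)).filter (fun n => 4 * n ≤ 5 * K ∧ Nat.Coprime m n),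
      α m * β n * ∑ j ∈ Icc 1 J, (fun (j : ℕ) (s : ℝ) => if j ∈ Icc 1 J then
        ((tau j * (((H : ℝ) * K / 2) / s) / B : ℝ) : ℂ) * Hk k b (((j : ℝ) * Y) / s) else 0) j
        ((m : ℝ) * n) * kf (σ * j) m n := by
  have hH0 : (0 : ℝ) < H := by exact_mod_cast hH
  have hK0 : (0 : ℝ) < K := by exact_mod_cast hK
  rw [Finset.mul_sum]
  apply Finset.sum_congr rfl
  intro l hl
  rw [Finset.mem_filter, Finset.mem_Ioc] at hl
  rw [Finset.mul_sum]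
  apply Finset.sum_congr rfl
  intro h hh
  rw [Finset.mem_filter, Finset.mem_Ioc] at hh
  have hl0 : (H : ℝ) ≤ l := by exact_mod_cast hl.1.1.le
  have hh0 : (K : ℝ) ≤ h := by exact_mod_cast hh.1.1.le
  have hl0' : (0 : ℝ) < l := by linarith
  have hh0' : (0 : ℝ) < h := by linarith
  rw [Finset.mul_sum, Finset.mul_sum, Finset.mul_sum]
  apply Finset.sum_congr rfl
  intro j hj
  simp only [hj, if_true]
  rw [mul_comm (l : ℝ) (h : ℝ)]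
  have e1 : ((1 / ((h : ℝ) * l) : ℝ) : ℂ) * (tau j : ℂ) =
      ((2 * B / (H * K) : ℝ) : ℂ) * ((tau j * (((H : ℝ) * K / 2) / ((h : ℝ) * l)) / B : ℝ) : ℂ) := by
    rw [← Complex.ofReal_mul, ← Complex.ofReal_mul]
    congr 1
    field_simp
  calc α l * β h * ((1 / ((h : ℝ) * l) : ℝ) : ℂ) * ((tau j : ℂ) * kf (σ * j) l h *
        Hk k b ((j : ℝ) * Y / ((h : ℝ) * l)))
      = α l * β h * (((1 / ((h : ℝ) * l) : ℝ) : ℂ) * (tau j : ℂ)) * kf (σ * j) l h *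
        Hk k b ((j : ℝ) * Y / ((h : ℝ) * l)) := by ring
    _ = _ := by rw [e1]; ring

/-- parameters -/
theorem par1 (θ : ℝ) (hθ : 0 < θ) (hθ1 : θ < 14 / 27) (ν δ : ℝ) (hν : ν = (1 - 27 * θ / 14) / 16)
    (hδ : δ = (1 - 27 * θ / 14) / 4) :
    ∀ᶠ T : ℝ in atTop, ∀ (H K : ℕ) (Y : ℝ), 1 ≤ H → 1 ≤ K → (H : ℝ) ≤ T ^ θ → (K : ℝ) ≤ T ^ θ →
      T ^ (1 - ν) ≤ Y → T ^ (1 - 3 * ν) < (H : ℝ) * K →
      ((⌈2 * ((H : ℝ) * K) * T ^ ν / Y⌉₊ : ℕ) : ℝ) * (max (H : ℝ) K / min (H : ℝ) K) ≤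
        (max (H : ℝ) K) ^ (1 / 14 - δ) := by
  have hg : 0 < 1 - 27 * θ / 14 := by linarith
  have hν0 : 0 < ν := by rw [hν]; positivity
  filter_upwards [ev_const 3 (9 * ν) (by positivity), eventually_gt_atTop (1 : ℝ)] with T hT hT1
    H K Y hH hK hHT hKT hY hHK
  have hT0 : 0 < T := by linarith
  have hH0 : (0 : ℝ) < H := by exact_mod_cast hH
  have hK0 : (0 : ℝ) < K := by exact_mod_cast hK
  have hY0 : 0 < Y := lt_of_lt_of_le (Real.rpow_pos_of_pos hT0 _) hY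
  set M := max (H : ℝ) K with hM
  set m := min (H : ℝ) K with hm
  have hMm : M * m = H * K := max_mul_min _ _
  have hM0 : 0 < M := lt_of_lt_of_le hH0 (le_max_left _ _)
  have hm0 : 0 < m := lt_min hH0 hK0
  have hMT : M ≤ T ^ θ := max_le hHT hKT
  have hM1 : 1 ≤ M := by
    have : (1 : ℝ) ≤ H := by exact_mod_cast hH
    exact this.trans (le_max_left _ _)
  rw [← hMm] at hHK ⊢
  -- the ceiling
  have e1 : ((⌈2 * (M * m) * T ^ ν / Y⌉₊ : ℕ) : ℝ) ≤ 3 * (M * m) * T ^ (3 * ν - 1) := by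
    have h1 : ((⌈2 * (M * m) * T ^ ν / Y⌉₊ : ℕ) : ℝ) ≤ 2 * (M * m) * T ^ ν / Y + 1 :=
      (Nat.ceil_lt_add_one (by positivity)).le
    have h2 : 2 * (M * m) * T ^ ν / Y ≤ 2 * (M * m) * T ^ (3 * ν - 1) := by
      calc 2 * (M * m) * T ^ ν / Y ≤ 2 * (M * m) * T ^ ν / T ^ (1 - ν) := by gcongr
        _ = 2 * (M * m) * T ^ (2 * ν - 1) := by
            rw [mul_div_assoc, ← Real.rpow_sub hT0]; congr 2; ring
        _ ≤ 2 * (M * m) * T ^ (3 * ν - 1) := by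
            have : T ^ (2 * ν - 1) ≤ T ^ (3 * ν - 1) :=
              Real.rpow_le_rpow_of_exponent_le hT1.le (by linarith)
            gcongr
    have h3 : 1 ≤ (M * m) * T ^ (3 * ν - 1) := by
      calc (1 : ℝ) = T ^ (1 - 3 * ν) * T ^ (3 * ν - 1) := by
            rw [← Real.rpow_add hT0]; simp
        _ ≤ (M * m) * T ^ (3 * ν - 1) := by gcongr
    nlinarith
  have e2 : 3 * M ^ (27 / 14 + δ) ≤ T ^ (1 - 3 * ν) := by
    have h1 : M ^ (27 / 14 + δ) ≤ T ^ (1 - 12 * ν) := by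
      have hd : 0 ≤ 27 / 14 + δ := by rw [hδ]; positivity
      calc M ^ (27 / 14 + δ) ≤ (T ^ θ) ^ (27 / 14 + δ) := Real.rpow_le_rpow hM0.le hMT hd
        _ = T ^ (θ * (27 / 14 + δ)) := by rw [← Real.rpow_mul hT0.le]
        _ ≤ T ^ (1 - 12 * ν) := by
            apply Real.rpow_le_rpow_of_exponent_le hT1.le
            rw [hν, hδ]
            nlinarith
    calc 3 * M ^ (27 / 14 + δ) ≤ T ^ (9 * ν) * T ^ (1 - 12 * ν) := by gcongr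
      _ = T ^ (1 - 3 * ν) := by rw [← Real.rpow_add hT0]; congr 1; ring
  have e3 : M ^ (1 / 14 - δ) * M ^ (27 / 14 + δ) = M ^ 2 := by
    rw [← Real.rpow_add hM0, ← Real.rpow_natCast]; congr 1; push_cast; ring
  have hMp : 0 < M ^ (27 / 14 + δ) := Real.rpow_pos_of_pos hM0 _
  calc ((⌈2 * (M * m) * T ^ ν / Y⌉₊ : ℕ) : ℝ) * (M / m)
      ≤ 3 * (M * m) * T ^ (3 * ν - 1) * (M / m) := by gcongr
    _ = 3 * M ^ 2 * T ^ (3 * ν - 1) := by field_simp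
    _ = M ^ (1 / 14 - δ) * ((3 * M ^ (27 / 14 + δ)) * T ^ (3 * ν - 1)) := by rw [← e3]; ring
    _ ≤ M ^ (1 / 14 - δ) * (T ^ (1 - 3 * ν) * T ^ (3 * ν - 1)) := by gcongr
    _ = M ^ (1 / 14 - δ) := by rw [← Real.rpow_add hT0]; simp

/-- size of the weights -/
theorem par2 (θ : ℝ) (hθ : 0 < θ) (hθ1 : θ < 14 / 27) (ν : ℝ) (hν0 : 0 < ν) (hν : ν ≤ 1 / 16)
    (c : ℝ) (hc : 0 < c) (C : ℝ) (A : ℕ) (hC : 0 < C) (Cd : ℝ) (hCd : 0 < Cd)
    (hd : ∀ n : ℕ, 1 ≤ n → (n.divisors.card : ℝ) ≤ Cd * (n : ℝ) ^ c) :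
    ∀ᶠ T : ℝ in atTop, ∀ k : ℕ, Rng T k → ∀ (H K : ℕ) (Y : ℝ), 1 ≤ H → 1 ≤ K →
      (H : ℝ) ≤ T ^ θ → (K : ℝ) ≤ T ^ θ → T ^ (1 - ν) ≤ Y → ∀ j : ℕ, 1 ≤ j →
      2 * (C * (k : ℝ) ^ A) * tau j * (((H : ℝ) * K / 2) / ((j : ℝ) * Y)) ^ c ≤ T ^ (2 * c) := by
  filter_upwards [ev_polylog (2 * C * Cd) A c hc (by positivity), eventually_gt_atTop (1 : ℝ)] with T
    hT hT1 k hk H K Y hH hK hHT hKT hY j hj
  have hT0 : 0 < T := by linarith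
  have hH0 : (0 : ℝ) < H := by exact_mod_cast hH
  have hK0 : (0 : ℝ) < K := by exact_mod_cast hK
  have hY0 : 0 < Y := lt_of_lt_of_le (Real.rpow_pos_of_pos hT0 _) hY
  have hj0 : (0 : ℝ) < j := by exact_mod_cast hj
  have h1 : tau j ≤ Cd * (j : ℝ) ^ c := hd j hj
  have h2 : (((H : ℝ) * K / 2) / ((j : ℝ) * Y)) ^ c ≤ (T / j) ^ c := by
    apply Real.rpow_le_rpow (by positivity) _ hc.le
    have h3 : (H : ℝ) * K ≤ T ^ (2 * θ) := by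
      calc (H : ℝ) * K ≤ T ^ θ * T ^ θ := by gcongr
        _ = T ^ (2 * θ) := by rw [← Real.rpow_add hT0]; congr 1; ring
    have h4 : T ^ (2 * θ) ≤ T * Y := by
      calc T ^ (2 * θ) ≤ T ^ (1 + (1 - ν)) :=
            Real.rpow_le_rpow_of_exponent_le hT1.le (by linarith)
        _ = T * T ^ (1 - ν) := by rw [Real.rpow_add hT0, Real.rpow_one]
        _ ≤ T * Y := by gcongr
    rw [div_le_div_iff₀ (by positivity) hj0]
    have h5 : (H : ℝ) * K / 2 ≤ T * Y := by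
      have : 0 < (H : ℝ) * K := by positivity
      linarith
    calc (H : ℝ) * K / 2 * j ≤ T * Y * j := by gcongr
      _ = T * (j * Y) := by ring
  have h6 := hT k hk.2
  have htn := tau_nonneg j
  calc 2 * (C * (k : ℝ) ^ A) * tau j * (((H : ℝ) * K / 2) / ((j : ℝ) * Y)) ^ c
      ≤ 2 * (C * (k : ℝ) ^ A) * (Cd * (j : ℝ) ^ c) * (T / j) ^ c := by gcongr
    _ = (2 * C * Cd * (k : ℝ) ^ A) * T ^ c := by
        rw [Real.div_rpow hT0.le hj0.le]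
        have : (j : ℝ) ^ c ≠ 0 := (Real.rpow_pos_of_pos hj0 _).ne'
        field_simp
    _ ≤ T ^ c * T ^ c := by gcongr
    _ = T ^ (2 * c) := by rw [← Real.rpow_add hT0]; congr 1; ring

end TTRIG

end Pool.Agent.H262R4.TM
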