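import Pool.Agent.H262R4.TM.TRIGc

set_option autoImplicit false

namespace Pool.Agent.H262R4.TM

open Finset Filter Topology MeasureTheory Complex
open Pool.Agent.H306R2.SM (om cl ef Xf Gf Yf ee)
open Pool.Agent.H442R2.KF (e kf tau Wei FF Ker2 PL)

namespace TTRIG

theorem blkbound (h1 : P_BLK) (h2 : P_KER) (θ : ℝ) (hθ : 0 < θ) (hθ1 : θ < 14 / 27) :
    ∃ η : ℝ, 0 < η ∧ ∀ᶠ T : ℝ in atTop, ∀ k : ℕ, Rng T k → ∀ H K : ℕ, T ^ (3 / 10 : ℝ) ≤ H →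
      T ^ (3 / 10 : ℝ) ≤ K → (H : ℝ) ≤ T ^ θ → (K : ℝ) ≤ T ^ θ → ∀ α β : ℕ → ℂ,
      (∀ m, ‖α m‖ ≤ 1) → (∀ m, ‖β m‖ ≤ 1) → ∀ (b : Bool) (σ : ℤ), (σ = 1 ∨ σ = -1) →
      ‖∑ l ∈ (Ioc H (2 * H)).filter (fun m => 4 * m ≤ 5 * H),
        ∑ h ∈ (Ioc K (2 * K)).filter (fun n => 4 * n ≤ 5 * K ∧ Nat.Coprime l n),
        α l * β h * ((1 / ((h : ℝ) * l) : ℝ) : ℂ) * Du k b σ h l (Yf k T)‖ ≤ T ^ (-η) := by
  obtain ⟨ν, hν⟩ : ∃ ν, ν = (1 - 27 * θ / 14) / 16 := ⟨_, rfl⟩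
  obtain ⟨δ, hδ⟩ : ∃ δ, δ = (1 - 27 * θ / 14) / 4 := ⟨_, rfl⟩
  have hg : 0 < 1 - 27 * θ / 14 := by linarith
  have hν0 : 0 < ν := by rw [hν]; positivity
  have hν1 : ν ≤ 1 / 16 := by rw [hν]; linarith
  have hδ0 : 0 < δ := by rw [hδ]; positivity
  obtain ⟨ηB, CB, hηB, hCB, hB⟩ := h1 δ hδ0
  obtain ⟨c, hc0, hc1, hc2⟩ : ∃ c : ℝ, 0 < c ∧ c ≤ 1 ∧ c ≤ ηB / 20 :=
    ⟨min (ηB / 20) 1, lt_min (by positivity) one_pos, min_le_right _ _, min_le_left _ _⟩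
  obtain ⟨C, A, k0, hC, hK⟩ := h2 c hc0
  obtain ⟨Cd, hCd, hd⟩ := Pool.Agent.H510R2.divisor_bound c hc0
  obtain ⟨Cz, hCz⟩ : ∃ Cz : ℝ, Cz = ∑' n : ℕ, 1 / ((n : ℝ) + 1) ^ 2 := ⟨_, rfl⟩
  have hCz0 : 0 ≤ Cz := by rw [hCz]; exact tsum_nonneg (fun n => by positivity)
  obtain ⟨η, hη0, hη1, hη2⟩ : ∃ η : ℝ, 0 < η ∧ η ≤ 1 ∧ η ≤ ηB / 10 :=
    ⟨min (ηB / 10) 1, lt_min (by positivity) one_pos, min_le_right _ _, min_le_left _ _⟩
  refine ⟨η, hη0, ?_⟩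
  filter_upwards [du_tail h2 ν hν0, ev_Y ν hν0, ev_k0 k0, par1 θ hθ hθ1 ν δ hν hδ,
    par2 θ hθ hθ1 ν hν0 hν1 c hc0 C A hC Cd hCd hd, eventually_gt_atTop (1 : ℝ), ev_const 2 ν hν0,
    ev_const (4 * CB) (ηB / 10) (by positivity), ev_const (2 * Cz) 1 one_pos] with T hdu hY hk0 hp1
    hp2 hT1 hT2 hT3 hT4 k hk H K hHT hKT hHθ hKθ α β hα hβ b σ hσ
  have hT0 : 0 < T := by linarith
  have hH0 : (0 : ℝ) < H := lt_of_lt_of_le (Real.rpow_pos_of_pos hT0 _) hHT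
  have hK0 : (0 : ℝ) < K := lt_of_lt_of_le (Real.rpow_pos_of_pos hT0 _) hKT
  have hH1 : 1 ≤ H := by exact_mod_cast hH0
  have hK1 : 1 ≤ K := by exact_mod_cast hK0
  obtain ⟨hY1, hY2⟩ := hY k hk
  have hY0 : 0 < Yf k T := lt_of_lt_of_le (Real.rpow_pos_of_pos hT0 _) hY1
  have hHK : (H : ℝ) * K ≤ T ^ (2 * θ) := by
    calc (H : ℝ) * K ≤ T ^ θ * T ^ θ := by gcongr
      _ = T ^ (2 * θ) := by rw [← Real.rpow_add hT0]; congr 1; ring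
  rw [Real.rpow_one] at hT4
  -- truncation
  have step : ∀ J : ℕ, 2 * ((H : ℝ) * K) * T ^ ν ≤ ((J : ℝ) + 1) * Yf k T →
      ‖∑ l ∈ (Ioc H (2 * H)).filter (fun m => 4 * m ≤ 5 * H),
        ∑ h ∈ (Ioc K (2 * K)).filter (fun n => 4 * n ≤ 5 * K ∧ Nat.Coprime l n),
        α l * β h * ((1 / ((h : ℝ) * l) : ℝ) : ℂ) * Du k b σ h l (Yf k T)‖ ≤
      ‖∑ l ∈ (Ioc H (2 * H)).filter (fun m => 4 * m ≤ 5 * H),
        ∑ h ∈ (Ioc K (2 * K)).filter (fun n => 4 * n ≤ 5 * K ∧ Nat.Coprime l n),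
        α l * β h * ((1 / ((h : ℝ) * l) : ℝ) : ℂ) * ∑ n ∈ Icc 1 J, (tau n : ℂ) * kf (σ * n) l h *
        Hk k b ((n : ℝ) * Yf k T / ((h : ℝ) * l))‖ + T ^ (-4 : ℝ) * Cz := by
    intro J hJ
    have e1 : ∑ l ∈ (Ioc H (2 * H)).filter (fun m => 4 * m ≤ 5 * H),
        ∑ h ∈ (Ioc K (2 * K)).filter (fun n => 4 * n ≤ 5 * K ∧ Nat.Coprime l n),
        α l * β h * ((1 / ((h : ℝ) * l) : ℝ) : ℂ) * Du k b σ h l (Yf k T) =
      ∑ l ∈ (Ioc H (2 * H)).filter (fun m => 4 * m ≤ 5 * H),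
        ∑ h ∈ (Ioc K (2 * K)).filter (fun n => 4 * n ≤ 5 * K ∧ Nat.Coprime l n),
        α l * β h * ((1 / ((h : ℝ) * l) : ℝ) : ℂ) * ∑ n ∈ Icc 1 J, (tau n : ℂ) * kf (σ * n) l h *
        Hk k b ((n : ℝ) * Yf k T / ((h : ℝ) * l)) +
      ∑ l ∈ (Ioc H (2 * H)).filter (fun m => 4 * m ≤ 5 * H),
        ∑ h ∈ (Ioc K (2 * K)).filter (fun n => 4 * n ≤ 5 * K ∧ Nat.Coprime l n),
        α l * β h * ((1 / ((h : ℝ) * l) : ℝ) : ℂ) * (Du k b σ h l (Yf k T) -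
          ∑ n ∈ Icc 1 J, (tau n : ℂ) * kf (σ * n) l h *
        Hk k b ((n : ℝ) * Yf k T / ((h : ℝ) * l))) := by
      rw [← Finset.sum_add_distrib]
      apply Finset.sum_congr rfl
      intro l _
      rw [← Finset.sum_add_distrib]
      apply Finset.sum_congr rfl
      intro h _
      ring
    rw [e1]
    refine (norm_add_le _ _).trans (add_le_add le_rfl ?_)
    refine pairs_le H K hH1 hK1 α β hα hβ _ (fun l h => Du k b σ h l (Yf k T) -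
          ∑ n ∈ Icc 1 J, (tau n : ℂ) * kf (σ * n) l h *
        Hk k b ((n : ℝ) * Yf k T / ((h : ℝ) * l))) ?_ (by positivity)
    intro l h hl1 hl2 hh1 hh2
    have l1 : (1 : ℝ) ≤ l := by
      have : 1 ≤ l := by omega
      exact_mod_cast this
    have h1' : (1 : ℝ) ≤ h := by
      have : 1 ≤ h := by omega
      exact_mod_cast this
    have l2 : 4 * (l : ℝ) ≤ 5 * H := by exact_mod_cast hl2
    have h2' : 4 * (h : ℝ) ≤ 5 * K := by exact_mod_cast hh2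
    have hhl : (h : ℝ) * l ≤ 2 * ((H : ℝ) * K) := by
      have e3 : (4 * (l : ℝ)) * (4 * h) ≤ (5 * H) * (5 * K) := by gcongr
      have : 0 < (H : ℝ) * K := by positivity
      nlinarith
    have hhl0 : 0 < (h : ℝ) * l := by positivity
    rw [hCz]
    refine hdu k hk b σ h l J (Yf k T) (by omega) (by omega) ?_ ?_
    · rw [le_div_iff₀ hhl0]
      have e5 : (h : ℝ) * l ≤ T ^ ν * T ^ (2 * θ) := by
        calc (h : ℝ) * l ≤ 2 * ((H : ℝ) * K) := hhl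
          _ ≤ T ^ ν * T ^ (2 * θ) := by gcongr
      calc T ^ (-3 : ℝ) * ((h : ℝ) * l) ≤ T ^ (-3 : ℝ) * (T ^ ν * T ^ (2 * θ)) :=
            mul_le_mul_of_nonneg_left e5 (by positivity)
        _ = T ^ (-3 + (ν + 2 * θ)) := by rw [← Real.rpow_add hT0, ← Real.rpow_add hT0]
        _ ≤ T ^ (1 - ν) := Real.rpow_le_rpow_of_exponent_le hT1.le (by linarith)
        _ ≤ Yf k T := hY1
    · rw [← mul_div_assoc, le_div_iff₀ hhl0]
      calc T ^ ν * ((h : ℝ) * l) ≤ T ^ ν * (2 * ((H : ℝ) * K)) := by gcongr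
        _ = 2 * ((H : ℝ) * K) * T ^ ν := by ring
        _ ≤ _ := hJ
  have tl : T ^ (-4 : ℝ) * Cz ≤ T ^ (-η) / 2 := by
    have e1 : T ^ (-4 : ℝ) * Cz ≤ T ^ (-4 : ℝ) * (T / 2) := by
      gcongr
      linarith
    have e2 : T ^ (-4 : ℝ) * (T / 2) = T ^ (-3 : ℝ) / 2 := by
      have : T ^ (-4 : ℝ) * T = T ^ (-3 : ℝ) := by
        nth_rewrite 2 [← Real.rpow_one T]
        rw [← Real.rpow_add hT0]; norm_num
      rw [← this]; ring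
    have e3 : T ^ (-3 : ℝ) ≤ T ^ (-η) := Real.rpow_le_rpow_of_exponent_le hT1.le (by linarith)
    linarith
  rcases le_or_gt ((H : ℝ) * K) (T ^ (1 - 3 * ν)) with hcase | hcase
  · have s0 := step 0 (by
      calc 2 * ((H : ℝ) * K) * T ^ ν ≤ T ^ ν * T ^ (1 - 3 * ν) * T ^ ν := by gcongr
        _ = T ^ (1 - ν) := by rw [← Real.rpow_add hT0, ← Real.rpow_add hT0]; congr 1; ring
        _ ≤ Yf k T := hY1
        _ = (((0 : ℕ) : ℝ) + 1) * Yf k T := by simp)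
    refine s0.trans ?_
    have : T ^ (-η) > 0 := Real.rpow_pos_of_pos hT0 _
    simp only [Finset.Icc_eq_empty (show ¬ (1 : ℕ) ≤ 0 by norm_num), Finset.sum_empty, mul_zero,
      Finset.sum_const_zero, norm_zero]
    linarith
  · obtain ⟨J, hJ⟩ : ∃ J : ℕ, J = ⌈2 * ((H : ℝ) * K) * T ^ ν / Yf k T⌉₊ := ⟨_, rfl⟩
    have hJ1 : 1 ≤ J := by
      rw [hJ]; exact Nat.ceil_pos.2 (by positivity)
    have hJ2 := hp1 H K (Yf k T) hH1 hK1 hHθ hKθ hY1 hcase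
    rw [← hJ] at hJ2
    have s0 := step J (by
      have e1 : 2 * ((H : ℝ) * K) * T ^ ν / Yf k T ≤ J := by rw [hJ]; exact Nat.le_ceil _
      rw [div_le_iff₀ hY0] at e1
      nlinarith)
    have hBpos : 0 < T ^ (2 * c) := Real.rpow_pos_of_pos hT0 _
    rw [tr_eq k b σ H K J (Yf k T) (T ^ (2 * c)) hH1 hK1 hBpos α β] at s0
    have hb := hB H K J hH1 hK1 hJ1 hJ2 1 le_rfl (fun (j : ℕ) (s : ℝ) => if j ∈ Icc 1 J then
        ((tau j * (((H : ℝ) * K / 2) / s) / T ^ (2 * c) : ℝ) : ℂ) *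
          Hk k b (((j : ℝ) * Yf k T) / s) else 0) (by
        intro j
        by_cases hj : j ∈ Icc 1 J
        · simp only [hj, if_true]
          have hj1 : 1 ≤ j := (Finset.mem_Icc.1 hj).1
          have hj0 : (0 : ℝ) < j := by exact_mod_cast hj1
          exact wx C A k b c hc0 hc1 (hK k (hk0 k hk) b) ((H : ℝ) * K / 2) ((j : ℝ) * Yf k T)
            (T ^ (2 * c)) (by positivity) (by positivity) hBpos (tau j) (tau_nonneg j)
            (hp2 k hk H K (Yf k T) hH1 hK1 hHθ hKθ hY1 j hj1) hC.le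
        · simp only [hj, if_false]
          exact ⟨fun s _ => by simp, fun s s' _ _ => by simp; positivity⟩) σ hσ α β hα hβ
    refine s0.trans ?_
    rw [norm_mul, Complex.norm_real, Real.norm_of_nonneg (by positivity)]
    have hM : T ^ (3 / 10 : ℝ) ≤ max (H : ℝ) K := hHT.trans (le_max_left _ _)
    have hM2 : (max (H : ℝ) K) ^ (-ηB) ≤ T ^ (-(3 * ηB / 10)) := by
      calc (max (H : ℝ) K) ^ (-ηB) ≤ (T ^ (3 / 10 : ℝ)) ^ (-ηB) :=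
            Real.rpow_le_rpow_of_nonpos (by positivity) hM (by linarith)
        _ = T ^ (-(3 * ηB / 10)) := by rw [← Real.rpow_mul hT0.le]; congr 1; ring
    have e1 : 2 * T ^ (2 * c) / (H * K) * (CB * 1 ^ 2 * ((H : ℝ) * K) *
        (max (H : ℝ) K) ^ (-ηB)) = 2 * T ^ (2 * c) * CB * (max (H : ℝ) K) ^ (-ηB) := by
      field_simp
    have e2 : 2 * T ^ (2 * c) * CB * (max (H : ℝ) K) ^ (-ηB) ≤ T ^ (-η) / 2 := by
      calc 2 * T ^ (2 * c) * CB * (max (H : ℝ) K) ^ (-ηB)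
          ≤ 2 * T ^ (ηB / 10) * CB * T ^ (-(3 * ηB / 10)) := by
            have : T ^ (2 * c) ≤ T ^ (ηB / 10) :=
              Real.rpow_le_rpow_of_exponent_le hT1.le (by linarith)
            gcongr
        _ = (4 * CB) * (T ^ (ηB / 10) * T ^ (-(3 * ηB / 10))) / 2 := by ring
        _ ≤ T ^ (ηB / 10) * (T ^ (ηB / 10) * T ^ (-(3 * ηB / 10))) / 2 := by gcongr
        _ = T ^ (-(ηB / 10)) / 2 := by
            rw [← Real.rpow_add hT0, ← Real.rpow_add hT0]; congr 2; ring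
        _ ≤ T ^ (-η) / 2 := by
            have := Real.rpow_le_rpow_of_exponent_le hT1.le (show -(ηB / 10) ≤ -η by linarith)
            linarith
    have e3 := mul_le_mul_of_nonneg_left hb
      (show 0 ≤ 2 * T ^ (2 * c) / ((H : ℝ) * K) by positivity)
    rw [e1] at e3
    linarith

end TTRIG

end Pool.Agent.H262R4.TM
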