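import Pool.Agent.H262R4.TM.Defs
import Pool.Agent.H306R2.Window

set_option autoImplicit false

/-! Assembly, part a: expansion of the square (integrability lemmas copied from helper306). -/

namespace Pool.Agent.H262R4.TM.TTSM

open Finset Filter Topology MeasureTheory Complex
open Pool.Agent.H306R2
open Pool.Agent.H306R2.SM (om cl ef Xf Gf Yf ee)

noncomputable section

lemma om_nonneg (k : ℕ) {δ t : ℝ} (hδ : 0 < δ) (ht : 0 ≤ t) : 0 ≤ om k δ t := by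
  unfold om; positivity

lemma om_cont (k : ℕ) (δ : ℝ) : Continuous (om k δ) := by
  unfold om; fun_prop

/-- integrability of `om * (1+t)^A` -/
lemma om_poly (k A : ℕ) {δ : ℝ} (hδ : 0 < δ) :
    IntegrableOn (fun t : ℝ => om k δ t * (1 + t) ^ A) (Set.Ioi 0) := by
  have h1 : ∀ j : ℕ, IntegrableOn (fun t : ℝ => t ^ (k + j) * Real.exp (-(δ * t))) (Set.Ioi 0) := by
    intro j
    have := Real.GammaIntegral_convergent (s := (k + j : ℕ) + 1) (by positivity)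
    have h2 := (integrableOn_Ioi_comp_mul_left_iff (fun x : ℝ => Real.exp (-x) * x ^ (((k + j : ℕ):ℝ) + 1 - 1)) 0 hδ).mpr
      (by simpa using this)
    have h3 : IntegrableOn (fun x => (δ ^ (k + j))⁻¹ *
        (Real.exp (-(δ * x)) * (δ * x) ^ (((k + j : ℕ) : ℝ) + 1 - 1))) (Set.Ioi 0) :=
      h2.const_mul ((δ ^ (k + j))⁻¹)
    refine h3.congr_fun (fun t ht => ?_) measurableSet_Ioi
    have ht0 : 0 < t := ht
    simp only [add_sub_cancel_right]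
    rw [Real.rpow_natCast, mul_pow]
    field_simp
  have h4 : (fun t : ℝ => om k δ t * (1 + t) ^ A) = fun t : ℝ =>
      ∑ j ∈ range (A + 1), (δ ^ (k + 1) / (k.factorial : ℝ) * (A.choose j : ℝ)) *
        (t ^ (k + j) * Real.exp (-(δ * t))) := by
    funext t
    rw [add_comm 1 t, add_pow, mul_sum]
    refine sum_congr rfl fun j _ => ?_
    unfold om
    rw [pow_add]
    ring
  rw [h4]
  exact integrable_finsetSum _ fun j _ => (h1 j).const_mul _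

/-- integrability against `om` for polynomially bounded continuous functions -/
lemma om_int (k : ℕ) {δ : ℝ} (hδ : 0 < δ) {f : ℝ → ℂ} (hf : Continuous f)
    (hb : ∃ C : ℝ, ∃ A : ℕ, ∀ t : ℝ, 0 ≤ t → ‖f t‖ ≤ C * (1 + t) ^ A) :
    IntegrableOn (fun t : ℝ => (om k δ t : ℂ) * f t) (Set.Ioi 0) := by
  obtain ⟨C, A, h⟩ := hb
  refine Integrable.mono' ((om_poly k A hδ).const_mul C) ?_ ?_
  · exact ((continuous_ofReal.comp (om_cont k δ)).mul hf).aestronglyMeasurable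
  · refine (ae_restrict_iff' measurableSet_Ioi).mpr (Eventually.of_forall fun t ht => ?_)
    have ht0 : (0:ℝ) ≤ t := le_of_lt ht
    rw [norm_mul, Complex.norm_real, Real.norm_of_nonneg (om_nonneg k hδ ht0)]
    calc om k δ t * ‖f t‖ ≤ om k δ t * (C * (1 + t) ^ A) :=
          mul_le_mul_of_nonneg_left (h t ht0) (om_nonneg k hδ ht0)
      _ = C * (om k δ t * (1 + t) ^ A) := by ring

lemma ef_norm (θ t : ℝ) : ‖ef θ t‖ = 1 := by
  unfold ef
  rw [Complex.norm_exp_ofReal_mul_I]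

lemma ef_cont (θ : ℝ) : Continuous (ef θ) := by
  unfold ef; fun_prop

lemma ef_conj (θ t : ℝ) : (starRingEnd ℂ) (ef θ t) = ef (-θ) t := by
  unfold ef
  rw [← Complex.exp_conj]
  congr 1
  simp

lemma ef_mul (θ φ t : ℝ) : ef θ t * ef φ t = ef (θ + φ) t := by
  unfold ef
  rw [← Complex.exp_add]
  congr 1
  push_cast; ring

/-- polynomial boundedness class -/
def PG (f : ℝ → ℂ) : Prop := Continuous f ∧ ∃ C : ℝ, ∃ A : ℕ, 0 ≤ C ∧ ∀ t : ℝ, 0 ≤ t → ‖f t‖ ≤ C * (1 + t) ^ A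

lemma PG.mul {f g : ℝ → ℂ} (hf : PG f) (hg : PG g) : PG (fun t => f t * g t) := by
  obtain ⟨hfc, C, A, hC, hA⟩ := hf
  obtain ⟨hgc, D, B, hD, hB⟩ := hg
  refine ⟨hfc.mul hgc, C * D, A + B, mul_nonneg hC hD, fun t ht => ?_⟩
  rw [norm_mul, pow_add]
  calc ‖f t‖ * ‖g t‖ ≤ (C * (1 + t) ^ A) * (D * (1 + t) ^ B) :=
        mul_le_mul (hA t ht) (hB t ht) (norm_nonneg _) (by positivity)
    _ = _ := by ring

lemma PG.ef (θ : ℝ) : PG (ef θ) :=
  ⟨ef_cont θ, 1, 0, zero_le_one, fun t _ => by simp [ef_norm]⟩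

lemma PG.conj {f : ℝ → ℂ} (hf : PG f) : PG (fun t => (starRingEnd ℂ) (f t)) := by
  obtain ⟨hfc, C, A, hC, hA⟩ := hf
  exact ⟨Complex.continuous_conj.comp hfc, C, A, hC, fun t ht => by
    rw [RCLike.norm_conj]; exact hA t ht⟩

lemma zeta_cl_bound (t : ℝ) (_ht : 0 ≤ t) : ‖riemannZeta (cl t)‖ ≤ 24 * (1 + t) ^ 2 := by
  have h := zeta_norm_le (s := cl t) (by simp [cl]) (by
    have h1 : |(cl t - 1).re| ≤ ‖cl t - 1‖ := Complex.abs_re_le_norm _
    have h2 : |(cl t - 1).re| = 1 / 2 := by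
      simp only [cl, Complex.sub_re, Complex.add_re, Complex.mul_re, Complex.ofReal_re,
        Complex.I_re, mul_zero, Complex.ofReal_im, Complex.I_im, mul_one, sub_self, add_zero,
        Complex.one_re]
      norm_num
    linarith)
  have h3 : ‖cl t‖ ≤ 1 / 2 + t := by
    unfold cl
    refine (norm_add_le _ _).trans ?_
    rw [norm_mul, Complex.norm_real, Complex.norm_I, mul_one, Real.norm_of_nonneg _ht]
    norm_num
  refine h.trans ?_
  have h4 : (‖cl t‖ + 1) ^ 2 ≤ (2 * (1 + t)) ^ 2 := by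
    apply pow_le_pow_left₀ (by positivity)
    linarith
  nlinarith

lemma PG.zeta : PG (fun t => riemannZeta (cl t)) :=
  ⟨zeta_line_continuous, 24, 2, by norm_num, fun t ht => zeta_cl_bound t ht⟩

lemma PG.int {f : ℝ → ℂ} (hf : PG f) (k : ℕ) {δ : ℝ} (hδ : 0 < δ) :
    IntegrableOn (fun t : ℝ => (om k δ t : ℂ) * f t) (Set.Ioi 0) := by
  obtain ⟨hfc, C, A, hC, hA⟩ := hf
  exact om_int k hδ hfc ⟨C, A, hA⟩

lemma norm_sq_c (w : ℂ) : ((‖w‖ ^ 2 : ℝ) : ℂ) = w * (starRingEnd ℂ) w := by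
  rw [Complex.mul_conj, Complex.normSq_eq_norm_sq]

/-- integrability of one term -/
lemma term_int (k : ℕ) {δ : ℝ} (hδ : 0 < δ) (θ : ℝ) :
    IntegrableOn (fun t : ℝ => ((om k δ t * ‖riemannZeta (cl t)‖ ^ 2 : ℝ) : ℂ) * ef θ t)
      (Set.Ioi 0) := by
  refine (((PG.zeta.mul PG.zeta.conj).mul (PG.ef θ)).int k hδ).congr
    (Eventually.of_forall fun t => ?_)
  simp only
  rw [Complex.ofReal_mul, norm_sq_c]
  ring

lemma npow (n : ℕ) (hn : 1 ≤ n) (t : ℝ) :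
    (n : ℂ) ^ (-(cl t)) = ((1 / Real.sqrt n : ℝ) : ℂ) * ef (-(Real.log n)) t := by
  have hn0 : (n : ℂ) ≠ 0 := by exact_mod_cast (by omega : n ≠ 0)
  have hnp : (0 : ℝ) < n := by exact_mod_cast hn
  rw [Complex.cpow_def_of_ne_zero hn0, ← Complex.natCast_log]
  have h1 : (1 / Real.sqrt n : ℝ) = Real.exp (-(Real.log n * (1 / 2))) := by
    rw [Real.exp_neg, Real.sqrt_eq_rpow, Real.rpow_def_of_pos hnp, one_div]
  rw [h1, Complex.ofReal_exp]
  unfold ef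
  rw [← Complex.exp_add]
  congr 1
  unfold cl
  push_cast
  ring

/-- expansion of the square -/
lemma sq_expand (N : ℕ) (a : ℕ → ℂ) (t : ℝ) :
    ((‖∑ n ∈ Ioc N (2 * N), a n * (n : ℂ) ^ (-(cl t))‖ ^ 2 : ℝ) : ℂ) =
      ∑ h ∈ Ioc N (2 * N), ∑ l ∈ Ioc N (2 * N), a h * (starRingEnd ℂ) (a l) *
        ((1 / Real.sqrt (h * l) : ℝ) : ℂ) * ef (Real.log ((l : ℝ) / h)) t := by
  rw [norm_sq_c, map_sum, sum_mul_sum]
  refine sum_congr rfl fun h hh => sum_congr rfl fun l hl => ?_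
  have hh1 : 1 ≤ h := by have := (mem_Ioc.mp hh).1; omega
  have hl1 : 1 ≤ l := by have := (mem_Ioc.mp hl).1; omega
  have hhp : (0 : ℝ) < h := by exact_mod_cast hh1
  have hlp : (0 : ℝ) < l := by exact_mod_cast hl1
  rw [npow h hh1, npow l hl1, map_mul, map_mul, Complex.conj_ofReal, ef_conj, neg_neg,
    Real.log_div hlp.ne' hhp.ne', Real.sqrt_mul hhp.le, sub_eq_add_neg, add_comm (Real.log (l : ℝ)),
    ← ef_mul]
  push_cast
  field_simp

/-- expansion of the integral -/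
lemma int_expand (k : ℕ) {δ : ℝ} (hδ : 0 < δ) (N : ℕ) (a : ℕ → ℂ) :
    ((∫ t in Set.Ioi (0 : ℝ), om k δ t * ‖riemannZeta (cl t)‖ ^ 2 *
        ‖∑ n ∈ Ioc N (2 * N), a n * (n : ℂ) ^ (-(cl t))‖ ^ 2 : ℝ) : ℂ) =
      ∑ h ∈ Ioc N (2 * N), ∑ l ∈ Ioc N (2 * N), a h * (starRingEnd ℂ) (a l) *
        ((1 / Real.sqrt (h * l) : ℝ) : ℂ) *
        ∫ t in Set.Ioi (0 : ℝ), ((om k δ t * ‖riemannZeta (cl t)‖ ^ 2 : ℝ) : ℂ) *
          ef (Real.log ((l : ℝ) / h)) t := by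
  refine Eq.trans (integral_ofReal (𝕜 := ℂ)).symm ?_
  simp only [← integral_const_mul]
  have hI : ∀ h l : ℕ, IntegrableOn (fun t : ℝ => a h * (starRingEnd ℂ) (a l) *
        ((1 / Real.sqrt (h * l) : ℝ) : ℂ) * (((om k δ t * ‖riemannZeta (cl t)‖ ^ 2 : ℝ) : ℂ) *
          ef (Real.log ((l : ℝ) / h)) t)) (Set.Ioi 0) := fun h l => (term_int k hδ _).const_mul _
  have e1 : ∀ h ∈ Ioc N (2 * N), (∑ l ∈ Ioc N (2 * N), ∫ t in Set.Ioi (0 : ℝ),
      a h * (starRingEnd ℂ) (a l) *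
        ((1 / Real.sqrt (h * l) : ℝ) : ℂ) * (((om k δ t * ‖riemannZeta (cl t)‖ ^ 2 : ℝ) : ℂ) *
          ef (Real.log ((l : ℝ) / h)) t)) = ∫ t in Set.Ioi (0 : ℝ), ∑ l ∈ Ioc N (2 * N),
      a h * (starRingEnd ℂ) (a l) *
        ((1 / Real.sqrt (h * l) : ℝ) : ℂ) * (((om k δ t * ‖riemannZeta (cl t)‖ ^ 2 : ℝ) : ℂ) *
          ef (Real.log ((l : ℝ) / h)) t) := by
    intro h _
    rw [integral_finsetSum _ fun l _ => hI h l]
  rw [sum_congr rfl e1, ← integral_finsetSum _ fun h _ => integrable_finsetSum _ fun l _ => hI h l]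
  refine integral_congr_ae (Eventually.of_forall fun t => ?_)
  simp only
  have := sq_expand N a t
  rw [show RCLike.ofReal (om k δ t * ‖riemannZeta (cl t)‖ ^ 2 *
        ‖∑ n ∈ Ioc N (2 * N), a n * (n : ℂ) ^ (-(cl t))‖ ^ 2) =
      (((om k δ t * ‖riemannZeta (cl t)‖ ^ 2) *
        ‖∑ n ∈ Ioc N (2 * N), a n * (n : ℂ) ^ (-(cl t))‖ ^ 2 : ℝ) : ℂ) from rfl,
    Complex.ofReal_mul, this, mul_sum]
  refine sum_congr rfl fun h _ => ?_
  rw [mul_sum]
  refine sum_congr rfl fun l _ => ?_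
  ring

end

end Pool.Agent.H262R4.TM.TTSM
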